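import Pool.Agent.T6.H59.MA.A1

namespace Pool.Agent.T6.H59.MA
open MeasureTheory Filter Topology
noncomputable section

namespace ModA

/-- descendants of `v`, including `v` -/
def T {n : ℕ} (M : Fin n → Fin n) (v : Fin n) : Set (Fin n) := {z | ∃ t, M^[t] z = v}

theorem self_mem {n : ℕ} (M : Fin n → Fin n) (v : Fin n) : v ∈ T M v := ⟨0, rfl⟩

theorem T_trans {n : ℕ} {M : Fin n → Fin n} {u v w : Fin n} (h1 : u ∈ T M v) (h2 : v ∈ T M w) :
    u ∈ T M w := by
  obtain ⟨s, hs⟩ := h1
  obtain ⟨t, ht⟩ := h2
  exact ⟨t + s, by rw [Function.iterate_add_apply, hs, ht]⟩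

theorem T_nested {n : ℕ} {M : Fin n → Fin n} {u v w : Fin n} (h1 : u ∈ T M v) (h2 : u ∈ T M w) :
    v ∈ T M w ∨ w ∈ T M v := by
  obtain ⟨s, hs⟩ := h1
  obtain ⟨t, ht⟩ := h2
  rcases le_total s t with h | h
  · left
    refine ⟨t - s, ?_⟩
    rw [← hs, ← Function.iterate_add_apply]
    rw [show t - s + s = t by omega]
    exact ht
  · right
    refine ⟨s - t, ?_⟩
    rw [← ht, ← Function.iterate_add_apply]
    rw [show s - t + t = s by omega]
    exact hs

theorem exists_cyc {n : ℕ} (f : Fin n → Fin n) (S : Set (Fin n)) (hS : ∀ z ∈ S, f z ∈ S)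
    (z : Fin n) (hz : z ∈ S) : ∃ x ∈ cyc f, x ∈ S := by
  classical
  have hit : ∀ k w, w ∈ S → f^[k] w ∈ S := by
    intro k
    induction k with
    | zero => intro w hw; exact hw
    | succ k ih => intro w hw; rw [Function.iterate_succ_apply]; exact ih _ (hS w hw)
  obtain ⟨i, j, hij, heq⟩ := Finite.exists_ne_map_eq_of_infinite (fun k : ℕ => f^[k] z)
  wlog hlt : i < j generalizing i j
  · exact this j i (Ne.symm hij) heq.symm (by omega)
  set w := f^[i] z with hw
  have hwp : f^[j - i] w = w := by
    rw [hw, ← Function.iterate_add_apply, show j - i + i = j by omega]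
    exact heq.symm
  have hwS : w ∈ S := hit i z hz
  -- minimal element of the orbit of w
  let O : Finset (Fin n) := Finset.univ.filter (fun x => ∃ k, f^[k] w = x)
  have hO : O.Nonempty := ⟨w, by simp only [O, Finset.mem_filter]; exact ⟨Finset.mem_univ _, 0, rfl⟩⟩
  have hm := Finset.min'_mem O hO
  set x := O.min' hO with hx
  obtain ⟨k0, hk0⟩ := (Finset.mem_filter.1 hm).2
  refine ⟨x, ?_, ?_⟩
  · unfold cyc
    rw [Finset.mem_filter]
    refine ⟨Finset.mem_univ _, ⟨j - i, by omega, ?_⟩, ?_⟩
    · rw [← hk0, ← Function.iterate_add_apply, add_comm, Function.iterate_add_apply, hwp]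
    · intro l
      apply Finset.min'_le
      rw [Finset.mem_filter]
      refine ⟨Finset.mem_univ _, l + k0, ?_⟩
      rw [Function.iterate_add_apply, hk0]
  · rw [← hk0]
    exact hit k0 w hwS

end ModA

open ModA1 ModA

theorem stmA_of (hA1 : StmA1) : StmA := by
  classical
  intro n c hn hgen d M hM Lm hLm
  have hA := hM.1
  have : Nonempty (Fin n) := ⟨d⟩
  have hnotd : ∀ v, v ≠ d → d ∉ T M v := by
    rintro v hv ⟨t, ht⟩
    rw [Function.iterate_fixed hA.1 t] at ht
    exact hv ht.symm
  have hdifd : ∀ v, v ∈ dif c d M → v ≠ d ∧ M v ≠ F0 c v := by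
    intro v hv
    simpa [dif] using hv
  have hmkdif : ∀ v, v ≠ d → M v ≠ F0 c v → v ∈ dif c d M := by
    intro v h1 h2
    simp [dif, h1, h2]
  -- step (i)
  have hi : ∀ v ∈ dif c d M, F0 c v ∈ T M v := by
    intro v hv
    obtain ⟨hvd, hvF⟩ := hdifd v hv
    by_contra hnot
    let M' := Function.update M v (F0 c v)
    have hM'v : M' v = F0 c v := Function.update_self _ _ _
    have hM'o : ∀ z, z ≠ v → M' z = M z := fun z hz => Function.update_of_ne hz _ _
    have hstep : ∀ z, (∃ t, M'^[t] (M' z) = d) → ∃ t, M'^[t] z = d := by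
      rintro z ⟨t, ht⟩
      exact ⟨t + 1, by rw [Function.iterate_succ_apply]; exact ht⟩
    have hout : ∀ t z, z ∉ T M v → M^[t] z = d → ∃ t, M'^[t] z = d := by
      intro t
      induction t with
      | zero => intro z _ h; exact ⟨0, h⟩
      | succ t ih =>
        intro z hz h
        apply hstep
        rw [hM'o z (fun h' => hz (h' ▸ self_mem M v))]
        rw [Function.iterate_succ_apply] at h
        refine ih _ (fun h' => hz ?_) h
        exact T_trans ⟨1, rfl⟩ h'
    have hin : ∀ t z, M^[t] z = v → ∃ t, M'^[t] z = d := by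
      intro t
      induction t with
      | zero =>
        intro z hz
        have hz' : z = v := hz
        apply hstep
        rw [hz', hM'v]
        obtain ⟨t', ht'⟩ := hA.2.2 (F0 c v)
        exact hout t' _ hnot ht'
      | succ t ih =>
        intro z hz
        by_cases hzv : z = v
        · apply hstep
          rw [hzv, hM'v]
          obtain ⟨t', ht'⟩ := hA.2.2 (F0 c v)
          exact hout t' _ hnot ht'
        · apply hstep
          rw [hM'o z hzv]
          apply ih
          rw [← Function.iterate_succ_apply]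
          exact hz
    have harb : IsArb d M' := by
      refine ⟨?_, ?_, ?_⟩
      · rw [hM'o d (Ne.symm hvd)]; exact hA.1
      · intro z hz
        by_cases hzv : z = v
        · rw [hzv, hM'v]; exact tgt_ne hn _ _
        · rw [hM'o z hzv]; exact hA.2.1 z hz
      · intro z
        by_cases hz : z ∈ T M v
        · obtain ⟨t, ht⟩ := hz
          exact hin t z ht
        · obtain ⟨t, ht⟩ := hA.2.2 z
          exact hout t z hz ht
    have hmin := hM.2 M' harb
    unfold wt at hmin
    have hv' : v ∈ Finset.univ.erase d := Finset.mem_erase.2 ⟨hvd, Finset.mem_univ _⟩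
    rw [← Finset.add_sum_erase _ _ hv', ← Finset.add_sum_erase _ (fun v => c v (M' v)) hv'] at hmin
    have hsum : ∑ x ∈ (Finset.univ.erase d).erase v, c x (M' x) =
        ∑ x ∈ (Finset.univ.erase d).erase v, c x (M x) := by
      apply Finset.sum_congr rfl
      intro x hx
      rw [hM'o x (Finset.ne_of_mem_erase hx)]
    rw [hsum] at hmin
    simp only [hM'v] at hmin
    have h1 : c v (F0 c v) ≤ c v (M v) := ((tgt_spec hn (c v) v).2 (M v) (hA.2.1 v hvd)).1
    have h2 : c v (F0 c v) = c v (M v) := le_antisymm h1 (by linarith)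
    exact hvF (hgen v h2).symm
  -- step (ii)
  have hii : ∀ v ∈ dif c d M, ∀ z ∈ T M v, F0 c z ∈ T M v := by
    intro v hv z hz
    have hvd := (hdifd v hv).1
    have hzd : z ≠ d := fun h => hnotd v hvd (h ▸ hz)
    by_cases hzA : z ∈ dif c d M
    · exact T_trans (hi z hzA) hz
    · have hF : F0 c z = M z := by
        by_contra h
        exact hzA (hmkdif z hzd (fun h' => h h'.symm))
      obtain ⟨t, ht⟩ := hz
      rcases t with _ | t
      · have : z = v := ht
        exact absurd (this ▸ hv) hzA
      · refine ⟨t, ?_⟩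
        rw [hF, ← Function.iterate_succ_apply]
        exact ht
  set K := (cyc (F0 c)).card with hK
  -- bound for one x
  have hx : ∀ x : Fin n, ∃ I : Finset ℕ, (∀ s, M^[s] x ∈ dif c d M → s ∈ I) ∧ I.card ≤ K * Lm := by
    intro x
    have hex := hA.2.2 x
    set ℓ := Nat.find hex with hℓ
    have hℓd : M^[ℓ] x = d := Nat.find_spec hex
    have hlt : ∀ s < ℓ, M^[s] x ≠ d := fun s hs => Nat.find_min hex hs
    have hge : ∀ s, ℓ ≤ s → M^[s] x = d := by
      intro s hs
      obtain ⟨k, rfl⟩ := Nat.exists_eq_add_of_le hs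
      rw [add_comm, Function.iterate_add_apply, hℓd]
      exact Function.iterate_fixed hA.1 k
    have hinj : ∀ i j, i < j → i < ℓ → M^[i] x ≠ M^[j] x := by
      intro i j hij hi' heq
      have h1 : M^[j - i] (M^[i] x) = M^[i] x := by
        rw [← Function.iterate_add_apply, show j - i + i = j by omega]
        exact heq.symm
      exact hlt i hi' (eq_root_of_periodic hA _ _ (by omega) h1)
    let I : Finset ℕ := (Finset.range ℓ).filter (fun s => M^[s] x ∈ dif c d M)
    have hI : ∀ s, s ∈ I ↔ s < ℓ ∧ M^[s] x ∈ dif c d M := by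
      intro s; simp [I]
    refine ⟨I, ?_, ?_⟩
    · intro s hs
      rw [hI]
      refine ⟨?_, hs⟩
      by_contra h
      push Not at h
      exact (hdifd _ hs).1 (hge s h)
    let NR : Finset ℕ := I.filter (fun s => ¬ ∃ s' < s, s' ∈ I ∧ F0 c (M^[s] x) ∈ T M (M^[s'] x))
    have hNR : ∀ s, s ∈ NR ↔ s ∈ I ∧ ¬ ∃ s' < s, s' ∈ I ∧ F0 c (M^[s] x) ∈ T M (M^[s'] x) := by
      intro s; simp only [NR, Finset.mem_filter]
    -- Z sets
    let Z : ℕ → Set (Fin n) := fun s => {z | z ∈ T M (M^[s] x) ∧ ∀ s' < s, s' ∈ I → z ∉ T M (M^[s'] x)}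
    have hZinv : ∀ s ∈ NR, ∀ z ∈ Z s, F0 c z ∈ Z s := by
      intro s hs z hz
      obtain ⟨hsI, hsn⟩ := (hNR s).1 hs
      obtain ⟨hsl, hsd⟩ := (hI s).1 hsI
      refine ⟨hii _ hsd z hz.1, ?_⟩
      intro s' hs' hs'I hmem
      have hzd : z ≠ d := fun h => hnotd _ (hdifd _ hsd).1 (h ▸ hz.1)
      by_cases hzA : z ∈ dif c d M
      · rcases T_nested (hi z hzA) hmem with h | h
        · exact hz.2 s' hs' hs'I h
        · obtain ⟨k, hk⟩ := h
          have hzk : M^[k + s'] x = z := by rw [Function.iterate_add_apply]; exact hk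
          have hkl : k + s' < ℓ := by
            by_contra hc
            push Not at hc
            exact hzd (by rw [← hzk]; exact hge _ hc)
          have hkI : k + s' ∈ I := (hI _).2 ⟨hkl, by rw [hzk]; exact hzA⟩
          obtain ⟨t, ht⟩ := hz.1
          have h3 : M^[t + (k + s')] x = M^[s] x := by
            rw [Function.iterate_add_apply, hzk]; exact ht
          have hle : k + s' ≤ s := by
            by_contra hc
            push Not at hc
            exact hinj s (t + (k + s')) (by omega) hsl h3.symm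
          rcases hle.lt_or_eq with hlt' | heq
          · exact hz.2 (k + s') hlt' hkI (by rw [hzk]; exact self_mem _ _)
          · apply hsn
            refine ⟨s', hs', hs'I, ?_⟩
            rw [← heq, hzk]
            exact hmem
      · have hF : F0 c z = M z := by
          by_contra h
          exact hzA (hmkdif z hzd (fun h' => h h'.symm))
        rw [hF] at hmem
        exact hz.2 s' hs' hs'I (T_trans ⟨1, rfl⟩ hmem)
    have hZne : ∀ s ∈ NR, M^[s] x ∈ Z s := by
      intro s hs
      obtain ⟨hsI, hsn⟩ := (hNR s).1 hs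
      obtain ⟨hsl, hsd⟩ := (hI s).1 hsI
      refine ⟨self_mem _ _, ?_⟩
      rintro s' hs' _ ⟨t, ht⟩
      rw [← Function.iterate_add_apply] at ht
      exact hinj s' (t + s) (by omega) (by omega) ht.symm
    have hcyc : ∀ s ∈ NR, ∃ q ∈ cyc (F0 c), q ∈ Z s := fun s hs =>
      exists_cyc (F0 c) (Z s) (hZinv s hs) _ (hZne s hs)
    have hNRcard : NR.card ≤ K := by
      choose! q hq1 hq2 using hcyc
      apply Finset.card_le_card_of_injOn q (fun s hs => hq1 s hs)
      intro s hs s' hs' heq
      have hs0 : s ∈ NR := hs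
      have hs0' : s' ∈ NR := hs'
      rcases lt_trichotomy s s' with h | h | h
      · exfalso
        have h1 := (hq2 s' hs0').2 s h ((hNR s).1 hs0).1
        apply h1
        rw [← heq]
        exact (hq2 s hs0).1
      · exact h
      · exfalso
        have h1 := (hq2 s hs0).2 s' h ((hNR s').1 hs0').1
        apply h1
        rw [heq]
        exact (hq2 s' hs0').1
    -- blocks
    have hblk : ∀ r ∈ NR, (I.filter (fun s => r ≤ s ∧ ∀ r' ∈ NR, r' ≤ s → r' ≤ r)).card ≤ Lm := by
      intro r hr
      set B := I.filter (fun s => r ≤ s ∧ ∀ r' ∈ NR, r' ≤ s → r' ≤ r) with hB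
      have hrI := ((hNR r).1 hr).1
      have hrB : r ∈ B := by
        rw [hB, Finset.mem_filter]
        exact ⟨hrI, le_rfl, fun r' _ h => h⟩
      have hBne : B.Nonempty := ⟨r, hrB⟩
      set q := B.max' hBne with hq
      have hqB : q ∈ B := Finset.max'_mem _ _
      rw [hB, Finset.mem_filter] at hqB
      obtain ⟨hqI, hrq, hqmax⟩ := hqB
      obtain ⟨hql, hqd⟩ := (hI q).1 hqI
      obtain ⟨hrl, hrd⟩ := (hI r).1 hrI
      have hit : ∀ s, M^[s] (M^[r] x) = M^[r + s] x := by
        intro s; rw [← Function.iterate_add_apply, add_comm]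
      have hgeo := hA1 n c hn hgen d M hM (M^[r] x) (q - r + 1) (by omega)
        (by intro s hs; rw [hit]; exact hlt _ (by omega)) hrd
        (by rw [hit, show r + (q - r + 1 - 1) = q by omega]; exact hqd)
        (by
          intro s hs0 hs hsd
          rw [hit] at hsd
          have hsI : r + s ∈ I := (hI _).2 ⟨by omega, hsd⟩
          have hnNR : r + s ∉ NR := by
            intro h
            have := hqmax (r + s) h (by omega)
            omega
          have hreg : ∃ s' < r + s, s' ∈ I ∧ F0 c (M^[r + s] x) ∈ T M (M^[s'] x) := by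
            by_contra h
            exact hnNR ((hNR _).2 ⟨hsI, h⟩)
          obtain ⟨s', hs', hs'I, hmem⟩ := hreg
          by_cases hr' : s' < r
          · refine ⟨0, hs0, hrd, ?_⟩
            have h1 : M^[s'] x ∈ T M (M^[r] x) := by
              refine ⟨r - s', ?_⟩
              rw [← Function.iterate_add_apply, show r - s' + s' = r by omega]
            obtain ⟨t, ht⟩ := T_trans hmem h1
            refine ⟨t, ?_⟩
            rw [hit]
            exact ht
          · push Not at hr'
            refine ⟨s' - r, by omega, ?_, ?_⟩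
            · rw [hit, show r + (s' - r) = s' by omega]
              exact ((hI s').1 hs'I).2
            · obtain ⟨t, ht⟩ := hmem
              refine ⟨t, ?_⟩
              rw [hit, hit, show r + (s' - r) = s' by omega]
              exact ht)
      have h1 := hLm _ _ hgeo
      refine le_trans ?_ h1
      apply Finset.card_le_card_of_injOn (fun s => s - r)
      · intro s hs
        have hs' : s ∈ B := hs
        rw [hB, Finset.mem_filter] at hs'
        obtain ⟨hsI, hrs, _⟩ := hs'
        have hsq : s ≤ q := Finset.le_max' _ _ hs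
        have hsd := ((hI s).1 hsI).2
        simp only [exs, Finset.coe_filter, Finset.mem_range, Set.mem_ofPred_eq]
        refine ⟨by omega, ?_⟩
        rw [hit, hit, show r + (s - r) = s by omega, show r + (s - r + 1) = s + 1 by omega,
          Function.iterate_succ_apply']
        exact (hdifd _ hsd).2
      · intro s hs s' hs' heq
        have h2 : s ∈ B := hs
        have h3 : s' ∈ B := hs'
        rw [hB, Finset.mem_filter] at h2 h3
        simp only at heq
        omega
    -- cover I by blocks
    have hcov : I ⊆ NR.biUnion (fun r => I.filter (fun s => r ≤ s ∧ ∀ r' ∈ NR, r' ≤ s → r' ≤ r)) := by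
      intro s hs
      -- the largest element of NR not exceeding s
      have hne : (NR.filter (fun r => r ≤ s)).Nonempty := by
        have hIne : I.Nonempty := ⟨s, hs⟩
        refine ⟨I.min' hIne, ?_⟩
        rw [Finset.mem_filter]
        refine ⟨(hNR _).2 ⟨Finset.min'_mem _ _, ?_⟩, Finset.min'_le _ _ hs⟩
        rintro ⟨s', hs', hs'I, _⟩
        exact absurd (Finset.min'_le _ _ hs'I) (not_le.2 hs')
      have hm := Finset.max'_mem _ hne
      set r := (NR.filter (fun r => r ≤ s)).max' hne with hr
      rw [Finset.mem_filter] at hm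
      rw [Finset.mem_biUnion]
      refine ⟨r, hm.1, ?_⟩
      rw [Finset.mem_filter]
      refine ⟨hs, hm.2, fun r' hr' hr's => ?_⟩
      exact Finset.le_max' _ _ (Finset.mem_filter.2 ⟨hr', hr's⟩)
    calc I.card ≤ _ := Finset.card_le_card hcov
      _ ≤ ∑ r ∈ NR, (I.filter (fun s => r ≤ s ∧ ∀ r' ∈ NR, r' ≤ s → r' ≤ r)).card :=
          Finset.card_biUnion_le
      _ ≤ ∑ r ∈ NR, Lm := Finset.sum_le_sum hblk
      _ = NR.card * Lm := by rw [Finset.sum_const, smul_eq_mul]
      _ ≤ K * Lm := Nat.mul_le_mul_right _ hNRcard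
  choose I hI1 hI2 using hx
  -- cover dif
  have hcov : dif c d M ⊆ (cyc (F0 c)).biUnion (fun x => (I x).image (fun s => M^[s] x)) := by
    intro v hv
    obtain ⟨x, hx1, t, ht⟩ := exists_cyc (F0 c) (T M v) (hii v hv) v (self_mem _ _)
    rw [Finset.mem_biUnion]
    refine ⟨x, hx1, ?_⟩
    rw [Finset.mem_image]
    exact ⟨t, hI1 x t (by rw [ht]; exact hv), ht⟩
  calc (dif c d M).card ≤ _ := Finset.card_le_card hcov
    _ ≤ ∑ x ∈ cyc (F0 c), ((I x).image (fun s => M^[s] x)).card := Finset.card_biUnion_le
    _ ≤ ∑ x ∈ cyc (F0 c), K * Lm := Finset.sum_le_sum (fun x _ => Finset.card_image_le.trans (hI2 x))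
    _ = K * (K * Lm) := by rw [Finset.sum_const, smul_eq_mul]
    _ ≤ K * (K + 1) * (Lm + 1) := by
        have : K * (K * Lm) ≤ K * ((K + 1) * (Lm + 1)) :=
          Nat.mul_le_mul_left _ (Nat.mul_le_mul (Nat.le_succ K) (Nat.le_succ Lm))
        rw [mul_assoc]
        exact this

theorem stmA : StmA := stmA_of stmA1

end
end Pool.Agent.T6.H59.MA
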