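import Pool.Agent.T6.H59.MA.Stm

namespace Pool.Agent.T6.H59.MA
open MeasureTheory Filter Topology
noncomputable section

namespace ModA1

theorem exists_isTgt {n : ℕ} (hn : 2 ≤ n) (r : Row n) (v : Fin n) : ∃ w, IsTgt r v w := by
  classical
  have hne : (Finset.univ.erase v).Nonempty := by
    rw [← Finset.card_pos, Finset.card_erase_of_mem (Finset.mem_univ v), Finset.card_univ,
      Fintype.card_fin]
    omega
  obtain ⟨w0, hw0, hmin⟩ := Finset.exists_min_image (Finset.univ.erase v) r hne
  let S := (Finset.univ.erase v).filter (fun w => r w ≤ r w0)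
  have hS : S.Nonempty := ⟨w0, Finset.mem_filter.2 ⟨hw0, le_rfl⟩⟩
  refine ⟨S.min' hS, ?_⟩
  have hm := Finset.min'_mem S hS
  rw [Finset.mem_filter, Finset.mem_erase] at hm
  refine ⟨hm.1.1, fun w' hw' => ?_⟩
  have h1 := hmin w' (Finset.mem_erase.2 ⟨hw', Finset.mem_univ _⟩)
  refine ⟨hm.2.trans h1, fun hlt => ?_⟩
  refine lt_of_le_of_ne (hm.2.trans h1) (fun heq => ?_)
  have : w' ∈ S := Finset.mem_filter.2
    ⟨Finset.mem_erase.2 ⟨hw', Finset.mem_univ _⟩, by rw [← heq]; exact hm.2⟩
  exact absurd (Finset.min'_le S w' this) (not_le.2 hlt)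

theorem tgt_spec {n : ℕ} (hn : 2 ≤ n) (r : Row n) (v : Fin n) : IsTgt r v (tgt r v) := by
  have h := exists_isTgt hn r v
  unfold tgt
  rw [dif_pos h]
  exact h.choose_spec

theorem tgt_ne {n : ℕ} (hn : 2 ≤ n) (r : Row n) (v : Fin n) : tgt r v ≠ v := (tgt_spec hn r v).1

theorem rc_nonneg {n : ℕ} (hn : 2 ≤ n) (r : Row n) (v w : Fin n) (hw : w ≠ v) : 0 ≤ rc r v w := by
  have := ((tgt_spec hn r v).2 w hw).1
  unfold rc
  linarith

theorem rc_tgt {n : ℕ} (r : Row n) (v : Fin n) : rc r v (tgt r v) = 0 := by
  unfold rc; ring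

/-- periodic points of an arborescence are the root -/
theorem eq_root_of_periodic {n : ℕ} {d : Fin n} {M : Fin n → Fin n} (hM : IsArb d M) (x : Fin n)
    (p : ℕ) (hp : 0 < p) (h : M^[p] x = x) : x = d := by
  obtain ⟨t, ht⟩ := hM.2.2 x
  have hd : ∀ k, M^[k] d = d := fun k => Function.iterate_fixed hM.1 k
  have h2 : M^[p * t] x = x := by
    rw [Function.iterate_mul]
    exact Function.iterate_fixed h t
  have h3 : t ≤ p * t := Nat.le_mul_of_pos_left t hp
  obtain ⟨k, hk⟩ := Nat.exists_eq_add_of_le h3
  rw [hk, add_comm, Function.iterate_add_apply, ht, hd] at h2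
  exact h2.symm

end ModA1

open ModA1

theorem stmA1 : StmA1 := by
  classical
  intro n c hn hgen d M hM a L hL hd ha hb hreg
  have hA := hM.1
  set y : ℕ → Fin n := fun s => M^[s] a with hy
  have hyS : ∀ s, y (s + 1) = M (y s) := fun s => Function.iterate_succ_apply' M s a
  have hinj : ∀ i j, i < j → j ≤ L → y i ≠ y j := by
    intro i j hij hj heq
    obtain ⟨k, rfl⟩ := Nat.exists_eq_add_of_lt hij
    have h1 : M^[k + 1] (y i) = y i := by
      conv_rhs => rw [heq]
      simp only [hy]
      rw [← Function.iterate_add_apply]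
      congr 1
      omega
    have := eq_root_of_periodic hA (y i) (k + 1) (Nat.succ_pos k) h1
    exact hd i (by omega) this
  have hinjOn : Set.InjOn y (Set.Iic L) := by
    intro i hi j hj hij
    rcases lt_trichotomy i j with h | h | h
    · exact absurd hij (hinj i j h hj)
    · exact h
    · exact absurd hij.symm (hinj j i h hi)
  refine ⟨?_, hinjOn, ?_⟩
  · intro s hs
    rw [hyS]
    exact hA.2.1 _ (hd s hs)
  intro y' L' hp' h0 hL'
  set b : Fin n := y (L - 1) with hbdef
  have hbd : b ≠ d := hd (L - 1) (by omega)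
  set T : Set (Fin n) := {z | ∃ t, M^[t] z = b} with hT
  have haT : a ∈ T := ⟨L - 1, rfl⟩
  have hdT : d ∉ T := by
    rintro ⟨t, ht⟩
    rw [Function.iterate_fixed hA.1 t] at ht
    exact hbd ht.symm
  have hMbT : y L ∉ T := by
    rintro ⟨t, ht⟩
    have h1 : y L = M b := by
      have : L = (L - 1) + 1 := by omega
      conv_lhs => rw [this]
      exact hyS _
    rw [h1, ← Function.iterate_succ_apply] at ht
    exact hbd (eq_root_of_periodic hA b (t + 1) (Nat.succ_pos t) ht)
  have hMT : ∀ z, M z ∈ T → z ∈ T := by
    rintro z ⟨t, ht⟩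
    exact ⟨t + 1, by rw [Function.iterate_succ_apply]; exact ht⟩
  have hex : ∃ s, y' s ∉ T := ⟨L', by rw [hL']; exact hMbT⟩
  set Q := Nat.find hex with hQ
  have hQout : y' Q ∉ T := Nat.find_spec hex
  have hQin : ∀ s < Q, y' s ∈ T := fun s hs => by
    have := Nat.find_min hex hs
    exact not_not.1 this
  have hQL' : Q ≤ L' := Nat.find_min' hex (by rw [hL']; exact hMbT)
  have hQpos : 0 < Q := by
    rcases Nat.eq_zero_or_pos Q with h | h
    · exfalso
      rw [h, h0] at hQout
      exact hQout haT
    · exact h
  let S : Fin n → Finset ℕ := fun q => (Finset.range Q).filter (fun s => y' s = q)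
  let lst : Fin n → ℕ := fun q => if h : (S q).Nonempty then (S q).max' h else 0
  have hlst : ∀ q, (S q).Nonempty → lst q < Q ∧ y' (lst q) = q ∧ ∀ s < Q, y' s = q → s ≤ lst q := by
    intro q hq
    have h1 : lst q = (S q).max' hq := by simp only [lst]; rw [dif_pos hq]
    have h2 := Finset.max'_mem (S q) hq
    rw [← h1] at h2
    have h3 : lst q < Q ∧ y' (lst q) = q := by
      simpa [S] using h2
    refine ⟨h3.1, h3.2, fun s hs hsq => ?_⟩
    rw [h1]
    exact Finset.le_max' _ _ (by simp [S, hs, hsq])
  let M' : Fin n → Fin n := fun q => if (S q).Nonempty then y' (lst q + 1) else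
    if q ∈ dif c d M ∧ ∃ s < L, y s = q then F0 c q else M q
  have hM'1 : ∀ q, (S q).Nonempty → M' q = y' (lst q + 1) := fun q h => by
    simp only [M']; rw [if_pos h]
  have hM'2 : ∀ q, ¬ (S q).Nonempty → (q ∈ dif c d M ∧ ∃ s < L, y s = q) → M' q = F0 c q :=
    fun q h h' => by simp only [M']; rw [if_neg h, if_pos h']
  have hM'3 : ∀ q, ¬ (S q).Nonempty → ¬ (q ∈ dif c d M ∧ ∃ s < L, y s = q) → M' q = M q :=
    fun q h h' => by simp only [M']; rw [if_neg h, if_neg h']
  have hST : ∀ q, (S q).Nonempty → q ∈ T := by
    intro q hq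
    obtain ⟨h1, h2, _⟩ := hlst q hq
    rw [← h2]; exact hQin _ h1
  have hyT : ∀ s < L, y s ∈ T := by
    intro s hs
    refine ⟨L - 1 - s, ?_⟩
    simp only [hy, hbdef]
    rw [← Function.iterate_add_apply]
    congr 1
    omega
  have hSa : (S a).Nonempty := ⟨0, by simp [S, hQpos, h0, hy]⟩
  -- M' is an arborescence
  have hP1 : ∀ t v, v ∉ T → M^[t] v = d → ∃ t, M'^[t] v = d := by
    intro t
    induction t with
    | zero => intro v _ h; exact ⟨0, h⟩
    | succ t ih =>
      intro v hv h
      have h1 : M' v = M v := by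
        apply hM'3
        · intro h'; exact hv (hST v h')
        · rintro ⟨_, s, hs, rfl⟩; exact hv (hyT s hs)
      have h2 : M v ∉ T := fun h' => hv (hMT v h')
      rw [Function.iterate_succ_apply] at h
      obtain ⟨t', ht'⟩ := ih (M v) h2 h
      exact ⟨t' + 1, by rw [Function.iterate_succ_apply, h1]; exact ht'⟩
  have hPout : ∀ v, v ∉ T → ∃ t, M'^[t] v = d := fun v hv => by
    obtain ⟨t, ht⟩ := hA.2.2 v
    exact hP1 t v hv ht
  have hstep : ∀ v, (∃ t, M'^[t] (M' v) = d) → ∃ t, M'^[t] v = d := by
    rintro v ⟨t, ht⟩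
    exact ⟨t + 1, by rw [Function.iterate_succ_apply]; exact ht⟩
  have hPQ : ∀ k v, (S v).Nonempty → Q - lst v ≤ k → ∃ t, M'^[t] v = d := by
    intro k
    induction k with
    | zero =>
      intro v hv h
      have := (hlst v hv).1
      omega
    | succ k ih =>
      intro v hv h
      obtain ⟨h1, h2, h3⟩ := hlst v hv
      apply hstep
      rw [hM'1 v hv]
      by_cases hlt : lst v + 1 < Q
      · have hne : (S (y' (lst v + 1))).Nonempty := ⟨lst v + 1, by simp [S, hlt]⟩
        apply ih _ hne
        have := (hlst _ hne).2.2 (lst v + 1) hlt rfl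
        omega
      · have : lst v + 1 = Q := by omega
        rw [this]
        exact hPout _ hQout
  have hPin : ∀ s, s < L → y s ∈ dif c d M → ∀ t v, M^[t] v = y s → ∃ t, M'^[t] v = d := by
    intro s
    induction s using Nat.strong_induction_on with
    | _ s ihs =>
      intro hs hsd t
      induction t with
      | zero =>
        intro v hv
        have hv' : v = y s := hv
        by_cases hSv : (S v).Nonempty
        · exact hPQ _ v hSv le_rfl
        have hspos : 0 < s := by
          rcases Nat.eq_zero_or_pos s with h | h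
          · exfalso
            apply hSv
            rw [hv', h]
            exact hSa
          · exact h
        obtain ⟨s', hs', hs'd, t', ht'⟩ := hreg s hspos hs hsd
        apply hstep
        rw [hM'2 v hSv ⟨hv' ▸ hsd, s, hs, hv'.symm⟩, hv']
        exact ihs s' hs' (by omega) hs'd t' _ ht'
      | succ t iht =>
        intro v hv
        by_cases hSv : (S v).Nonempty
        · exact hPQ _ v hSv le_rfl
        by_cases hj : v ∈ dif c d M ∧ ∃ s < L, y s = v
        · obtain ⟨hvd, s1, hs1, hs1v⟩ := hj
          -- s1 ≤ s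
          have hle : s1 ≤ s := by
            by_contra hlt
            push Not at hlt
            -- y s is periodic
            have h1 : M^[t + 1] (y s1) = y s := by rw [hs1v]; exact hv
            have h2 : y s1 = M^[s1 - s] (y s) := by
              simp only [hy]
              rw [← Function.iterate_add_apply]
              congr 1
              omega
            rw [h2, ← Function.iterate_add_apply] at h1
            exact hd s hs (eq_root_of_periodic hA (y s) _ (by omega) h1)
          have hs1pos : 0 < s1 := by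
            rcases Nat.eq_zero_or_pos s1 with h | h
            · exfalso
              apply hSv
              rw [← hs1v, h]
              exact hSa
            · exact h
          obtain ⟨s', hs', hs'd, t', ht'⟩ := hreg s1 hs1pos hs1 (by
            have : M^[s1] a = v := hs1v
            rw [this]; exact hvd)
          apply hstep
          rw [hM'2 v hSv ⟨hvd, s1, hs1, hs1v⟩]
          have ht'' : M^[t'] (F0 c v) = y s' := by
            have : M^[s1] a = v := hs1v
            rw [this] at ht'
            exact ht'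
          exact ihs s' (by omega) (by omega) hs'd t' _ ht''
        · apply hstep
          rw [hM'3 v hSv hj]
          apply iht
          rw [← Function.iterate_succ_apply]
          exact hv
  have hM'arb : IsArb d M' := by
    refine ⟨?_, ?_, ?_⟩
    · rw [hM'3 d]
      · exact hA.1
      · intro h; exact hdT (hST d h)
      · rintro ⟨_, s, hs, h⟩; exact hd s hs h
    · intro v hv
      by_cases hSv : (S v).Nonempty
      · rw [hM'1 v hSv]
        obtain ⟨h1, h2, _⟩ := hlst v hSv
        conv_rhs => rw [← h2]
        exact hp' _ (by omega)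
      · by_cases hj : v ∈ dif c d M ∧ ∃ s < L, y s = v
        · rw [hM'2 v hSv hj]
          exact tgt_ne hn _ _
        · rw [hM'3 v hSv hj]
          exact hA.2.1 v hv
    · intro v
      by_cases hv : v ∈ T
      · obtain ⟨t, ht⟩ := hv
        exact hPin (L - 1) (by omega) hb t v ht
      · exact hPout v hv
  have hmin := hM.2 M' hM'arb
  -- weights in terms of reduced costs
  have hwt : ∀ N : Fin n → Fin n, wt c d N = ∑ v ∈ Finset.univ.erase d, rc (c v) v (N v)
      + ∑ v ∈ Finset.univ.erase d, c v (tgt (c v) v) := by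
    intro N
    unfold wt
    rw [← Finset.sum_add_distrib]
    apply Finset.sum_congr rfl
    intro v _
    unfold rc
    ring
  rw [hwt M, hwt M'] at hmin
  have hmin' : ∑ v ∈ Finset.univ.erase d, rc (c v) v (M v) ≤
      ∑ v ∈ Finset.univ.erase d, rc (c v) v (M' v) := by linarith
  let Y : Finset (Fin n) := (Finset.univ.erase d).filter (fun v => v ∈ dif c d M ∧ ∃ s < L, y s = v)
  -- pcost of y
  have hpy : pcost c y L = ∑ v ∈ Y, rc (c v) v (M v) := by
    have h1 : pcost c y L = ∑ v ∈ (Finset.range L).image y, rc (c v) v (M v) := by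
      unfold pcost
      rw [Finset.sum_image]
      · apply Finset.sum_congr rfl
        intro s _
        rw [hyS]
      · intro i hi j hj hij
        have hi' : i < L := by simpa using hi
        have hj' : j < L := by simpa using hj
        exact hinjOn (show i ≤ L by omega) (show j ≤ L by omega) hij
    rw [h1]
    symm
    apply Finset.sum_subset
    · intro v hv
      obtain ⟨_, _, s, hs, rfl⟩ := Finset.mem_filter.1 hv
      exact Finset.mem_image.2 ⟨s, Finset.mem_range.2 hs, rfl⟩
    · intro v hv hvY
      obtain ⟨s, hs, rfl⟩ := Finset.mem_image.1 hv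
      have hs' : s < L := Finset.mem_range.1 hs
      have hvd : y s ≠ d := hd s hs'
      have hnd : y s ∉ dif c d M := by
        intro h
        apply hvY
        exact Finset.mem_filter.2 ⟨Finset.mem_erase.2 ⟨hvd, Finset.mem_univ _⟩, h, s, hs', rfl⟩
      have : M (y s) = F0 c (y s) := by
        by_contra h
        exact hnd (by simp [dif, hvd, h])
      rw [this]
      exact rc_tgt _ _
  -- upper bound for M'
  have hup : ∑ v ∈ Finset.univ.erase d, rc (c v) v (M' v) ≤
      pcost c y' L' + ∑ v ∈ (Finset.univ.erase d) \ Y, rc (c v) v (M v) := by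
    have hYsub : Y ⊆ Finset.univ.erase d := Finset.filter_subset _ _
    let Z : Finset (Fin n) := (Finset.univ.erase d).filter (fun v => (S v).Nonempty)
    have h1 : ∀ v ∈ Finset.univ.erase d, rc (c v) v (M' v) ≤
        (if (S v).Nonempty then rc (c v) v (M' v) else 0) +
        (if v ∈ Y then 0 else rc (c v) v (M v)) := by
      intro v hv
      have hvd : v ≠ d := Finset.ne_of_mem_erase hv
      by_cases hSv : (S v).Nonempty
      · rw [if_pos hSv]
        have : 0 ≤ (if v ∈ Y then 0 else rc (c v) v (M v)) := by
          split_ifs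
          · exact le_rfl
          · exact rc_nonneg hn _ _ _ (hA.2.1 v hvd)
        linarith
      · rw [if_neg hSv, zero_add]
        by_cases hj : v ∈ dif c d M ∧ ∃ s < L, y s = v
        · rw [hM'2 v hSv hj, if_pos (Finset.mem_filter.2 ⟨hv, hj⟩)]
          exact (rc_tgt _ _).le
        · rw [hM'3 v hSv hj, if_neg]
          intro h
          exact hj (Finset.mem_filter.1 h).2
    have h2 := Finset.sum_le_sum h1
    rw [Finset.sum_add_distrib] at h2
    have h3 : ∑ v ∈ Finset.univ.erase d, (if v ∈ Y then (0 : ℝ) else rc (c v) v (M v)) =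
        ∑ v ∈ (Finset.univ.erase d) \ Y, rc (c v) v (M v) := by
      rw [← Finset.sum_sdiff hYsub]
      have h4 : ∑ v ∈ Y, (if v ∈ Y then (0 : ℝ) else rc (c v) v (M v)) = 0 := by
        apply Finset.sum_eq_zero
        intro v hv
        rw [if_pos hv]
      rw [h4, add_zero]
      apply Finset.sum_congr rfl
      intro v hv
      rw [if_neg (Finset.mem_sdiff.1 hv).2]
    have h5 : ∑ v ∈ Finset.univ.erase d, (if (S v).Nonempty then rc (c v) v (M' v) else 0)
        ≤ pcost c y' L' := by
      rw [← Finset.sum_filter]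
      have h6 : ∑ v ∈ (Finset.univ.erase d).filter (fun v => (S v).Nonempty), rc (c v) v (M' v) =
          ∑ s ∈ ((Finset.univ.erase d).filter (fun v => (S v).Nonempty)).image lst,
            rc (c (y' s)) (y' s) (y' (s + 1)) := by
        rw [Finset.sum_image]
        · apply Finset.sum_congr rfl
          intro v hv
          have hSv := (Finset.mem_filter.1 hv).2
          rw [hM'1 v hSv, (hlst v hSv).2.1]
        · intro v hv w hw hvw
          have hSv := (Finset.mem_filter.1 hv).2
          have hSw := (Finset.mem_filter.1 hw).2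
          rw [← (hlst v hSv).2.1, ← (hlst w hSw).2.1, hvw]
      rw [h6]
      unfold pcost
      apply Finset.sum_le_sum_of_subset_of_nonneg
      · intro s hs
        obtain ⟨v, hv, rfl⟩ := Finset.mem_image.1 hs
        have hSv := (Finset.mem_filter.1 hv).2
        have := (hlst v hSv).1
        exact Finset.mem_range.2 (by omega)
      · intro s hs _
        exact rc_nonneg hn _ _ _ (hp' s (Finset.mem_range.1 hs))
    linarith
  have hsplit : ∑ v ∈ Finset.univ.erase d, rc (c v) v (M v) =
      ∑ v ∈ (Finset.univ.erase d) \ Y, rc (c v) v (M v) + ∑ v ∈ Y, rc (c v) v (M v) :=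
    (Finset.sum_sdiff (Finset.filter_subset _ _)).symm
  rw [hpy]
  linarith

end
end Pool.Agent.T6.H59.MA
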