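import Pool.Agent.T6.H59.MA.B0

/-!
# The number of exits on a geodesic (helper94, module B)
-/

set_option autoImplicit false

namespace Pool.Agent.T6.H59.MA
open MeasureTheory Filter Topology
noncomputable section

namespace BB

variable {n : ℕ} {c : Wt n}

theorem chain_mono {h : ℝ} {J k : ℕ} {U : Finset (Fin n)} {b : Fin n} (hc : Chain c h J k U b) :
    ∀ U', U ⊆ U' → Chain c h J k U' b := by
  induction hc with
  | zero U b hb => exact fun U' hU => Chain.zero U' b (hU hb)
  | free k U b hb _ ih =>
    exact fun U' hU => Chain.free k U' b (hU hb) (ih _ (Finset.erase_subset_erase b hU))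
  | exit k U b w hb hJ hw _ ih =>
    exact fun U' hU => Chain.exit k U' b w (hU hb) hJ hw (ih _ (Finset.erase_subset_erase b hU))

open Classical in
/-- number of exits among the steps `s, ..., b - 1` -/
def nex (c : Wt n) (y : ℕ → Fin n) (s b : ℕ) : ℕ :=
  ∑ j ∈ Finset.Ico s b, if y (j + 1) ≠ tgt (c (y j)) (y j) then 1 else 0

open Classical in
/-- number of high vertices among `y s, ..., y (b - 1)` -/
def nhi (c : Wt n) (h : ℝ) (J : ℕ) (y : ℕ → Fin n) (s b : ℕ) : ℕ :=
  ∑ j ∈ Finset.Ico s b, if J < (ex (c (y j)) (y j) h).card then 1 else 0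

theorem stretch (y : ℕ → Fin n) (h : ℝ) (J k0 b a : ℕ) (U₀ : Finset (Fin n)) (hk0 : 1 ≤ k0)
    (hno : ∀ v, ¬ Chain c h J k0 U₀ v) (hinj : Set.InjOn y (Set.Icc a b))
    (hex : ∀ s, a ≤ s → s < b → y (s + 1) ≠ tgt (c (y s)) (y s) → y (s + 1) ∈ ex (c (y s)) (y s) h) :
    ∀ (d s : ℕ), s + d = b → a ≤ s → ∀ U : Finset (Fin n), U ⊆ U₀ → (∀ j, s ≤ j → j ≤ b → y j ∈ U) →
      ∃ k, k < k0 ∧ Chain c h J k U (y s) ∧ nex c y s b ≤ k + nhi c h J y s b * k0 := by
  classical
  intro d
  induction d with
  | zero =>
    intro s hs has U hU hy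
    have : s = b := by omega
    subst this
    refine ⟨0, by omega, Chain.zero U _ (hy s le_rfl le_rfl), ?_⟩
    simp [nex]
  | succ d ih =>
    intro s hs has U hU hy
    have hsb : s < b := by omega
    have hyU : y s ∈ U := hy s le_rfl hsb.le
    obtain ⟨k, hk, hch, hle⟩ := ih (s + 1) (by omega) (by omega) (U.erase (y s))
      ((Finset.erase_subset _ _).trans hU) (fun j h1 h2 => by
        refine Finset.mem_erase.2 ⟨fun he => ?_, hy j (by omega) h2⟩
        have := hinj ⟨by omega, h2⟩ ⟨has, hsb.le⟩ he
        omega)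
    have e1 : nex c y s b = (if y (s + 1) ≠ tgt (c (y s)) (y s) then 1 else 0) +
        nex c y (s + 1) b := Finset.sum_eq_sum_Ico_succ_bot hsb _
    have e2 : nhi c h J y s b = (if J < (ex (c (y s)) (y s) h).card then 1 else 0) +
        nhi c h J y (s + 1) b := Finset.sum_eq_sum_Ico_succ_bot hsb _
    rw [e1, e2]
    by_cases hE : y (s + 1) ≠ tgt (c (y s)) (y s)
    · rw [if_pos hE]
      by_cases hH : J < (ex (c (y s)) (y s) h).card
      · rw [if_pos hH]
        refine ⟨0, by omega, Chain.zero U _ hyU, ?_⟩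
        have : (1 + nhi c h J y (s + 1) b) * k0 = k0 + nhi c h J y (s + 1) b * k0 := by ring
        rw [this]
        omega
      · rw [if_neg hH, zero_add]
        have hch' : Chain c h J (k + 1) U (y s) :=
          Chain.exit k U (y s) (y (s + 1)) hyU (not_lt.1 hH) (hex s has hsb hE) hch
        refine ⟨k + 1, ?_, hch', by omega⟩
        rcases Nat.lt_or_ge (k + 1) k0 with h1 | h1
        · exact h1
        · have : k + 1 = k0 := by omega
          rw [this] at hch'
          exact absurd (chain_mono hch' U₀ hU) (hno _)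
    · rw [if_neg hE, zero_add]
      have hE' : y (s + 1) = tgt (c (y s)) (y s) := not_not.1 hE
      refine ⟨k, hk, Chain.free k U (y s) hyU (by rw [← hE']; exact hch), ?_⟩
      refine hle.trans ?_
      have : nhi c h J y (s + 1) b * k0 ≤
          ((if J < (ex (c (y s)) (y s) h).card then 1 else 0) + nhi c h J y (s + 1) b) * k0 :=
        Nat.mul_le_mul_right _ (Nat.le_add_left _ _)
      omega

/-- the costs of the beginnings of a walk are nondecreasing -/
theorem pcost_mono (hn : 2 ≤ n) {y : ℕ → Fin n} {L : ℕ} (hp : IsPath y L) {s s' : ℕ} (h : s ≤ s')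
    (h' : s' ≤ L) : pcost c y s ≤ pcost c y s' := by
  induction s', h using Nat.le_induction with
  | base => exact le_rfl
  | succ k _ ih =>
    have h1 := ih (by omega)
    have h2 := B0.rc_nonneg hn (c (y k)) (hp k (by omega))
    unfold pcost at h1 ⊢
    rw [Finset.sum_range_succ]
    linarith

theorem pcost_succ (y : ℕ → Fin n) (s : ℕ) :
    pcost c y (s + 1) = pcost c y s + rc (c (y s)) (y s) (y (s + 1)) := by
  unfold pcost
  rw [Finset.sum_range_succ]

/-- distances along a geodesic -/
theorem geo_dist {y : ℕ → Fin n} {L : ℕ} (hg : Geo c y L) {ρ : Fin n → ℝ}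
    (h0 : ρ (y 0) = 0) (htri : ∀ v w, v ≠ w → ρ w ≤ ρ v + rc (c v) v w)
    (hpath : ∀ w, ∃ (z : ℕ → Fin n) (K : ℕ), IsPath z K ∧ z 0 = y 0 ∧ z K = w ∧ pcost c z K = ρ w) :
    ∀ s, s ≤ L → ρ (y s) = pcost c y s := by
  intro s hs
  apply le_antisymm
  · induction s with
    | zero => rw [h0]; simp [pcost]
    | succ s ih =>
      rw [pcost_succ]
      have := htri (y s) (y (s + 1)) (Ne.symm (hg.1 s hs))
      have := ih (by omega)
      linarith
  · obtain ⟨z, K, p1, p2, p3, p4⟩ := hpath (y s)
    let y' : ℕ → Fin n := fun j => if j ≤ K then z j else y (s + (j - K))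
    have hy'1 : ∀ j, j ≤ K → y' j = z j := fun j hj => if_pos hj
    have hy'2 : ∀ j, y' (K + j) = y (s + j) := by
      intro j
      rcases Nat.eq_zero_or_pos j with h | h
      · subst h
        rw [add_zero, add_zero, hy'1 K le_rfl, p3]
      · have h1 : ¬ K + j ≤ K := by omega
        change (if K + j ≤ K then z (K + j) else y (s + (K + j - K))) = _
        rw [if_neg h1]
        congr 1
        omega
    have hq1 : IsPath y' (K + (L - s)) := by
      intro j hj
      rcases Nat.lt_or_ge j K with h | h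
      · rw [hy'1 j h.le, hy'1 (j + 1) h]
        exact p1 j h
      · obtain ⟨i, rfl⟩ := Nat.exists_eq_add_of_le h
        rw [add_assoc, hy'2, hy'2]
        have := hg.1 (s + i) (by omega)
        rwa [add_assoc] at this
    have hmin := hg.2.2 y' (K + (L - s)) hq1 (by rw [hy'1 0 (Nat.zero_le _), p2])
      (by rw [hy'2]; congr 1; omega)
    have e1 : pcost c y' (K + (L - s)) = pcost c z K +
        ∑ j ∈ Finset.range (L - s), rc (c (y (s + j))) (y (s + j)) (y (s + j + 1)) := by
      unfold pcost
      rw [Finset.sum_range_add]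
      congr 1
      · refine Finset.sum_congr rfl fun j hj => ?_
        have hj' := Finset.mem_range.1 hj
        rw [hy'1 j hj'.le, hy'1 (j + 1) hj']
      · refine Finset.sum_congr rfl fun j _ => ?_
        rw [add_assoc K j 1, hy'2, hy'2, ← add_assoc s j 1]
    have e2 : pcost c y L = pcost c y s +
        ∑ j ∈ Finset.range (L - s), rc (c (y (s + j))) (y (s + j)) (y (s + j + 1)) := by
      have : L = s + (L - s) := by omega
      conv_lhs => rw [this]
      unfold pcost
      rw [Finset.sum_range_add]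
    rw [e1, e2, p4] at hmin
    linarith

end BB

open BB in
theorem stmB (hB0 : StmB0) : StmB := by
  classical
  intro n c hn hG y L hg W m h J k0 H hk0 hm1 hm2 hh hcov hchain hH
  obtain ⟨ρ, t, r0, t0, htri, hpath, tmono, Emono, hE⟩ := hB0 n c hn hG (y 0)
  have hρ := geo_dist hg r0 htri hpath
  set E : ℕ → Finset (Fin n) := fun i => expl (y 0) (ord c (y 0) (m i)) with hEdef
  have hmle : ∀ i j, i ≤ j → j ≤ W → m i ≤ m j := by
    intro i j hij
    induction j, hij using Nat.le_induction with
    | base => exact fun _ => le_rfl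
    | succ k _ ih => exact fun hk => (ih (by omega)).trans (hm2 k (by omega)).le
  have hEm : ∀ i j, i ≤ j → j ≤ W → E i ⊆ E j := fun i j hij hj => Emono _ _ (hmle i j hij hj)
  have hEc : ∀ i ≤ W, (E i).card = m i + 1 := fun i hi => (hE (m i) (hm1 i hi)).1
  have hEle : ∀ i ≤ W, ∀ v ∈ E i, ρ v ≤ t (m i) := fun i hi => (hE (m i) (hm1 i hi)).2.1
  have hEge : ∀ i ≤ W, ∀ v, v ∉ E i → t (m i) ≤ ρ v := fun i hi => (hE (m i) (hm1 i hi)).2.2
  -- (1)
  have hstep : ∀ i < W, t (m (i + 1)) - t (m i) ≤ h i := by
    intro i hi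
    by_contra hcon
    push Not at hcon
    have hsub : Cov c (y 0) (m i) (h i) J ⊆ E (i + 1) := by
      unfold Cov
      apply Finset.union_subset
      · exact hEm i (i + 1) (Nat.le_succ i) hi
      · intro w hw
        rw [Finset.mem_biUnion] at hw
        obtain ⟨v, hv, hw⟩ := hw
        unfold nb at hw
        rw [Finset.mem_filter] at hw
        obtain ⟨-, hwv, hrc, -⟩ := hw
        by_contra hnot
        have h1 := hEge (i + 1) hi w hnot
        have h2 := htri v w (Ne.symm hwv)
        have h3 := hEle i hi.le v hv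
        linarith
    have h1 := Finset.card_le_card hsub
    rw [hEc (i + 1) hi] at h1
    have h2 := hcov i hi
    omega
  -- (2)
  let e : ℕ → ℕ := fun i => Nat.findGreatest (fun s => y s ∈ E i) L
  have hy0 : ∀ i, y 0 ∈ E i := fun i => by simp [hEdef, expl]
  have he1 : ∀ i, y (e i) ∈ E i := fun i =>
    Nat.findGreatest_spec (P := fun s => y s ∈ E i) (Nat.zero_le L) (hy0 i)
  have he2 : ∀ i, e i ≤ L := fun i => Nat.findGreatest_le L
  have he3 : ∀ i s, e i < s → s ≤ L → y s ∉ E i := fun i s h1 h2 =>
    Nat.findGreatest_is_greatest (P := fun s => y s ∈ E i) h1 h2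
  have he4 : ∀ i < W, e i ≤ e (i + 1) := fun i hi =>
    Nat.le_findGreatest (he2 i) (hEm i (i + 1) (Nat.le_succ i) hi (he1 i))
  have hrc : ∀ s, s < L → y (s + 1) ≠ tgt (c (y s)) (y s) →
      0 < rc (c (y s)) (y s) (y (s + 1)) := by
    intro s hs hne
    refine lt_of_le_of_ne (B0.rc_nonneg hn _ (hg.1 s hs)) fun h0 => hne ?_
    apply hG (y s)
    unfold rc at h0
    linarith
  have hcover : exs c y L ⊆ (((exs c y L).filter fun s => s < e 0) ∪
      ((exs c y L).filter fun s => e W < s)) ∪ (((Finset.range (W + 1)).image e) ∪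
      (Finset.range W).biUnion fun i => (exs c y L).filter fun s => e i < s ∧ s < e (i + 1)) := by
    intro s hs
    simp only [Finset.mem_union, Finset.mem_filter, Finset.mem_image, Finset.mem_range,
      Finset.mem_biUnion]
    by_cases c1 : s < e 0
    · exact Or.inl (Or.inl ⟨hs, c1⟩)
    by_cases c2 : e W < s
    · exact Or.inl (Or.inr ⟨hs, c2⟩)
    right
    have hex : ∃ j, j ≤ W ∧ s ≤ e j := ⟨W, le_rfl, not_lt.1 c2⟩
    obtain ⟨hj1, hj2⟩ := Nat.find_spec hex
    have hj3 := fun k (hk : k < Nat.find hex) => Nat.find_min hex hk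
    set j := Nat.find hex
    rcases eq_or_lt_of_le hj2 with h1 | h1
    · exact Or.inl ⟨j, by omega, h1.symm⟩
    · right
      have hj0 : j ≠ 0 := by
        intro h0
        rw [h0] at h1
        exact c1 h1
      refine ⟨j - 1, by omega, hs, ?_, ?_⟩
      · have := hj3 (j - 1) (by omega)
        by_contra hcon
        exact this ⟨by omega, not_lt.1 hcon⟩
      · have : j - 1 + 1 = j := by omega
        rw [this]
        exact h1
  have hinj : ∀ S : Finset ℕ, (∀ s ∈ S, s ≤ L) → (S.image y).card = S.card := by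
    intro S hS
    apply Finset.card_image_of_injOn
    intro a ha b hb hab
    exact hg.2.1 (hS a ha) (hS b hb) hab
  have hexs : ∀ s ∈ exs c y L, s < L ∧ y (s + 1) ≠ tgt (c (y s)) (y s) := by
    intro s hs
    unfold exs at hs
    rw [Finset.mem_filter, Finset.mem_range] at hs
    exact hs
  have hA : ((exs c y L).filter fun s => s < e 0).card ≤ m 0 + 1 := by
    rw [← hinj _ (fun s hs => (hexs s (Finset.mem_filter.1 hs).1).1.le), ← hEc 0 (Nat.zero_le W)]
    apply Finset.card_le_card
    intro v hv
    rw [Finset.mem_image] at hv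
    obtain ⟨s, hs, rfl⟩ := hv
    rw [Finset.mem_filter] at hs
    obtain ⟨hsL, hse⟩ := hexs s hs.1
    by_contra hnot
    have h1 := hEge 0 (Nat.zero_le W) _ hnot
    have h2 := hEle 0 (Nat.zero_le W) _ (he1 0)
    have h3 := hrc s hsL hse
    have h4 := pcost_mono (c := c) hn hg.1 (s := s + 1) (s' := e 0) hs.2 (he2 0)
    rw [hρ s hsL.le] at h1
    rw [hρ (e 0) (he2 0)] at h2
    rw [pcost_succ] at h4
    linarith
  have hB : ((exs c y L).filter fun s => e W < s).card ≤ n - 1 - m W := by
    rw [← hinj _ (fun s hs => (hexs s (Finset.mem_filter.1 hs).1).1.le)]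
    have h1 : ((exs c y L).filter fun s => e W < s).image y ⊆ Finset.univ \ E W := by
      intro v hv
      rw [Finset.mem_image] at hv
      obtain ⟨s, hs, rfl⟩ := hv
      rw [Finset.mem_filter] at hs
      rw [Finset.mem_sdiff]
      exact ⟨Finset.mem_univ _, he3 W s hs.2 (hexs s hs.1).1.le⟩
    refine (Finset.card_le_card h1).trans ?_
    rw [Finset.card_sdiff_of_subset (Finset.subset_univ _), Finset.card_univ, Fintype.card_fin,
      hEc W le_rfl]
    omega
  have hC : ((Finset.range (W + 1)).image e).card ≤ W + 1 :=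
    Finset.card_image_le.trans (by rw [Finset.card_range])
  have hD : ∀ i ∈ Finset.range W,
      ((exs c y L).filter fun s => e i < s ∧ s < e (i + 1)).card ≤ (H + 1) * k0 := by
    intro i hi
    rw [Finset.mem_range] at hi
    rcases Nat.lt_or_ge (e i) (e (i + 1)) with hlt | hge
    swap
    · have : ((exs c y L).filter fun s => e i < s ∧ s < e (i + 1)) = ∅ := by
        apply Finset.filter_eq_empty_iff.2
        intro s _ h1
        omega
      rw [this, Finset.card_empty]
      exact Nat.zero_le _
    set a := e i + 1 with ha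
    set b := e (i + 1) with hb
    have hbL : b ≤ L := he2 (i + 1)
    have hab : a ≤ b := hlt
    have hcost : ∀ s, a ≤ s → s < b → rc (c (y s)) (y s) (y (s + 1)) ≤ h i := by
      intro s h1 h2
      have q1 := hEge i hi.le (y a) (he3 i a (Nat.lt_succ_self _) (hab.trans hbL))
      have q2 := hEle (i + 1) hi (y b) (he1 (i + 1))
      rw [hρ a (hab.trans hbL)] at q1
      rw [hρ b hbL] at q2
      have q3 := pcost_mono (c := c) hn hg.1 h1 (by omega : s ≤ L)
      have q4 := pcost_mono (c := c) hn hg.1 (s := s + 1) (s' := b) h2 hbL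
      have q5 := hstep i hi
      rw [pcost_succ] at q4
      linarith
    have hexm : ∀ s, a ≤ s → s < b → y (s + 1) ≠ tgt (c (y s)) (y s) →
        y (s + 1) ∈ ex (c (y s)) (y s) (h i) := by
      intro s h1 h2 h3
      unfold ex
      rw [Finset.mem_filter]
      exact ⟨Finset.mem_univ _, hg.1 s (by omega), h3, hcost s h1 h2⟩
    obtain ⟨k, hk, -, hle⟩ := stretch y (h i) J k0 b a (Finset.univ \ E i) hk0
      (fun v => hchain i hi v)
      (fun p hp q hq hpq => hg.2.1 (show p ≤ L from hp.2.trans hbL) (show q ≤ L from hq.2.trans hbL)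
        hpq) hexm (b - a) a (by omega) le_rfl (Finset.univ \ E i) le_rfl (fun j h1 h2 => by
        rw [Finset.mem_sdiff]
        exact ⟨Finset.mem_univ _, he3 i j (by omega) (h2.trans hbL)⟩)
    have hhi : nhi c (h i) J y a b ≤ H := by
      refine le_trans ?_ (hH i hi)
      have h1 : nhi c (h i) J y a b =
          ((Finset.Ico a b).filter fun j => J < (ex (c (y j)) (y j) (h i)).card).card := by
        rw [Finset.card_filter]
        rfl
      rw [h1, ← hinj _ (fun s hs => by
        have := Finset.mem_Ico.1 (Finset.mem_filter.1 hs).1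
        omega)]
      apply Finset.card_le_card
      intro v hv
      rw [Finset.mem_image] at hv
      obtain ⟨s, hs, rfl⟩ := hv
      rw [Finset.mem_filter] at hs ⊢
      exact ⟨Finset.mem_univ _, hs.2⟩
    have hfin : ((exs c y L).filter fun s => e i < s ∧ s < b).card ≤ nex c y a b := by
      have h1 : nex c y a b =
          ((Finset.Ico a b).filter fun j => y (j + 1) ≠ tgt (c (y j)) (y j)).card := by
        rw [Finset.card_filter]
        rfl
      rw [h1]
      apply Finset.card_le_card
      intro s hs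
      rw [Finset.mem_filter] at hs ⊢
      exact ⟨Finset.mem_Ico.2 ⟨hs.2.1, hs.2.2⟩, (hexs s hs.1).2⟩
    calc ((exs c y L).filter fun s => e i < s ∧ s < b).card ≤ nex c y a b := hfin
      _ ≤ k + nhi c (h i) J y a b * k0 := hle
      _ ≤ k0 + H * k0 := add_le_add hk.le (Nat.mul_le_mul_right _ hhi)
      _ = (H + 1) * k0 := by ring
  calc (exs c y L).card ≤ _ := Finset.card_le_card hcover
    _ ≤ _ := Finset.card_union_le _ _
    _ ≤ ((m 0 + 1) + (n - 1 - m W)) + ((W + 1) + W * ((H + 1) * k0)) := by
        refine add_le_add ((Finset.card_union_le _ _).trans (add_le_add hA hB))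
          ((Finset.card_union_le _ _).trans (add_le_add hC ?_))
        refine Finset.card_biUnion_le.trans ?_
        refine (Finset.sum_le_sum hD).trans ?_
        rw [Finset.sum_const, Finset.card_range, smul_eq_mul]
    _ = (m 0 + 1) + (n - 1 - m W) + (W + 1) + W * ((H + 1) * k0) := by ring

end
end Pool.Agent.T6.H59.MA
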