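import Pool.Agent.T6.H59.MA.Stm

/-!
# Dijkstra's algorithm (helper94, module B0)
-/

set_option autoImplicit false

namespace Pool.Agent.T6.H59.MA
open MeasureTheory Filter Topology
noncomputable section

namespace B0

/-- a minimum with tie-breaking by the index -/
theorem exists_min {n : ℕ} (f : Fin n → ℝ) (P : Fin n → Prop) (hP : ∃ w, P w) :
    ∃ w, P w ∧ ∀ w', P w' → f w ≤ f w' ∧ (w' < w → f w < f w') := by
  classical
  obtain ⟨w₀, hw₀⟩ := hP
  obtain ⟨a, ha, hmin⟩ := Finset.exists_min_image (Finset.univ.filter P) f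
    ⟨w₀, by simp [hw₀]⟩
  rw [Finset.mem_filter] at ha
  obtain ⟨b, hb, hbmin⟩ := Finset.exists_min_image
    (Finset.univ.filter fun w => P w ∧ f w = f a) id ⟨a, by simp [ha.2]⟩
  rw [Finset.mem_filter] at hb
  refine ⟨b, hb.2.1, fun w' hw' => ?_⟩
  have h1 : f a ≤ f w' := hmin w' (by simp [hw'])
  rw [hb.2.2]
  refine ⟨h1, fun hlt => lt_of_le_of_ne h1 fun heq => ?_⟩
  have := hbmin w' (by simp [hw', heq])
  exact absurd hlt (not_lt.2 this)

theorem tgt_spec {n : ℕ} (hn : 2 ≤ n) (r : Row n) (v : Fin n) : IsTgt r v (tgt r v) := by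
  have h : ∃ w, IsTgt r v w := by
    have hne : ∃ w : Fin n, w ≠ v := by
      have : Nontrivial (Fin n) := Fin.nontrivial_iff_two_le.2 hn
      exact exists_ne v
    obtain ⟨w, hw, hw'⟩ := exists_min r (fun w => w ≠ v) hne
    exact ⟨w, hw, hw'⟩
  unfold tgt
  rw [dif_pos h]
  exact h.choose_spec

theorem rc_nonneg {n : ℕ} (hn : 2 ≤ n) (r : Row n) {v w : Fin n} (h : w ≠ v) : 0 ≤ rc r v w := by
  have := ((tgt_spec hn r v).2 w h).1
  unfold rc
  linarith

theorem nxt_spec {n : ℕ} (c : Wt n) (u : Fin n) (l : List (Fin n)) (h : ∃ w, w ∉ expl u l) :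
    IsNext c u l (nxt c u l) := by
  have h' : ∃ w, IsNext c u l w := by
    obtain ⟨w, hw, hw'⟩ := exists_min (key c u l) (fun w => w ∉ expl u l) h
    exact ⟨w, hw, hw'⟩
  unfold nxt
  rw [dif_pos h']
  exact h'.choose_spec

variable {n : ℕ} (c : Wt n) (u : Fin n)

/-- explored set -/
abbrev E (m : ℕ) : Finset (Fin n) := expl u (ord c u m)

/-- the next vertex -/
abbrev x (m : ℕ) : Fin n := nxt c u (ord c u m)

/-- exploration times -/
def t : ℕ → ℝ
  | 0 => 0
  | m + 1 => key c u (ord c u m) (x c u m)

theorem E_succ (m : ℕ) : E c u (m + 1) = insert (x c u m) (E c u m) := by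
  unfold E expl
  rw [ord, List.toFinset_cons, Finset.insert_comm]

theorem E_mono {m m' : ℕ} (h : m ≤ m') : E c u m ⊆ E c u m' := by
  induction m', h using Nat.le_induction with
  | base => exact le_rfl
  | succ k _ ih => rw [E_succ]; exact ih.trans (Finset.subset_insert _ _)

theorem card_E : ∀ m, m + 1 ≤ n → (E c u m).card = m + 1
  | 0, _ => by simp [E, expl, ord]
  | m + 1, h => by
    have ih := card_E m (by omega)
    have hex : ∃ w, w ∉ expl u (ord c u m) := by
      by_contra hcon
      push Not at hcon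
      have : (E c u m) = Finset.univ := Finset.eq_univ_iff_forall.2 hcon
      rw [this, Finset.card_univ, Fintype.card_fin] at ih
      omega
    have h1 := (nxt_spec c u _ hex).1
    rw [E_succ, Finset.card_insert_of_notMem h1, ih]

theorem x_spec {m : ℕ} (h : m + 2 ≤ n) : IsNext c u (ord c u m) (x c u m) := by
  apply nxt_spec
  by_contra hcon
  push Not at hcon
  have h1 : (E c u m) = Finset.univ := Finset.eq_univ_iff_forall.2 hcon
  have h2 := card_E c u m (by omega)
  rw [h1, Finset.card_univ, Fintype.card_fin] at h2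
  omega

theorem key_succ (m : ℕ) (w : Fin n) : key c u (ord c u (m + 1)) w =
    min (key c u (ord c u m) w) (t c u (m + 1) + rc (c (x c u m)) (x c u m) w) := rfl

theorem k2 (hn : 2 ≤ n) {m : ℕ} (h : m + 2 ≤ n) {w : Fin n} (hw : w ∉ E c u (m + 1)) :
    t c u (m + 1) ≤ key c u (ord c u (m + 1)) w := by
  rw [E_succ, Finset.mem_insert, not_or] at hw
  rw [key_succ]
  refine le_min ((x_spec c u h).2 w hw.2).1 ?_
  have := rc_nonneg hn (c (x c u m)) hw.1
  linarith

theorem t_step (hn : 2 ≤ n) {m : ℕ} (h : m + 2 ≤ n) : t c u m ≤ t c u (m + 1) := by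
  have h1 := (x_spec c u h).1
  cases m with
  | zero =>
    change 0 ≤ rc (c u) u (x c u 0)
    apply rc_nonneg hn
    intro h0
    apply h1
    rw [h0]
    simp [expl]
  | succ m => exact k2 c u hn (by omega) h1

theorem t_mono (hn : 2 ≤ n) {m m' : ℕ} (h : m ≤ m') (h' : m' + 1 ≤ n) :
    t c u m ≤ t c u m' := by
  induction m', h using Nat.le_induction with
  | base => exact le_rfl
  | succ k _ ih => exact (ih (by omega)).trans (t_step c u hn (by omega))

theorem exists_idx (hn : 2 ≤ n) (w : Fin n) : ∃ m, w ∈ E c u m := by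
  refine ⟨n - 1, ?_⟩
  have h := card_E c u (n - 1) (by omega)
  have : E c u (n - 1) = Finset.univ := by
    apply Finset.eq_univ_of_card
    rw [h, Fintype.card_fin]
    omega
  rw [this]
  exact Finset.mem_univ _

open Classical in
/-- index of a vertex in the order of exploration -/
def idx (hn : 2 ≤ n) (w : Fin n) : ℕ := Nat.find (exists_idx c u hn w)

theorem idx_mem (hn : 2 ≤ n) (w : Fin n) : w ∈ E c u (idx c u hn w) := by
  classical
  exact Nat.find_spec (exists_idx c u hn w)

theorem idx_le (hn : 2 ≤ n) {w : Fin n} {m : ℕ} (h : w ∈ E c u m) : idx c u hn w ≤ m := by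
  classical
  exact Nat.find_min' (exists_idx c u hn w) h

theorem idx_lt (hn : 2 ≤ n) (w : Fin n) : idx c u hn w + 1 ≤ n := by
  have : w ∈ E c u (n - 1) := by
    have h := card_E c u (n - 1) (by omega)
    have : E c u (n - 1) = Finset.univ := by
      apply Finset.eq_univ_of_card
      rw [h, Fintype.card_fin]
      omega
    rw [this]
    exact Finset.mem_univ _
  have := idx_le c u hn this
  omega

theorem mem_iff (hn : 2 ≤ n) {w : Fin n} {m : ℕ} : w ∈ E c u m ↔ idx c u hn w ≤ m :=
  ⟨idx_le c u hn, fun h => E_mono c u h (idx_mem c u hn w)⟩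

theorem idx_x (hn : 2 ≤ n) {m : ℕ} (h : m + 2 ≤ n) : idx c u hn (x c u m) = m + 1 := by
  have h1 : x c u m ∉ E c u m := (x_spec c u h).1
  have h2 : x c u m ∈ E c u (m + 1) := by rw [E_succ]; exact Finset.mem_insert_self _ _
  rw [mem_iff c u hn] at h1 h2
  omega

theorem eq_x (hn : 2 ≤ n) {w : Fin n} {j : ℕ} (h : idx c u hn w = j + 1) :
    w = x c u j ∧ w ∉ E c u j := by
  have h1 := idx_mem c u hn w
  have h2 : w ∉ E c u j := by rw [mem_iff c u hn]; omega
  rw [h, E_succ, Finset.mem_insert] at h1
  exact ⟨h1.resolve_right h2, h2⟩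

theorem idx_u (hn : 2 ≤ n) : idx c u hn u = 0 := by
  have : u ∈ E c u 0 := by simp [E, expl]
  have := idx_le c u hn this
  omega

/-- distances -/
def dst (hn : 2 ≤ n) (w : Fin n) : ℝ := t c u (idx c u hn w)

theorem key_le (hn : 2 ≤ n) (v w : Fin n) {m : ℕ} (h : idx c u hn v ≤ m) :
    key c u (ord c u m) w ≤ dst c u hn v + rc (c v) v w := by
  induction m, h using Nat.le_induction with
  | base =>
    cases hi : idx c u hn v with
    | zero =>
      have hv : v = u := by
        have := idx_mem c u hn v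
        rw [hi] at this
        simpa [E, expl, ord] using this
      rw [hv, dst, idx_u]
      change rc (c u) u w ≤ 0 + _
      linarith
    | succ j =>
      obtain ⟨h1, h2⟩ := eq_x c u hn hi
      rw [key_succ, dst, hi, ← h1]
      exact min_le_right _ _
  | succ k _ ih =>
    rw [key_succ]
    exact (min_le_left _ _).trans ih

theorem tri (hn : 2 ≤ n) {v w : Fin n} (hvw : v ≠ w) :
    dst c u hn w ≤ dst c u hn v + rc (c v) v w := by
  rcases le_or_gt (idx c u hn w) (idx c u hn v) with h | h
  · have h1 := t_mono c u hn h (idx_lt c u hn v)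
    have h2 := rc_nonneg hn (c v) (Ne.symm hvw)
    unfold dst
    linarith
  · obtain ⟨j, hj⟩ : ∃ j, idx c u hn w = j + 1 := ⟨idx c u hn w - 1, by omega⟩
    obtain ⟨h1, h2⟩ := eq_x c u hn hj
    have h3 := key_le c u hn v w (m := j) (by omega)
    have h4 : dst c u hn w = key c u (ord c u j) w := by
      rw [dst, hj, h1]
      rfl
    rw [h4]
    exact h3

theorem key_eq (hn : 2 ≤ n) : ∀ m, m + 1 ≤ n → ∀ w, w ∉ E c u m →
    ∃ v ∈ E c u m, key c u (ord c u m) w = dst c u hn v + rc (c v) v w
  | 0, _, w, hw => by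
    refine ⟨u, by simp [E, expl], ?_⟩
    rw [dst, idx_u]
    change rc (c u) u w = 0 + _
    rw [zero_add]
  | m + 1, hm, w, hw => by
    have hw' := hw
    rw [E_succ, Finset.mem_insert, not_or] at hw'
    obtain ⟨v, hv, he⟩ := key_eq hn m (by omega) w hw'.2
    rw [key_succ]
    rcases min_choice (key c u (ord c u m) w)
      (t c u (m + 1) + rc (c (x c u m)) (x c u m) w) with h | h
    · exact ⟨v, E_mono c u (Nat.le_succ m) hv, by rw [h, he]⟩
    · refine ⟨x c u m, by rw [E_succ]; exact Finset.mem_insert_self _ _, ?_⟩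
      rw [h, dst, idx_x c u hn (by omega)]

theorem path (hn : 2 ≤ n) : ∀ (k : ℕ) (w : Fin n), idx c u hn w = k →
    ∃ (y : ℕ → Fin n) (L : ℕ), IsPath y L ∧ y 0 = u ∧ y L = w ∧ pcost c y L = dst c u hn w := by
  intro k
  induction k using Nat.strong_induction_on with
  | _ k ih =>
    intro w hw
    cases k with
    | zero =>
      have hwu : w = u := by
        have := idx_mem c u hn w
        rw [hw] at this
        simpa [E, expl, ord] using this
      refine ⟨fun _ => u, 0, fun s hs => absurd hs (Nat.not_lt_zero s), rfl, hwu.symm, ?_⟩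
      rw [dst, hw]
      simp [pcost, t]
    | succ j =>
      obtain ⟨h1, h2⟩ := eq_x c u hn hw
      have hlt := idx_lt c u hn w
      obtain ⟨v, hv, he⟩ := key_eq c u hn j (by omega) w h2
      obtain ⟨y, L, p1, p2, p3, p4⟩ := ih (idx c u hn v)
        (by have := (mem_iff c u hn).1 hv; omega) v rfl
      have hvw : v ≠ w := fun h => h2 (h ▸ hv)
      have h4 : dst c u hn w = key c u (ord c u j) w := by
        rw [dst, hw, h1]
        rfl
      refine ⟨fun s => if s ≤ L then y s else w, L + 1, ?_, ?_, ?_, ?_⟩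
      · intro s hs
        rcases Nat.lt_or_ge s L with h | h
        · have e1 : s + 1 ≤ L := h
          simp only [e1, if_true, h.le]
          exact p1 s h
        · have hsL : s = L := by omega
          subst hsL
          simp only [le_refl, if_true, Nat.not_succ_le_self, if_false]
          rw [p3]
          exact hvw.symm
      · simp [p2]
      · simp
      · rw [h4, he, ← p4]
        unfold pcost
        rw [Finset.sum_range_succ]
        congr 1
        · refine Finset.sum_congr rfl fun s hs => ?_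
          have hs' : s < L := Finset.mem_range.1 hs
          have e1 : s + 1 ≤ L := hs'
          simp only [e1, if_true, hs'.le]
        · simp only [le_refl, if_true, Nat.not_succ_le_self, if_false]
          rw [p3]

end B0

open B0 in
theorem stmB0 : StmB0 := by
  intro n c hn _ u
  refine ⟨dst c u hn, t c u, ?_, rfl, ?_, ?_, ?_, ?_, ?_⟩
  · rw [dst, idx_u]
    rfl
  · intro v w hvw
    exact tri c u hn hvw
  · intro w
    exact path c u hn _ w rfl
  · intro m m' h h'
    exact t_mono c u hn h h'
  · intro m m' h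
    exact E_mono c u h
  · intro m hm
    refine ⟨card_E c u m hm, ?_, ?_⟩
    · intro v hv
      exact t_mono c u hn ((mem_iff c u hn).1 hv) hm
    · intro v hv
      have : ¬ idx c u hn v ≤ m := fun h => hv ((mem_iff c u hn).2 h)
      exact t_mono c u hn (by omega) (idx_lt c u hn v)

end
end Pool.Agent.T6.H59.MA
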