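import Pool.Agent.T6.H59.MA.B0

/-!
# The cheap targets of one vertex avoid a set (helper94, module C1)
-/

set_option autoImplicit false

namespace Pool.Agent.T6.H59.MA
open MeasureTheory Filter Topology
noncomputable section

namespace CC1

variable {n : ℕ}

theorem min_comp (hn : 2 ≤ n) (σ : Equiv.Perm (Fin n)) {v : Fin n} (hσ : σ v = v) (r : Row n) :
    (r ∘ σ) (tgt (r ∘ σ) v) = r (tgt r v) := by
  have h1 := B0.tgt_spec hn (r ∘ σ) v
  have h2 := B0.tgt_spec hn r v
  apply le_antisymm
  · have hne : σ.symm (tgt r v) ≠ v := by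
      intro h
      apply h2.1
      rw [← σ.apply_symm_apply (tgt r v), h, hσ]
    have := (h1.2 _ hne).1
    simpa using this
  · have hne : σ (tgt (r ∘ σ) v) ≠ v := by
      intro h
      apply h1.1
      apply σ.injective
      rw [h, hσ]
    exact (h2.2 _ hne).1

theorem rc_comp (hn : 2 ≤ n) (σ : Equiv.Perm (Fin n)) {v : Fin n} (hσ : σ v = v) (r : Row n)
    (w : Fin n) : rc (r ∘ σ) v w = rc r v (σ w) := by
  unfold rc
  rw [min_comp hn σ hσ r]
  rfl

theorem apply_ne {σ : Equiv.Perm (Fin n)} {v : Fin n} (hσ : σ v = v) (w : Fin n) :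
    σ w ≠ v ↔ w ≠ v := by
  constructor
  · rintro h rfl
    exact h hσ
  · intro h h'
    apply h
    apply σ.injective
    rw [h', hσ]

theorem nb_comp (hn : 2 ≤ n) (σ : Equiv.Perm (Fin n)) {v : Fin n} (hσ : σ v = v) (r : Row n)
    (h : ℝ) (J : ℕ) (w : Fin n) : w ∈ nb (r ∘ σ) v h J ↔ σ w ∈ nb r v h J := by
  classical
  unfold nb
  simp only [Finset.mem_filter, Finset.mem_univ, true_and]
  rw [rc_comp hn σ hσ r w, apply_ne hσ w]
  have hc : (Finset.univ.filter (fun w' => w' ≠ v ∧ (r ∘ σ) w' < (r ∘ σ) w)).card =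
      (Finset.univ.filter (fun w' => w' ≠ v ∧ r w' < r (σ w))).card := by
    apply Finset.card_equiv σ
    intro i
    simp only [Finset.mem_filter, Finset.mem_univ, true_and, Function.comp_apply]
    rw [apply_ne hσ i]
  rw [hc]

theorem mp_comp (μ : Measure ℝ) [IsProbabilityMeasure μ] (σ : Equiv.Perm (Fin n)) :
    MeasurePreserving (fun r : Row n => r ∘ σ) (rowlaw μ n) (rowlaw μ n) := by
  have h := measurePreserving_piCongrLeft (fun _ : Fin n => μ) σ.symm
  unfold rowlaw
  convert h using 1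
  funext r i
  have := MeasurableEquiv.piCongrLeft_apply_apply (β := fun _ : Fin n => ℝ) σ.symm r (σ i)
  rw [Equiv.symm_apply_apply] at this
  rw [this]
  rfl

instance (μ : Measure ℝ) [IsProbabilityMeasure μ] (n : ℕ) : IsProbabilityMeasure (rowlaw μ n) := by
  unfold rowlaw
  infer_instance

variable (hMR : StmMR) (μ : Measure ℝ) [IsProbabilityMeasure μ] (v : Fin n) (h : ℝ) (J : ℕ)

include hMR in
theorem meas_nb (P : Finset (Fin n) → Prop) : MeasurableSet {r : Row n | P (nb r v h J)} := by
  classical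
  have : {r : Row n | P (nb r v h J)} = ⋃ S ∈ (Finset.univ.filter P : Finset (Finset (Fin n))),
      {r : Row n | nb r v h J = S} := by
    ext r
    simp
  rw [this]
  exact Finset.measurableSet_biUnion _ fun S _ => (hMR n v h J).2.2 S

include hMR in
theorem meas_ex (P : Finset (Fin n) → Prop) : MeasurableSet {r : Row n | P (ex r v h)} := by
  classical
  have : {r : Row n | P (ex r v h)} = ⋃ S ∈ (Finset.univ.filter P : Finset (Finset (Fin n))),
      {r : Row n | ex r v h = S} := by
    ext r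
    simp
  rw [this]
  exact Finset.measurableSet_biUnion _ fun S _ => (hMR n v h 0).2.1 S

/-- probability that `w` is a cheap target -/
def p1 (w : Fin n) : ℝ := (rowlaw μ n).real {r | w ∈ nb r v h J}

/-- probability that `a` and `b` are cheap targets -/
def p2 (a b : Fin n) : ℝ := (rowlaw μ n).real {r | a ∈ nb r v h J ∧ b ∈ nb r v h J}

include hMR in
theorem p1_perm (hn : 2 ≤ n) (σ : Equiv.Perm (Fin n)) (hσ : σ v = v) (w : Fin n) :
    p1 μ v h J (σ w) = p1 μ v h J w := by
  have h1 := (mp_comp μ σ).measureReal_preimage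
    (meas_nb hMR v h J (fun S => w ∈ S)).nullMeasurableSet
  unfold p1
  rw [← h1]
  congr 1
  ext r
  exact (nb_comp hn σ hσ r h J w).symm

include hMR in
theorem p2_perm (hn : 2 ≤ n) (σ : Equiv.Perm (Fin n)) (hσ : σ v = v) (a b : Fin n) :
    p2 μ v h J (σ a) (σ b) = p2 μ v h J a b := by
  have h1 := (mp_comp μ σ).measureReal_preimage
    (meas_nb hMR v h J (fun S => a ∈ S ∧ b ∈ S)).nullMeasurableSet
  unfold p2
  rw [← h1]
  congr 1
  ext r
  exact and_congr (nb_comp hn σ hσ r h J a).symm (nb_comp hn σ hσ r h J b).symm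

include hMR in
theorem p1_eq (hn : 2 ≤ n) {w w' : Fin n} (hw : w ≠ v) (hw' : w' ≠ v) :
    p1 μ v h J w' = p1 μ v h J w := by
  have := p1_perm hMR μ v h J hn (Equiv.swap w w') (Equiv.swap_apply_of_ne_of_ne hw.symm hw'.symm) w
  rwa [Equiv.swap_apply_left] at this

include hMR in
theorem p2_eq (hn : 2 ≤ n) {a b a' b' : Fin n} (ha : a ≠ v) (hb : b ≠ v) (hab : a ≠ b)
    (ha' : a' ≠ v) (hb' : b' ≠ v) (hab' : a' ≠ b') : p2 μ v h J a' b' = p2 μ v h J a b := by
  let τ := Equiv.swap a a'
  have hτ : τ v = v := Equiv.swap_apply_of_ne_of_ne ha.symm ha'.symm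
  have h1 := p2_perm hMR μ v h J hn τ hτ a b
  have e1 : τ a = a' := Equiv.swap_apply_left a a'
  rw [e1] at h1
  have hbv : τ b ≠ v := (apply_ne hτ b).2 hb
  have hba : τ b ≠ a' := by
    rw [← e1]
    exact fun h => hab (τ.injective h).symm
  let τ' := Equiv.swap (τ b) b'
  have hτ' : τ' v = v := Equiv.swap_apply_of_ne_of_ne hbv.symm hb'.symm
  have h2 := p2_perm hMR μ v h J hn τ' hτ' a' (τ b)
  have e2 : τ' (τ b) = b' := Equiv.swap_apply_left _ _
  have e3 : τ' a' = a' := Equiv.swap_apply_of_ne_of_ne hba.symm hab'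
  rw [e2, e3] at h2
  rw [h2, h1]

/-- number of cheap targets -/
theorem card_nb (hn : 2 ≤ n) (hh : 0 ≤ h) {r : Row n} (hr : Function.Injective r) :
    (nb r v h J).card = 1 + min (ex r v h).card J := by
  classical
  let S : Finset (Fin n) := Finset.univ.filter fun w => w ≠ v ∧ rc r v w ≤ h
  let rk : Fin n → ℕ := fun w => (Finset.univ.filter (fun w' => w' ≠ v ∧ r w' < r w)).card
  have ht := B0.tgt_spec hn r v
  have htS : tgt r v ∈ S := by
    simp only [S, Finset.mem_filter, Finset.mem_univ, true_and]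
    exact ⟨ht.1, by unfold rc; linarith⟩
  have hex : ex r v h = S.erase (tgt r v) := by
    ext w
    simp only [ex, S, Finset.mem_filter, Finset.mem_univ, true_and, Finset.mem_erase]
    tauto
  have hcS : S.card = (ex r v h).card + 1 := by
    rw [hex, Finset.card_erase_add_one htS]
  have hrkS : ∀ w ∈ S, rk w = (S.filter fun w' => r w' < r w).card := by
    intro w hw
    simp only [rk]
    congr 1
    ext w'
    simp only [S, Finset.mem_filter, Finset.mem_univ, true_and] at hw ⊢
    constructor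
    · rintro ⟨h1, h2⟩
      refine ⟨⟨h1, ?_⟩, h2⟩
      have := hw.2
      unfold rc at this ⊢
      linarith
    · rintro ⟨⟨h1, -⟩, h2⟩
      exact ⟨h1, h2⟩
  have hinj : Set.InjOn rk S := by
    have key : ∀ a ∈ S, ∀ b ∈ S, r a < r b → rk a < rk b := by
      intro a ha b hb hlt
      apply Finset.card_lt_card
      refine ⟨fun w hw => ?_, fun hsub => ?_⟩
      · rw [Finset.mem_filter] at hw ⊢
        exact ⟨hw.1, hw.2.1, hw.2.2.trans hlt⟩
      · have hav : a ≠ v := (Finset.mem_filter.1 ha).2.1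
        have := hsub (Finset.mem_filter.2 ⟨Finset.mem_univ a, hav, hlt⟩)
        rw [Finset.mem_filter] at this
        exact lt_irrefl _ this.2.2
    intro a ha b hb hab
    rcases lt_trichotomy (r a) (r b) with h1 | h1 | h1
    · exact absurd hab (key a ha b hb h1).ne
    · exact hr h1
    · exact absurd hab (key b hb a ha h1).ne'
  have himg : S.image rk = Finset.range S.card := by
    apply Finset.eq_of_subset_of_card_le
    · intro i hi
      rw [Finset.mem_image] at hi
      obtain ⟨w, hw, rfl⟩ := hi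
      rw [Finset.mem_range, hrkS w hw]
      apply Finset.card_lt_card
      refine ⟨Finset.filter_subset _ _, fun hsub => ?_⟩
      have := hsub hw
      rw [Finset.mem_filter] at this
      exact lt_irrefl _ this.2
    · rw [Finset.card_range, Finset.card_image_of_injOn hinj]
  have hnb : nb r v h J = S.filter fun w => rk w ≤ J := by
    ext w
    simp only [nb, S, rk, Finset.mem_filter, Finset.mem_univ, true_and]
    tauto
  have h1 : (nb r v h J).card = ((nb r v h J).image rk).card := by
    rw [Finset.card_image_of_injOn]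
    refine hinj.mono ?_
    rw [hnb]
    exact Finset.filter_subset _ _
  have h2 : (nb r v h J).image rk = Finset.range (min S.card (J + 1)) := by
    ext i
    rw [hnb, Finset.mem_image, Finset.mem_range, lt_min_iff]
    constructor
    · rintro ⟨w, hw, rfl⟩
      rw [Finset.mem_filter] at hw
      refine ⟨?_, Nat.lt_succ_of_le hw.2⟩
      have : rk w ∈ S.image rk := Finset.mem_image_of_mem _ hw.1
      rw [himg, Finset.mem_range] at this
      exact this
    · rintro ⟨h3, h4⟩
      have : i ∈ S.image rk := by rw [himg, Finset.mem_range]; exact h3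
      rw [Finset.mem_image] at this
      obtain ⟨w, hw, rfl⟩ := this
      exact ⟨w, Finset.mem_filter.2 ⟨hw, Nat.lt_succ_iff.1 h4⟩, rfl⟩
  rw [h1, h2, Finset.card_range, hcS]
  omega

open Classical in
/-- indicator of `w` in the set of cheap targets -/
def ind (w : Fin n) (r : Row n) : ℝ := if w ∈ nb r v h J then 1 else 0

include hMR in
theorem int_ind (w : Fin n) : Integrable (ind v h J w) (rowlaw μ n) ∧
    ∫ r, ind v h J w r ∂(rowlaw μ n) = p1 μ v h J w := by
  classical
  have hm := meas_nb hMR v h J (fun S => w ∈ S)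
  have h1 : ind v h J w = Set.indicator {r | w ∈ nb r v h J} 1 := by
    funext r
    unfold ind
    rw [Set.indicator_apply]
    rfl
  rw [h1]
  refine ⟨(integrable_const (1 : ℝ)).indicator hm, ?_⟩
  rw [integral_indicator_one hm]
  rfl

include hMR in
theorem int_ind2 (a b : Fin n) : Integrable (fun r => ind v h J a r * ind v h J b r) (rowlaw μ n) ∧
    ∫ r, ind v h J a r * ind v h J b r ∂(rowlaw μ n) = p2 μ v h J a b := by
  classical
  have hm := meas_nb hMR v h J (fun S => a ∈ S ∧ b ∈ S)
  have h1 : (fun r => ind v h J a r * ind v h J b r) =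
      Set.indicator {r | a ∈ nb r v h J ∧ b ∈ nb r v h J} 1 := by
    funext r
    unfold ind
    rw [Set.indicator_apply]
    by_cases h1 : a ∈ nb r v h J <;> by_cases h2 : b ∈ nb r v h J <;> simp [h1, h2]
  rw [h1]
  refine ⟨(integrable_const (1 : ℝ)).indicator hm, ?_⟩
  rw [integral_indicator_one hm]
  rfl

theorem sum_ind (W : Finset (Fin n)) (r : Row n) :
    ∑ w ∈ W, ind v h J w r = ((W.filter fun w => w ∈ nb r v h J).card : ℝ) := by
  classical
  unfold ind
  rw [Finset.sum_ite, Finset.sum_const_zero, add_zero, Finset.sum_const, nsmul_eq_mul, mul_one]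

theorem sum_ind2 (W : Finset (Fin n)) (r : Row n) :
    ∑ a ∈ W, ∑ b ∈ W.erase a, ind v h J a r * ind v h J b r =
      ((W.filter fun w => w ∈ nb r v h J).card : ℝ) *
        (((W.filter fun w => w ∈ nb r v h J).card : ℝ) - 1) := by
  classical
  have h1 : ∀ a ∈ W, ∑ b ∈ W.erase a, ind v h J a r * ind v h J b r =
      ind v h J a r * ∑ b ∈ W, ind v h J b r - ind v h J a r := by
    intro a ha
    have h2 : ∑ b ∈ W, ind v h J b r = ind v h J a r + ∑ b ∈ W.erase a, ind v h J b r :=
      (Finset.add_sum_erase W _ ha).symm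
    rw [← Finset.mul_sum, h2, mul_add]
    have h3 : ind v h J a r * ind v h J a r = ind v h J a r := by
      unfold ind
      split_ifs <;> simp
    rw [h3]
    ring
  rw [Finset.sum_congr rfl h1, Finset.sum_sub_distrib, ← Finset.sum_mul, sum_ind]
  ring

end CC1

open CC1 in
theorem stmC1 (hMR : StmMR) (hGEN : StmGEN) : StmC1 := by
  classical
  intro μ _ _ n v h J W hn hh hvW
  have hn2 : 2 ≤ n := by omega
  have hgen : ∀ᵐ r ∂(rowlaw μ n), Function.Injective r := (hGEN μ n).1
  have hn1 : (0 : ℝ) < (n : ℝ) - 1 := by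
    have : (3 : ℝ) ≤ n := by exact_mod_cast hn
    linarith
  have hn2' : (0 : ℝ) < (n : ℝ) - 2 := by
    have : (3 : ℝ) ≤ n := by exact_mod_cast hn
    linarith
  set κ := kap μ n v h J with hκ
  have hfilt : ∀ r : Row n, (Finset.univ.filter fun w => w ∈ nb r v h J) = nb r v h J := by
    intro r
    ext w
    simp
  -- first moment
  have hkint : Integrable (fun r : Row n => ((min (ex r v h).card J : ℕ) : ℝ)) (rowlaw μ n) := by
    have hm : Measurable (fun r : Row n => ((min (ex r v h).card J : ℕ) : ℝ)) := fun A _ =>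
      meas_ex hMR v h (fun S => ((min S.card J : ℕ) : ℝ) ∈ A)
    refine Integrable.of_bound hm.aestronglyMeasurable (J : ℝ) (Eventually.of_forall fun r => ?_)
    rw [Real.norm_of_nonneg (Nat.cast_nonneg _)]
    exact_mod_cast min_le_right _ _
  have hmom1 : ∑ w, p1 μ v h J w = 1 + κ := by
    have h1 : ∑ w, p1 μ v h J w = ∫ r, ∑ w, ind v h J w r ∂(rowlaw μ n) := by
      rw [integral_finsetSum _ fun w _ => (int_ind hMR μ v h J w).1]
      exact Finset.sum_congr rfl fun w _ => (int_ind hMR μ v h J w).2.symm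
    rw [h1]
    have h2 : ∫ r, ∑ w, ind v h J w r ∂(rowlaw μ n) =
        ∫ r, (1 + ((min (ex r v h).card J : ℕ) : ℝ)) ∂(rowlaw μ n) := by
      apply integral_congr_ae
      filter_upwards [hgen] with r hr
      rw [sum_ind, hfilt, card_nb v h J hn2 hh hr]
      push_cast
      rfl
    rw [h2, integral_add (integrable_const _) hkint]
    simp [hκ, kap]
  have hvnb : ∀ r : Row n, v ∉ nb r v h J := by
    intro r hr
    unfold nb at hr
    rw [Finset.mem_filter] at hr
    exact hr.2.1 rfl
  have hp1v : p1 μ v h J v = 0 := by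
    unfold p1
    have : {r : Row n | v ∈ nb r v h J} = ∅ := by
      ext r
      simp [hvnb r]
    rw [this, measureReal_empty]
  have hcard1 : ((Finset.univ.erase v).card : ℝ) = (n : ℝ) - 1 := by
    rw [Finset.card_erase_of_mem (Finset.mem_univ v), Finset.card_univ, Fintype.card_fin]
    push_cast [Nat.cast_sub (show 1 ≤ n by omega)]
    ring
  have hp1 : ∀ w ∈ W, p1 μ v h J w = (1 + κ) / ((n : ℝ) - 1) := by
    intro w hw
    have hwv : w ≠ v := fun he => hvW (he ▸ hw)
    rw [eq_div_iff hn1.ne', ← hmom1, ← Finset.add_sum_erase _ _ (Finset.mem_univ v), hp1v, zero_add]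
    rw [Finset.sum_congr rfl (fun w' hw' => p1_eq hMR μ v h J hn2 hwv (Finset.ne_of_mem_erase hw')),
      Finset.sum_const, nsmul_eq_mul, hcard1]
    ring
  -- second moment
  have hmom2 : ∑ a, ∑ b ∈ Finset.univ.erase a, p2 μ v h J a b ≤ ((J : ℝ) + 1) * J := by
    have h1 : ∑ a, ∑ b ∈ Finset.univ.erase a, p2 μ v h J a b =
        ∫ r, ∑ a, ∑ b ∈ Finset.univ.erase a, ind v h J a r * ind v h J b r ∂(rowlaw μ n) := by
      rw [integral_finsetSum _ fun a _ => integrable_finsetSum _ fun b _ =>
        (int_ind2 hMR μ v h J a b).1]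
      refine Finset.sum_congr rfl fun a _ => ?_
      rw [integral_finsetSum _ fun b _ => (int_ind2 hMR μ v h J a b).1]
      exact Finset.sum_congr rfl fun b _ => (int_ind2 hMR μ v h J a b).2.symm
    rw [h1]
    have h2 : ∫ _r : Row n, ((J : ℝ) + 1) * J ∂(rowlaw μ n) = ((J : ℝ) + 1) * J := by
      simp
    rw [← h2]
    apply integral_mono_ae
    · exact integrable_finsetSum _ fun a _ => integrable_finsetSum _ fun b _ =>
        (int_ind2 hMR μ v h J a b).1
    · exact integrable_const _
    · filter_upwards [hgen] with r hr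
      rw [sum_ind2, hfilt, card_nb v h J hn2 hh hr]
      have h3 : ((min (ex r v h).card J : ℕ) : ℝ) ≤ J := by exact_mod_cast min_le_right _ _
      have h4 : (0 : ℝ) ≤ ((min (ex r v h).card J : ℕ) : ℝ) := Nat.cast_nonneg _
      push_cast at h3 h4 ⊢
      nlinarith
  have hp2nn : ∀ a b, 0 ≤ p2 μ v h J a b := fun a b => measureReal_nonneg
  have hp2 : ∀ a ∈ W, ∀ b ∈ W.erase a, p2 μ v h J a b ≤
      ((J : ℝ) + 1) * J / (((n : ℝ) - 1) * ((n : ℝ) - 2)) := by
    intro a ha b hb
    have hav : a ≠ v := fun he => hvW (he ▸ ha)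
    have hbv : b ≠ v := fun he => hvW (he ▸ Finset.mem_of_mem_erase hb)
    have hab : a ≠ b := (Finset.ne_of_mem_erase hb).symm
    rw [le_div_iff₀ (mul_pos hn1 hn2')]
    refine le_trans ?_ hmom2
    have h3 : ∑ a' ∈ Finset.univ.erase v, ∑ b' ∈ (Finset.univ.erase a').erase v, p2 μ v h J a' b' =
        p2 μ v h J a b * (((n : ℝ) - 1) * ((n : ℝ) - 2)) := by
      have h4 : ∀ a' ∈ Finset.univ.erase v, ∑ b' ∈ (Finset.univ.erase a').erase v,
          p2 μ v h J a' b' = ((n : ℝ) - 2) * p2 μ v h J a b := by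
        intro a' ha'
        have ha'v : a' ≠ v := Finset.ne_of_mem_erase ha'
        rw [Finset.sum_congr rfl (fun b' hb' => p2_eq hMR μ v h J hn2 hav hbv hab ha'v
          (Finset.ne_of_mem_erase hb') (Finset.ne_of_mem_erase (Finset.mem_of_mem_erase hb')).symm),
          Finset.sum_const, nsmul_eq_mul]
        congr 1
        rw [Finset.card_erase_of_mem (Finset.mem_erase.2 ⟨ha'v.symm, Finset.mem_univ v⟩),
          Finset.card_erase_of_mem (Finset.mem_univ a'), Finset.card_univ, Fintype.card_fin]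
        have : n - 1 - 1 = n - 2 := by omega
        rw [this]
        push_cast [Nat.cast_sub (show 2 ≤ n by omega)]
        ring
      rw [Finset.sum_congr rfl h4, Finset.sum_const, nsmul_eq_mul, hcard1]
      ring
    rw [← h3]
    refine (Finset.sum_le_sum fun a' _ => Finset.sum_le_sum_of_subset_of_nonneg
      (Finset.erase_subset _ _) fun b' _ _ => hp2nn a' b').trans ?_
    exact Finset.sum_le_sum_of_subset_of_nonneg (Finset.erase_subset _ _)
      fun a' _ _ => Finset.sum_nonneg fun b' _ => hp2nn a' b'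
  -- Bonferroni
  have hmD := meas_nb hMR v h J (fun S => Disjoint W S)
  have hD : (rowlaw μ n).real {r | Disjoint W (nb r v h J)} =
      ∫ r, Set.indicator {r : Row n | Disjoint W (nb r v h J)} 1 r ∂(rowlaw μ n) := by
    rw [integral_indicator_one hmD]
  have hI1 : Integrable (fun r : Row n => ∑ w ∈ W, ind v h J w r) (rowlaw μ n) :=
    integrable_finsetSum _ fun w _ => (int_ind hMR μ v h J w).1
  have hI2 : Integrable (fun r : Row n => ∑ a ∈ W, ∑ b ∈ W.erase a,
      ind v h J a r * ind v h J b r) (rowlaw μ n) :=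
    integrable_finsetSum _ fun a _ => integrable_finsetSum _ fun b _ =>
      (int_ind2 hMR μ v h J a b).1
  have hbon : ∫ r, Set.indicator {r : Row n | Disjoint W (nb r v h J)} 1 r ∂(rowlaw μ n) ≤
      ∫ r, ((1 - ∑ w ∈ W, ind v h J w r) + 1 / 2 * ∑ a ∈ W, ∑ b ∈ W.erase a,
        ind v h J a r * ind v h J b r) ∂(rowlaw μ n) := by
    apply integral_mono
    · exact (integrable_const (1 : ℝ)).indicator hmD
    · exact ((integrable_const (1 : ℝ)).sub hI1).add (hI2.const_mul _)
    · intro r
      change Set.indicator {r : Row n | Disjoint W (nb r v h J)} 1 r ≤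
        (1 - ∑ w ∈ W, ind v h J w r) + 1 / 2 * ∑ a ∈ W, ∑ b ∈ W.erase a,
          ind v h J a r * ind v h J b r
      rw [sum_ind, sum_ind2]
      rcases Nat.eq_zero_or_pos (W.filter fun w => w ∈ nb r v h J).card with h0 | h0
      · rw [h0]
        refine (Set.indicator_le_self' (fun _ _ => zero_le_one) r).trans ?_
        simp
      · have hnd : ¬ Disjoint W (nb r v h J) := by
          intro hd
          obtain ⟨w, hw⟩ := Finset.card_pos.1 h0
          rw [Finset.mem_filter] at hw
          exact Finset.disjoint_left.1 hd hw.1 hw.2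
        rw [Set.indicator_of_notMem (by simpa using hnd)]
        have h5 : (1 : ℝ) ≤ ((W.filter fun w => w ∈ nb r v h J).card : ℝ) := by exact_mod_cast h0
        rcases Nat.lt_or_ge (W.filter fun w => w ∈ nb r v h J).card 2 with h6 | h6
        · have h7 : (W.filter fun w => w ∈ nb r v h J).card = 1 := by omega
          rw [h7]
          norm_num
        · have h7 : (2 : ℝ) ≤ ((W.filter fun w => w ∈ nb r v h J).card : ℝ) := by exact_mod_cast h6
          nlinarith
  have hval : ∫ r, ((1 - ∑ w ∈ W, ind v h J w r) + 1 / 2 * ∑ a ∈ W, ∑ b ∈ W.erase a,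
        ind v h J a r * ind v h J b r) ∂(rowlaw μ n) =
      1 - ∑ w ∈ W, p1 μ v h J w + 1 / 2 * ∑ a ∈ W, ∑ b ∈ W.erase a, p2 μ v h J a b := by
    have hI3 : Integrable (fun r : Row n => 1 - ∑ w ∈ W, ind v h J w r) (rowlaw μ n) :=
      (integrable_const (1 : ℝ)).sub hI1
    rw [integral_add hI3 (hI2.const_mul _),
      integral_sub (integrable_const (1 : ℝ)) hI1, integral_const_mul,
      integral_finsetSum _ fun w _ => (int_ind hMR μ v h J w).1,
      integral_finsetSum _ fun a _ => integrable_finsetSum _ fun b _ =>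
        (int_ind2 hMR μ v h J a b).1]
    congr 1
    · congr 1
      · simp
      · exact Finset.sum_congr rfl fun w _ => (int_ind hMR μ v h J w).2
    · congr 1
      refine Finset.sum_congr rfl fun a _ => ?_
      rw [integral_finsetSum _ fun b _ => (int_ind2 hMR μ v h J a b).1]
      exact Finset.sum_congr rfl fun b _ => (int_ind2 hMR μ v h J a b).2
  have hs1 : ∑ w ∈ W, p1 μ v h J w = W.card * (1 + κ) / ((n : ℝ) - 1) := by
    rw [Finset.sum_congr rfl hp1, Finset.sum_const, nsmul_eq_mul]
    ring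
  have hs2 : ∑ a ∈ W, ∑ b ∈ W.erase a, p2 μ v h J a b ≤
      (W.card : ℝ) ^ 2 * (((J : ℝ) + 1) * J / (((n : ℝ) - 1) * ((n : ℝ) - 2))) := by
    have hq : 0 ≤ ((J : ℝ) + 1) * J / (((n : ℝ) - 1) * ((n : ℝ) - 2)) := by positivity
    calc ∑ a ∈ W, ∑ b ∈ W.erase a, p2 μ v h J a b
        ≤ ∑ a ∈ W, ∑ b ∈ W.erase a, ((J : ℝ) + 1) * J / (((n : ℝ) - 1) * ((n : ℝ) - 2)) :=
          Finset.sum_le_sum fun a ha => Finset.sum_le_sum fun b hb => hp2 a ha b hb
      _ ≤ ∑ a ∈ W, ∑ b ∈ W, ((J : ℝ) + 1) * J / (((n : ℝ) - 1) * ((n : ℝ) - 2)) :=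
          Finset.sum_le_sum fun a _ => Finset.sum_le_sum_of_subset_of_nonneg
            (Finset.erase_subset _ _) fun _ _ _ => hq
      _ = _ := by
          rw [Finset.sum_const, Finset.sum_const, nsmul_eq_mul, nsmul_eq_mul]
          ring
  rw [hD]
  refine hbon.trans ?_
  rw [hval, hs1]
  have hfin : 1 / 2 * ((W.card : ℝ) ^ 2 * (((J : ℝ) + 1) * J / (((n : ℝ) - 1) * ((n : ℝ) - 2)))) ≤
      (W.card : ℝ) ^ 2 * ((J : ℝ) + 1) ^ 2 / (((n : ℝ) - 1) * ((n : ℝ) - 2)) := by
    rw [← mul_div_assoc, ← mul_div_assoc]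
    apply div_le_div_of_nonneg_right _ (mul_pos hn1 hn2').le
    have hW : 0 ≤ (W.card : ℝ) ^ 2 := sq_nonneg _
    have hJ : (0 : ℝ) ≤ J := Nat.cast_nonneg J
    nlinarith [mul_nonneg hW hJ, mul_nonneg hW (mul_nonneg hJ hJ)]
  linarith [hs2]

end
end Pool.Agent.T6.H59.MA
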