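import Pool.Agent.T6.H59.MA.Stm

/-!
# Local limit of the minimum spanning arborescence (MP_e4ce4d_pr): module IND
-/

namespace Pool.Agent.T6.H59.MA
open MeasureTheory Filter Topology ProbabilityTheory
noncomputable section

namespace ModIND

/-- put the row `0` at the place `w` -/
def ext {n : ℕ} (w : Fin n) (g : (↥(Finset.univ.erase w) → Row n)) : Wt n :=
  fun i => if h : i ∈ Finset.univ.erase w then g ⟨i, h⟩ else 0

theorem ext_meas {n : ℕ} (w : Fin n) : Measurable (ext w) := by
  refine measurable_pi_lambda _ fun i => ?_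
  unfold ext
  split_ifs with h
  · exact measurable_pi_apply _
  · exact measurable_const

theorem ext_eq {n : ℕ} (w : Fin n) (c : Wt n) :
    ext w (fun i : ↥(Finset.univ.erase w) => c i) = Function.update c w 0 := by
  funext i
  unfold ext
  by_cases h : i = w
  · subst h
    simp
  · have h' : i ∈ Finset.univ.erase w := Finset.mem_erase.mpr ⟨h, Finset.mem_univ _⟩
    rw [dif_pos h', Function.update_of_ne h]

end ModIND

open ModIND

theorem stmIND : StmIND := by
  intro μ _ n w A B hA hB hinv
  have : IsProbabilityMeasure (rowlaw μ n) := by unfold rowlaw; infer_instance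
  have hind : iIndepFun (fun (i : Fin n) (c : Wt n) => c i) (law μ n) := by
    unfold law
    exact iIndepFun_pi (X := fun (_ : Fin n) (r : Row n) => r) (fun i => aemeasurable_id)
  have hdis : Disjoint (Finset.univ.erase w) ({w} : Finset (Fin n)) := by
    rw [Finset.disjoint_singleton_right]
    exact Finset.notMem_erase w _
  have h2 := hind.indepFun_finset (Finset.univ.erase w) {w} hdis (fun i => measurable_pi_apply i)
  have h3 := h2.measure_inter_preimage_eq_mul
    (ext w ⁻¹' A) ((fun g : (↥({w} : Finset (Fin n)) → Row n) =>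
      g ⟨w, Finset.mem_singleton_self w⟩) ⁻¹' B) (ext_meas w hA) (measurable_pi_apply _ hB)
  have e1 : (fun (c : Wt n) (i : ↥(Finset.univ.erase w)) => c i) ⁻¹' (ext w ⁻¹' A) = A := by
    ext c
    show ext w (fun i : ↥(Finset.univ.erase w) => c i) ∈ A ↔ c ∈ A
    rw [ext_eq]
    exact hinv c 0
  have e2 : (fun (c : Wt n) (i : ↥({w} : Finset (Fin n))) => c i) ⁻¹'
      ((fun g : (↥({w} : Finset (Fin n)) → Row n) => g ⟨w, Finset.mem_singleton_self w⟩) ⁻¹' B) =
      {c | c w ∈ B} := rfl
  rw [e1, e2] at h3
  rw [h3]
  congr 1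
  have h4 := (measurePreserving_eval (fun _ : Fin n => rowlaw μ n) w).measure_preimage
    hB.nullMeasurableSet
  exact h4

end
end Pool.Agent.T6.H59.MA
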