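import Pool.Agent.T6.H59.MA.Stm

/-!
# Local limit of the minimum spanning arborescence (MP_e4ce4d_pr): module UNI
-/

namespace Pool.Agent.T6.H59.MA
open MeasureTheory Filter Topology ProbabilityTheory
noncomputable section

namespace ModUNI

/-- resampling one coordinate of a product measure -/
theorem resample {ι : Type*} [Fintype ι] [DecidableEq ι] {X : ι → Type*}
    [∀ i, MeasurableSpace (X i)] (m : ∀ i, Measure (X i)) [∀ i, IsProbabilityMeasure (m i)]
    (i : ι) : (((m i).prod (Measure.pi m)).map (fun p => Function.update p.2 i p.1)) =
      Measure.pi m := by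
  have hmeas : Measurable (fun p : X i × (∀ j, X j) => Function.update p.2 i p.1) := by
    refine measurable_pi_lambda _ fun j => ?_
    by_cases h : j = i
    · subst h
      simp only [Function.update_self]
      exact measurable_fst
    · simp only [Function.update_of_ne h]
      exact (measurable_pi_apply j).comp measurable_snd
  refine (Measure.pi_eq fun s hs => ?_).symm
  rw [Measure.map_apply hmeas (MeasurableSet.univ_pi hs)]
  have e : (fun p : X i × (∀ j, X j) => Function.update p.2 i p.1) ⁻¹' (Set.univ.pi s) =
      (s i) ×ˢ (Set.univ.pi (Function.update s i Set.univ)) := by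
    ext ⟨t, c⟩
    simp only [Set.mem_preimage, Set.mem_pi, Set.mem_univ, true_imp_iff, Set.mem_prod]
    constructor
    · intro h
      refine ⟨by simpa using h i, fun j => ?_⟩
      by_cases hj : j = i
      · subst hj
        simp
      · have := h j
        rw [Function.update_of_ne hj] at this ⊢
        exact this
    · rintro ⟨h1, h2⟩ j
      by_cases hj : j = i
      · subst hj
        simpa using h1
      · have := h2 j
        rw [Function.update_of_ne hj] at this ⊢
        exact this
  rw [e, Measure.prod_prod, Measure.pi_pi, ← Finset.mul_prod_erase Finset.univ _ (Finset.mem_univ i),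
    ← Finset.mul_prod_erase Finset.univ (fun j => m j (s j)) (Finset.mem_univ i),
    Function.update_self, measure_univ, one_mul]
  congr 1
  refine Finset.prod_congr rfl fun j hj => ?_
  rw [Function.update_of_ne (Finset.ne_of_mem_erase hj)]

/-- resampling one coordinate of the weights -/
def T2 {n : ℕ} (v w : Fin n) (p : ℝ × Wt n) : Wt n :=
  Function.update p.2 v (Function.update (p.2 v) w p.1)

theorem T2_meas {n : ℕ} (v w : Fin n) : Measurable (T2 v w) := by
  refine measurable_pi_lambda _ fun j => ?_
  unfold T2
  by_cases h : j = v
  · subst h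
    simp only [Function.update_self]
    refine measurable_pi_lambda _ fun k => ?_
    by_cases hk : k = w
    · subst hk
      simp only [Function.update_self]
      exact measurable_fst
    · simp only [Function.update_of_ne hk]
      exact (measurable_pi_apply k).comp ((measurable_pi_apply j).comp measurable_snd)
  · simp only [Function.update_of_ne h]
    exact (measurable_pi_apply j).comp measurable_snd

theorem resample2 (μ : Measure ℝ) [IsProbabilityMeasure μ] {n : ℕ} (v w : Fin n) :
    (μ.prod (law μ n)).map (T2 v w) = law μ n := by
  have : IsProbabilityMeasure (rowlaw μ n) := by unfold rowlaw; infer_instance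
  unfold law
  refine (Measure.pi_eq fun s hs => ?_).symm
  rw [Measure.map_apply (T2_meas v w) (MeasurableSet.univ_pi hs)]
  have hbox : MeasurableSet (T2 v w ⁻¹' (Set.univ.pi s)) := T2_meas v w (MeasurableSet.univ_pi hs)
  rw [Measure.prod_apply hbox]
  -- the sections
  have hsec : ∀ t : ℝ, (Measure.pi fun _ : Fin n => rowlaw μ n)
      (Prod.mk t ⁻¹' (T2 v w ⁻¹' (Set.univ.pi s))) =
      rowlaw μ n {r | Function.update r w t ∈ s v} *
        ∏ j ∈ Finset.univ.erase v, rowlaw μ n (s j) := by
    intro t
    have e : Prod.mk t ⁻¹' (T2 v w ⁻¹' (Set.univ.pi s)) =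
        Set.univ.pi (Function.update s v {r | Function.update r w t ∈ s v}) := by
      ext c
      simp only [Set.mem_preimage, Set.mem_pi, Set.mem_univ, true_imp_iff, T2]
      constructor
      · intro h j
        by_cases hj : j = v
        · subst hj
          have := h j
          rw [Function.update_self] at this ⊢
          exact this
        · have := h j
          rw [Function.update_of_ne hj] at this ⊢
          exact this
      · intro h j
        by_cases hj : j = v
        · subst hj
          have := h j
          rw [Function.update_self] at this ⊢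
          exact this
        · have := h j
          rw [Function.update_of_ne hj] at this ⊢
          exact this
    rw [e, Measure.pi_pi, ← Finset.mul_prod_erase Finset.univ _ (Finset.mem_univ v),
      Function.update_self]
    congr 1
    refine Finset.prod_congr rfl fun j hj => ?_
    rw [Function.update_of_ne (Finset.ne_of_mem_erase hj)]
  simp only [hsec]
  have hin : Measurable (fun p : ℝ × Row n => Function.update p.2 w p.1) := by
    refine measurable_pi_lambda _ fun j => ?_
    by_cases h : j = w
    · subst h
      simp only [Function.update_self]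
      exact measurable_fst
    · simp only [Function.update_of_ne h]
      exact (measurable_pi_apply j).comp measurable_snd
  have hms : Measurable fun t : ℝ => rowlaw μ n {r | Function.update r w t ∈ s v} :=
    measurable_measure_prodMk_left (hin (hs v))
  rw [lintegral_mul_const _ hms, ← Finset.mul_prod_erase Finset.univ (fun j => rowlaw μ n (s j))
    (Finset.mem_univ v)]
  congr 1
  have h1 := resample (fun _ : Fin n => μ) w
  have h2 : (μ.prod (rowlaw μ n)) ((fun p : ℝ × Row n => Function.update p.2 w p.1) ⁻¹' (s v)) =
      rowlaw μ n (s v) := by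
    rw [← Measure.map_apply hin (hs v)]
    unfold rowlaw
    rw [h1]
  rw [← h2, Measure.prod_apply (hin (hs v))]
  rfl

/-- one coordinate is almost surely different from a function of the others -/
theorem null_coord (μ : Measure ℝ) [IsProbabilityMeasure μ] [NullSingletonClass μ] {n : ℕ}
    (v w : Fin n) (g : Wt n → ℝ) (hg : Measurable g)
    (hinv : ∀ (c : Wt n) (t : ℝ), g (Function.update c v (Function.update (c v) w t)) = g c) :
    law μ n {c | c v w = g c} = 0 := by
  have : IsProbabilityMeasure (rowlaw μ n) := by unfold rowlaw; infer_instance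
  have : IsProbabilityMeasure (law μ n) := by unfold law; infer_instance
  have hS : MeasurableSet {c : Wt n | c v w = g c} :=
    measurableSet_eq_fun ((measurable_pi_apply w).comp (measurable_pi_apply v)) hg
  rw [← resample2 μ v w, Measure.map_apply (T2_meas v w) hS]
  have e : T2 v w ⁻¹' {c : Wt n | c v w = g c} = {p : ℝ × Wt n | p.1 = g p.2} := by
    ext ⟨t, c⟩
    show T2 v w (t, c) v w = g (T2 v w (t, c)) ↔ t = g c
    unfold T2
    rw [hinv]
    simp
  have hms : MeasurableSet {p : ℝ × Wt n | p.1 = g p.2} :=
    measurableSet_eq_fun measurable_fst (hg.comp measurable_snd)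
  rw [e, Measure.prod_apply_symm hms]
  have h0 : ∀ c : Wt n, μ ((fun t : ℝ => (t, c)) ⁻¹' {p : ℝ × Wt n | p.1 = g p.2}) = 0 := by
    intro c
    have e2 : ((fun t : ℝ => (t, c)) ⁻¹' {p : ℝ × Wt n | p.1 = g p.2}) = {g c} := by
      ext t
      simp
    rw [e2]
    exact measure_singleton _
  simp only [h0, lintegral_zero]

end ModUNI

open ModUNI

theorem stmUNI : StmUNI := by
  classical
  intro μ _ _ n d
  have hsub : {c : Wt n | ∃ M M', M ≠ M' ∧ IsMinArb c d M ∧ IsMinArb c d M'} ⊆
      ⋃ p ∈ {p : (Fin n → Fin n) × (Fin n → Fin n) | p.1 ≠ p.2 ∧ p.1 d = p.2 d},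
        {c : Wt n | wt c d p.1 = wt c d p.2} := by
    rintro c ⟨M, M', hne, h1, h2⟩
    simp only [Set.mem_iUnion]
    exact ⟨(M, M'), ⟨hne, h1.1.1.trans h2.1.1.symm⟩, le_antisymm (h1.2 M' h2.1) (h2.2 M h1.1)⟩
  refine measure_mono_null hsub ((measure_biUnion_null_iff (Set.to_countable _)).mpr ?_)
  rintro ⟨M, M'⟩ ⟨hne, hd⟩
  obtain ⟨v, hv⟩ := Function.ne_iff.mp hne
  have hvd : v ≠ d := by
    rintro rfl
    exact hv hd
  have hve : v ∈ Finset.univ.erase d := Finset.mem_erase.mpr ⟨hvd, Finset.mem_univ _⟩
  set g : Wt n → ℝ := fun c => wt c d M' - ∑ x ∈ (Finset.univ.erase d).erase v, c x (M x) with hg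
  have hgm : Measurable g := by
    unfold g wt
    refine Measurable.sub ?_ ?_
    · exact Finset.measurable_sum _ fun x _ => (measurable_pi_apply (M' x)).comp (measurable_pi_apply x)
    · exact Finset.measurable_sum _ fun x _ => (measurable_pi_apply (M x)).comp (measurable_pi_apply x)
  have hset : {c : Wt n | wt c d M = wt c d M'} ⊆ {c | c v (M v) = g c} := by
    intro c hc
    have hc' : wt c d M = wt c d M' := hc
    show c v (M v) = wt c d M' - ∑ x ∈ (Finset.univ.erase d).erase v, c x (M x)
    rw [← hc', wt, ← Finset.add_sum_erase _ _ hve]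
    ring
  refine measure_mono_null hset (null_coord μ v (M v) g hgm ?_)
  intro c t
  show wt _ d M' - ∑ x ∈ (Finset.univ.erase d).erase v, _ = wt c d M' - _
  congr 1
  · unfold wt
    refine Finset.sum_congr rfl fun x _ => ?_
    by_cases hx : x = v
    · subst hx
      rw [Function.update_self, Function.update_of_ne (Ne.symm hv)]
    · rw [Function.update_of_ne hx]
  · refine Finset.sum_congr rfl fun x hx => ?_
    rw [Function.update_of_ne (Finset.ne_of_mem_erase hx)]

end
end Pool.Agent.T6.H59.MA
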