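import Pool.Agent.T6.H59.MA.Stm
import Pool.Agent.T6.H59.MA.UNI

/-!
# Local limit of the minimum spanning arborescence (MP_e4ce4d_pr): modules MR and GEN
-/

namespace Pool.Agent.T6.H59.MA
open MeasureTheory Filter Topology
noncomputable section

namespace ModMR

/-- smallest minimiser -/
theorem argmin {n : ℕ} (P : Fin n → Prop) (φ : Fin n → ℝ) (hP : ∃ w, P w) :
    ∃ w, P w ∧ ∀ w', P w' → φ w ≤ φ w' ∧ (w' < w → φ w < φ w') := by
  classical
  obtain ⟨w0, h0⟩ := hP
  obtain ⟨w, hw, hmin⟩ := Finset.exists_min_image (Finset.univ.filter P)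
    (fun w => toLex (φ w, w)) ⟨w0, by simp [h0]⟩
  refine ⟨w, by simpa using hw, fun w' hw' => ?_⟩
  have h := hmin w' (by simp [hw'])
  rw [Prod.Lex.toLex_le_toLex] at h
  constructor
  · rcases h with h | h
    · exact h.le
    · exact h.1.le
  · intro hlt
    rcases h with h | h
    · exact h
    · exact absurd hlt (not_lt.mpr h.2)

theorem isTgt_unique {n : ℕ} {r : Row n} {v w w' : Fin n} (h : IsTgt r v w) (h' : IsTgt r v w') :
    w = w' := by
  rcases lt_trichotomy w w' with hlt | heq | hlt
  · have h1 := (h.2 w' h'.1).1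
    have h2 := (h'.2 w h.1).2 hlt
    linarith
  · exact heq
  · have h1 := (h'.2 w h.1).1
    have h2 := (h.2 w' h'.1).2 hlt
    linarith

theorem tgt_spec {n : ℕ} (r : Row n) {v : Fin n} (hex : ∃ w : Fin n, w ≠ v) :
    IsTgt r v (tgt r v) := by
  have h : ∃ w, IsTgt r v w := by
    obtain ⟨w, hw, hmin⟩ := argmin (fun w => w ≠ v) r hex
    exact ⟨w, hw, hmin⟩
  unfold tgt
  rw [dif_pos h]
  exact h.choose_spec

theorem tgt_iff {n : ℕ} (r : Row n) {v : Fin n} (hex : ∃ w : Fin n, w ≠ v) (w : Fin n) :
    tgt r v = w ↔ IsTgt r v w := by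
  constructor
  · rintro rfl
    exact tgt_spec r hex
  · intro h
    exact isTgt_unique (tgt_spec r hex) h

theorem exists_ne_of_two {n : ℕ} (hn : 2 ≤ n) (v : Fin n) : ∃ w : Fin n, w ≠ v := by
  have : Nontrivial (Fin n) := Fin.nontrivial_iff_two_le.mpr hn
  exact exists_ne v

theorem meas_isTgt {n : ℕ} (v w : Fin n) : MeasurableSet {r : Row n | IsTgt r v w} := by
  rw [measurableSet_setOfPred]
  unfold IsTgt
  refine measurable_const.and (Measurable.forall fun w' => Measurable.imp measurable_const ?_)
  refine Measurable.and ?_ (Measurable.imp measurable_const ?_)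
  · exact measurableSet_setOfPred.mp
      (measurableSet_le (measurable_pi_apply w) (measurable_pi_apply w'))
  · exact measurableSet_setOfPred.mp
      (measurableSet_lt (measurable_pi_apply w) (measurable_pi_apply w'))

theorem meas_tgt_set {n : ℕ} (v w : Fin n) : MeasurableSet {r : Row n | tgt r v = w} := by
  by_cases hex : ∃ w : Fin n, w ≠ v
  · have e : {r : Row n | tgt r v = w} = {r : Row n | IsTgt r v w} := by
      ext r
      exact tgt_iff r hex w
    rw [e]
    exact meas_isTgt v w
  · push Not at hex
    have e : {r : Row n | tgt r v = w} = Set.univ := by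
      ext r
      have h1 := hex (tgt r v)
      have h2 := hex w
      simp [h1, h2]
    rw [e]
    exact MeasurableSet.univ

theorem meas_tgt {n : ℕ} (v : Fin n) : Measurable (fun r : Row n => tgt r v) :=
  measurable_to_countable' fun w => meas_tgt_set v w

theorem meas_eval {n : ℕ} : Measurable (fun p : Row n × Fin n => p.1 p.2) :=
  measurable_from_prod_countable_left fun i => measurable_pi_apply i

theorem meas_rc {n : ℕ} (v w : Fin n) : Measurable (fun r : Row n => rc r v w) := by
  unfold rc
  exact (measurable_pi_apply w).sub (meas_eval.comp (measurable_id.prodMk (meas_tgt v)))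

theorem meas_ne_tgt {n : ℕ} (v w : Fin n) : Measurable (fun r : Row n => w ≠ tgt r v) := by
  rw [← measurableSet_setOfPred]
  have e : {r : Row n | w ≠ tgt r v} = {r : Row n | tgt r v = w}ᶜ := by
    ext r
    exact ne_comm
  rw [e]
  exact (meas_tgt_set v w).compl

theorem meas_rc_le {n : ℕ} (v w : Fin n) (h : ℝ) : Measurable (fun r : Row n => rc r v w ≤ h) :=
  measurableSet_setOfPred.mp (measurableSet_le (meas_rc v w) measurable_const)

open Classical in
theorem meas_card {n : ℕ} (v w : Fin n) (J : ℕ) :
    Measurable (fun r : Row n =>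
      (Finset.univ.filter (fun w' => w' ≠ v ∧ r w' < r w)).card ≤ J) := by
  have h1 : Measurable (fun r : Row n =>
      (Finset.univ.filter (fun w' => w' ≠ v ∧ r w' < r w)).card) := by
    simp only [Finset.card_filter]
    refine Finset.measurable_sum _ fun w' _ => ?_
    have h2 : MeasurableSet {r : Row n | w' ≠ v ∧ r w' < r w} := by
      rw [measurableSet_setOfPred]
      exact measurable_const.and (measurableSet_setOfPred.mp
        (measurableSet_lt (measurable_pi_apply w') (measurable_pi_apply w)))
    exact Measurable.ite h2 measurable_const measurable_const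
  exact measurableSet_setOfPred.mp (measurableSet_le h1 measurable_const)

end ModMR

open ModMR

theorem stmMR : StmMR := by
  classical
  intro n v h J
  refine ⟨meas_tgt_set v, fun S => ?_, fun S => ?_⟩
  · have e : {r : Row n | ex r v h = S} =
        {r | ∀ w, (w ∈ S ↔ (w ≠ v ∧ w ≠ tgt r v ∧ rc r v w ≤ h))} := by
      ext r
      simp only [Set.mem_ofPred_eq, ex, Finset.ext_iff, Finset.mem_filter, Finset.mem_univ,
        true_and]
      exact forall_congr' fun w => iff_comm
    rw [e, measurableSet_setOfPred]
    refine Measurable.forall fun w => Measurable.iff measurable_const ?_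
    exact measurable_const.and ((meas_ne_tgt v w).and (meas_rc_le v w h))
  · have e : {r : Row n | nb r v h J = S} =
        {r | ∀ w, (w ∈ S ↔ (w ≠ v ∧ rc r v w ≤ h ∧
          (Finset.univ.filter (fun w' => w' ≠ v ∧ r w' < r w)).card ≤ J))} := by
      ext r
      simp only [Set.mem_ofPred_eq, nb, Finset.ext_iff, Finset.mem_filter, Finset.mem_univ,
        true_and]
      exact forall_congr' fun w => iff_comm
    rw [e, measurableSet_setOfPred]
    refine Measurable.forall fun w => Measurable.iff measurable_const ?_
    exact measurable_const.and ((meas_rc_le v w h).and (meas_card v w J))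

namespace ModGEN

theorem null_eq (μ : Measure ℝ) [IsProbabilityMeasure μ] [NullSingletonClass μ] {n : ℕ}
    {w w' : Fin n} (hne : w ≠ w') : rowlaw μ n {r | r w = r w'} = 0 := by
  have : IsProbabilityMeasure (rowlaw μ n) := by unfold rowlaw; infer_instance
  have hin : Measurable (fun p : ℝ × Row n => Function.update p.2 w p.1) := by
    refine measurable_pi_lambda _ fun j => ?_
    by_cases h : j = w
    · subst h
      simp only [Function.update_self]
      exact measurable_fst
    · simp only [Function.update_of_ne h]
      exact (measurable_pi_apply j).comp measurable_snd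
  have hS : MeasurableSet {r : Row n | r w = r w'} :=
    measurableSet_eq_fun (measurable_pi_apply w) (measurable_pi_apply w')
  have h1 : (μ.prod (rowlaw μ n)).map (fun p : ℝ × Row n => Function.update p.2 w p.1) =
      rowlaw μ n := ModUNI.resample (fun _ : Fin n => μ) w
  rw [← h1, Measure.map_apply hin hS]
  have e : (fun p : ℝ × Row n => Function.update p.2 w p.1) ⁻¹' {r : Row n | r w = r w'} =
      {p : ℝ × Row n | p.1 = p.2 w'} := by
    ext ⟨t, r⟩
    show Function.update r w t w = Function.update r w t w' ↔ t = r w'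
    rw [Function.update_self, Function.update_of_ne hne.symm]
  have hms : MeasurableSet {p : ℝ × Row n | p.1 = p.2 w'} :=
    measurableSet_eq_fun measurable_fst ((measurable_pi_apply w').comp measurable_snd)
  rw [e, Measure.prod_apply_symm hms]
  have h0 : ∀ r : Row n, μ ((fun t : ℝ => (t, r)) ⁻¹' {p : ℝ × Row n | p.1 = p.2 w'}) = 0 := by
    intro r
    have e2 : ((fun t : ℝ => (t, r)) ⁻¹' {p : ℝ × Row n | p.1 = p.2 w'}) = {r w'} := by
      ext t
      simp
    rw [e2]
    exact measure_singleton _
  simp only [h0, lintegral_zero]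

end ModGEN

theorem stmGEN : StmGEN := by
  intro μ _ _ n
  have : IsProbabilityMeasure (rowlaw μ n) := by unfold rowlaw; infer_instance
  have h1 : rowlaw μ n {r | ¬ Function.Injective r} = 0 := by
    have hsub : {r : Row n | ¬ Function.Injective r} ⊆
        ⋃ p ∈ {p : Fin n × Fin n | p.1 ≠ p.2}, {r : Row n | r p.1 = r p.2} := by
      intro r hr
      have hr' : ¬ Function.Injective r := hr
      unfold Function.Injective at hr'
      push Not at hr'
      obtain ⟨a, b, hab, hne⟩ := hr'
      simp only [Set.mem_iUnion]
      exact ⟨(a, b), hne, hab⟩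
    refine measure_mono_null hsub ((measure_biUnion_null_iff (Set.to_countable _)).mpr ?_)
    rintro ⟨a, b⟩ hne
    exact ModGEN.null_eq μ hne
  refine ⟨h1, ?_⟩
  have hsub : {c : Wt n | ¬ Gen c} ⊆ ⋃ v, {c : Wt n | c v ∈ {r | ¬ Function.Injective r}} := by
    intro c hc
    have hc' : ¬ Gen c := hc
    unfold Gen at hc'
    push Not at hc'
    obtain ⟨v, hv⟩ := hc'
    exact Set.mem_iUnion.mpr ⟨v, hv⟩
  refine measure_mono_null hsub (measure_iUnion_null fun v => ?_)
  exact (measurePreserving_eval (fun _ : Fin n => rowlaw μ n) v).quasiMeasurePreserving.preimage_null h1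

end
end Pool.Agent.T6.H59.MA
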