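import Pool.Agent.T6.H59.MA.MR

/-!
# Local limit of the minimum spanning arborescence (MP_e4ce4d_pr): module ORD
-/

namespace Pool.Agent.T6.H59.MA
open MeasureTheory Filter Topology
noncomputable section

namespace ModORD

theorem meas_key {n : ℕ} (u : Fin n) (l : List (Fin n)) :
    ∀ w, Measurable (fun c : Wt n => key c u l w) := by
  induction l with
  | nil =>
    intro w
    exact (ModMR.meas_rc u w).comp (measurable_pi_apply u)
  | cons v l ih =>
    intro w
    exact (ih w).min ((ih v).add ((ModMR.meas_rc v w).comp (measurable_pi_apply v)))

theorem isNext_unique {n : ℕ} {c : Wt n} {u : Fin n} {l : List (Fin n)} {w w' : Fin n}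
    (h : IsNext c u l w) (h' : IsNext c u l w') : w = w' := by
  rcases lt_trichotomy w w' with hlt | heq | hlt
  · have h1 := (h.2 w' h'.1).1
    have h2 := (h'.2 w h.1).2 hlt
    linarith
  · exact heq
  · have h1 := (h'.2 w h.1).1
    have h2 := (h.2 w' h'.1).2 hlt
    linarith

theorem nxt_spec {n : ℕ} (c : Wt n) (u : Fin n) (l : List (Fin n))
    (hex : ∃ w : Fin n, w ∉ expl u l) : IsNext c u l (nxt c u l) := by
  have h : ∃ w, IsNext c u l w := by
    obtain ⟨w, hw, hmin⟩ := ModMR.argmin (fun w => w ∉ expl u l) (key c u l) hex
    exact ⟨w, hw, hmin⟩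
  unfold nxt
  rw [dif_pos h]
  exact h.choose_spec

theorem nxt_iff {n : ℕ} (c : Wt n) (u : Fin n) (l : List (Fin n))
    (hex : ∃ w : Fin n, w ∉ expl u l) (w : Fin n) : nxt c u l = w ↔ IsNext c u l w := by
  constructor
  · rintro rfl
    exact nxt_spec c u l hex
  · intro h
    exact isNext_unique (nxt_spec c u l hex) h

theorem key_update {n : ℕ} (u : Fin n) (l : List (Fin n)) (x : Fin n) (hx : x ∉ expl u l)
    (c : Wt n) (r : Row n) : ∀ w, key (Function.update c x r) u l w = key c u l w := by
  induction l with
  | nil =>
    intro w
    have hxu : u ≠ x := by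
      rintro rfl
      exact hx (by simp [expl])
    simp only [key, Function.update_of_ne hxu]
  | cons v l ih =>
    intro w
    have hx' : x ∉ expl u l := by
      intro h
      apply hx
      simp only [expl, Finset.mem_insert, List.mem_toFinset, List.mem_cons] at h ⊢
      rcases h with h | h
      · exact Or.inl h
      · exact Or.inr (Or.inr h)
    have hxv : v ≠ x := by
      rintro rfl
      exact hx (by simp [expl])
    simp only [key, ih hx', Function.update_of_ne hxv]

end ModORD

open ModORD

theorem stmORD : StmORD := by
  classical
  intro n u l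
  refine ⟨fun w => ?_, fun x hx c r => ?_⟩
  · by_cases hex : ∃ w : Fin n, w ∉ expl u l
    · have e : {c : Wt n | nxt c u l = w} = {c : Wt n | IsNext c u l w} := by
        ext c
        exact nxt_iff c u l hex w
      rw [e, measurableSet_setOfPred]
      unfold IsNext
      refine measurable_const.and (Measurable.forall fun w' => Measurable.imp measurable_const ?_)
      refine Measurable.and ?_ (Measurable.imp measurable_const ?_)
      · exact measurableSet_setOfPred.mp (measurableSet_le (meas_key u l w) (meas_key u l w'))
      · exact measurableSet_setOfPred.mp (measurableSet_lt (meas_key u l w) (meas_key u l w'))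
    · have e : ∀ c : Wt n, nxt c u l = u := by
        intro c
        unfold nxt
        rw [dif_neg]
        rintro ⟨w', hw'⟩
        exact hex ⟨w', hw'.1⟩
      have e2 : {c : Wt n | nxt c u l = w} = {_c : Wt n | u = w} := by
        ext c
        simp [e c]
      rw [e2]
      exact MeasurableSet.const _
  · have hk := key_update u l x hx c r
    have hP : IsNext (Function.update c x r) u l = IsNext c u l := by
      funext w
      unfold IsNext
      simp only [hk]
    unfold nxt
    simp only [hP]

end
end Pool.Agent.T6.H59.MA
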