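import Pool.Agent.T6.H59.MA.B0
import Pool.Agent.T6.H59.MA.MR
import Pool.Agent.T6.H59.MA.ORD
import Pool.Agent.T6.H59.MA.IND

/-!
# Local limit of the minimum spanning arborescence (MP_e4ce4d_pr): module C2 (helper71)
-/

set_option autoImplicit false

namespace Pool.Agent.T6.H59.MA
open MeasureTheory Filter Topology
noncomputable section

namespace ModC2

theorem meas_ord (hO : StmORD) {n : ℕ} (u : Fin n) : ∀ (m : ℕ) (l : List (Fin n)),
    MeasurableSet {c : Wt n | ord c u m = l}
  | 0, l => by
    by_cases h : ([] : List (Fin n)) = l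
    · have : {c : Wt n | ord c u 0 = l} = Set.univ := by
        ext c; simp [ord, h]
      rw [this]; exact MeasurableSet.univ
    · have : {c : Wt n | ord c u 0 = l} = ∅ := by
        ext c; simp [ord, h]
      rw [this]; exact MeasurableSet.empty
  | m + 1, [] => by
    have : {c : Wt n | ord c u (m + 1) = []} = ∅ := by
      ext c; simp [ord]
    rw [this]; exact MeasurableSet.empty
  | m + 1, w :: l => by
    have : {c : Wt n | ord c u (m + 1) = w :: l} =
        {c : Wt n | ord c u m = l} ∩ {c : Wt n | nxt c u l = w} := by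
      ext c
      simp only [ord, List.cons.injEq, Set.mem_ofPred_eq, Set.mem_inter_iff]
      constructor
      · rintro ⟨h1, h2⟩
        rw [h2] at h1
        exact ⟨h2, h1⟩
      · rintro ⟨h1, h2⟩
        rw [h1]
        exact ⟨h2, rfl⟩
    rw [this]
    exact (meas_ord hO u m l).inter ((hO n u l).1 w)

theorem inv_ord (hO : StmORD) {n : ℕ} (u : Fin n) : ∀ (m : ℕ) (l : List (Fin n)) (x : Fin n),
    x ∉ expl u l → ∀ (c : Wt n) (r : Row n), (ord (Function.update c x r) u m = l ↔ ord c u m = l)
  | 0, l, x, _, c, r => by simp [ord]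
  | m + 1, [], x, _, c, r => by simp [ord]
  | m + 1, w :: l, x, hx, c, r => by
    have hx' : x ∉ expl u l := fun h => hx (by
      unfold expl at h ⊢
      rw [List.toFinset_cons]
      rw [Finset.mem_insert] at h ⊢
      rcases h with h | h
      · exact Or.inl h
      · exact Or.inr (Finset.mem_insert_of_mem h))
    have ih := inv_ord hO u m l x hx' c r
    have h2 := (hO n u l).2 x hx' c r
    simp only [ord, List.cons.injEq]
    constructor
    · rintro ⟨h1, h3⟩
      rw [h3, h2] at h1
      have h4 := ih.1 h3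
      rw [h4]
      exact ⟨h1, rfl⟩
    · rintro ⟨h1, h3⟩
      rw [h3] at h1
      have h4 := ih.2 h3
      rw [h4, h2]
      exact ⟨h1, rfl⟩

theorem ord_length {n : ℕ} (c : Wt n) (u : Fin n) : ∀ m, (ord c u m).length = m
  | 0 => rfl
  | m + 1 => by rw [ord, List.length_cons, ord_length c u m]

theorem meas_disj (hM : StmMR) {n : ℕ} (v : Fin n) (h : ℝ) (J : ℕ) (W : Finset (Fin n)) :
    MeasurableSet {r : Row n | Disjoint W (nb r v h J)} := by
  have : {r : Row n | Disjoint W (nb r v h J)} =
      ⋃ S : {S : Finset (Fin n) // Disjoint W S}, {r : Row n | nb r v h J = S.1} := by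
    ext r
    simp only [Set.mem_ofPred_eq, Set.mem_iUnion]
    constructor
    · intro hd
      exact ⟨⟨nb r v h J, hd⟩, rfl⟩
    · rintro ⟨⟨S, hS⟩, he⟩
      rw [he]
      exact hS
  rw [this]
  exact MeasurableSet.iUnion fun S => (hM n v h J).2.2 S.1

instance {n : ℕ} (μ : Measure ℝ) [IsProbabilityMeasure μ] : IsProbabilityMeasure (rowlaw μ n) := by
  unfold rowlaw; infer_instance

instance {n : ℕ} (μ : Measure ℝ) [IsProbabilityMeasure μ] : IsProbabilityMeasure (law μ n) := by
  unfold law; infer_instance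

/-- the law of one row -/
theorem law_row (hI : StmIND) {n : ℕ} (μ : Measure ℝ) [IsProbabilityMeasure μ] (u : Fin n)
    {B : Set (Row n)} (hB : MeasurableSet B) : law μ n {c | c u ∈ B} = rowlaw μ n B := by
  have h1 := hI μ n u Set.univ B MeasurableSet.univ hB (fun _ _ => Iff.rfl)
  rw [Set.univ_inter, measure_univ, one_mul] at h1
  exact h1

/-- the event that the cheap targets of the explored vertices avoid `W` and that `l` is the
exploration order and `w` the next vertex -/
def A {n : ℕ} (u : Fin n) (m : ℕ) (h : ℝ) (J : ℕ) (W : Finset (Fin n)) (l : List (Fin n))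
    (w : Fin n) : Set (Wt n) :=
  {c | ord c u m = l} ∩ {c | nxt c u l = w} ∩
    ({_c | Disjoint W (expl u l)} ∩ ⋂ v ∈ expl u l, {c | Disjoint W (nb (c v) v h J)})

theorem A_meas (hM : StmMR) (hO : StmORD) {n : ℕ} (u : Fin n) (m : ℕ) (h : ℝ) (J : ℕ)
    (W : Finset (Fin n)) (l : List (Fin n)) (w : Fin n) : MeasurableSet (A u m h J W l w) := by
  unfold A
  refine ((meas_ord hO u m l).inter ((hO n u l).1 w)).inter ?_
  refine MeasurableSet.inter (MeasurableSet.const _) ?_
  refine Finset.measurableSet_biInter _ fun v _ => ?_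
  have hm : Measurable (fun c : Wt n => c v) := measurable_pi_apply v
  exact hm (meas_disj hM v h J W)

theorem A_inv (hO : StmORD) {n : ℕ} (u : Fin n) (m : ℕ) (h : ℝ) (J : ℕ)
    (W : Finset (Fin n)) (l : List (Fin n)) (w x : Fin n) (hx : x ∉ expl u l) (c : Wt n)
    (r : Row n) : Function.update c x r ∈ A u m h J W l w ↔ c ∈ A u m h J W l w := by
  unfold A
  simp only [Set.mem_inter_iff, Set.mem_ofPred_eq, Set.mem_iInter]
  rw [inv_ord hO u m l x hx c r, (hO n u l).2 x hx c r]
  refine and_congr Iff.rfl (and_congr Iff.rfl ?_)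
  refine forall_congr' fun v => forall_congr' fun hv => ?_
  have : v ≠ x := fun e => hx (e ▸ hv)
  rw [Function.update_of_ne this]

theorem A_sub {n : ℕ} (u : Fin n) (m : ℕ) (h : ℝ) (J : ℕ)
    (W : Finset (Fin n)) (l : List (Fin n)) (w : Fin n) :
    A u m h J W l w ⊆ {c | Disjoint W (Cov c u m h J)} := by
  rintro c ⟨⟨h1, _⟩, h3, h4⟩
  simp only [Set.mem_ofPred_eq] at h1 h3 ⊢
  simp only [Set.mem_iInter, Set.mem_ofPred_eq] at h4
  unfold Cov
  rw [h1, Finset.disjoint_union_right, Finset.disjoint_biUnion_right]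
  exact ⟨h3, h4⟩

theorem A_disj {n : ℕ} (u : Fin n) (m : ℕ) (h : ℝ) (J : ℕ)
    (W : Finset (Fin n)) : Pairwise (Function.onFun Disjoint
      (fun p : List (Fin n) × Fin n => A u m h J W p.1 p.2)) := by
  intro p p' hne
  rw [Function.onFun, Set.disjoint_left]
  rintro c ⟨⟨h1, h2⟩, _⟩ ⟨⟨h1', h2'⟩, _⟩
  simp only [Set.mem_ofPred_eq] at h1 h2 h1' h2'
  apply hne
  have e1 : p.1 = p'.1 := h1.symm.trans h1'
  have e2 : p.2 = p'.2 := by rw [← h2, ← h2', e1]
  exact Prod.ext e1 e2

end ModC2

open ModC2

theorem stmC2_of (hI : StmIND) (hO : StmORD) (hM : StmMR) : StmC2 := by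
  classical
  intro μ _ n u h J W q hq m
  induction m with
  | zero =>
    intro hm
    rw [zero_add, pow_one]
    by_cases hu : u ∈ W
    · have : {c : Wt n | Disjoint W (Cov c u 0 h J)} = ∅ := by
        ext c
        simp only [Set.mem_ofPred_eq, Set.mem_empty_iff_false, iff_false]
        intro hd
        refine Finset.disjoint_left.1 hd hu ?_
        unfold Cov expl
        exact Finset.mem_union_left _ (Finset.mem_insert_self _ _)
      rw [this, measure_empty]
      exact zero_le
    · have : {c : Wt n | Disjoint W (Cov c u 0 h J)} ⊆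
          {c : Wt n | c u ∈ {r : Row n | Disjoint W (nb r u h J)}} := by
        intro c hd
        simp only [Set.mem_ofPred_eq] at hd ⊢
        refine Finset.disjoint_of_subset_right ?_ hd
        unfold Cov
        refine Finset.subset_union_right.trans' ?_
        refine Finset.subset_biUnion_of_mem (fun v => nb (c v) v h J) ?_
        unfold expl
        exact Finset.mem_insert_self _ _
      refine (measure_mono this).trans ?_
      rw [law_row hI μ u (meas_disj hM u h J W)]
      exact hq u hu
  | succ m ih =>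
    intro hm
    have ih' := ih (by omega)
    -- the index set
    let P : List (Fin n) × Fin n → Prop := fun p => p.2 ∉ expl u p.1 ∧ p.2 ∉ W
    have hsub : {c : Wt n | Disjoint W (Cov c u (m + 1) h J)} ⊆
        ⋃ p : {p : List (Fin n) × Fin n // P p}, (A u m h J W p.1.1 p.1.2 ∩
          {c : Wt n | c p.1.2 ∈ {r : Row n | Disjoint W (nb r p.1.2 h J)}}) := by
      intro c hd
      simp only [Set.mem_ofPred_eq] at hd
      have hx := B0.x_spec c u (m := m) (by omega)
      unfold Cov at hd
      rw [Finset.disjoint_union_right, Finset.disjoint_biUnion_right] at hd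
      obtain ⟨hd1, hd2⟩ := hd
      have hE : expl u (ord c u (m + 1)) =
          insert (nxt c u (ord c u m)) (expl u (ord c u m)) := B0.E_succ c u m
      rw [hE] at hd1 hd2
      rw [Set.mem_iUnion]
      refine ⟨⟨(ord c u m, nxt c u (ord c u m)), hx.1, ?_⟩, ?_, ?_⟩
      · exact fun hw => Finset.disjoint_left.1 hd1 hw (Finset.mem_insert_self _ _)
      · refine ⟨⟨rfl, rfl⟩, ?_, ?_⟩
        · exact Finset.disjoint_of_subset_right (Finset.subset_insert _ _) hd1
        · simp only [Set.mem_iInter]
          intro v hv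
          exact hd2 v (Finset.mem_insert_of_mem hv)
      · exact hd2 _ (Finset.mem_insert_self _ _)
    calc law μ n {c : Wt n | Disjoint W (Cov c u (m + 1) h J)}
        ≤ law μ n (⋃ p : {p : List (Fin n) × Fin n // P p}, (A u m h J W p.1.1 p.1.2 ∩
          {c : Wt n | c p.1.2 ∈ {r : Row n | Disjoint W (nb r p.1.2 h J)}})) := measure_mono hsub
      _ ≤ ∑' p : {p : List (Fin n) × Fin n // P p}, law μ n (A u m h J W p.1.1 p.1.2 ∩
          {c : Wt n | c p.1.2 ∈ {r : Row n | Disjoint W (nb r p.1.2 h J)}}) := measure_iUnion_le _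
      _ ≤ ∑' p : {p : List (Fin n) × Fin n // P p}, law μ n (A u m h J W p.1.1 p.1.2) * q := by
          refine ENNReal.tsum_le_tsum fun p => ?_
          rw [hI μ n p.1.2 _ _ (A_meas hM hO u m h J W p.1.1 p.1.2) (meas_disj hM p.1.2 h J W)
            (fun c r => A_inv hO u m h J W p.1.1 p.1.2 p.1.2 p.2.1 c r)]
          exact mul_le_mul' le_rfl (hq p.1.2 p.2.2)
      _ = law μ n (⋃ p : {p : List (Fin n) × Fin n // P p}, A u m h J W p.1.1 p.1.2) * q := by
          rw [ENNReal.tsum_mul_right, measure_iUnion]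
          · intro p p' hne
            exact A_disj u m h J W (fun e => hne (Subtype.ext e))
          · exact fun p => A_meas hM hO u m h J W p.1.1 p.1.2
      _ ≤ q ^ (m + 1) * q := by
          refine mul_le_mul' ?_ le_rfl
          refine le_trans (measure_mono ?_) ih'
          exact Set.iUnion_subset fun p => A_sub u m h J W p.1.1 p.1.2
      _ = q ^ (m + 1 + 1) := (pow_succ q (m + 1)).symm

theorem stmC2 : StmC2 := stmC2_of stmIND stmORD stmMR

end
end Pool.Agent.T6.H59.MA
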