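import Pool.Agent.T6.H59.MA.C2

/-!
# Local limit of the minimum spanning arborescence (MP_e4ce4d_pr): module C3 (helper71)
-/

set_option autoImplicit false

namespace Pool.Agent.T6.H59.MA
open MeasureTheory Filter Topology
noncomputable section

namespace ModC3

/-- counting with outer measures: if every point of `S` lies in at least `k` of the sets `T i` -/
theorem count_le {Ω ι : Type*} [MeasurableSpace Ω] (P : Measure Ω) (s : Finset ι) (T : ι → Set Ω)
    (S : Set Ω) (k : ℕ) (hk : ∀ x ∈ S, ∃ t ⊆ s, t.card = k ∧ ∀ i ∈ t, x ∈ T i) :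
    (k : ENNReal) * P S ≤ ∑ i ∈ s, P (T i) := by
  classical
  set f : Ω → ENNReal := fun x => ∑ i ∈ s, (toMeasurable P (T i)).indicator 1 x with hf
  have hfm : Measurable f := by
    refine Finset.measurable_sum _ fun i _ => ?_
    exact measurable_one.indicator (measurableSet_toMeasurable P (T i))
  have hsub : S ⊆ {x | (k : ENNReal) ≤ f x} := by
    intro x hx
    obtain ⟨t, hts, htc, htx⟩ := hk x hx
    show (k : ENNReal) ≤ ∑ i ∈ s, (toMeasurable P (T i)).indicator 1 x
    calc (k : ENNReal) = ∑ i ∈ t, (1 : ENNReal) := by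
          rw [Finset.sum_const, nsmul_eq_mul, mul_one, htc]
      _ = ∑ i ∈ t, (toMeasurable P (T i)).indicator 1 x := by
          refine Finset.sum_congr rfl fun i hi => ?_
          rw [Set.indicator_of_mem (subset_toMeasurable P (T i) (htx i hi)), Pi.one_apply]
      _ ≤ _ := Finset.sum_le_sum_of_subset hts
  calc (k : ENNReal) * P S ≤ (k : ENNReal) * P {x | (k : ENNReal) ≤ f x} :=
        mul_le_mul' le_rfl (measure_mono hsub)
    _ ≤ ∫⁻ x, f x ∂P := mul_meas_ge_le_lintegral hfm _
    _ = ∑ i ∈ s, P (T i) := by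
        rw [hf, lintegral_finsetSum]
        · refine Finset.sum_congr rfl fun i _ => ?_
          rw [lintegral_indicator_one (measurableSet_toMeasurable P (T i)), measure_toMeasurable]
        · exact fun i _ => measurable_one.indicator (measurableSet_toMeasurable P (T i))

end ModC3

open ModC3

theorem stmC3_of (hC1 : StmC1) (hC2 : StmC2) : StmC3 := by
  classical
  intro μ _ _ n u m h J j M' κ hn hh hm hj hMj hM1 hκ
  have hprob : IsProbabilityMeasure (rowlaw μ n) := by unfold rowlaw; infer_instance
  set base : ℝ := 1 - j * (1 + κ) / ((n : ℝ) - 1)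
        + (j : ℝ) ^ 2 * ((J : ℝ) + 1) ^ 2 / (((n : ℝ) - 1) * ((n : ℝ) - 2)) with hbase
  have hn1 : (0 : ℝ) < (n : ℝ) - 1 := by
    have : (3 : ℝ) ≤ n := by exact_mod_cast hn
    linarith
  -- probability for one row
  have hrow : ∀ (W : Finset (Fin n)), W.card = j → ∀ v, v ∉ W →
      (rowlaw μ n).real {r | Disjoint W (nb r v h J)} ≤ base := by
    intro W hW v hv
    refine (hC1 μ n v h J W hn hh hv).trans ?_
    rw [hW, hbase]
    have h1 : (j : ℝ) * (1 + κ) / ((n : ℝ) - 1) ≤ (j : ℝ) * (1 + kap μ n v h J) / ((n : ℝ) - 1) := by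
      refine div_le_div_of_nonneg_right ?_ hn1.le
      refine mul_le_mul_of_nonneg_left ?_ (Nat.cast_nonneg _)
      linarith [hκ v]
    linarith
  -- the base is nonnegative
  have hb0 : 0 ≤ base := by
    obtain ⟨W, -, hWc⟩ := Finset.exists_subset_card_eq (s := (Finset.univ : Finset (Fin n)))
      (n := j) (by rw [Finset.card_univ, Fintype.card_fin]; omega)
    have hne : ∃ v, v ∉ W := by
      by_contra hcon
      push Not at hcon
      have : W = Finset.univ := Finset.eq_univ_iff_forall.2 hcon
      rw [this, Finset.card_univ, Fintype.card_fin] at hWc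
      omega
    obtain ⟨v, hv⟩ := hne
    exact measureReal_nonneg.trans (hrow W hWc v hv)
  have hq : ∀ (W : Finset (Fin n)), W.card = j →
      law μ n {c | Disjoint W (Cov c u m h J)} ≤ ENNReal.ofReal (base ^ (m + 1)) := by
    intro W hW
    rw [ENNReal.ofReal_pow hb0]
    refine hC2 μ n u h J W (ENNReal.ofReal base) (fun v hv => ?_) m hm
    have h1 := hrow W hW v hv
    rw [← ENNReal.ofReal_toReal (measure_ne_top (rowlaw μ n) {r | Disjoint W (nb r v h J)})]
    exact ENNReal.ofReal_le_ofReal h1
  have hcount := count_le (law μ n) (Finset.powersetCard j (Finset.univ : Finset (Fin n)))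
    (fun W => {c | Disjoint W (Cov c u m h J)}) {c | (Cov c u m h J).card ≤ M'}
    ((n - M').choose j) (by
      intro c hc
      have hc' : (Cov c u m h J).card ≤ M' := hc
      have hcc : n - M' ≤ ((Cov c u m h J)ᶜ).card := by
        rw [Finset.card_compl, Fintype.card_fin]
        omega
      obtain ⟨R, hR, hRc⟩ := Finset.exists_subset_card_eq hcc
      refine ⟨Finset.powersetCard j R, ?_, ?_, ?_⟩
      · exact Finset.powersetCard_mono (Finset.subset_univ R)
      · rw [Finset.card_powersetCard, hRc]
      · intro W hW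
        rw [Finset.mem_powersetCard] at hW
        show Disjoint W (Cov c u m h J)
        rw [Finset.disjoint_left]
        intro x hx
        exact Finset.mem_compl.1 (hR (hW.1 hx)))
  have hsum : ∑ W ∈ Finset.powersetCard j (Finset.univ : Finset (Fin n)),
      law μ n {c | Disjoint W (Cov c u m h J)} ≤
      (n.choose j : ENNReal) * ENNReal.ofReal (base ^ (m + 1)) := by
    refine (Finset.sum_le_sum (fun W hW => hq W (Finset.mem_powersetCard.1 hW).2)).trans ?_
    rw [Finset.sum_const, Finset.card_powersetCard, Finset.card_univ, Fintype.card_fin,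
      nsmul_eq_mul]
  have hfin := hcount.trans hsum
  have hpos : 0 < (n - M').choose j := Nat.choose_pos (by omega)
  have hposR : (0 : ℝ) < ((n - M').choose j : ℝ) := by exact_mod_cast hpos
  have e : ENNReal.ofReal (((n.choose j : ℝ) / ((n - M').choose j : ℝ)) * base ^ (m + 1)) =
      (n.choose j : ENNReal) * ENNReal.ofReal (base ^ (m + 1)) / ((n - M').choose j : ENNReal) := by
    rw [div_mul_eq_mul_div, ENNReal.ofReal_div_of_pos hposR, ENNReal.ofReal_mul (Nat.cast_nonneg _),
      ENNReal.ofReal_natCast, ENNReal.ofReal_natCast]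
  rw [e, ENNReal.le_div_iff_mul_le, mul_comm]
  · exact hfin
  · exact Or.inl (by exact_mod_cast hpos.ne')
  · exact Or.inl (ENNReal.natCast_ne_top _)

theorem stmC3 (hC1 : StmC1) : StmC3 := stmC3_of hC1 stmC2

end
end Pool.Agent.T6.H59.MA
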