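import Pool.Agent.T6.H59.MA.R

/-!
# Local limit of the minimum spanning arborescence (MP_e4ce4d_pr): module D1 (helper71)
-/

set_option autoImplicit false

namespace Pool.Agent.T6.H59.MA
open MeasureTheory Filter Topology
noncomputable section

namespace ModD1

theorem ex_perm {n : ℕ} (hn : 2 ≤ n) {r : Row n} (hr : Function.Injective r) (v : Fin n)
    (τ : Equiv.Perm (Fin n)) (hτ : τ v = v) (h : ℝ) (w : Fin n) :
    w ∈ ex (fun x => r (τ x)) v h ↔ τ w ∈ ex r v h := by
  have h1 := ModR.tgt_perm hn hr v τ hτ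
  unfold ex rc
  simp only [Finset.mem_filter, Finset.mem_univ, true_and]
  have e1 : (w ≠ v) ↔ (τ w ≠ v) := by
    constructor
    · intro h2 h3
      exact h2 (τ.injective (h3.trans hτ.symm))
    · rintro h2 rfl
      exact h2 hτ
  have e2 : (w ≠ tgt (fun x => r (τ x)) v) ↔ τ w ≠ tgt r v := by
    rw [← h1]
    exact (not_congr τ.injective.eq_iff).symm
  rw [e1, e2, ← h1]

theorem ex_card_perm {n : ℕ} (hn : 2 ≤ n) {r : Row n} (hr : Function.Injective r) (v : Fin n)
    (τ : Equiv.Perm (Fin n)) (hτ : τ v = v) (h : ℝ) :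
    (ex (fun x => r (τ x)) v h).card = (ex r v h).card := by
  have : ex r v h = (ex (fun x => r (τ x)) v h).map τ.toEmbedding := by
    ext w
    rw [Finset.mem_map]
    constructor
    · intro hw
      refine ⟨τ.symm w, ?_, by simp⟩
      rw [ex_perm hn hr v τ hτ h]
      simpa using hw
    · rintro ⟨x, hx, rfl⟩
      exact (ex_perm hn hr v τ hτ h x).1 hx
  rw [this, Finset.card_map]

/-- measurability of the function `ex` -/
theorem meas_ex_set (hM : StmMR) {n : ℕ} (v : Fin n) (h : ℝ) (P : Finset (Fin n) → Prop) :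
    MeasurableSet {r : Row n | P (ex r v h)} := by
  have : {r : Row n | P (ex r v h)} =
      ⋃ S : {S : Finset (Fin n) // P S}, {r : Row n | ex r v h = S.1} := by
    ext r
    simp only [Set.mem_ofPred_eq, Set.mem_iUnion]
    constructor
    · intro hd
      exact ⟨⟨ex r v h, hd⟩, rfl⟩
    · rintro ⟨⟨S, hS⟩, he⟩
      rw [he]
      exact hS
  rw [this]
  exact MeasurableSet.iUnion fun S => (hM n v h 0).2.1 S.1

theorem meas_ex_fun (hM : StmMR) {n : ℕ} (v : Fin n) (h : ℝ) {β : Type*} [MeasurableSpace β]
    (f : Finset (Fin n) → β) : Measurable (fun r : Row n => f (ex r v h)) := by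
  intro s _
  exact meas_ex_set hM v h (fun S => f S ∈ s)

/-- the mean of the truncated number of exits as a `lintegral` -/
theorem kap_eq (hM : StmMR) {n : ℕ} (μ : Measure ℝ) [IsProbabilityMeasure μ] (v : Fin n) (h : ℝ)
    (J : ℕ) : ENNReal.ofReal (kap μ n v h J) =
      ∫⁻ r, ((min (ex r v h).card J : ℕ) : ENNReal) ∂(rowlaw μ n) := by
  have hprob : IsProbabilityMeasure (rowlaw μ n) := by unfold rowlaw; infer_instance
  unfold kap
  have hmeas : Measurable (fun r : Row n => ((min (ex r v h).card J : ℕ) : ℝ)) :=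
    meas_ex_fun hM v h (fun S => ((min S.card J : ℕ) : ℝ))
  rw [ofReal_integral_eq_lintegral_ofReal]
  · refine lintegral_congr fun r => ?_
    rw [ENNReal.ofReal_natCast]
  · refine Integrable.of_bound hmeas.aestronglyMeasurable (J : ℝ) ?_
    refine Eventually.of_forall fun r => ?_
    rw [Real.norm_of_nonneg (Nat.cast_nonneg _)]
    exact_mod_cast min_le_right _ _
  · exact Eventually.of_forall fun r => Nat.cast_nonneg _

end ModD1

open ModD1

theorem stmD1_of (hM : StmMR) (hGEN : StmGEN) : StmD1 := by
  classical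
  intro μ _ _ n b w hn hw
  refine ⟨ModR.law_tgt hGEN μ hn b w hw, fun h J => ?_⟩
  have hprob : IsProbabilityMeasure (rowlaw μ n) := by unfold rowlaw; infer_instance
  have hinj0 : ∀ᵐ r ∂(rowlaw μ n), Function.Injective r := (hGEN μ n).1
  set S : Fin n → Set (Row n) := fun w' => {r : Row n | (ex r b h).card ≤ J ∧ w' ∈ ex r b h}
    with hS
  have hSm : ∀ w', MeasurableSet (S w') := fun w' =>
    meas_ex_set hM b h (fun T => T.card ≤ J ∧ w' ∈ T)
  have hex : ∀ w' : Fin n, w' ≠ b → rowlaw μ n (S w') = rowlaw μ n (S w) := by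
    intro w' hw'
    set τ : Equiv.Perm (Fin n) := Equiv.swap w w' with hτ
    have hτv : τ b = b := Equiv.swap_apply_of_ne_of_ne (Ne.symm hw) (Ne.symm hw')
    have hp := ModR.perm μ τ
    have h1 := hp.measure_preimage (hSm w).nullMeasurableSet
    rw [← h1]
    refine measure_congr ?_
    filter_upwards [hinj0] with r hr
    refine propext ?_
    show ((ex r b h).card ≤ J ∧ w' ∈ ex r b h) ↔
      ((ex (fun x => r (τ x)) b h).card ≤ J ∧ w ∈ ex (fun x => r (τ x)) b h)
    rw [ex_card_perm hn hr b τ hτv h, ex_perm hn hr b τ hτv h, hτ, Equiv.swap_apply_left]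
  have hcard : (Finset.univ.erase b).card = n - 1 := by
    rw [Finset.card_erase_of_mem (Finset.mem_univ b), Finset.card_univ, Fintype.card_fin]
  have hsum : ∑ w' ∈ Finset.univ.erase b, rowlaw μ n (S w') ≤ ENNReal.ofReal (kap μ n b h J) := by
    rw [kap_eq hM μ b h J]
    calc ∑ w' ∈ Finset.univ.erase b, rowlaw μ n (S w')
        = ∑ w' ∈ Finset.univ.erase b, ∫⁻ r, (S w').indicator 1 r ∂(rowlaw μ n) := by
          refine Finset.sum_congr rfl fun w' _ => ?_
          rw [lintegral_indicator_one (hSm w')]
      _ = ∫⁻ r, ∑ w' ∈ Finset.univ.erase b, (S w').indicator 1 r ∂(rowlaw μ n) := by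
          rw [lintegral_finsetSum]
          exact fun w' _ => measurable_one.indicator (hSm w')
      _ ≤ ∫⁻ r, ((min (ex r b h).card J : ℕ) : ENNReal) ∂(rowlaw μ n) := by
          refine lintegral_mono fun r => ?_
          by_cases hJ : (ex r b h).card ≤ J
          · have h1 : ∀ w' ∈ Finset.univ.erase b, (S w').indicator (1 : Row n → ENNReal) r ≤
                if w' ∈ ex r b h then 1 else 0 := by
              intro w' _
              rw [Set.indicator_apply]
              by_cases hm : w' ∈ ex r b h
              · rw [if_pos hm]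
                split_ifs <;> simp
              · rw [if_neg hm, if_neg (fun hc => hm hc.2)]
            refine (Finset.sum_le_sum h1).trans ?_
            rw [Finset.sum_ite, Finset.sum_const_zero, add_zero, Finset.sum_const, nsmul_eq_mul,
              mul_one, min_eq_left hJ]
            refine Nat.cast_le.2 (Finset.card_le_card ?_)
            intro x hx
            exact (Finset.mem_filter.1 hx).2
          · have h1 : ∀ w' ∈ Finset.univ.erase b, (S w').indicator (1 : Row n → ENNReal) r = 0 := by
              intro w' _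
              rw [Set.indicator_apply, if_neg (fun hc => hJ hc.1)]
            rw [Finset.sum_eq_zero h1]
            exact zero_le
  rw [Finset.sum_congr rfl (fun w' hw' => hex w' (Finset.ne_of_mem_erase hw')),
    Finset.sum_const, hcard, nsmul_eq_mul] at hsum
  have hn1 : (0 : ℝ) < (n : ℝ) - 1 := by
    have : (2 : ℝ) ≤ n := by exact_mod_cast hn
    linarith
  have hcast : ((n - 1 : ℕ) : ENNReal) = ENNReal.ofReal ((n : ℝ) - 1) := by
    rw [← ENNReal.ofReal_natCast, Nat.cast_sub (by omega)]
    simp
  rw [hcast] at hsum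
  rw [ENNReal.ofReal_div_of_pos hn1, ENNReal.le_div_iff_mul_le, mul_comm]
  · exact hsum
  · exact Or.inl (by simpa using hn1)
  · exact Or.inl ENNReal.ofReal_ne_top

theorem stmD1 : StmD1 := stmD1_of stmMR stmGEN

end
end Pool.Agent.T6.H59.MA
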