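import Pool.Agent.T6.H59.MA.C2
import Pool.Agent.T6.H59.MA.D1

/-!
# Local limit of the minimum spanning arborescence (MP_e4ce4d_pr): module D2 (helper71)
-/

set_option autoImplicit false

namespace Pool.Agent.T6.H59.MA
open MeasureTheory Filter Topology
noncomputable section

namespace ModD2

theorem chain_mem {n : ℕ} {c : Wt n} {h : ℝ} {J k : ℕ} {U : Finset (Fin n)} {b : Fin n}
    (H : Chain c h J k U b) : b ∈ U := by
  cases H with
  | zero _ _ hb => exact hb
  | free _ _ _ hb _ => exact hb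
  | exit _ _ _ _ hb _ _ _ => exact hb

theorem chain_succ {n : ℕ} {c : Wt n} {h : ℝ} {J k : ℕ} {U : Finset (Fin n)} {b : Fin n}
    (H : Chain c h J (k + 1) U b) :
    (∃ w ∈ U.erase b, tgt (c b) b = w ∧ Chain c h J (k + 1) (U.erase b) w) ∨
    (∃ w ∈ U.erase b, ((ex (c b) b h).card ≤ J ∧ w ∈ ex (c b) b h) ∧
      Chain c h J k (U.erase b) w) := by
  cases H with
  | free _ _ _ hb H' => exact Or.inl ⟨_, chain_mem H', rfl, H'⟩
  | exit _ _ _ w hb hJ hw H' => exact Or.inr ⟨w, chain_mem H', ⟨hJ, hw⟩, H'⟩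

theorem real_ineq {n m k : ℕ} {s : ℕ} {κ r : ℝ} (hn : 2 ≤ n) (hκ : 0 ≤ κ) (hr : 0 ≤ r)
    (hs : s + m + 2 ≤ n) (h : κ * ((n : ℝ) - m - 1) ≤ r * ((m : ℝ) + 1)) :
    (s : ℝ) * (1 / ((n : ℝ) - 1) * r ^ (k + 1) + κ / ((n : ℝ) - 1) * r ^ k) ≤ r ^ (k + 1) := by
  have hn1 : (0 : ℝ) < (n : ℝ) - 1 := by
    have : (2 : ℝ) ≤ n := by exact_mod_cast hn
    linarith
  have hs' : (s : ℝ) + m + 2 ≤ n := by exact_mod_cast hs
  have key : (s : ℝ) * (r + κ) ≤ r * ((n : ℝ) - 1) := by nlinarith
  have e : (s : ℝ) * (1 / ((n : ℝ) - 1) * r ^ (k + 1) + κ / ((n : ℝ) - 1) * r ^ k) =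
      (s : ℝ) * (r + κ) / ((n : ℝ) - 1) * r ^ k := by
    field_simp
    ring
  rw [e]
  have h2 : (s : ℝ) * (r + κ) / ((n : ℝ) - 1) ≤ r := by
    rw [div_le_iff₀ hn1]
    exact key
  calc (s : ℝ) * (r + κ) / ((n : ℝ) - 1) * r ^ k ≤ r * r ^ k :=
        mul_le_mul_of_nonneg_right h2 (pow_nonneg hr k)
    _ = r ^ (k + 1) := by ring

theorem main (hI : StmIND) (hM : StmMR) (hD1 : StmD1) (μ : Measure ℝ) [IsProbabilityMeasure μ]
    [NullSingletonClass μ] {n m : ℕ} {h : ℝ} {J : ℕ} {κ r : ℝ} (hn : 2 ≤ n) (hκ : 0 ≤ κ)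
    (hkap : ∀ v, kap μ n v h J ≤ κ) (hr : 0 ≤ r)
    (hrk : κ * ((n : ℝ) - m - 1) ≤ r * ((m : ℝ) + 1)) :
    ∀ (s : ℕ) (U : Finset (Fin n)), U.card = s → s + m + 1 ≤ n → ∀ (A : Set (Wt n)),
      MeasurableSet A → (∀ x ∈ U, ∀ (c : Wt n) (ρ : Row n), Function.update c x ρ ∈ A ↔ c ∈ A) →
      ∀ (b : Fin n) (k : ℕ), law μ n (A ∩ {c | Chain c h J k U b}) ≤
        law μ n A * ENNReal.ofReal (r ^ k) := by
  classical
  intro s
  induction s with
  | zero =>
    intro U hU _ A _ _ b k
    have hU0 : U = ∅ := Finset.card_eq_zero.1 hU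
    have : {c : Wt n | Chain c h J k U b} = ∅ := by
      ext c
      simp only [Set.mem_ofPred_eq, Set.mem_empty_iff_false, iff_false]
      intro hc
      have := chain_mem hc
      rw [hU0] at this
      exact absurd this (Finset.notMem_empty _)
    rw [this, Set.inter_empty, measure_empty]
    exact zero_le
  | succ s ih =>
    intro U hU hs A hA hinv b k
    by_cases hb : b ∈ U
    swap
    · have : {c : Wt n | Chain c h J k U b} = ∅ := by
        ext c
        simp only [Set.mem_ofPred_eq, Set.mem_empty_iff_false, iff_false]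
        exact fun hc => hb (chain_mem hc)
      rw [this, Set.inter_empty, measure_empty]
      exact zero_le
    cases k with
    | zero =>
      rw [pow_zero, ENNReal.ofReal_one, mul_one]
      exact measure_mono Set.inter_subset_left
    | succ k =>
      have hcard : (U.erase b).card = s := by
        rw [Finset.card_erase_of_mem hb, hU]
        omega
      -- the two kinds of first steps
      have hstep : ∀ (B : Set (Row n)), MeasurableSet B → ∀ (w : Fin n) (k' : ℕ),
          law μ n ((A ∩ {c | c b ∈ B}) ∩ {c | Chain c h J k' (U.erase b) w}) ≤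
            law μ n A * rowlaw μ n B * ENNReal.ofReal (r ^ k') := by
        intro B hB w k'
        have hmb : MeasurableSet {c : Wt n | c b ∈ B} := by
          have hm : Measurable (fun c : Wt n => c b) := measurable_pi_apply b
          exact hm hB
        have h1 := ih (U.erase b) hcard (by omega) (A ∩ {c | c b ∈ B}) (hA.inter hmb) (by
          intro x hx c ρ
          have hxb : b ≠ x := (Finset.ne_of_mem_erase hx).symm
          have h2 := hinv x (Finset.mem_of_mem_erase hx) c ρ
          show (_ ∧ _) ↔ (_ ∧ _)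
          rw [h2]
          show (_ ∧ Function.update c x ρ b ∈ B) ↔ _
          rw [Function.update_of_ne hxb]
          rfl) w k'
        rw [hI μ n b A B hA hB (fun c ρ => hinv b hb c ρ)] at h1
        exact h1
      set B1 : Fin n → Set (Row n) := fun w => {ρ | tgt ρ b = w} with hB1
      set B2 : Fin n → Set (Row n) := fun w => {ρ | (ex ρ b h).card ≤ J ∧ w ∈ ex ρ b h} with hB2
      have hsub : A ∩ {c | Chain c h J (k + 1) U b} ⊆ ⋃ w ∈ U.erase b,
          (((A ∩ {c | c b ∈ B1 w}) ∩ {c | Chain c h J (k + 1) (U.erase b) w}) ∪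
          ((A ∩ {c | c b ∈ B2 w}) ∩ {c | Chain c h J k (U.erase b) w})) := by
        rintro c ⟨hcA, hc⟩
        rw [Set.mem_iUnion₂]
        rcases chain_succ hc with ⟨w, hw, h1, h2⟩ | ⟨w, hw, h1, h2⟩
        · exact ⟨w, hw, Or.inl ⟨⟨hcA, h1⟩, h2⟩⟩
        · exact ⟨w, hw, Or.inr ⟨⟨hcA, h1⟩, h2⟩⟩
      refine (measure_mono hsub).trans ((measure_biUnion_finset_le _ _).trans ?_)
      have hterm : ∀ w ∈ U.erase b,
          law μ n (((A ∩ {c | c b ∈ B1 w}) ∩ {c | Chain c h J (k + 1) (U.erase b) w}) ∪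
          ((A ∩ {c | c b ∈ B2 w}) ∩ {c | Chain c h J k (U.erase b) w})) ≤
          law μ n A * ENNReal.ofReal (1 / ((n : ℝ) - 1) * r ^ (k + 1) +
            κ / ((n : ℝ) - 1) * r ^ k) := by
        intro w hw
        have hwb : w ≠ b := Finset.ne_of_mem_erase hw
        have hn1 : (0 : ℝ) < (n : ℝ) - 1 := by
          have : (2 : ℝ) ≤ n := by exact_mod_cast hn
          linarith
        refine (measure_union_le _ _).trans ?_
        have h1 := hstep (B1 w) ((hM n b h J).1 w) w (k + 1)
        have h2 := hstep (B2 w) (ModD1.meas_ex_set hM b h (fun T => T.card ≤ J ∧ w ∈ T)) w k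
        have h3 : rowlaw μ n (B1 w) = ENNReal.ofReal (1 / ((n : ℝ) - 1)) :=
          (hD1 μ n b w hn hwb).1
        have h4 : rowlaw μ n (B2 w) ≤ ENNReal.ofReal (κ / ((n : ℝ) - 1)) :=
          ((hD1 μ n b w hn hwb).2 h J).trans
            (ENNReal.ofReal_le_ofReal (div_le_div_of_nonneg_right (hkap b) hn1.le))
        rw [h3] at h1
        refine (add_le_add h1 (h2.trans (mul_le_mul' (mul_le_mul' le_rfl h4) le_rfl))).trans ?_
        rw [ENNReal.ofReal_add (by positivity) (by positivity), mul_add,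
          ENNReal.ofReal_mul (by positivity), ENNReal.ofReal_mul (by positivity), mul_assoc,
          mul_assoc]
      refine (Finset.sum_le_sum hterm).trans ?_
      rw [Finset.sum_const, hcard, nsmul_eq_mul, mul_left_comm]
      refine mul_le_mul' le_rfl ?_
      rw [← ENNReal.ofReal_natCast, ← ENNReal.ofReal_mul (Nat.cast_nonneg _)]
      exact ENNReal.ofReal_le_ofReal (real_ineq hn hκ hr (by omega) hrk)

end ModD2

open ModD2

theorem stmD2_of (hI : StmIND) (hO : StmORD) (hM : StmMR) (hD1 : StmD1) : StmD2 := by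
  classical
  intro μ _ _ n u m k h J κ r hn hm hκ hkap hr hrk
  have hprob : IsProbabilityMeasure (law μ n) := inferInstance
  have hsub : {c : Wt n | ∃ b, Chain c h J k (Finset.univ \ expl u (ord c u m)) b} ⊆
      ⋃ l : {l : List (Fin n) // (expl u l).card = m + 1}, ⋃ b : Fin n,
        ({c : Wt n | ord c u m = l.1} ∩ {c | Chain c h J k (Finset.univ \ expl u l.1) b}) := by
    rintro c ⟨b, hb⟩
    rw [Set.mem_iUnion]
    refine ⟨⟨ord c u m, B0.card_E c u m hm⟩, ?_⟩
    rw [Set.mem_iUnion]
    exact ⟨b, rfl, hb⟩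
  calc law μ n {c : Wt n | ∃ b, Chain c h J k (Finset.univ \ expl u (ord c u m)) b}
      ≤ ∑' l : {l : List (Fin n) // (expl u l).card = m + 1}, law μ n (⋃ b : Fin n,
        ({c : Wt n | ord c u m = l.1} ∩ {c | Chain c h J k (Finset.univ \ expl u l.1) b})) :=
        (measure_mono hsub).trans (measure_iUnion_le _)
    _ ≤ ∑' l : {l : List (Fin n) // (expl u l).card = m + 1},
        law μ n {c : Wt n | ord c u m = l.1} * ENNReal.ofReal (n * r ^ k) := by
        refine ENNReal.tsum_le_tsum fun l => ?_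
        refine (measure_iUnion_le _).trans ?_
        rw [tsum_fintype]
        have h1 : ∀ b ∈ (Finset.univ : Finset (Fin n)), law μ n ({c : Wt n | ord c u m = l.1} ∩
            {c | Chain c h J k (Finset.univ \ expl u l.1) b}) ≤
            law μ n {c : Wt n | ord c u m = l.1} * ENNReal.ofReal (r ^ k) := by
          intro b _
          have hc : (Finset.univ \ expl u l.1).card = n - (m + 1) := by
            rw [Finset.card_sdiff_of_subset (Finset.subset_univ _), l.2, Finset.card_univ,
              Fintype.card_fin]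
          refine ModD2.main hI hM hD1 μ hn hκ hkap hr hrk (n - (m + 1)) _ hc (by omega) _
            (ModC2.meas_ord hO u m l.1) (fun x hx c ρ => ?_) b k
          exact ModC2.inv_ord hO u m l.1 x (Finset.mem_sdiff.1 hx).2 c ρ
        refine (Finset.sum_le_sum h1).trans ?_
        rw [Finset.sum_const, Finset.card_univ, Fintype.card_fin, nsmul_eq_mul, mul_left_comm,
          ENNReal.ofReal_mul (Nat.cast_nonneg _), ENNReal.ofReal_natCast]
    _ = law μ n (⋃ l : {l : List (Fin n) // (expl u l).card = m + 1},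
          {c : Wt n | ord c u m = l.1}) * ENNReal.ofReal (n * r ^ k) := by
        rw [ENNReal.tsum_mul_right, measure_iUnion]
        · intro l l' hne
          rw [Function.onFun, Set.disjoint_left]
          intro c h1 h2
          exact hne (Subtype.ext ((show ord c u m = l.1 from h1).symm.trans h2))
        · exact fun l => ModC2.meas_ord hO u m l.1
    _ ≤ 1 * ENNReal.ofReal (n * r ^ k) := mul_le_mul' prob_le_one le_rfl
    _ = ENNReal.ofReal (n * r ^ k) := one_mul _

theorem stmD2 : StmD2 := stmD2_of stmIND stmORD stmMR stmD1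

end
end Pool.Agent.T6.H59.MA
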