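import Pool.Agent.T6.H59.MA.Stm

/-!
# Local limit of the minimum spanning arborescence (MP_e4ce4d_pr): module E1
-/

namespace Pool.Agent.T6.H59.MA
open MeasureTheory Filter Topology ProbabilityTheory
noncomputable section

namespace ModE1

theorem null_diff (μ : Measure ℝ) [IsProbabilityMeasure μ] [NullSingletonClass μ] {n : ℕ}
    (w w' : Fin n) (hw : w ≠ w') (a : ℝ) : rowlaw μ n {r | r w - r w' = a} = 0 := by
  have hind : iIndepFun (fun (i : Fin n) (r : Row n) => r i) (rowlaw μ n) := by
    unfold rowlaw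
    exact iIndepFun_pi (X := fun (_ : Fin n) (x : ℝ) => x) (fun i => aemeasurable_id)
  have : IsProbabilityMeasure (rowlaw μ n) := by unfold rowlaw; infer_instance
  have h2 := hind.indepFun hw
  have h3 := (indepFun_iff_map_prod_eq_prod_map_map (measurable_pi_apply w).aemeasurable
    (measurable_pi_apply w').aemeasurable).mp h2
  have e1 : ∀ w : Fin n, (rowlaw μ n).map (fun r => r w) = μ := by
    intro w
    unfold rowlaw
    exact (measurePreserving_eval (fun _ => μ) w).map_eq
  have hms : MeasurableSet {p : ℝ × ℝ | p.1 - p.2 = a} :=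
    measurableSet_eq_fun (measurable_fst.sub measurable_snd) measurable_const
  have h4 : rowlaw μ n {r | r w - r w' = a} =
      ((rowlaw μ n).map (fun r => (r w, r w'))) {p | p.1 - p.2 = a} := by
    rw [Measure.map_apply ((measurable_pi_apply w).prodMk (measurable_pi_apply w')) hms]
    rfl
  rw [h4, h3, e1 w, e1 w', Measure.measure_prod_null hms]
  filter_upwards with x
  have h5 : Prod.mk x ⁻¹' {p : ℝ × ℝ | p.1 - p.2 = a} = {x - a} := by
    ext y
    simp only [Set.mem_preimage, Set.mem_ofPred_eq, Set.mem_singleton_iff]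
    constructor <;> intro h <;> linarith
  rw [h5]
  simp

theorem ae_diff (μ : Measure ℝ) [IsProbabilityMeasure μ] [NullSingletonClass μ] {n : ℕ} (a : ℝ) :
    ∀ᵐ r ∂(rowlaw μ n), ∀ w w' : Fin n, w ≠ w' → r w - r w' ≠ a := by
  rw [ae_all_iff]
  intro w
  rw [ae_all_iff]
  intro w'
  by_cases h : w = w'
  · filter_upwards with r h' using absurd h h'
  · have h1 := null_diff μ w w' h a
    rw [← compl_mem_ae_iff] at h1
    filter_upwards [h1] with r hr _ using hr

theorem ae_inj (μ : Measure ℝ) [IsProbabilityMeasure μ] [NullSingletonClass μ] {n : ℕ} :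
    ∀ᵐ r ∂(rowlaw μ n), Function.Injective r := by
  filter_upwards [ae_diff μ (n := n) 0] with r hr w w' h
  by_contra hne
  exact hr w w' hne (by rw [h, sub_self])

theorem tgt_spec {n : ℕ} (hn : 2 ≤ n) (r : Row n) (hr : Function.Injective r) (v : Fin n) :
    IsTgt r v (tgt r v) := by
  have hex : ∃ w, IsTgt r v w := by
    have hne : (Finset.univ.filter (fun w : Fin n => w ≠ v)).Nonempty := by
      by_contra h
      rw [Finset.not_nonempty_iff_eq_empty] at h
      have h1 : (Finset.univ : Finset (Fin n)) ⊆ {v} := by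
        intro w _
        by_contra hw
        have : w ∈ Finset.univ.filter (fun w : Fin n => w ≠ v) := by
          simp only [Finset.mem_filter, Finset.mem_univ, true_and]
          intro h2
          exact hw (by rw [h2]; exact Finset.mem_singleton_self v)
        rw [h] at this
        exact absurd this (Finset.notMem_empty _)
      have h2 := Finset.card_le_card h1
      rw [Finset.card_univ, Fintype.card_fin, Finset.card_singleton] at h2
      omega
    obtain ⟨w, hw, hmin⟩ := Finset.exists_min_image _ r hne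
    simp only [Finset.mem_filter, Finset.mem_univ, true_and] at hw hmin
    refine ⟨w, hw, fun w' hw' => ⟨hmin w' hw', fun hlt => ?_⟩⟩
    refine lt_of_le_of_ne (hmin w' hw') fun h => ?_
    exact absurd (hr h) (ne_of_gt hlt)
  unfold tgt
  rw [dif_pos hex]
  exact hex.choose_spec

theorem tgt_eq {n : ℕ} (hn : 2 ≤ n) (r : Row n) (hr : Function.Injective r) (v w : Fin n)
    (h : w ≠ v) (h2 : ∀ w', w' ≠ v → r w ≤ r w') : tgt r v = w := by
  have h3 := tgt_spec hn r hr v
  apply hr
  exact le_antisymm (h3.2 w h).1 (h2 _ h3.1)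

theorem mem_ex {n : ℕ} (r : Row n) (v w : Fin n) (h : ℝ) :
    w ∈ ex r v h ↔ w ≠ v ∧ w ≠ tgt r v ∧ r w - r (tgt r v) ≤ h := by
  unfold ex rc
  simp only [Finset.mem_filter, Finset.mem_univ, true_and]

theorem ex_swap {n : ℕ} (hn : 2 ≤ n) (r : Row n) (hr : Function.Injective r) (v v' : Fin n)
    (h : ℝ) : (ex (fun i => r (Equiv.swap v v' i)) v h).card = (ex r v' h).card := by
  have hr' : Function.Injective (fun i => r (Equiv.swap v v' i)) :=
    hr.comp (Equiv.injective _)
  have h3 := tgt_spec hn r hr v'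
  have ht : tgt (fun i => r (Equiv.swap v v' i)) v = Equiv.swap v v' (tgt r v') := by
    apply tgt_eq hn _ hr'
    · intro h4
      apply h3.1
      have := congrArg (Equiv.swap v v') h4
      rw [Equiv.swap_apply_self, Equiv.swap_apply_left] at this
      exact this
    · intro w' hw'
      show r (Equiv.swap v v' (Equiv.swap v v' (tgt r v'))) ≤ r (Equiv.swap v v' w')
      rw [Equiv.swap_apply_self]
      apply (h3.2 _ _).1
      intro h4
      apply hw'
      have := congrArg (Equiv.swap v v') h4
      rw [Equiv.swap_apply_self, Equiv.swap_apply_right] at this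
      exact this
  refine Finset.card_equiv (Equiv.swap v v') fun i => ?_
  rw [mem_ex, mem_ex, ht]
  rw [Equiv.swap_apply_self]
  refine and_congr (not_congr ?_) (and_congr (not_congr ?_) Iff.rfl)
  · constructor
    · intro h4
      rw [h4, Equiv.swap_apply_left]
    · intro h4
      have := congrArg (Equiv.swap v v') h4
      rw [Equiv.swap_apply_self, Equiv.swap_apply_right] at this
      exact this
  · constructor
    · intro h4
      rw [h4, Equiv.swap_apply_self]
    · intro h4
      rw [← h4, Equiv.swap_apply_self]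

theorem kap_symm (μ : Measure ℝ) [IsProbabilityMeasure μ] [NullSingletonClass μ] {n : ℕ}
    (hn : 2 ≤ n) (v v' : Fin n) (h : ℝ) (J : ℕ) : kap μ n v h J = kap μ n v' h J := by
  unfold kap
  have hp : MeasurePreserving
      (MeasurableEquiv.arrowCongr' (Equiv.swap v v') (MeasurableEquiv.refl ℝ))
      (rowlaw μ n) (rowlaw μ n) := by
    unfold rowlaw
    exact measurePreserving_arrowCongr' _ _ _ _ (fun _ => MeasurePreserving.id μ)
  have h1 := hp.integral_comp' (g := fun r => ((min (ex r v h).card J : ℕ) : ℝ))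
  rw [← h1]
  apply integral_congr_ae
  filter_upwards [ae_inj μ (n := n)] with r hr
  have h2 : (MeasurableEquiv.arrowCongr' (Equiv.swap v v') (MeasurableEquiv.refl ℝ)) r =
      fun i => r (Equiv.swap v v' i) := by
    funext i
    rfl
  rw [h2, ex_swap hn r hr v v' h]

theorem meas_ex (hMR : StmMR) {n : ℕ} (v : Fin n) (h : ℝ) (J : ℕ) :
    Measurable (fun r : Row n => ((min (ex r v h).card J : ℕ) : ℝ)) := by
  intro s _
  have : (fun r : Row n => ((min (ex r v h).card J : ℕ) : ℝ)) ⁻¹' s =
      ⋃ (S : Finset (Fin n)) (_ : ((min S.card J : ℕ) : ℝ) ∈ s), {r : Row n | ex r v h = S} := by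
    ext r
    simp only [Set.mem_preimage, Set.mem_iUnion, Set.mem_ofPred_eq]
    constructor
    · intro h1
      exact ⟨_, h1, rfl⟩
    · rintro ⟨S, h1, h2⟩
      rw [h2]
      exact h1
  rw [this]
  exact MeasurableSet.iUnion fun S => MeasurableSet.iUnion fun _ => (hMR n v h J).2.1 S

theorem bdd_ex {n : ℕ} (r : Row n) (v : Fin n) (h : ℝ) (J : ℕ) :
    ‖((min (ex r v h).card J : ℕ) : ℝ)‖ ≤ J := by
  rw [Real.norm_of_nonneg (Nat.cast_nonneg _)]
  exact Nat.cast_le.mpr (min_le_right _ _)

theorem kap_cont (hMR : StmMR) (μ : Measure ℝ) [IsProbabilityMeasure μ] [NullSingletonClass μ]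
    {n : ℕ} (v : Fin n) (J : ℕ) (h₀ : ℝ) : ContinuousAt (fun h => kap μ n v h J) h₀ := by
  have : IsProbabilityMeasure (rowlaw μ n) := by unfold rowlaw; infer_instance
  unfold kap
  refine continuousAt_of_dominated (bound := fun _ => (J : ℝ)) ?_ ?_ (integrable_const _) ?_
  · filter_upwards with h
    exact (meas_ex hMR v h J).aestronglyMeasurable
  · filter_upwards with h
    filter_upwards with r
    exact bdd_ex r v h J
  · filter_upwards [ae_diff μ (n := n) h₀] with r hr
    have hev : ∀ᶠ h in 𝓝 h₀, ∀ w : Fin n, w ≠ tgt r v →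
        (r w - r (tgt r v) ≤ h ↔ r w - r (tgt r v) ≤ h₀) := by
      rw [eventually_all]
      intro w
      by_cases hw : w = tgt r v
      · filter_upwards with h h1 using absurd hw h1
      · rcases lt_or_gt_of_ne (hr w _ hw) with h1 | h1
        · filter_upwards [lt_mem_nhds h1] with h h2 _
          exact ⟨fun _ => h1.le, fun _ => h2.le⟩
        · filter_upwards [gt_mem_nhds h1] with h h2 _
          constructor
          · intro h3
            exact absurd h3 (not_le.mpr h2)
          · intro h3
            exact absurd h3 (not_le.mpr h1)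
    have hev2 : (fun h => ((min (ex r v h).card J : ℕ) : ℝ)) =ᶠ[𝓝 h₀]
        (fun _ => ((min (ex r v h₀).card J : ℕ) : ℝ)) := by
      filter_upwards [hev] with h hh
      have : ex r v h = ex r v h₀ := by
        ext w
        rw [mem_ex, mem_ex]
        constructor
        · rintro ⟨h1, h2, h3⟩
          exact ⟨h1, h2, (hh w h2).mp h3⟩
        · rintro ⟨h1, h2, h3⟩
          exact ⟨h1, h2, (hh w h2).mpr h3⟩
      rw [this]
    exact continuousAt_const.congr hev2.symm

theorem kap_zero (μ : Measure ℝ) [IsProbabilityMeasure μ] [NullSingletonClass μ]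
    {n : ℕ} (hn : 2 ≤ n) (v : Fin n) (J : ℕ) : kap μ n v 0 J = 0 := by
  unfold kap
  apply integral_eq_zero_of_ae
  filter_upwards [ae_inj μ (n := n)] with r hr
  have : ex r v 0 = ∅ := by
    rw [Finset.eq_empty_iff_forall_notMem]
    intro w hw
    rw [mem_ex] at hw
    have h1 := (tgt_spec hn r hr v).2 w hw.1
    apply hw.2.1
    apply hr
    linarith [h1.1, hw.2.2]
  rw [this]
  simp

theorem kap_top (hMR : StmMR) (μ : Measure ℝ) [IsProbabilityMeasure μ] [NullSingletonClass μ]
    {n : ℕ} (hn : 2 ≤ n) (v : Fin n) (J : ℕ) :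
    Tendsto (fun h => kap μ n v h J) atTop (𝓝 ((min (n - 2) J : ℕ) : ℝ)) := by
  have : IsProbabilityMeasure (rowlaw μ n) := by unfold rowlaw; infer_instance
  have hc : ((min (n - 2) J : ℕ) : ℝ) = ∫ _, ((min (n - 2) J : ℕ) : ℝ) ∂(rowlaw μ n) := by
    simp
  rw [hc]
  unfold kap
  refine tendsto_integral_filter_of_dominated_convergence (fun _ => (J : ℝ)) ?_ ?_
    (integrable_const _) ?_
  · filter_upwards with h
    exact (meas_ex hMR v h J).aestronglyMeasurable
  · filter_upwards with h
    filter_upwards with r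
    exact bdd_ex r v h J
  · filter_upwards [ae_inj μ (n := n)] with r hr
    have hev : ∀ᶠ h : ℝ in atTop, ∀ w : Fin n, r w - r (tgt r v) ≤ h := by
      rw [eventually_all]
      intro w
      exact eventually_ge_atTop _
    have hev2 : (fun _ => ((min (n - 2) J : ℕ) : ℝ)) =ᶠ[atTop]
        (fun h => ((min (ex r v h).card J : ℕ) : ℝ)) := by
      filter_upwards [hev] with h hh
      have h1 : ex r v h = Finset.univ \ {v, tgt r v} := by
        ext w
        rw [mem_ex]
        simp only [Finset.mem_sdiff, Finset.mem_univ, true_and, Finset.mem_insert,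
          Finset.mem_singleton, not_or]
        exact ⟨fun h2 => ⟨h2.1, h2.2.1⟩, fun h2 => ⟨h2.1, h2.2, hh w⟩⟩
      have h2 : (Finset.univ \ {v, tgt r v} : Finset (Fin n)).card = n - 2 := by
        rw [Finset.card_sdiff_of_subset (Finset.subset_univ _), Finset.card_univ, Fintype.card_fin,
          Finset.card_pair (tgt_spec hn r hr v).1.symm]
      rw [h1, h2]
    exact tendsto_const_nhds.congr' hev2

end ModE1

open ModE1

theorem stmE1 (hMR : StmMR) : StmE1 := by
  intro μ _ _ n J κ hn hκ hκJ hκn
  have hn2 : 2 ≤ n := by omega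
  let v₀ : Fin n := ⟨0, by omega⟩
  have hlt : κ < ((min (n - 2) J : ℕ) : ℝ) := by
    rw [Nat.cast_min, Nat.cast_sub hn2]
    exact lt_min (by push_cast; linarith) hκJ
  have hev := (kap_top hMR μ hn2 v₀ J).eventually (lt_mem_nhds hlt)
  obtain ⟨h₁, h₂, h₃⟩ := (hev.and (eventually_ge_atTop (0:ℝ))).exists
  have hcont : ContinuousOn (fun h => kap μ n v₀ h J) (Set.Icc 0 h₁) :=
    fun h _ => (kap_cont hMR μ v₀ J h).continuousWithinAt
  have hivt := intermediate_value_Icc h₃ hcont
  have hmem : κ ∈ Set.Icc (kap μ n v₀ 0 J) (kap μ n v₀ h₁ J) := by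
    rw [kap_zero μ hn2 v₀ J]
    exact ⟨hκ, h₂.le⟩
  obtain ⟨h, hh, hk⟩ := hivt hmem
  refine ⟨h, hh.1, fun v => ?_⟩
  rw [kap_symm μ hn2 v v₀ h J]
  exact hk

end
end Pool.Agent.T6.H59.MA
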