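import Pool.Agent.T6.H59.MA.Stm

/-!
# Module E: with probability tending to one all geodesics have few exits
-/

set_option autoImplicit false

namespace Pool.Agent.T6.H59.MA
open MeasureTheory Filter Topology
noncomputable section

namespace ModE

theorem sn_spec (n : ℕ) : (sn n) ^ 100 ≤ n := by
  have h : (fun s => s ^ 100 ≤ n) 0 := by simp
  exact Nat.findGreatest_spec (P := fun s => s ^ 100 ≤ n) (Nat.zero_le n) h

theorem sn_lt (n : ℕ) : n < (sn n + 1) ^ 100 := by
  by_contra hcon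
  push Not at hcon
  have h1 : sn n + 1 ≤ n := le_trans (Nat.le_self_pow (by norm_num) _) hcon
  exact Nat.findGreatest_is_greatest (P := fun s => s ^ 100 ≤ n) (Nat.lt_succ_self _) h1 hcon

theorem sn_tendsto : Tendsto sn atTop atTop := by
  rw [tendsto_atTop]
  intro S
  filter_upwards [eventually_ge_atTop (S ^ 100)] with n hn
  exact Nat.le_findGreatest (le_trans (Nat.le_self_pow (by norm_num) _) hn) hn

theorem prob_row (μ : Measure ℝ) [IsProbabilityMeasure μ] (n : ℕ) :
    IsProbabilityMeasure (rowlaw μ n) := by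
  unfold rowlaw; infer_instance

theorem meas_card (hMR : StmMR) (n : ℕ) (v : Fin n) (h : ℝ) (J : ℕ) :
    Measurable (fun r : Row n => (((ex r v h).card : ℕ) : ℝ)) := by
  letI : MeasurableSpace (Finset (Fin n)) := ⊤
  have h1 : Measurable (fun r : Row n => ex r v h) :=
    measurable_to_countable' (fun S => (hMR n v h J).2.1 S)
  have h2 : Measurable (fun S : Finset (Fin n) => ((S.card : ℕ) : ℝ)) := measurable_from_top
  exact h2.comp h1

theorem meas_min (hMR : StmMR) (n : ℕ) (v : Fin n) (h : ℝ) (J : ℕ) :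
    Measurable (fun r : Row n => ((min (ex r v h).card J : ℕ) : ℝ)) := by
  letI : MeasurableSpace (Finset (Fin n)) := ⊤
  have h1 : Measurable (fun r : Row n => ex r v h) :=
    measurable_to_countable' (fun S => (hMR n v h J).2.1 S)
  have h2 : Measurable (fun S : Finset (Fin n) => ((min S.card J : ℕ) : ℝ)) := measurable_from_top
  exact h2.comp h1

theorem meas_big (hMR : StmMR) (n : ℕ) (v : Fin n) (h : ℝ) (J : ℕ) :
    MeasurableSet {r : Row n | J < (ex r v h).card} := by
  have h1 := meas_card hMR n v h J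
  have : {r : Row n | J < (ex r v h).card} =
      (fun r : Row n => (((ex r v h).card : ℕ) : ℝ)) ⁻¹' (Set.Ioi (J : ℝ)) := by
    ext r
    simp
  rw [this]
  exact h1 measurableSet_Ioi

/-- Markov's inequality for one row -/
theorem row_big (hMR : StmMR) (μ : Measure ℝ) [IsProbabilityMeasure μ] (n : ℕ) (v : Fin n)
    (h : ℝ) (J : ℕ) (hJ : 0 < J) :
    rowlaw μ n {r | J < (ex r v h).card} ≤ ENNReal.ofReal (kap μ n v h J / J) := by
  haveI := prob_row μ n
  have hm := meas_min hMR n v h J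
  have hint : Integrable (fun r : Row n => ((min (ex r v h).card J : ℕ) : ℝ)) (rowlaw μ n) := by
    refine Integrable.of_bound hm.aestronglyMeasurable (J : ℝ) (Filter.Eventually.of_forall ?_)
    intro r
    rw [Real.norm_of_nonneg (by positivity)]
    exact_mod_cast min_le_right _ _
  have h1 := mul_meas_ge_le_integral_of_nonneg (μ := rowlaw μ n)
    (f := fun r : Row n => ((min (ex r v h).card J : ℕ) : ℝ))
    (Filter.Eventually.of_forall (fun r => by positivity)) hint (J : ℝ)
  have hJ' : (0 : ℝ) < J := by exact_mod_cast hJ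
  have h2 : rowlaw μ n {r | J < (ex r v h).card} ≤
      rowlaw μ n {r | (J : ℝ) ≤ ((min (ex r v h).card J : ℕ) : ℝ)} := by
    apply measure_mono
    intro r hr
    simp only [Set.mem_setOf_eq] at hr ⊢
    have : J ≤ min (ex r v h).card J := le_min hr.le le_rfl
    exact_mod_cast this
  refine h2.trans ?_
  rw [ENNReal.le_ofReal_iff_toReal_le (measure_ne_top _ _)]
  · rw [le_div_iff₀ hJ', mul_comm]
    exact h1
  · unfold kap
    positivity

/-- Markov's inequality for the number of vertices with many exits -/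
theorem many_big (hMR : StmMR) (μ : Measure ℝ) [IsProbabilityMeasure μ] (n : ℕ)
    (h : ℝ) (J H : ℕ) (κ : ℝ) (hJ : 0 < J) (hk : ∀ v, kap μ n v h J = κ) (hκ : 0 ≤ κ) :
    law μ n {c | ¬ (Finset.univ.filter (fun v => J < (ex (c v) v h).card)).card ≤ H} ≤
      ENNReal.ofReal (n * (κ / J) / (H + 1)) := by
  classical
  haveI := prob_row μ n
  haveI : IsProbabilityMeasure (law μ n) := by unfold law; infer_instance
  have hms : ∀ v : Fin n, MeasurableSet {c : Wt n | J < (ex (c v) v h).card} := by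
    intro v
    exact (meas_big hMR n v h J).preimage (measurable_pi_apply v)
  have hP : ∀ v : Fin n, law μ n {c | J < (ex (c v) v h).card} ≤ ENNReal.ofReal (κ / J) := by
    intro v
    have h1 : law μ n {c | J < (ex (c v) v h).card} = rowlaw μ n {r | J < (ex r v h).card} := by
      have h2 := (measurePreserving_eval (fun _ : Fin n => rowlaw μ n) v).measure_preimage
        (meas_big hMR n v h J).nullMeasurableSet
      exact h2
    rw [h1, ← hk v]
    exact row_big hMR μ n v h J hJ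
  set f : Wt n → ENNReal := fun c => ∑ v : Fin n,
    Set.indicator {c : Wt n | J < (ex (c v) v h).card} (fun _ => (1 : ENNReal)) c with hf
  have hfm : Measurable f := by
    apply Finset.measurable_sum
    intro v _
    exact measurable_const.indicator (hms v)
  have hfi : ∫⁻ c, f c ∂(law μ n) ≤ n * ENNReal.ofReal (κ / J) := by
    rw [hf, lintegral_finsetSum]
    · calc ∑ v : Fin n, ∫⁻ c, Set.indicator {c : Wt n | J < (ex (c v) v h).card}
            (fun _ => (1 : ENNReal)) c ∂(law μ n)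
          = ∑ v : Fin n, law μ n {c | J < (ex (c v) v h).card} := by
            apply Finset.sum_congr rfl
            intro v _
            rw [lintegral_indicator_const (hms v), one_mul]
        _ ≤ ∑ _v : Fin n, ENNReal.ofReal (κ / J) := Finset.sum_le_sum (fun v _ => hP v)
        _ = n * ENNReal.ofReal (κ / J) := by simp
    · intro v _
      exact measurable_const.indicator (hms v)
  have hfc : ∀ c, f c = (((Finset.univ.filter
      (fun v => J < (ex (c v) v h).card)).card : ℕ) : ENNReal) := by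
    intro c
    rw [hf]
    simp only [Set.indicator_apply, Set.mem_setOf_eq]
    rw [Finset.sum_boole]
  have h3 := mul_meas_ge_le_lintegral (μ := law μ n) hfm ((H + 1 : ℕ) : ENNReal)
  have h4 : law μ n {c | ¬ (Finset.univ.filter (fun v => J < (ex (c v) v h).card)).card ≤ H} ≤
      law μ n {c | ((H + 1 : ℕ) : ENNReal) ≤ f c} := by
    apply measure_mono
    intro c hc
    simp only [Set.mem_setOf_eq] at hc ⊢
    rw [hfc]
    exact_mod_cast (by omega)
  refine h4.trans ?_
  have hH : (0 : ℝ) < (H : ℝ) + 1 := by positivity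
  have h5 : ((H + 1 : ℕ) : ENNReal) * law μ n {c | ((H + 1 : ℕ) : ENNReal) ≤ f c} ≤
      n * ENNReal.ofReal (κ / J) := h3.trans hfi
  have h6 : ENNReal.ofReal (n * (κ / J) / (H + 1)) =
      n * ENNReal.ofReal (κ / J) / ((H + 1 : ℕ) : ENNReal) := by
    rw [ENNReal.ofReal_div_of_pos hH, ENNReal.ofReal_mul (by positivity), ENNReal.ofReal_natCast]
    congr 1
    rw [← ENNReal.ofReal_natCast]
    push_cast
    rfl
  rw [h6, ENNReal.le_div_iff_mul_le (Or.inl (by simp)) (Or.inl (by simp))]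
  rw [mul_comm]
  exact h5

/-- the core estimate for one `n` -/
theorem core (hMR : StmMR) (hGEN : StmGEN) (hC3 : StmC3) (hD2 : StmD2) (hB : StmB) (hE1 : StmE1)
    (μ : Measure ℝ) [IsProbabilityMeasure μ] [NullSingletonClass μ] (s n : ℕ) (hs : 1 ≤ s)
    (hn3 : 3 ≤ n)
    (pa1 : 0 < bw s n) (pa2 : ∀ i ≤ nw s n, mm s n i + 2 + s ^ 20 ≤ n)
    (pa3 : ((((m0 s n + 1) + (n - 1 - mm s n (nw s n)) + (nw s n + 1)
      + nw s n * ((n / s ^ 10 + 1) * s) : ℕ) : ℝ)) * (s : ℝ) ^ 2 ≤ 4 * n)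
    (pa4 : (n : ℝ) * nw s n * (Real.exp (- (s : ℝ) ^ 2) + n * (3 / 4 : ℝ) ^ s)
      + nw s n * (1 / (s : ℝ) ^ 9) ≤ 1 / s)
    (pb : ∀ i < nw s n, 0 ≤ kp s n i ∧ kp s n i ≤ (s : ℝ) ^ 3 ∧
      kp s n i < ((s ^ 22 : ℕ) : ℝ) ∧ kp s n i < (n : ℝ) - 2 ∧
      kp s n i * ((n : ℝ) - mm s n i - 1) ≤ 3 / 4 * ((mm s n i : ℝ) + 1))
    (pc : ∀ i < nw s n,
      (((n.choose (s ^ 20) : ℝ) / ((n - (mm s n (i + 1) + 1)).choose (s ^ 20) : ℝ)) *
        (1 - ((s ^ 20 : ℕ) : ℝ) * (1 + kp s n i) / ((n : ℝ) - 1)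
          + (((s ^ 20 : ℕ) : ℝ)) ^ 2 * (((s ^ 22 : ℕ) : ℝ) + 1) ^ 2 /
            (((n : ℝ) - 1) * ((n : ℝ) - 2))) ^ (mm s n i + 1)) ≤ Real.exp (- (s : ℝ) ^ 2)) :
    law μ n {c | ∃ (y : ℕ → Fin n) (L : ℕ), Geo c y L ∧ 4 * n < (exs c y L).card * s ^ 2} ≤
      ENNReal.ofReal (1 / s) := by
  classical
  have hs20 : 1 ≤ s ^ 20 := Nat.one_le_pow _ _ hs
  have hs22 : 0 < s ^ 22 := Nat.pow_pos hs
  have hsR : (0 : ℝ) < s := by exact_mod_cast hs
  -- thresholds
  have hex : ∀ i < nw s n, ∃ h : ℝ, 0 ≤ h ∧ ∀ v, kap μ n v h (s ^ 22) = kp s n i := by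
    intro i hi
    obtain ⟨b1, -, b3, b4, -⟩ := pb i hi
    exact hE1 μ n (s ^ 22) (kp s n i) hn3 b1 b3 b4
  choose! h hh0 hkap using hex
  -- the bad events
  set B0 : Set (Wt n) := {c | ¬ Gen c} with hB0
  set B1 : ℕ → Fin n → Set (Wt n) := fun i u =>
    {c | (Cov c u (mm s n i) (h i) (s ^ 22)).card ≤ mm s n (i + 1) + 1} with hB1
  set B2 : ℕ → Fin n → Set (Wt n) := fun i u =>
    {c | ∃ b, Chain c (h i) (s ^ 22) s (Finset.univ \ expl u (ord c u (mm s n i))) b} with hB2
  set B3 : ℕ → Set (Wt n) := fun i =>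
    {c | ¬ (Finset.univ.filter (fun v => s ^ 22 < (ex (c v) v (h i)).card)).card ≤ n / s ^ 10}
    with hB3
  have m0' : law μ n B0 = 0 := (hGEN μ n).2
  have m1 : ∀ i < nw s n, ∀ u, law μ n (B1 i u) ≤ ENNReal.ofReal (Real.exp (- (s : ℝ) ^ 2)) := by
    intro i hi u
    have a1 := pa2 i hi.le
    have a2 := pa2 (i + 1) hi
    refine (hC3 μ n u (mm s n i) (h i) (s ^ 22) (s ^ 20) (mm s n (i + 1) + 1) (kp s n i) hn3
      (hh0 i hi) (by omega) hs20 (by omega) (by omega) (fun v => (hkap i hi v).ge)).trans ?_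
    exact ENNReal.ofReal_le_ofReal (pc i hi)
  have m2 : ∀ i < nw s n, ∀ u, law μ n (B2 i u) ≤ ENNReal.ofReal (n * (3 / 4 : ℝ) ^ s) := by
    intro i hi u
    have a1 := pa2 i hi.le
    obtain ⟨b1, -, -, -, b5⟩ := pb i hi
    exact hD2 μ n u (mm s n i) s (h i) (s ^ 22) (kp s n i) (3 / 4) (by omega) (by omega) b1
      (fun v => (hkap i hi v).le) (by norm_num) b5
  have m3 : ∀ i < nw s n, law μ n (B3 i) ≤ ENNReal.ofReal (1 / (s : ℝ) ^ 9) := by
    intro i hi
    obtain ⟨b1, b2, -, -, -⟩ := pb i hi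
    refine (many_big hMR μ n (h i) (s ^ 22) (n / s ^ 10) (kp s n i) hs22 (hkap i hi) b1).trans ?_
    apply ENNReal.ofReal_le_ofReal
    have c1 : (n : ℝ) ≤ ((n / s ^ 10 : ℕ) + 1) * (s : ℝ) ^ 10 := by
      have h1 : n < (n / s ^ 10 + 1) * s ^ 10 := by
        have := Nat.lt_mul_div_succ n (Nat.pow_pos (n := 10) hs : 0 < s ^ 10)
        rw [mul_comm]
        exact this
      exact_mod_cast h1.le
    rw [div_le_iff₀ (by positivity)]
    have c2 : kp s n i / ((s ^ 22 : ℕ) : ℝ) ≤ 1 / (s : ℝ) ^ 19 := by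
      push_cast
      rw [div_le_div_iff₀ (by positivity) (by positivity)]
      calc kp s n i * (s : ℝ) ^ 19 ≤ (s : ℝ) ^ 3 * (s : ℝ) ^ 19 := by gcongr
        _ = 1 * (s : ℝ) ^ 22 := by ring
    calc (n : ℝ) * (kp s n i / ((s ^ 22 : ℕ) : ℝ))
        ≤ (((n / s ^ 10 : ℕ) + 1) * (s : ℝ) ^ 10) * (1 / (s : ℝ) ^ 19) := by
          apply mul_le_mul c1 c2 _ (by positivity)
          positivity
      _ = 1 / (s : ℝ) ^ 9 * (((n / s ^ 10 : ℕ) : ℝ) + 1) := by
          field_simp
  -- outside the bad events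
  have hsub : {c : Wt n | ∃ (y : ℕ → Fin n) (L : ℕ), Geo c y L ∧
      4 * n < (exs c y L).card * s ^ 2} ⊆
      B0 ∪ ⋃ i ∈ Finset.range (nw s n), ((⋃ u, (B1 i u ∪ B2 i u)) ∪ B3 i) := by
    intro c hc
    by_contra hcon
    simp only [Set.mem_union, Set.mem_iUnion, not_or, not_exists, Finset.mem_range] at hcon
    obtain ⟨g0, g1⟩ := hcon
    obtain ⟨y, L, hG, hlt⟩ := hc
    have hgen : Gen c := by
      by_contra hg
      exact g0 hg
    have hmm0 : mm s n 0 = m0 s n := by simp [mm]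
    have key := hB n c (by omega) hgen y L hG (nw s n) (mm s n) h (s ^ 22) s (n / s ^ 10) hs
      (fun i hi => by have := pa2 i hi; omega)
      (fun i hi => by
        unfold mm
        have : (i + 1) * bw s n = i * bw s n + bw s n := by ring
        omega)
      hh0
      (fun i hi => by
        have := (g1 i hi).1 (y 0)
        by_contra hle
        exact this.1 (by simpa [hB1] using hle))
      (fun i hi b hb => by
        have := (g1 i hi).1 (y 0)
        exact this.2 ⟨b, hb⟩)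
      (fun i hi => by
        have := (g1 i hi).2
        by_contra hle
        exact this hle)
    rw [hmm0] at key
    have h1 : (((exs c y L).card : ℕ) : ℝ) * (s : ℝ) ^ 2 ≤ 4 * n := by
      refine le_trans ?_ pa3
      gcongr
    have h2 : ((exs c y L).card) * s ^ 2 ≤ 4 * n := by
      exact_mod_cast h1
    omega
  -- the union bound
  refine (measure_mono hsub).trans ?_
  refine (measure_union_le _ _).trans ?_
  rw [m0', zero_add]
  refine (measure_biUnion_finset_le _ _).trans ?_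
  have hE : 0 ≤ Real.exp (- (s : ℝ) ^ 2) := (Real.exp_pos _).le
  have h5 : ∀ i ∈ Finset.range (nw s n), law μ n ((⋃ u, (B1 i u ∪ B2 i u)) ∪ B3 i) ≤
      ENNReal.ofReal (n * (Real.exp (- (s : ℝ) ^ 2) + n * (3 / 4 : ℝ) ^ s) + 1 / (s : ℝ) ^ 9) := by
    intro i hi
    rw [Finset.mem_range] at hi
    rw [ENNReal.ofReal_add (by positivity) (by positivity)]
    refine (measure_union_le _ _).trans (add_le_add ?_ (m3 i hi))
    refine (measure_iUnion_fintype_le _ _).trans ?_
    calc ∑ u : Fin n, law μ n (B1 i u ∪ B2 i u)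
        ≤ ∑ _u : Fin n, ENNReal.ofReal (Real.exp (- (s : ℝ) ^ 2) + n * (3 / 4 : ℝ) ^ s) := by
          apply Finset.sum_le_sum
          intro u _
          rw [ENNReal.ofReal_add hE (by positivity)]
          exact (measure_union_le _ _).trans (add_le_add (m1 i hi u) (m2 i hi u))
      _ = ENNReal.ofReal (n * (Real.exp (- (s : ℝ) ^ 2) + n * (3 / 4 : ℝ) ^ s)) := by
          rw [Finset.sum_const, Finset.card_univ, Fintype.card_fin, nsmul_eq_mul,
            ENNReal.ofReal_mul (by positivity), ENNReal.ofReal_natCast]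
  refine (Finset.sum_le_sum h5).trans ?_
  rw [Finset.sum_const, Finset.card_range, nsmul_eq_mul, ← ENNReal.ofReal_natCast,
    ← ENNReal.ofReal_mul (by positivity)]
  apply ENNReal.ofReal_le_ofReal
  refine le_trans (le_of_eq ?_) pa4
  ring

end ModE

/-- E: with probability tending to one all geodesics have few exits -/
theorem stmE (hMR : StmMR) (hGEN : StmGEN) (hC3 : StmC3) (hD2 : StmD2) (hB : StmB) (hE1 : StmE1)
    (hPA : StmPA) (hPB : StmPB) (hPC : StmPC) : StmE := by
  intro μ _ _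
  obtain ⟨sa, ha⟩ := hPA
  obtain ⟨sb, hb⟩ := hPB
  obtain ⟨sc, hc⟩ := hPC
  have hlim : Tendsto (fun n : ℕ => ENNReal.ofReal (1 / (sn n : ℝ))) atTop (𝓝 0) := by
    have h1 : Tendsto (fun n : ℕ => (1 / (sn n : ℝ))) atTop (𝓝 0) :=
      tendsto_one_div_atTop_nhds_zero_nat.comp ModE.sn_tendsto
    have h2 := ENNReal.tendsto_ofReal h1
    rwa [ENNReal.ofReal_zero] at h2
  refine tendsto_of_tendsto_of_tendsto_of_le_of_le' tendsto_const_nhds hlim
    (Eventually.of_forall (fun n => by simp)) ?_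
  filter_upwards [ModE.sn_tendsto.eventually_ge_atTop (max (max sa sb) (max sc 1)),
    eventually_ge_atTop 3] with n h1 h3
  have hsa : sa ≤ sn n := le_trans (le_trans (le_max_left _ _) (le_max_left _ _)) h1
  have hsb : sb ≤ sn n := le_trans (le_trans (le_max_right _ _) (le_max_left _ _)) h1
  have hsc : sc ≤ sn n := le_trans (le_trans (le_max_left _ _) (le_max_right _ _)) h1
  have hs1 : 1 ≤ sn n := le_trans (le_trans (le_max_right _ _) (le_max_right _ _)) h1
  obtain ⟨a1, a2, a3, a4⟩ := ha (sn n) hsa n (ModE.sn_spec n) (ModE.sn_lt n)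
  exact ModE.core hMR hGEN hC3 hD2 hB hE1 μ (sn n) n hs1 h3 a1 a2 a3 a4
    (hb (sn n) hsb n (ModE.sn_spec n) (ModE.sn_lt n))
    (hc (sn n) hsc n (ModE.sn_spec n) (ModE.sn_lt n))

end
end Pool.Agent.T6.H59.MA
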