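import Pool.Agent.T6.H59.MA.Stm

/-!
# Local limit of the minimum spanning arborescence (MP_e4ce4d_pr): module F
-/

namespace Pool.Agent.T6.H59.MA
open MeasureTheory Filter Topology ProbabilityTheory
noncomputable section

namespace ModF

/-- the number of cycles is at most the sum of the inverse periods -/
theorem cyc_le {n : ℕ} (f : Fin n → Fin n) :
    ((cyc f).card : ℝ) ≤ ∑ x, ((Function.minimalPeriod f x : ℕ) : ℝ)⁻¹ := by
  classical
  let O : Fin n → Finset (Fin n) := fun v =>
    (Finset.range (Function.minimalPeriod f v)).image (fun i => f^[i] v)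
  have hper : ∀ v ∈ cyc f, v ∈ Function.periodicPts f := by
    intro v hv
    unfold cyc at hv
    rw [Finset.mem_filter] at hv
    obtain ⟨p, hp, hpv⟩ := hv.2.1
    exact ⟨p, hp, hpv⟩
  have hsum : ∀ v ∈ cyc f, ∑ x ∈ O v, ((Function.minimalPeriod f x : ℕ) : ℝ)⁻¹ = 1 := by
    intro v hv
    have hp := hper v hv
    have hpos := Function.minimalPeriod_pos_of_mem_periodicPts hp
    have h1 : ∀ x ∈ O v, ((Function.minimalPeriod f x : ℕ) : ℝ)⁻¹ =
        ((Function.minimalPeriod f v : ℕ) : ℝ)⁻¹ := by
      intro x hx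
      obtain ⟨i, _, rfl⟩ := Finset.mem_image.mp hx
      rw [Function.minimalPeriod_apply_iterate hp]
    rw [Finset.sum_congr rfl h1, Finset.sum_const, Finset.card_image_of_injOn, Finset.card_range,
      nsmul_eq_mul, mul_inv_cancel₀]
    · exact_mod_cast hpos.ne'
    · intro i hi j hj hij
      rw [Finset.mem_coe, Finset.mem_range] at hi hj
      exact Function.iterate_injOn_Iio_minimalPeriod hi hj hij
  have hdis : ∀ v ∈ cyc f, ∀ w ∈ cyc f, v ≠ w → Disjoint (O v) (O w) := by
    intro v hv w hw hne
    rw [Finset.disjoint_left]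
    intro x hxv hxw
    apply hne
    obtain ⟨i, hi, hix⟩ := Finset.mem_image.mp hxv
    obtain ⟨j, hj, hjx⟩ := Finset.mem_image.mp hxw
    rw [Finset.mem_range] at hi hj
    have hv' := (Finset.mem_filter.mp hv).2.2
    have hw' := (Finset.mem_filter.mp hw).2.2
    have hpv : f^[Function.minimalPeriod f v] v = v := Function.iterate_minimalPeriod
    have hpw : f^[Function.minimalPeriod f w] w = w := Function.iterate_minimalPeriod
    apply le_antisymm
    · have h3 : f^[Function.minimalPeriod f w - j + i] v = w := by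
        rw [Function.iterate_add_apply]
        rw [hix, ← hjx, ← Function.iterate_add_apply, Nat.sub_add_cancel hj.le, hpw]
      have h4 := hv' (Function.minimalPeriod f w - j + i)
      rw [h3] at h4
      exact h4
    · have h3 : f^[Function.minimalPeriod f v - i + j] w = v := by
        rw [Function.iterate_add_apply]
        rw [hjx, ← hix, ← Function.iterate_add_apply, Nat.sub_add_cancel hi.le, hpv]
      have h4 := hw' (Function.minimalPeriod f v - i + j)
      rw [h3] at h4
      exact h4
  calc ((cyc f).card : ℝ) = ∑ v ∈ cyc f, ∑ x ∈ O v, ((Function.minimalPeriod f x : ℕ) : ℝ)⁻¹ := by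
        rw [Finset.sum_congr rfl hsum]
        simp
    _ = ∑ x ∈ (cyc f).biUnion O, ((Function.minimalPeriod f x : ℕ) : ℝ)⁻¹ := by
        rw [Finset.sum_biUnion]
        intro v hv w hw hne
        exact hdis v hv w hw hne
    _ ≤ ∑ x, ((Function.minimalPeriod f x : ℕ) : ℝ)⁻¹ := by
        apply Finset.sum_le_sum_of_subset_of_nonneg (Finset.subset_univ _)
        intro x _ _
        positivity

theorem period_le {n : ℕ} (f : Fin n → Fin n) (x : Fin n) : Function.minimalPeriod f x ≤ n := by
  classical
  have h1 : ((Finset.range (Function.minimalPeriod f x)).image (fun i => f^[i] x)).card =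
      Function.minimalPeriod f x := by
    rw [Finset.card_image_of_injOn, Finset.card_range]
    intro i hi j hj hij
    rw [Finset.mem_coe, Finset.mem_range] at hi hj
    exact Function.iterate_injOn_Iio_minimalPeriod hi hj hij
  rw [← h1]
  refine (Finset.card_le_univ _).trans ?_
  rw [Fintype.card_fin]

theorem inv_period {n : ℕ} (f : Fin n → Fin n) (x : Fin n) :
    ((Function.minimalPeriod f x : ℕ) : ℝ)⁻¹ =
      ∑ l ∈ Finset.Icc 1 n, if Function.minimalPeriod f x = l then ((l : ℕ) : ℝ)⁻¹ else 0 := by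
  rw [Finset.sum_ite_eq]
  split_ifs with h
  · rfl
  · have h1 := period_le f x
    rw [Finset.mem_Icc, not_and] at h
    have : Function.minimalPeriod f x = 0 := by
      by_contra h2
      exact h (Nat.one_le_iff_ne_zero.mpr h2) h1
    rw [this]
    simp

theorem F0_ne {n : ℕ} (hn : 2 ≤ n) (c : Wt n) (v : Fin n) : F0 c v ≠ v := by
  classical
  have hne : (Finset.univ.erase v : Finset (Fin n)).Nonempty := by
    rw [← Finset.card_pos, Finset.card_erase_of_mem (Finset.mem_univ v), Finset.card_univ,
      Fintype.card_fin]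
    omega
  obtain ⟨w, hw, hmin⟩ := Finset.exists_min_image _ (c v) hne
  have hne2 : ((Finset.univ.erase v : Finset (Fin n)).filter (fun x => c v x = c v w)).Nonempty :=
    ⟨w, Finset.mem_filter.mpr ⟨hw, rfl⟩⟩
  obtain ⟨u, hu, hu2⟩ := Finset.exists_min_image _ id hne2
  rw [Finset.mem_filter, Finset.mem_erase] at hu
  have hex : ∃ w, IsTgt (c v) v w := by
    refine ⟨u, hu.1.1, fun w' hw' => ?_⟩
    have h1 := hmin w' (Finset.mem_erase.mpr ⟨hw', Finset.mem_univ _⟩)
    refine ⟨by rw [hu.2]; exact h1, fun hlt => ?_⟩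
    rw [hu.2]
    refine lt_of_le_of_ne h1 fun h2 => ?_
    have h3 := hu2 w' (Finset.mem_filter.mpr
      ⟨Finset.mem_erase.mpr ⟨hw', Finset.mem_univ _⟩, h2.symm⟩)
    exact absurd hlt (not_lt.mpr h3)
  unfold F0 tgt
  rw [dif_pos hex]
  exact hex.choose_spec.1

theorem meas_F0 (hMR : StmMR) {n : ℕ} (P : (Fin n → Fin n) → Prop) :
    MeasurableSet {c : Wt n | P (F0 c)} := by
  have h1 : {c : Wt n | P (F0 c)} = ⋃ (g : Fin n → Fin n) (_ : P g),
      ⋂ v : Fin n, (fun c : Wt n => c v) ⁻¹' {r | tgt r v = g v} := by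
    ext c
    simp only [Set.mem_ofPred_eq, Set.mem_iUnion, Set.mem_iInter, Set.mem_preimage]
    constructor
    · intro h
      exact ⟨F0 c, h, fun v => rfl⟩
    · rintro ⟨g, hg, h⟩
      have : F0 c = g := funext fun v => h v
      rw [this]
      exact hg
  rw [h1]
  exact MeasurableSet.iUnion fun g => MeasurableSet.iUnion fun _ => MeasurableSet.iInter fun v =>
    (measurable_pi_apply v) ((hMR n v 0 0).1 (g v))

theorem law_cycle (hR : StmR) (μ : Measure ℝ) [IsProbabilityMeasure μ] [NullSingletonClass μ]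
    {n : ℕ} (hn : 2 ≤ n) {k : ℕ} (hk : 1 ≤ k) (y : Fin (k + 1) → Fin n)
    (hy : Function.Injective y) :
    law μ n {c | ∀ s : Fin (k + 1), F0 c (y s) = y (s + 1)} ≤
      ENNReal.ofReal (1 / ((n : ℝ) - 1)) ^ (k + 1) := by
  classical
  have hn1 : (0 : ℝ) < (n : ℝ) - 1 := by
    have : (2 : ℝ) ≤ (n : ℝ) := by exact_mod_cast hn
    linarith
  let G : Fin n → Finset (Fin n) := fun v =>
    if h : ∃ s, y s = v then {y (h.choose + 1)} else Finset.univ.erase v
  have hG : ∀ v, v ∉ G v := by
    intro v
    by_cases h : ∃ s, y s = v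
    · simp only [G, dif_pos h, Finset.mem_singleton]
      intro h2
      have h3 := h.choose_spec
      have h4 := hy (h3.trans h2)
      have : h.choose + 1 = h.choose := h4.symm
      rw [add_eq_left] at this
      have h5 := congrArg Fin.val this
      rw [Fin.val_one', Fin.val_zero, Nat.mod_eq_of_lt (by omega)] at h5
      omega
    · simp only [G, dif_neg h]
      exact Finset.notMem_erase v _
  have h1 := hR μ n G hn hG
  have hsub : {c : Wt n | ∀ s : Fin (k + 1), F0 c (y s) = y (s + 1)} ⊆
      {c | ∀ v, F0 c v ∈ G v} := by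
    intro c hc v
    by_cases h : ∃ s, y s = v
    · simp only [G, dif_pos h, Finset.mem_singleton]
      have h2 := hc h.choose
      rw [h.choose_spec] at h2
      exact h2
    · simp only [G, dif_neg h]
      exact Finset.mem_erase.mpr ⟨F0_ne hn c v, Finset.mem_univ _⟩
  refine (measure_mono hsub).trans ?_
  rw [h1]
  have h3 : ∀ v, ENNReal.ofReal ((G v).card / ((n : ℝ) - 1)) =
      if v ∈ Finset.univ.image y then ENNReal.ofReal (1 / ((n : ℝ) - 1)) else 1 := by
    intro v
    by_cases h : ∃ s, y s = v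
    · have h4 : v ∈ Finset.univ.image y := by
        obtain ⟨s, hs⟩ := h
        exact Finset.mem_image.mpr ⟨s, Finset.mem_univ _, hs⟩
      rw [if_pos h4]
      simp only [G, dif_pos h, Finset.card_singleton, Nat.cast_one]
    · have h4 : v ∉ Finset.univ.image y := by
        intro h5
        obtain ⟨s, _, hs⟩ := Finset.mem_image.mp h5
        exact h ⟨s, hs⟩
      rw [if_neg h4]
      simp only [G, dif_neg h]
      rw [Finset.card_erase_of_mem (Finset.mem_univ v), Finset.card_univ, Fintype.card_fin,
        Nat.cast_sub (by omega), Nat.cast_one, div_self hn1.ne', ENNReal.ofReal_one]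
  rw [Finset.prod_congr rfl fun v _ => h3 v, Finset.prod_ite, Finset.prod_const, Finset.prod_const_one,
    mul_one, Finset.filter_mem_eq_inter, Finset.univ_inter, Finset.card_image_of_injective _ hy,
    Finset.card_univ, Fintype.card_fin]

theorem law_period (hR : StmR) (μ : Measure ℝ) [IsProbabilityMeasure μ] [NullSingletonClass μ]
    {n : ℕ} (hn : 2 ≤ n) (x : Fin n) (l : ℕ) (hl : 1 ≤ l) :
    law μ n {c | Function.minimalPeriod (F0 c) x = l} ≤ ENNReal.ofReal (1 / ((n : ℝ) - 1)) := by
  classical
  have hn1 : (0 : ℝ) < (n : ℝ) - 1 := by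
    have : (2 : ℝ) ≤ (n : ℝ) := by exact_mod_cast hn
    linarith
  obtain ⟨k, rfl⟩ : ∃ k, l = k + 1 := ⟨l - 1, by omega⟩
  rcases Nat.eq_zero_or_pos k with hk | hk
  · subst hk
    have : {c : Wt n | Function.minimalPeriod (F0 c) x = 0 + 1} = ∅ := by
      rw [Set.eq_empty_iff_forall_notMem]
      intro c hc
      rw [Set.mem_ofPred_eq, zero_add, Function.minimalPeriod_eq_one_iff_isFixedPt] at hc
      exact F0_ne hn c x hc
    rw [this, measure_empty]
    exact zero_le
  · have hcard : Fintype.card {w : Fin n // w ≠ x} = n - 1 := by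
      rw [Fintype.card_subtype_compl]
      simp
    let Y : (Fin k → {w : Fin n // w ≠ x}) → Fin (k + 1) → Fin n := fun g =>
      Fin.cons x (fun i => (g i).1)
    let B : (Fin k → {w : Fin n // w ≠ x}) → Set (Wt n) := fun g =>
      {c | Function.Injective (Y g) ∧ ∀ s : Fin (k + 1), F0 c (Y g s) = Y g (s + 1)}
    have hsub : {c : Wt n | Function.minimalPeriod (F0 c) x = k + 1} ⊆ ⋃ g, B g := by
      intro c hc
      rw [Set.mem_ofPred_eq] at hc
      have hinj := Function.iterate_injOn_Iio_minimalPeriod (f := F0 c) (x := x)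
      rw [hc] at hinj
      have hne : ∀ i : Fin k, (F0 c)^[i.1 + 1] x ≠ x := by
        intro i h
        have h1 : (fun j => (F0 c)^[j] x) (i.1 + 1) = (fun j => (F0 c)^[j] x) 0 := by
          simpa using h
        have h2 := hinj (show i.1 + 1 ∈ Set.Iio (k + 1) by
          rw [Set.mem_Iio]; omega) (show 0 ∈ Set.Iio (k + 1) by rw [Set.mem_Iio]; omega) h1
        omega
      let g : Fin k → {w : Fin n // w ≠ x} := fun i => ⟨(F0 c)^[i.1 + 1] x, hne i⟩
      have hY : ∀ s : Fin (k + 1), Y g s = (F0 c)^[s.1] x := by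
        intro s
        refine Fin.cases ?_ (fun i => ?_) s
        · rfl
        · rfl
      rw [Set.mem_iUnion]
      refine ⟨g, ?_, ?_⟩
      · intro s s' hss
        rw [hY, hY] at hss
        exact Fin.ext (hinj (show s.1 ∈ Set.Iio (k + 1) from s.2)
          (show s'.1 ∈ Set.Iio (k + 1) from s'.2) hss)
      · intro s
        rw [hY, hY, ← Function.iterate_succ_apply' (F0 c) s.1 x]
        rcases Nat.lt_or_ge (s.1 + 1) (k + 1) with h1 | h1
        · rw [Fin.val_add_one_of_lt' h1]
        · have h2 : s.1 = k := by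
            have := s.2
            omega
          have h3 : s = Fin.last k := Fin.ext h2
          rw [h3, Fin.last_add_one]
          show (F0 c)^[k + 1] x = x
          rw [← hc]
          exact Function.iterate_minimalPeriod
    have hB : ∀ g, law μ n (B g) ≤ ENNReal.ofReal (1 / ((n : ℝ) - 1)) ^ (k + 1) := by
      intro g
      by_cases hg : Function.Injective (Y g)
      · refine (measure_mono ?_).trans (law_cycle hR μ hn hk (Y g) hg)
        intro c hc
        exact hc.2
      · have : B g = ∅ := by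
          rw [Set.eq_empty_iff_forall_notMem]
          intro c hc
          exact hg hc.1
        rw [this, measure_empty]
        exact zero_le
    calc law μ n {c | Function.minimalPeriod (F0 c) x = k + 1} ≤ law μ n (⋃ g, B g) :=
          measure_mono hsub
      _ ≤ ∑ g, law μ n (B g) := measure_iUnion_fintype_le _ _
      _ ≤ ∑ _g : Fin k → {w : Fin n // w ≠ x}, ENNReal.ofReal (1 / ((n : ℝ) - 1)) ^ (k + 1) :=
          Finset.sum_le_sum fun g _ => hB g
      _ = ENNReal.ofReal (1 / ((n : ℝ) - 1)) := by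
          rw [Finset.sum_const, Finset.card_univ, Fintype.card_fun, hcard, Fintype.card_fin,
            nsmul_eq_mul, ← ENNReal.ofReal_pow (by positivity), ← ENNReal.ofReal_natCast,
            ← ENNReal.ofReal_mul (by positivity)]
          congr 1
          rw [Nat.cast_pow, Nat.cast_sub (by omega), Nat.cast_one, pow_succ, ← mul_assoc,
            ← mul_pow, mul_one_div_cancel hn1.ne', one_pow, one_mul]

end ModF

open ModF

theorem stmF (hMR : StmMR) (hR : StmR) : StmF := by
  classical
  intro μ _ _ n T hn hT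
  have hn2 : (2 : ℝ) ≤ (n : ℝ) := by exact_mod_cast hn
  have hn1 : (0 : ℝ) < (n : ℝ) - 1 := by linarith
  have hprob : IsProbabilityMeasure (law μ n) := by unfold law rowlaw; infer_instance
  let A : Fin n → ℕ → Set (Wt n) := fun x l => {c | Function.minimalPeriod (F0 c) x = l}
  have hA : ∀ x l, MeasurableSet (A x l) := fun x l =>
    meas_F0 hMR (fun f => Function.minimalPeriod f x = l)
  let g : Wt n → ℝ := fun c => ∑ x, ∑ l ∈ Finset.Icc 1 n,
    (A x l).indicator (fun _ => ((l : ℕ) : ℝ)⁻¹) c
  have hg : ∀ c, g c = ∑ x, ((Function.minimalPeriod (F0 c) x : ℕ) : ℝ)⁻¹ := by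
    intro c
    refine Finset.sum_congr rfl fun x _ => ?_
    rw [inv_period]
    refine Finset.sum_congr rfl fun l _ => ?_
    simp only [Set.indicator_apply, A, Set.mem_ofPred_eq]
  have hint1 : ∀ x l, Integrable ((A x l).indicator (fun _ => ((l : ℕ) : ℝ)⁻¹)) (law μ n) :=
    fun x l => (integrable_const _).indicator (hA x l)
  have hint2 : ∀ x, Integrable (fun c => ∑ l ∈ Finset.Icc 1 n,
      (A x l).indicator (fun _ => ((l : ℕ) : ℝ)⁻¹) c) (law μ n) :=
    fun x => integrable_finsetSum _ fun l _ => hint1 x l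
  have hint : Integrable g (law μ n) := integrable_finsetSum _ fun x _ => hint2 x
  have hval : ∫ c, g c ∂(law μ n) ≤ 2 * (1 + Real.log n) := by
    have h1 : ∫ c, g c ∂(law μ n) =
        ∑ x, ∑ l ∈ Finset.Icc 1 n, (law μ n).real (A x l) * ((l : ℕ) : ℝ)⁻¹ := by
      show ∫ c, (∑ x, ∑ l ∈ Finset.Icc 1 n,
        (A x l).indicator (fun _ => ((l : ℕ) : ℝ)⁻¹) c) ∂(law μ n) = _
      rw [integral_finsetSum _ fun x _ => hint2 x]
      refine Finset.sum_congr rfl fun x _ => ?_
      rw [integral_finsetSum _ fun l _ => hint1 x l]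
      refine Finset.sum_congr rfl fun l _ => ?_
      rw [integral_indicator_const _ (hA x l), smul_eq_mul]
    rw [h1]
    have h2 : ∀ x : Fin n, ∑ l ∈ Finset.Icc 1 n, (law μ n).real (A x l) * ((l : ℕ) : ℝ)⁻¹ ≤
        (1 / ((n : ℝ) - 1)) * (1 + Real.log n) := by
      intro x
      calc ∑ l ∈ Finset.Icc 1 n, (law μ n).real (A x l) * ((l : ℕ) : ℝ)⁻¹
          ≤ ∑ l ∈ Finset.Icc 1 n, (1 / ((n : ℝ) - 1)) * ((l : ℕ) : ℝ)⁻¹ := by
            refine Finset.sum_le_sum fun l hl => ?_
            refine mul_le_mul_of_nonneg_right ?_ (by positivity)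
            have h3 := law_period hR μ hn x l (Finset.mem_Icc.mp hl).1
            exact ENNReal.toReal_le_of_le_ofReal (by positivity) h3
        _ = (1 / ((n : ℝ) - 1)) * ((harmonic n : ℚ) : ℝ) := by
            rw [← Finset.mul_sum, harmonic_eq_sum_Icc]
            push_cast
            rfl
        _ ≤ (1 / ((n : ℝ) - 1)) * (1 + Real.log n) :=
            mul_le_mul_of_nonneg_left (harmonic_le_one_add_log n) (by positivity)
    have hlog : 0 ≤ 1 + Real.log n := by
      have := Real.log_nonneg (by linarith : (1 : ℝ) ≤ (n : ℝ))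
      linarith
    calc ∑ x, ∑ l ∈ Finset.Icc 1 n, (law μ n).real (A x l) * ((l : ℕ) : ℝ)⁻¹
        ≤ ∑ _x : Fin n, (1 / ((n : ℝ) - 1)) * (1 + Real.log n) :=
          Finset.sum_le_sum fun x _ => h2 x
      _ = (n / ((n : ℝ) - 1)) * (1 + Real.log n) := by
          rw [Finset.sum_const, Finset.card_univ, Fintype.card_fin, nsmul_eq_mul]
          ring
      _ ≤ 2 * (1 + Real.log n) := by
          refine mul_le_mul_of_nonneg_right ?_ hlog
          rw [div_le_iff₀ hn1]
          linarith
  have hmark := mul_meas_ge_le_integral_of_nonneg (μ := law μ n) (f := g)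
    (ae_of_all _ fun c => by
      show (0:ℝ) ≤ g c
      rw [hg]
      exact Finset.sum_nonneg fun x _ => by positivity) hint T
  have hsub : {c : Wt n | T ≤ ((cyc (F0 c)).card : ℝ)} ⊆ {c | T ≤ g c} := by
    intro c hc
    rw [Set.mem_ofPred_eq] at hc ⊢
    rw [hg]
    exact hc.trans (cyc_le (F0 c))
  refine (measure_mono hsub).trans ?_
  rw [← ENNReal.ofReal_toReal (measure_ne_top (law μ n) {c | T ≤ g c})]
  apply ENNReal.ofReal_le_ofReal
  rw [le_div_iff₀ hT, mul_comm]
  exact hmark.trans hval

end
end Pool.Agent.T6.H59.MA
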