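import Pool.Agent.T6.H59.MA.Stm
import Pool.Agent.T6.H59.MA.A1

namespace Pool.Agent.T6.H59.MA
open MeasureTheory Filter Topology
noncomputable section

/-- ordered pairs of distinct vertices -/
abbrev Edg (n : ℕ) := {e : Fin n × Fin n // e.1 ≠ e.2}

/-- `T` is a spanning arborescence with root `d`: a set of oriented edges (no loops) such that every
vertex other than `d` has exactly one outgoing edge, `d` has none, and there is no cycle even with
orientations ignored (`anti`: no cycle of length two, `acyclic`: no longer cycle). -/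
structure IsSpanArb {n : ℕ} (d : Fin n) (T : Set (Fin n × Fin n)) : Prop where
  /-- no loops -/
  loopless : ∀ u, (u, u) ∉ T
  /-- exactly one outgoing edge at the other vertices -/
  out : ∀ v, v ≠ d → ∃! w, (v, w) ∈ T
  /-- no outgoing edge at the root -/
  root : ∀ w, (d, w) ∉ T
  /-- no two opposite edges -/
  anti : ∀ u v, (u, v) ∈ T → (v, u) ∉ T
  /-- the graph obtained by ignoring orientations has no cycle -/
  acyclic : (SimpleGraph.fromRel (fun u v => (u, v) ∈ T)).IsAcyclic

open Classical in
/-- total weight of a set of oriented edges -/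
def tw {n : ℕ} (W : Edg n → ℝ) (T : Set (Fin n × Fin n)) : ℝ :=
  ∑ e : Edg n, if e.1 ∈ T then W e else 0

/-- `T` is a spanning arborescence of minimal weight -/
def IsMinSpan {n : ℕ} (W : Edg n → ℝ) (d : Fin n) (T : Set (Fin n × Fin n)) : Prop :=
  IsSpanArb d T ∧ ∀ T', IsSpanArb d T' → tw W T ≤ tw W T'

namespace ModFIN
open ModA1

/-- edge set of a parent map -/
def TS {n : ℕ} (d : Fin n) (M : Fin n → Fin n) : Set (Fin n × Fin n) :=
  {e | e.1 ≠ d ∧ M e.1 = e.2}

theorem mem_TS {n : ℕ} {d : Fin n} {M : Fin n → Fin n} {x y : Fin n} :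
    (x, y) ∈ TS d M ↔ EM d M x y := Iff.rfl

theorem ts_isSpanArb {n : ℕ} {d : Fin n} {M : Fin n → Fin n} (hM : IsArb d M) :
    IsSpanArb d (TS d M) := by
  refine ⟨?_, ?_, ?_, ?_, ?_⟩
  · rintro u ⟨h1, h2⟩
    exact hM.2.1 u h1 h2
  · intro v hv
    exact ⟨M v, ⟨hv, rfl⟩, fun w hw => hw.2.symm⟩
  · rintro w ⟨h1, _⟩
    exact h1 rfl
  · rintro u v ⟨h1, h2⟩ ⟨h3, h4⟩
    simp only at h1 h2 h3 h4
    apply h1
    apply eq_root_of_periodic hM u 2 (by norm_num)
    simp only [Function.iterate_succ, Function.iterate_zero, Function.comp_apply, id]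
    rw [h2, h4]
  · rw [SimpleGraph.isAcyclic_iff_forall_adj_isBridge]
    -- every edge is a bridge
    have key : ∀ v, v ≠ d → ¬ (SimpleGraph.fromRel (fun u v => (u, v) ∈ TS d M) \
        SimpleGraph.fromEdgeSet {s(v, M v)}).Reachable v (M v) := by
      intro v hv hr
      -- the descendants of v form a closed set
      have hclosed : ∀ x y, (∃ t, M^[t] x = v) →
          (SimpleGraph.fromRel (fun u v => (u, v) ∈ TS d M) \
            SimpleGraph.fromEdgeSet {s(v, M v)}).Adj x y → ∃ t, M^[t] y = v := by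
        rintro x y ⟨t, ht⟩ hadj
        rw [SimpleGraph.sdiff_adj, SimpleGraph.fromRel_adj, SimpleGraph.fromEdgeSet_adj] at hadj
        obtain ⟨⟨hne, h⟩, h'⟩ := hadj
        rcases h with h | h
        · -- M x = y
          have h2 : M x = y := h.2
          rcases t with _ | t
          · exfalso
            apply h'
            have hx : x = v := ht
            refine ⟨?_, hne⟩
            rw [Set.mem_singleton_iff, hx, ← h2, hx]
          · exact ⟨t, by rw [← h2, ← Function.iterate_succ_apply]; exact ht⟩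
        · have h2 : M y = x := h.2
          exact ⟨t + 1, by rw [Function.iterate_succ_apply, h2]; exact ht⟩
      have hall : ∀ y, (SimpleGraph.fromRel (fun u v => (u, v) ∈ TS d M) \
            SimpleGraph.fromEdgeSet {s(v, M v)}).Reachable v y → ∃ t, M^[t] y = v := by
        rintro y ⟨p⟩
        have : ∀ (a b : Fin n) (p : (SimpleGraph.fromRel (fun u v => (u, v) ∈ TS d M) \
            SimpleGraph.fromEdgeSet {s(v, M v)}).Walk a b), (∃ t, M^[t] a = v) →
            ∃ t, M^[t] b = v := by
          intro a b p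
          induction p with
          | nil => intro h; exact h
          | cons hadj p ih => intro h; exact ih (hclosed _ _ h hadj)
        exact this v y p ⟨0, rfl⟩
      obtain ⟨t, ht⟩ := hall _ hr
      rw [← Function.iterate_succ_apply] at ht
      exact hv (eq_root_of_periodic hM v (t + 1) (Nat.succ_pos t) ht)
    intro v w hvw
    rw [SimpleGraph.fromRel_adj] at hvw
    rcases hvw.2 with h | h
    · have h2 : M v = w := h.2
      rw [SimpleGraph.isBridge_iff]
      rw [← h2]
      exact key v h.1
    · have h2 : M w = v := h.2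
      rw [SimpleGraph.isBridge_iff]
      rw [← h2, Sym2.eq_swap]
      intro hr
      exact key w h.1 hr.symm

theorem exists_map {n : ℕ} {d : Fin n} {T : Set (Fin n × Fin n)} (hT : IsSpanArb d T) :
    ∃ M, IsArb d M ∧ T = TS d M := by
  classical
  choose! f hf huniq using hT.out
  let M : Fin n → Fin n := fun v => if v = d then d else f v
  have hMd : M d = d := by simp [M]
  have hMv : ∀ v, v ≠ d → M v = f v := fun v hv => by simp [M, hv]
  have hTM : T = TS d M := by
    ext ⟨x, y⟩
    constructor
    · intro h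
      have hx : x ≠ d := by
        rintro rfl
        exact hT.root y h
      exact ⟨hx, by rw [hMv x hx]; exact (huniq x hx y h).symm⟩
    · rintro ⟨h1, h2⟩
      simp only at h1 h2
      rw [hMv x h1] at h2
      rw [← h2]
      exact hf x h1
  refine ⟨M, ⟨hMd, ?_, ?_⟩, hTM⟩
  · intro v hv h
    apply hT.loopless v
    rw [hTM]
    exact ⟨hv, h⟩
  · intro v
    by_contra hcon
    push Not at hcon
    -- a periodic point whose orbit avoids d
    obtain ⟨i, j, hij, heq⟩ := Finite.exists_ne_map_eq_of_infinite (fun k : ℕ => M^[k] v)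
    wlog hlt : i < j generalizing i j
    · exact this j i (Ne.symm hij) heq.symm (by omega)
    set x := M^[i] v with hx
    have hxp : M^[j - i] x = x := by
      rw [hx, ← Function.iterate_add_apply, show j - i + i = j by omega]
      exact heq.symm
    have hxd : ∀ k, M^[k] x ≠ d := by
      intro k
      rw [hx, ← Function.iterate_add_apply]
      exact hcon _
    set G := SimpleGraph.fromRel (fun u v => (u, v) ∈ T) with hG
    have hadj : ∀ k, G.Adj (M^[k] x) (M^[k + 1] x) := by
      intro k
      have hmem : (M^[k] x, M^[k + 1] x) ∈ T := by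
        rw [hTM]
        exact ⟨hxd k, (Function.iterate_succ_apply' M k x).symm⟩
      rw [hG, SimpleGraph.fromRel_adj]
      refine ⟨?_, Or.inl hmem⟩
      intro h
      rw [h] at hmem
      exact hT.loopless _ hmem
    have hanti : ∀ k, M^[k + 2] x ≠ M^[k] x := by
      intro k h
      have hmem : (M^[k] x, M^[k + 1] x) ∈ T := by
        rw [hTM]
        exact ⟨hxd k, (Function.iterate_succ_apply' M k x).symm⟩
      have hmem' : (M^[k + 1] x, M^[k + 2] x) ∈ T := by
        rw [hTM]
        exact ⟨hxd (k + 1), (Function.iterate_succ_apply' M (k + 1) x).symm⟩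
      rw [h] at hmem'
      exact hT.anti _ _ hmem hmem'
    -- minimal period
    have hper : ∃ p, 0 < p ∧ M^[p] x = x := ⟨j - i, by omega, hxp⟩
    set p := Nat.find hper with hp
    obtain ⟨hp0, hpx⟩ := Nat.find_spec hper
    have hpmin : ∀ q, 0 < q → q < p → M^[q] x ≠ x := by
      intro q hq hqp h
      exact Nat.find_min hper hqp ⟨hq, h⟩
    have hbr := (SimpleGraph.isAcyclic_iff_forall_adj_isBridge.1 hT.acyclic) (hadj 0)
    rw [SimpleGraph.isBridge_iff] at hbr
    apply hbr
    -- walk from M x to x avoiding the edge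
    have hreach : ∀ k, 1 ≤ k → k ≤ p →
        (G \ SimpleGraph.fromEdgeSet {s(M^[0] x, M^[0 + 1] x)}).Reachable (M^[1] x) (M^[k] x) := by
      intro k
      induction k with
      | zero => intro h; omega
      | succ k ih =>
        intro _ hk
        rcases Nat.eq_zero_or_pos k with h0 | h0
        · subst h0
          exact SimpleGraph.Reachable.refl _
        · refine (ih h0 (by omega)).trans (SimpleGraph.Adj.reachable ?_)
          rw [SimpleGraph.sdiff_adj, SimpleGraph.fromEdgeSet_adj]
          refine ⟨hadj k, ?_⟩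
          rintro ⟨h, _⟩
          rw [Set.mem_singleton_iff, Sym2.eq_iff] at h
          rcases h with ⟨h1, _⟩ | ⟨h1, h2⟩
          · exact hpmin k h0 (by omega) h1
          · -- M^[k+1] x = x and M^[k] x = M x
            have h3 : M^[0 + 2] x = M^[0] x := by
              have : M^[k + 1] x = M (M^[k] x) := Function.iterate_succ_apply' M k x
              rw [h1] at this
              rw [← h2, this]
              exact Function.iterate_succ_apply' M 1 x
            exact hanti 0 h3
    have := hreach p (by omega) le_rfl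
    rw [hpx] at this
    exact this.symm

theorem tw_TS {n : ℕ} {d : Fin n} {M : Fin n → Fin n} (hM : IsArb d M) (W : Edg n → ℝ)
    (c : Wt n) (hc : ∀ e : Edg n, c e.1.1 e.1.2 = W e) : tw W (TS d M) = wt c d M := by
  classical
  unfold tw wt
  rw [← Finset.sum_filter]
  symm
  apply Finset.sum_bij (i := fun v hv => (⟨(v, M v), by
    exact (hM.2.1 v (Finset.ne_of_mem_erase hv)).symm⟩ : Edg n))
  · intro v hv
    rw [Finset.mem_filter]
    exact ⟨Finset.mem_univ _, Finset.ne_of_mem_erase hv, rfl⟩
  · intro v hv w hw h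
    have := congrArg (fun e : Edg n => e.1.1) h
    exact this
  · rintro ⟨⟨x, y⟩, hxy⟩ he
    rw [Finset.mem_filter] at he
    obtain ⟨_, h1, h2⟩ := he
    simp only at h1 h2
    refine ⟨x, Finset.mem_erase.2 ⟨h1, Finset.mem_univ _⟩, ?_⟩
    apply Subtype.ext
    simp only
    rw [h2]
  · intro v hv
    exact hc ⟨(v, M v), (hM.2.1 v (Finset.ne_of_mem_erase hv)).symm⟩

/-- restriction to off-diagonal weights -/
def off {n : ℕ} (c : Wt n) : Edg n → ℝ := fun e => c e.1.1 e.1.2

theorem isMinSpan_TS {n : ℕ} {d : Fin n} {M : Fin n → Fin n} (c : Wt n) :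
    IsMinArb c d M → IsMinSpan (off c) d (TS d M) := by
  rintro ⟨h1, h2⟩
  refine ⟨ts_isSpanArb h1, ?_⟩
  intro T' hT'
  obtain ⟨M', hM', rfl⟩ := exists_map hT'
  rw [tw_TS h1 (off c) c (fun _ => rfl), tw_TS hM' (off c) c (fun _ => rfl)]
  exact h2 M' hM'

theorem exists_isMinArb {n : ℕ} {d : Fin n} {T : Set (Fin n × Fin n)} (c : Wt n)
    (hT : IsMinSpan (off c) d T) : ∃ M, IsMinArb c d M ∧ T = TS d M := by
  obtain ⟨M, hM, rfl⟩ := exists_map hT.1
  refine ⟨M, ⟨hM, ?_⟩, rfl⟩
  intro M' hM'
  have := hT.2 _ (ts_isSpanArb hM')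
  rwa [tw_TS hM (off c) c (fun _ => rfl), tw_TS hM' (off c) c (fun _ => rfl)] at this

theorem TS_inj {n : ℕ} {d : Fin n} {M M' : Fin n → Fin n} (hM : IsArb d M) (hM' : IsArb d M')
    (h : TS d M = TS d M') : M = M' := by
  funext v
  by_cases hv : v = d
  · rw [hv, hM.1, hM'.1]
  · have : (v, M v) ∈ TS d M' := by rw [← h]; exact ⟨hv, rfl⟩
    exact this.2.symm

theorem off_measurePreserving (μ : Measure ℝ) [IsProbabilityMeasure μ] (n : ℕ) :
    MeasurePreserving (off : Wt n → Edg n → ℝ) (law μ n) (Measure.pi fun _ => μ) := by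
  have hmeas : Measurable (off : Wt n → Edg n → ℝ) := by
    apply measurable_pi_lambda
    intro e
    exact (measurable_pi_apply e.1.2).comp (measurable_pi_apply e.1.1)
  refine ⟨hmeas, ?_⟩
  symm
  apply Measure.pi_eq
  intro s hs
  rw [Measure.map_apply hmeas (MeasurableSet.univ_pi hs)]
  -- the preimage is a product set
  let B : Fin n → Fin n → Set ℝ := fun v w => if h : v ≠ w then s ⟨(v, w), h⟩ else Set.univ
  have hset : (off : Wt n → Edg n → ℝ) ⁻¹' (Set.univ.pi s) =
      Set.univ.pi (fun v => Set.univ.pi (fun w => B v w)) := by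
    ext c
    simp only [Set.mem_preimage, Set.mem_univ_pi]
    constructor
    · intro h v w
      simp only [B]
      split_ifs with hvw
      · exact h ⟨(v, w), hvw⟩
      · trivial
    · intro h e
      have := h e.1.1 e.1.2
      simp only [B] at this
      rw [dif_pos e.2] at this
      exact this
  rw [hset]
  unfold law rowlaw
  rw [Measure.pi_pi]
  simp_rw [Measure.pi_pi]
  rw [← Fintype.prod_prod_type' (f := fun v w => μ (B v w))]
  classical
  have h1 : ∏ x : Fin n × Fin n, μ (B x.1 x.2) =
      ∏ x ∈ Finset.univ.filter (fun e : Fin n × Fin n => e.1 ≠ e.2), μ (B x.1 x.2) := by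
    symm
    apply Finset.prod_subset (Finset.filter_subset _ _)
    intro x _ hx
    have hx' : ¬ x.1 ≠ x.2 := fun h => hx (Finset.mem_filter.2 ⟨Finset.mem_univ _, h⟩)
    simp only [B]
    rw [dif_neg hx', measure_univ]
  rw [h1, Finset.prod_subtype (Finset.univ.filter (fun e : Fin n × Fin n => e.1 ≠ e.2))
    (p := fun e : Fin n × Fin n => e.1 ≠ e.2) (fun x => by simp)]
  apply Finset.prod_congr rfl
  intro e _
  simp only [B]
  rw [dif_pos e.2]

theorem meas_isMinSpan {n : ℕ} (d : Fin n) (T : Set (Fin n × Fin n)) :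
    MeasurableSet {W : Edg n → ℝ | IsMinSpan W d T} := by
  classical
  by_cases hT : IsSpanArb d T
  · have h : {W : Edg n → ℝ | IsMinSpan W d T} =
        ⋂ T' : {T' : Set (Fin n × Fin n) // IsSpanArb d T'}, {W | tw W T ≤ tw W T'.1} := by
      ext W
      simp only [Set.mem_iInter]
      exact ⟨fun h T' => h.2 T'.1 T'.2, fun h => ⟨hT, fun T' hT' => h ⟨T', hT'⟩⟩⟩
    rw [h]
    have hm : ∀ T : Set (Fin n × Fin n), Measurable (fun W : Edg n → ℝ => tw W T) := by
      intro T
      unfold tw
      apply Finset.measurable_sum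
      intro e _
      split_ifs
      · exact measurable_pi_apply e
      · exact measurable_const
    exact MeasurableSet.iInter (fun T' => measurableSet_le (hm T) (hm T'.1))
  · have h : {W : Edg n → ℝ | IsMinSpan W d T} = ∅ := by
      ext W
      simp only [Set.mem_empty_iff_false, iff_false]
      exact fun h => hT h.1
    rw [h]
    exact MeasurableSet.empty

theorem meas_exists {n : ℕ} (d : Fin n) (P : Set (Fin n × Fin n) → Prop) :
    MeasurableSet {W : Edg n → ℝ | ∃ T, IsMinSpan W d T ∧ P T} := by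
  classical
  have h : {W : Edg n → ℝ | ∃ T, IsMinSpan W d T ∧ P T} =
      ⋃ T : {T : Set (Fin n × Fin n) // P T}, {W | IsMinSpan W d T.1} := by
    ext W
    simp only [Set.mem_iUnion]
    constructor
    · rintro ⟨T, h1, h2⟩
      exact ⟨⟨T, h2⟩, h1⟩
    · rintro ⟨T, h1⟩
      exact ⟨T.1, h1, T.2⟩
  rw [h]
  exact MeasurableSet.iUnion (fun T => meas_isMinSpan d T.1)

end ModFIN

open ModFIN ModA1

/-- the final form -/
theorem fin_of (hMain : StmMain) (hUNI : StmUNI) (μ : Measure ℝ) [IsProbabilityMeasure μ]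
    [NullSingletonClass μ] (d : ∀ N : ℕ, Fin (N + 2)) (hd : ∀ N, d N ≠ 0)
    (M : ∀ N : ℕ, (Edg (N + 2) → ℝ) → Set (Fin (N + 2) × Fin (N + 2)))
    (hM : ∀ N W, IsMinSpan W (d N) (M N W)) (R : ℕ) (H : FG) :
    Tendsto (fun N : ℕ => (Measure.pi (fun _ : Edg (N + 2) => μ))
      {W | BallIso (fun x y => (x, y) ∈ M N W) 0 R H}) atTop
      (𝓝 (lawT {N | BallIso (ET N) ((0, []) : Addr) R H})) := by
  classical
  -- a selection for the maps
  have hsel : ∀ N (c : Wt (N + 2)), ∃ M', IsMinArb c (d N) M' ∧ M N (off c) = TS (d N) M' :=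
    fun N c => exists_isMinArb c (hM N (off c))
  choose M' hM'1 hM'2 using hsel
  have hmain := hMain μ d hd M' hM'1 R H
  refine hmain.congr (fun N => ?_)
  have hpre : {c : Wt (N + 2) | BallIso (EM (d N) (M' N c)) 0 R H} =
      off ⁻¹' {W | BallIso (fun x y => (x, y) ∈ M N W) 0 R H} := by
    ext c
    simp only [Set.mem_preimage, Set.mem_ofPred_eq]
    rw [hM'2 N c]
    rfl
  rw [hpre]
  -- measurable hull
  have hmp := off_measurePreserving μ (N + 2)
  set P : Measure (Edg (N + 2) → ℝ) := Measure.pi (fun _ : Edg (N + 2) => μ) with hP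
  set S : Set (Edg (N + 2) → ℝ) := {W | BallIso (fun x y => (x, y) ∈ M N W) 0 R H} with hS
  let S1 : Set (Edg (N + 2) → ℝ) := {W | ∃ T, IsMinSpan W (d N) T ∧
    BallIso (fun x y => (x, y) ∈ T) 0 R H}
  let Z : Set (Edg (N + 2) → ℝ) := {W | ∃ T, IsMinSpan W (d N) T ∧
    ∃ T', IsMinSpan W (d N) T' ∧ T ≠ T'}
  have hS1 : MeasurableSet S1 := meas_exists (d N) _
  have hZm : MeasurableSet Z := by
    have h : Z = ⋃ T : Set (Fin (N + 2) × Fin (N + 2)), ({W | IsMinSpan W (d N) T} ∩
        {W | ∃ T', IsMinSpan W (d N) T' ∧ T ≠ T'}) := by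
      ext W
      simp only [Z, Set.mem_iUnion]
      exact Iff.rfl
    rw [h]
    exact MeasurableSet.iUnion (fun T => (meas_isMinSpan _ _).inter (meas_exists (d N) _))
  have hZ0 : P Z = 0 := by
    rw [← hmp.measure_preimage hZm.nullMeasurableSet]
    refine measure_mono_null ?_ (hUNI μ (N + 2) (d N))
    rintro c ⟨T, hT, T', hT', hne⟩
    obtain ⟨A, hA, rfl⟩ := exists_isMinArb c hT
    obtain ⟨A', hA', rfl⟩ := exists_isMinArb c hT'
    exact ⟨A, A', fun h => hne (by rw [h]), hA, hA'⟩
  have hsub1 : S ⊆ S1 := fun W hW => ⟨M N W, hM N W, hW⟩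
  have hsub2 : S1 ⊆ S ∪ Z := by
    rintro W ⟨T, hT, hB⟩
    by_cases h : T = M N W
    · left
      rw [h] at hB
      exact hB
    · right
      exact ⟨T, hT, M N W, hM N W, h⟩
  have hPS : P S = P S1 := by
    apply le_antisymm (measure_mono hsub1)
    calc P S1 ≤ P (S ∪ Z) := measure_mono hsub2
      _ ≤ P S + P Z := measure_union_le _ _
      _ = P S := by rw [hZ0, add_zero]
  have hnull : NullMeasurableSet S P := by
    refine NullMeasurableSet.congr hS1.nullMeasurableSet ?_
    have : S1 \ S ⊆ Z := by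
      intro W hW
      rcases hsub2 hW.1 with h | h
      · exact absurd h hW.2
      · exact h
    rw [ae_eq_set]
    exact ⟨measure_mono_null this hZ0, by
      rw [Set.sdiff_eq_empty.2 hsub1, measure_empty]⟩
  exact hmp.measure_preimage hnull

end
end Pool.Agent.T6.H59.MA
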