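import Pool.Agent.T6.H59.MA.B0

/-!
# In-degrees are small (helper24, module G)
-/

set_option autoImplicit false

namespace Pool.Agent.T6.H59.MA
open MeasureTheory Filter Topology
noncomputable section

namespace ModG

theorem F0_ne {n : ℕ} (hn : 2 ≤ n) (c : Wt n) (v : Fin n) : F0 c v ≠ v :=
  (B0.tgt_spec hn (c v) v).1

theorem law_le (hR : StmR) (μ : Measure ℝ) [IsProbabilityMeasure μ] [NullSingletonClass μ]
    {n : ℕ} (hn : 2 ≤ n) (v : Fin n) (S : Finset (Fin n)) (hS : v ∉ S) :
    law μ n {c | ∀ w ∈ S, F0 c w = v} ≤ ENNReal.ofReal (1 / ((n : ℝ) - 1)) ^ S.card := by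
  classical
  set G : Fin n → Finset (Fin n) := fun w => if w ∈ S then {v} else Finset.univ.erase w with hG
  have hGw : ∀ w, w ∉ G w := by
    intro w
    by_cases hw : w ∈ S
    · simp only [hG, if_pos hw, Finset.mem_singleton]
      rintro rfl
      exact hS hw
    · simp only [hG, if_neg hw]
      exact Finset.notMem_erase w _
  have hsub : {c : Wt n | ∀ w ∈ S, F0 c w = v} ⊆ {c | ∀ w, F0 c w ∈ G w} := by
    intro c hc w
    by_cases hw : w ∈ S
    · simp only [hG, if_pos hw, Finset.mem_singleton]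
      exact hc w hw
    · simp only [hG, if_neg hw]
      exact Finset.mem_erase.2 ⟨F0_ne hn c w, Finset.mem_univ _⟩
  refine (measure_mono hsub).trans ?_
  rw [hR μ n G hn hGw]
  have hn1 : (0 : ℝ) < (n : ℝ) - 1 := by
    have : (2 : ℝ) ≤ n := by exact_mod_cast hn
    linarith
  have : ∀ w, ENNReal.ofReal ((G w).card / ((n : ℝ) - 1)) =
      if w ∈ S then ENNReal.ofReal (1 / ((n : ℝ) - 1)) else 1 := by
    intro w
    by_cases hw : w ∈ S
    · simp only [hG, if_pos hw, Finset.card_singleton, Nat.cast_one]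
    · simp only [hG, if_neg hw]
      rw [Finset.card_erase_of_mem (Finset.mem_univ w), Finset.card_univ, Fintype.card_fin,
        Nat.cast_sub (by omega : 1 ≤ n), Nat.cast_one, div_self hn1.ne', ENNReal.ofReal_one]
  rw [Finset.prod_congr rfl (fun w _ => this w), Finset.prod_ite_mem, Finset.univ_inter,
    Finset.prod_const]

end ModG

theorem stmG (hR : StmR) : StmG := by
  classical
  intro μ _ _ n D hn
  have hn1 : (0 : ℝ) < (n : ℝ) - 1 := by
    have : (2 : ℝ) ≤ n := by exact_mod_cast hn
    linarith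
  have hsub : {c : Wt n | ∃ v : Fin n, D ≤ (Finset.univ.filter (fun w => F0 c w = v)).card} ⊆
      ⋃ v ∈ (Finset.univ : Finset (Fin n)), ⋃ S ∈ (Finset.univ.erase v).powersetCard D,
        {c : Wt n | ∀ w ∈ S, F0 c w = v} := by
    rintro c ⟨v, hv⟩
    obtain ⟨S, hS1, hS2⟩ := Finset.exists_subset_card_eq hv
    simp only [Set.mem_iUnion]
    refine ⟨v, Finset.mem_univ v, S, ?_, ?_⟩
    · rw [Finset.mem_powersetCard]
      refine ⟨?_, hS2⟩
      intro w hw
      have h1 := (Finset.mem_filter.1 (hS1 hw)).2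
      refine Finset.mem_erase.2 ⟨?_, Finset.mem_univ _⟩
      rintro rfl
      exact ModG.F0_ne hn c _ h1
    · intro w hw
      exact (Finset.mem_filter.1 (hS1 hw)).2
  calc law μ n {c : Wt n | ∃ v : Fin n, D ≤ (Finset.univ.filter (fun w => F0 c w = v)).card}
      ≤ law μ n (⋃ v ∈ (Finset.univ : Finset (Fin n)), ⋃ S ∈ (Finset.univ.erase v).powersetCard D,
        {c : Wt n | ∀ w ∈ S, F0 c w = v}) := measure_mono hsub
    _ ≤ ∑ v : Fin n, law μ n (⋃ S ∈ (Finset.univ.erase v).powersetCard D,
        {c : Wt n | ∀ w ∈ S, F0 c w = v}) := measure_biUnion_finset_le _ _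
    _ ≤ ∑ v : Fin n, ∑ S ∈ (Finset.univ.erase v).powersetCard D,
        law μ n {c : Wt n | ∀ w ∈ S, F0 c w = v} :=
          Finset.sum_le_sum fun v _ => measure_biUnion_finset_le _ _
    _ ≤ ∑ v : Fin n, ∑ S ∈ (Finset.univ.erase v).powersetCard D,
        ENNReal.ofReal (1 / ((n : ℝ) - 1)) ^ D := by
          apply Finset.sum_le_sum
          intro v _
          apply Finset.sum_le_sum
          intro S hS
          rw [Finset.mem_powersetCard] at hS
          have := ModG.law_le hR μ hn v S (fun h => (Finset.mem_erase.1 (hS.1 h)).1 rfl)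
          rwa [hS.2] at this
    _ = ENNReal.ofReal ((n : ℝ) * (((n - 1).choose D : ℝ) * (1 / ((n : ℝ) - 1)) ^ D)) := by
          have h1 : ∀ v : Fin n, ∑ S ∈ (Finset.univ.erase v).powersetCard D,
              ENNReal.ofReal (1 / ((n : ℝ) - 1)) ^ D =
              ENNReal.ofReal (((n - 1).choose D : ℝ) * (1 / ((n : ℝ) - 1)) ^ D) := by
            intro v
            rw [Finset.sum_const, Finset.card_powersetCard,
              Finset.card_erase_of_mem (Finset.mem_univ v), Finset.card_univ, Fintype.card_fin,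
              nsmul_eq_mul, ENNReal.ofReal_mul (by positivity), ENNReal.ofReal_natCast,
              ENNReal.ofReal_pow (by positivity)]
          rw [Finset.sum_congr rfl (fun v _ => h1 v), Finset.sum_const, Finset.card_univ,
            Fintype.card_fin, nsmul_eq_mul, ENNReal.ofReal_mul (by positivity : (0:ℝ) ≤ (n:ℝ)),
            ENNReal.ofReal_natCast]
    _ ≤ ENNReal.ofReal (n / (D.factorial : ℝ)) := by
          apply ENNReal.ofReal_le_ofReal
          have h1 : (((n - 1).choose D : ℕ) : ℝ) ≤ (((n - 1 : ℕ) : ℝ) ^ D) / (D.factorial : ℝ) :=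
            Nat.choose_le_pow_div D (n - 1)
          rw [Nat.cast_sub (by omega : 1 ≤ n), Nat.cast_one] at h1
          have h2 : (((n - 1).choose D : ℕ) : ℝ) * (1 / ((n : ℝ) - 1)) ^ D ≤ 1 / (D.factorial : ℝ) := by
            calc (((n - 1).choose D : ℕ) : ℝ) * (1 / ((n : ℝ) - 1)) ^ D
                ≤ (((n : ℝ) - 1) ^ D / (D.factorial : ℝ)) * (1 / ((n : ℝ) - 1)) ^ D :=
                  mul_le_mul_of_nonneg_right h1 (by positivity)
              _ = 1 / (D.factorial : ℝ) := by
                  rw [div_mul_eq_mul_div, ← mul_pow, mul_one_div, div_self hn1.ne', one_pow]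
          calc (n : ℝ) * (((n - 1).choose D : ℝ) * (1 / ((n : ℝ) - 1)) ^ D)
              ≤ (n : ℝ) * (1 / (D.factorial : ℝ)) := mul_le_mul_of_nonneg_left h2 (by positivity)
            _ = n / (D.factorial : ℝ) := by ring

end
end Pool.Agent.T6.H59.MA
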