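import Pool.Agent.T6.H59.MA.Stm

/-!
# Uniqueness of the shape and of the increasing labelling (helper24, module H0)
-/

set_option autoImplicit false

namespace Pool.Agent.T6.H59.MA
open MeasureTheory Filter Topology
noncomputable section

namespace ModH0

theorem enum_unique {n : ℕ} {a a' : ℕ} {g g' : ℕ → Fin n}
    (hg : ∀ k k', k < k' → k' < a → g k < g k') (hg' : ∀ k k', k < k' → k' < a' → g' k < g' k')
    (him : ∀ w, (∃ k < a, g k = w) ↔ (∃ k < a', g' k = w)) :
    a = a' ∧ ∀ k < a, g k = g' k := by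
  classical
  have hm : StrictMono (fun k : Fin a => g k) := fun x y hxy => hg _ _ hxy y.2
  have hm' : StrictMono (fun k : Fin a' => g' k) := fun x y hxy => hg' _ _ hxy y.2
  obtain ⟨C, hCdef⟩ : ∃ C : Finset (Fin n), C = (Finset.univ : Finset (Fin a)).image
    (fun k : Fin a => g k) := ⟨_, rfl⟩
  have hC : C.card = a := by
    rw [hCdef, Finset.card_image_of_injective _ hm.injective]
    simp
  have hC'e : C = (Finset.univ : Finset (Fin a')).image (fun k : Fin a' => g' k) := by
    ext w
    rw [hCdef, Finset.mem_image, Finset.mem_image]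
    constructor
    · rintro ⟨k, _, hk⟩
      obtain ⟨k', hk', h⟩ := (him w).1 ⟨k, k.2, hk⟩
      exact ⟨⟨k', hk'⟩, Finset.mem_univ _, h⟩
    · rintro ⟨k, _, hk⟩
      obtain ⟨k', hk', h⟩ := (him w).2 ⟨k, k.2, hk⟩
      exact ⟨⟨k', hk'⟩, Finset.mem_univ _, h⟩
  have hC' : C.card = a' := by
    rw [hC'e, Finset.card_image_of_injective _ hm'.injective]
    simp
  obtain rfl : a = a' := hC.symm.trans hC'
  refine ⟨rfl, fun k hk => ?_⟩
  have h1 := Finset.orderEmbOfFin_unique hC (f := fun k : Fin a => g k)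
    (fun x => by rw [hCdef]; exact Finset.mem_image_of_mem _ (Finset.mem_univ _)) hm
  have h2 := Finset.orderEmbOfFin_unique hC (f := fun k : Fin a => g' k)
    (fun x => by rw [hC'e]; exact Finset.mem_image_of_mem _ (Finset.mem_univ _)) hm'
  exact congrFun (h1.trans h2.symm) ⟨k, hk⟩

theorem children {n : ℕ} {d ρ : Fin n} {f : Fin n → Fin n} {R : ℕ} {N : Addr → ℕ}
    {φ : Addr → Fin n} (hM : Match (EM d f) ρ R N φ) {i : ℕ} {u : List ℕ} (hb : pres N i u)
    (hd : i + u.length < R) (w : Fin n) :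
    (∃ k < N (i, u), φ (i, k :: u) = w) ↔
      (EM d f w (φ (i, u)) ∧ ¬ (u = [] ∧ ∃ j, i = j + 1 ∧ φ (j, []) = w)) := by
  obtain ⟨_, hinj, hadj, hcov⟩ := hM
  have hbP : (i, u) ∈ PresR N R := ⟨hb, hd.le⟩
  have hchild : ∀ k, k < N (i, u) → (i, k :: u) ∈ PresR N R := by
    intro k hk
    refine ⟨⟨hb, hk⟩, ?_⟩
    show i + (k :: u).length ≤ R
    rw [List.length_cons]
    omega
  constructor
  · rintro ⟨k, hk, rfl⟩
    refine ⟨(hadj _ (hchild k hk) _ hbP).2 ⟨(hchild k hk).1, hb, Or.inr ⟨rfl, k, rfl⟩⟩, ?_⟩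
    rintro ⟨hu, j, hj, hjw⟩
    have hjP : ((j, []) : Addr) ∈ PresR N R := by
      refine ⟨trivial, ?_⟩
      show j + ([] : List ℕ).length ≤ R
      rw [List.length_nil]
      omega
    have := hinj hjP (hchild k hk) hjw
    exact absurd (congrArg Prod.snd this) (List.cons_ne_nil k u).symm
  · rintro ⟨hE, hnot⟩
    obtain ⟨c, hc, rfl⟩ := hcov (i, u) ⟨hb, hd⟩ w (Or.inl hE)
    obtain ⟨_, _, h | h⟩ := (hadj _ hc _ hbP).1 hE
    · exfalso
      apply hnot
      refine ⟨h.2.1, c.1, h.2.2, ?_⟩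
      have : c = (c.1, []) := Prod.ext rfl h.1
      rw [← this]
    · obtain ⟨h1, k, hk⟩ := h
      have hc' : c = (i, k :: u) := Prod.ext h1.symm hk
      subst hc'
      exact ⟨k, hc.1.2, rfl⟩

theorem step {n : ℕ} {d ρ : Fin n} {f : Fin n → Fin n} {R : ℕ} {N N' : Addr → ℕ}
    {φ φ' : Addr → Fin n} (hM : Match (EM d f) ρ R N φ) (hI : Inc R N φ)
    (hM' : Match (EM d f) ρ R N' φ') (hI' : Inc R N' φ') {r : ℕ} (hr : r < R)
    (ih : ∀ a : Addr, a.1 + a.2.length ≤ r → (pres N a.1 a.2 ↔ pres N' a.1 a.2) ∧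
      (pres N a.1 a.2 → φ a = φ' a)) {i : ℕ} {u : List ℕ} (hb : pres N i u)
    (hd : i + u.length ≤ r) :
    N (i, u) = N' (i, u) ∧ ∀ k < N (i, u), φ (i, k :: u) = φ' (i, k :: u) := by
  have hb' : pres N' i u := (ih (i, u) hd).1.1 hb
  have hφ : φ (i, u) = φ' (i, u) := (ih (i, u) hd).2 hb
  have hd' : i + u.length < R := by omega
  apply enum_unique
  · intro k k' hkk hk'
    apply hI i k k' u _ _ hkk
    · exact ⟨⟨hb, hkk.trans hk'⟩, by
        show i + (k :: u).length ≤ R
        rw [List.length_cons]; omega⟩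
    · exact ⟨⟨hb, hk'⟩, by
        show i + (k' :: u).length ≤ R
        rw [List.length_cons]; omega⟩
  · intro k k' hkk hk'
    apply hI' i k k' u _ _ hkk
    · exact ⟨⟨hb', hkk.trans hk'⟩, by
        show i + (k :: u).length ≤ R
        rw [List.length_cons]; omega⟩
    · exact ⟨⟨hb', hk'⟩, by
        show i + (k' :: u).length ≤ R
        rw [List.length_cons]; omega⟩
  · intro w
    rw [children hM hb hd' w, children hM' hb' hd' w, hφ]
    have : (∃ j, i = j + 1 ∧ φ (j, []) = w) ↔ (∃ j, i = j + 1 ∧ φ' (j, []) = w) := by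
      constructor
      · rintro ⟨j, hj, hjw⟩
        refine ⟨j, hj, ?_⟩
        rw [← (ih (j, []) (by show j + ([] : List ℕ).length ≤ r; rw [List.length_nil]; omega)).2
          trivial]
        exact hjw
      · rintro ⟨j, hj, hjw⟩
        refine ⟨j, hj, ?_⟩
        rw [(ih (j, []) (by show j + ([] : List ℕ).length ≤ r; rw [List.length_nil]; omega)).2
          trivial]
        exact hjw
    rw [this]

end ModH0

theorem stmH0 : StmH0 := by
  intro n d ρ f R N N' φ φ' hM hI hM' hI'
  have key : ∀ r, r ≤ R → ∀ a : Addr, a.1 + a.2.length ≤ r →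
      (pres N a.1 a.2 ↔ pres N' a.1 a.2) ∧ (pres N a.1 a.2 → φ a = φ' a) := by
    intro r
    induction r with
    | zero =>
      intro _ a ha
      obtain ⟨i, u⟩ := a
      have h1 : i = 0 := by
        have : i + u.length ≤ 0 := ha
        omega
      have h2 : u = [] := by
        have : i + u.length ≤ 0 := ha
        exact List.length_eq_zero_iff.1 (by omega)
      subst h1 h2
      exact ⟨Iff.rfl, fun _ => hM.1.trans hM'.1.symm⟩
    | succ r ih =>
      intro hr a ha
      have ih' := ih (by omega)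
      obtain ⟨i, u⟩ := a
      have ha' : i + u.length ≤ r + 1 := ha
      rcases u with _ | ⟨k, u⟩
      · refine ⟨Iff.rfl, fun _ => ?_⟩
        rcases i with _ | i
        · exact hM.1.trans hM'.1.symm
        · rw [List.length_nil] at ha'
          have hP1 : ((i, []) : Addr) ∈ PresR N R :=
            ⟨trivial, by show i + ([] : List ℕ).length ≤ R; rw [List.length_nil]; omega⟩
          have hP2 : ((i + 1, []) : Addr) ∈ PresR N R :=
            ⟨trivial, by show i + 1 + ([] : List ℕ).length ≤ R; rw [List.length_nil]; omega⟩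
          have hP1' : ((i, []) : Addr) ∈ PresR N' R :=
            ⟨trivial, by show i + ([] : List ℕ).length ≤ R; rw [List.length_nil]; omega⟩
          have hP2' : ((i + 1, []) : Addr) ∈ PresR N' R :=
            ⟨trivial, by show i + 1 + ([] : List ℕ).length ≤ R; rw [List.length_nil]; omega⟩
          have h1 := (hM.2.2.1 _ hP1 _ hP2).2 ⟨trivial, trivial, Or.inl ⟨rfl, rfl, rfl⟩⟩
          have h2 := (hM'.2.2.1 _ hP1' _ hP2').2 ⟨trivial, trivial, Or.inl ⟨rfl, rfl, rfl⟩⟩
          have h3 := (ih' (i, []) (by show i + ([] : List ℕ).length ≤ r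
                                      rw [List.length_nil]; omega)).2 trivial
          rw [← h1.2, ← h2.2, h3]
      · rw [List.length_cons] at ha'
        have hd : i + u.length ≤ r := by omega
        have hbb := (ih' (i, u) hd).1
        have hR : r < R := by omega
        constructor
        · constructor
          · rintro ⟨h1, h2⟩
            have hs := ModH0.step hM hI hM' hI' hR ih' h1 hd
            exact ⟨hbb.1 h1, hs.1 ▸ h2⟩
          · rintro ⟨h1, h2⟩
            have h1' : pres N i u := hbb.2 h1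
            have hs := ModH0.step hM hI hM' hI' hR ih' h1' hd
            exact ⟨h1', hs.1.symm ▸ h2⟩
        · rintro ⟨h1, h2⟩
          exact (ModH0.step hM hI hM' hI' hR ih' h1 hd).2 k h2
  refine ⟨?_, ?_, ?_⟩
  · ext a
    constructor
    · rintro ⟨h1, h2⟩
      exact ⟨(key R le_rfl a h2).1.1 h1, h2⟩
    · rintro ⟨h1, h2⟩
      exact ⟨(key R le_rfl a h2).1.2 h1, h2⟩
  · rintro ⟨i, u⟩ ⟨h1, h2⟩
    have h2' : i + u.length < R := h2
    exact (ModH0.step hM hI hM' hI' (by omega : R - 1 < R) (key (R - 1) (by omega)) h1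
      (by omega)).1
  · rintro a ⟨h1, h2⟩
    exact (key R le_rfl a h2).2 h1

end
end Pool.Agent.T6.H59.MA
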