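import Pool.Agent.T6.H59.MA.Stm

namespace Pool.Agent.T6.H59.MA
open MeasureTheory Filter Topology
noncomputable section

namespace ModH1

theorem presR_mono {N : Addr → ℕ} {r R : ℕ} (h : r ≤ R) : PresR N r ⊆ PresR N R :=
  fun _ ha => ⟨ha.1, ha.2.trans h⟩

/-- adjacency in the tree changes the depth by one -/
theorem depth_adj {N : Addr → ℕ} {a b : Addr} (h : ET N a b) :
    a.1 + a.2.length ≤ b.1 + b.2.length + 1 ∧ b.1 + b.2.length ≤ a.1 + a.2.length + 1 := by
  obtain ⟨_, _, h | h⟩ := h
  · obtain ⟨h1, h2, h3⟩ := h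
    rw [h1, h2, h3]; simp
    omega
  · obtain ⟨h1, k, h2⟩ := h
    rw [h1, h2, List.length_cons]
    omega

theorem exists_pred {N : Addr → ℕ} {r : ℕ} {a : Addr} (ha : a ∈ PresR N (r + 1))
    (hr : ¬ a ∈ PresR N r) : ∃ b ∈ PresR N r, ET N b a ∨ ET N a b := by
  obtain ⟨i, u⟩ := a
  obtain ⟨hp, hd⟩ := ha
  have hd' : i + u.length = r + 1 := by
    have : ¬ i + u.length ≤ r := fun h => hr ⟨hp, h⟩
    simp only at hd
    omega
  rcases u with _ | ⟨k, u⟩
  · simp only [List.length_nil, add_zero] at hd'
    subst hd'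
    exact ⟨(r, []), ⟨trivial, by simp⟩, Or.inl ⟨trivial, trivial, Or.inl ⟨rfl, rfl, rfl⟩⟩⟩
  · have hp' : pres N i u ∧ k < N (i, u) := hp
    refine ⟨(i, u), ⟨hp'.1, ?_⟩, Or.inr ⟨hp, hp'.1, Or.inr ⟨rfl, k, rfl⟩⟩⟩
    simp only [List.length_cons] at hd'
    simp only
    omega

theorem ball_tree (N : Addr → ℕ) : ∀ r, Ball (ET N) ((0, []) : Addr) r = PresR N r := by
  intro r
  induction r with
  | zero =>
    ext a
    simp only [Ball, Set.mem_singleton_iff]
    constructor
    · rintro rfl
      exact ⟨trivial, by simp⟩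
    · intro h
      obtain ⟨i, u⟩ := a
      obtain ⟨_, h2⟩ := h
      simp only at h2
      have h3 : i = 0 := by omega
      have h4 : u.length = 0 := by omega
      rw [h3, List.length_eq_zero_iff.1 h4]
  | succ r ih =>
    ext a
    constructor
    · rintro (h | ⟨x, hx, h | h⟩)
      · rw [ih] at h
        exact presR_mono (Nat.le_succ r) h
      · rw [ih] at hx
        refine ⟨h.2.1, ?_⟩
        have h1 := (depth_adj h).2
        have h2 := hx.2
        omega
      · rw [ih] at hx
        refine ⟨h.1, ?_⟩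
        have h1 := (depth_adj h).1
        have h2 := hx.2
        omega
    · intro ha
      by_cases h : a ∈ PresR N r
      · left; rw [ih]; exact h
      · right
        obtain ⟨b, hb, hE⟩ := exists_pred ha h
        exact ⟨b, by rw [ih]; exact hb, hE⟩

theorem ball_image {α : Type} {E : α → α → Prop} {ρ : α} {R : ℕ} {N : Addr → ℕ} {φ : Addr → α}
    (h : Match E ρ R N φ) : ∀ r ≤ R, Ball E ρ r = φ '' PresR N r := by
  obtain ⟨h1, h2, h3, h4⟩ := h
  intro r
  induction r with
  | zero =>
    intro _
    rw [← ball_tree]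
    simp only [Ball, Set.image_singleton, h1]
  | succ r ih =>
    intro hr
    have ih' := ih (by omega)
    ext w
    constructor
    · rintro (h | ⟨x, hx, hE⟩)
      · rw [ih'] at h
        exact Set.image_mono (presR_mono (Nat.le_succ r)) h
      · rw [ih'] at hx
        obtain ⟨a, ha, rfl⟩ := hx
        have haI : a ∈ IntR N R := ⟨ha.1, by have := ha.2; omega⟩
        have haR : a ∈ PresR N R := presR_mono (by omega) ha
        obtain ⟨b, hb, rfl⟩ := h4 a haI w (by tauto)
        refine ⟨b, ?_, rfl⟩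
        rw [h3 a haR b hb, h3 b hb a haR] at hE
        refine ⟨hb.1, ?_⟩
        have h5 := ha.2
        rcases hE with hE | hE
        · have := (depth_adj hE).2
          omega
        · have := (depth_adj hE).1
          omega
    · rintro ⟨a, ha, rfl⟩
      by_cases h : a ∈ PresR N r
      · left
        rw [ih']
        exact ⟨a, h, rfl⟩
      · right
        obtain ⟨b, hb, hE⟩ := exists_pred ha h
        have haR : a ∈ PresR N R := presR_mono hr ha
        have hbR : b ∈ PresR N R := presR_mono (by omega) hb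
        refine ⟨φ b, by rw [ih']; exact ⟨b, hb, rfl⟩, ?_⟩
        rw [h3 a haR b hbR, h3 b hbR a haR]
        exact hE

end ModH1

open ModH1

theorem stmH1 : StmH1 := by
  intro α E ρ R N φ H hM
  have hball := ball_image hM R le_rfl
  have htree := ball_tree N R
  obtain ⟨h1, h2, h3, h4⟩ := hM
  -- the bijection
  have hbij : Set.BijOn φ (Ball (ET N) ((0, []) : Addr) R) (Ball E ρ R) := by
    rw [hball, htree]
    exact h2.bijOn_image
  let e : Ball (ET N) ((0, []) : Addr) R ≃ Ball E ρ R := hbij.equiv φ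
  have he : ∀ a, (e a : α) = φ a.1 := fun a => rfl
  have hroot : ∀ a : Ball (ET N) ((0, []) : Addr) R, (e a : α) = ρ ↔ a.1 = ((0, []) : Addr) := by
    intro a
    rw [he]
    constructor
    · intro h
      have ha : a.1 ∈ PresR N R := by rw [← htree]; exact a.2
      have h0 : ((0, []) : Addr) ∈ PresR N R := ⟨trivial, by simp⟩
      exact h2 ha h0 (h.trans h1.symm)
    · intro h
      rw [h, h1]
  have hedge : ∀ a b : Ball (ET N) ((0, []) : Addr) R, E (e a : α) (e b : α) ↔ ET N a.1 b.1 := by
    intro a b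
    rw [he, he]
    have ha : a.1 ∈ PresR N R := by rw [← htree]; exact a.2
    have hb : b.1 ∈ PresR N R := by rw [← htree]; exact b.2
    exact h3 a.1 ha b.1 hb
  constructor
  · rintro ⟨ψ, hr, hE⟩
    refine ⟨e.trans ψ, ?_, ?_⟩
    · intro x hx
      exact hr (e x) ((hroot x).2 hx)
    · intro x y
      rw [← hedge, hE]
      rfl
  · rintro ⟨ψ, hr, hE⟩
    refine ⟨e.symm.trans ψ, ?_, ?_⟩
    · intro x hx
      apply hr (e.symm x)
      rw [← hroot]
      rw [Equiv.apply_symm_apply]
      exact hx
    · intro x y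
      have := hedge (e.symm x) (e.symm y)
      rw [Equiv.apply_symm_apply, Equiv.apply_symm_apply] at this
      rw [this, hE]
      rfl

end
end Pool.Agent.T6.H59.MA
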