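import Pool.Agent.T6.H59.MA.B0

/-!
# Probability that a given labelling matches (helper24, module H2)
-/

set_option autoImplicit false

namespace Pool.Agent.T6.H59.MA
open MeasureTheory Filter Topology
noncomputable section

namespace ModH2

/-- the next address on the way to infinity -/
def nx : Addr → Addr
  | (i, []) => (i + 1, [])
  | (i, _ :: u) => (i, u)

theorem nx_ne (a : Addr) : nx a ≠ a := by
  obtain ⟨i, u⟩ := a
  rcases u with _ | ⟨k, u⟩
  · intro h
    have : i + 1 = i := congrArg Prod.fst h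
    omega
  · intro h
    have : u = k :: u := congrArg Prod.snd h
    have := congrArg List.length this
    rw [List.length_cons] at this
    omega

theorem nx_mem {N : Addr → ℕ} {R : ℕ} {a : Addr} (ha : a ∈ PresR N R) (ht : a ≠ (R, [])) :
    nx a ∈ PresR N R := by
  obtain ⟨i, u⟩ := a
  obtain ⟨h1, h2⟩ := ha
  rcases u with _ | ⟨k, u⟩
  · refine ⟨trivial, ?_⟩
    have h2' : i + ([] : List ℕ).length ≤ R := h2
    rw [List.length_nil] at h2'
    have : i ≠ R := fun h => ht (by rw [h])
    show i + 1 + ([] : List ℕ).length ≤ R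
    rw [List.length_nil]
    omega
  · refine ⟨h1.1, ?_⟩
    have h2' : i + (k :: u).length ≤ R := h2
    rw [List.length_cons] at h2'
    show i + u.length ≤ R
    omega

theorem et_iff {N : Addr → ℕ} {R : ℕ} {a b : Addr} (ha : a ∈ PresR N R) (hb : b ∈ PresR N R) :
    ET N a b ↔ a ≠ (R, []) ∧ nx a = b := by
  obtain ⟨i, u⟩ := a
  obtain ⟨j, v⟩ := b
  have hb2 : j + v.length ≤ R := hb.2
  rcases u with _ | ⟨k, u⟩
  · constructor
    · rintro ⟨_, _, h | h⟩
      · obtain ⟨_, h2, h3⟩ := h
        have h2' : v = [] := h2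
        have h3' : j = i + 1 := h3
        subst h2' h3'
        refine ⟨fun h => ?_, rfl⟩
        have : i = R := congrArg Prod.fst h
        omega
      · obtain ⟨_, k, hk⟩ := h
        exact absurd hk (List.cons_ne_nil _ _).symm
    · rintro ⟨_, h⟩
      have h1 : i + 1 = j := congrArg Prod.fst h
      have h2 : [] = v := congrArg Prod.snd h
      subst h1 h2
      exact ⟨trivial, trivial, Or.inl ⟨rfl, rfl, rfl⟩⟩
  · constructor
    · rintro ⟨_, _, h | h⟩
      · exact absurd h.1 (List.cons_ne_nil _ _)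
      · obtain ⟨h1, k', hk'⟩ := h
        have h1' : j = i := h1
        have h2' : u = v := (List.cons.inj hk').2
        subst h1' h2'
        refine ⟨fun h => ?_, rfl⟩
        exact absurd (congrArg Prod.snd h) (List.cons_ne_nil _ _)
    · rintro ⟨_, h⟩
      have h1 : i = j := congrArg Prod.fst h
      have h2 : u = v := congrArg Prod.snd h
      subst h1 h2
      exact ⟨ha.1, hb.1, Or.inr ⟨rfl, k, rfl⟩⟩

theorem top_mem (N : Addr → ℕ) (R : ℕ) : ((R, []) : Addr) ∈ PresR N R :=
  ⟨trivial, by show R + ([] : List ℕ).length ≤ R; rw [List.length_nil]; omega⟩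

theorem intR_ne {N : Addr → ℕ} {R : ℕ} {a : Addr} (ha : a ∈ IntR N R) : a ≠ (R, []) := by
  rintro rfl
  have : R + ([] : List ℕ).length < R := ha.2
  omega

theorem match_iff {m : ℕ} (f : Fin m → Fin m) (d ρ : Fin m) (R : ℕ) (N : Addr → ℕ)
    (φ : Addr → Fin m) (h0 : φ (0, []) = ρ) (hinj : Set.InjOn φ (PresR N R))
    (hd : ∀ a ∈ PresR N R, φ a ≠ d) :
    Match (EM d f) ρ R N φ ↔
      (∀ a ∈ PresR N R, a ≠ (R, []) → f (φ a) = φ (nx a)) ∧
      (∀ b ∈ PresR N R, f (φ (R, [])) ≠ φ b) ∧
      (∀ v, v ≠ d → (∀ b ∈ PresR N R, φ b ≠ v) → ∀ a ∈ IntR N R, f v ≠ φ a) := by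
  constructor
  · rintro ⟨_, _, hadj, hcov⟩
    refine ⟨?_, ?_, ?_⟩
    · intro a ha hat
      exact ((hadj a ha (nx a) (nx_mem ha hat)).2 ((et_iff ha (nx_mem ha hat)).2 ⟨hat, rfl⟩)).2
    · intro b hb hbe
      have := (hadj _ (top_mem N R) b hb).1 ⟨hd _ (top_mem N R), hbe⟩
      exact ((et_iff (top_mem N R) hb).1 this).1 rfl
    · intro v hv hvP a ha hva
      obtain ⟨b, hb, hbv⟩ := hcov a ha v (Or.inl ⟨hv, hva⟩)
      exact hvP b hb hbv
  · rintro ⟨h1, h2, h3⟩
    refine ⟨h0, hinj, ?_, ?_⟩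
    · intro a ha b hb
      rw [et_iff ha hb]
      by_cases hat : a = (R, [])
      · subst hat
        constructor
        · intro h
          exact absurd h.2 (h2 b hb)
        · intro h
          exact absurd rfl h.1
      · constructor
        · intro h
          refine ⟨hat, ?_⟩
          have h4 := h.2
          rw [h1 a ha hat] at h4
          exact hinj (nx_mem ha hat) hb h4
        · rintro ⟨_, rfl⟩
          exact ⟨hd a ha, h1 a ha hat⟩
    · intro a ha w hw
      have haP : a ∈ PresR N R := ⟨ha.1, le_of_lt ha.2⟩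
      rcases hw with hw | hw
      · by_contra hcon
        push Not at hcon
        exact h3 w hw.1 hcon a ha hw.2
      · refine ⟨nx a, nx_mem haP (intR_ne ha), ?_⟩
        rw [← h1 a haP (intR_ne ha)]
        exact hw.2

end ModH2

theorem stmH2 (hR : StmR) (h5 : StmH5) : StmH2 := by
  classical
  intro μ _ _ n d R N φ h0 hinj hd
  have hfin : (PresR N R).Finite := (h5 R N).1
  have hfinI : (IntR N R).Finite := hfin.subset fun a ha => ⟨ha.1, le_of_lt ha.2⟩
  obtain ⟨P, hP⟩ : ∃ P : Finset Addr, P = hfin.toFinset := ⟨_, rfl⟩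
  obtain ⟨I, hI⟩ : ∃ I : Finset Addr, I = hfinI.toFinset := ⟨_, rfl⟩
  have memP : ∀ a, a ∈ P ↔ a ∈ PresR N R := fun a => by rw [hP, Set.Finite.mem_toFinset]
  have memI : ∀ a, a ∈ I ↔ a ∈ IntR N R := fun a => by rw [hI, Set.Finite.mem_toFinset]
  have hIP : I ⊆ P := fun a ha => (memP a).2 ⟨((memI a).1 ha).1, le_of_lt ((memI a).1 ha).2⟩
  have hpc : (PresR N R).ncard = P.card := by rw [hP, Set.ncard_eq_toFinset_card _ hfin]
  have hic : (IntR N R).ncard = I.card := by rw [hI, Set.ncard_eq_toFinset_card _ hfinI]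
  have hinjP : Set.InjOn φ (P : Set Addr) := fun a ha b hb h =>
    hinj ((memP a).1 ha) ((memP b).1 hb) h
  obtain ⟨ψ, hψ⟩ : ∃ ψ : Fin (n + 2) → Addr, ∀ a ∈ P, ψ (φ a) = a := by
    refine ⟨Function.invFunOn φ (P : Set Addr), fun a ha => ?_⟩
    exact hinjP.leftInvOn_invFunOn ha
  have htop : ((R, []) : Addr) ∈ P := (memP _).2 (ModH2.top_mem N R)
  set PF := P.image φ with hPF
  set IF := I.image φ with hIF
  have hdPF : d ∉ PF := by
    intro h
    obtain ⟨a, ha, h⟩ := Finset.mem_image.1 h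
    exact hd a ((memP a).1 ha) h
  have hPFc : PF.card = P.card := Finset.card_image_of_injOn hinjP
  have hIFc : IF.card = I.card := Finset.card_image_of_injOn fun a ha b hb h =>
    hinjP (hIP ha) (hIP hb) h
  set G : Fin (n + 2) → Finset (Fin (n + 2)) := fun v =>
    if v = d then Finset.univ.erase d else if v ∈ PF then
      (if ψ v = (R, []) then Finset.univ \ PF else {φ (ModH2.nx (ψ v))}) else
      (Finset.univ.erase v) \ IF with hG
  have hGd : G d = Finset.univ.erase d := by simp only [hG, if_true]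
  have hGP : ∀ a ∈ P, a ≠ (R, []) → G (φ a) = {φ (ModH2.nx a)} := by
    intro a ha hat
    have h1 : φ a ≠ d := hd a ((memP a).1 ha)
    have h2 : φ a ∈ PF := Finset.mem_image_of_mem _ ha
    simp only [hG]
    rw [if_neg h1, if_pos h2, hψ a ha, if_neg hat]
  have hGt : G (φ (R, [])) = Finset.univ \ PF := by
    have h1 : φ (R, []) ≠ d := hd _ ((memP _).1 htop)
    have h2 : φ (R, []) ∈ PF := Finset.mem_image_of_mem _ htop
    simp only [hG]
    rw [if_neg h1, if_pos h2, hψ _ htop, if_pos rfl]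
  have hGo : ∀ v, v ≠ d → v ∉ PF → G v = (Finset.univ.erase v) \ IF := by
    intro v h1 h2
    simp only [hG]
    rw [if_neg h1, if_neg h2]
  have hGv : ∀ v, v ∉ G v := by
    intro v
    by_cases hvd : v = d
    · subst hvd
      rw [hGd]
      exact Finset.notMem_erase v _
    · by_cases hvP : v ∈ PF
      · obtain ⟨a, ha, rfl⟩ := Finset.mem_image.1 hvP
        by_cases hat : a = (R, [])
        · subst hat
          rw [hGt]
          intro h
          exact (Finset.mem_sdiff.1 h).2 hvP
        · rw [hGP a ha hat, Finset.mem_singleton]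
          intro h
          have hn : ModH2.nx a ∈ P := (memP _).2 (ModH2.nx_mem ((memP a).1 ha) hat)
          exact ModH2.nx_ne a (hinjP hn ha h.symm)
      · rw [hGo v hvd hvP]
        intro h
        exact Finset.notMem_erase v _ (Finset.mem_sdiff.1 h).1
  have hset : {c : Wt (n + 2) | Match (EM d (F0 c)) 0 R N φ} = {c | ∀ v, F0 c v ∈ G v} := by
    ext c
    have hne : ∀ v, F0 c v ≠ v := fun v => (B0.tgt_spec (by omega) (c v) v).1
    rw [Set.mem_ofPred_eq, Set.mem_ofPred_eq, ModH2.match_iff (F0 c) d 0 R N φ h0 hinj hd]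
    constructor
    · rintro ⟨h1, h2, h3⟩ v
      by_cases hvd : v = d
      · subst hvd
        rw [hGd]
        exact Finset.mem_erase.2 ⟨hne v, Finset.mem_univ _⟩
      · by_cases hvP : v ∈ PF
        · obtain ⟨a, ha, rfl⟩ := Finset.mem_image.1 hvP
          by_cases hat : a = (R, [])
          · subst hat
            rw [hGt, Finset.mem_sdiff]
            refine ⟨Finset.mem_univ _, fun h => ?_⟩
            obtain ⟨b, hb, hbe⟩ := Finset.mem_image.1 h
            exact h2 b ((memP b).1 hb) hbe.symm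
          · rw [hGP a ha hat, Finset.mem_singleton]
            exact h1 a ((memP a).1 ha) hat
        · rw [hGo v hvd hvP, Finset.mem_sdiff]
          refine ⟨Finset.mem_erase.2 ⟨hne v, Finset.mem_univ _⟩, fun h => ?_⟩
          obtain ⟨a, ha, hae⟩ := Finset.mem_image.1 h
          refine h3 v hvd (fun b hb hbv => hvP ?_) a ((memI a).1 ha) hae.symm
          rw [← hbv]
          exact Finset.mem_image_of_mem _ ((memP b).2 hb)
    · intro h
      refine ⟨?_, ?_, ?_⟩
      · intro a ha hat
        have := h (φ a)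
        rwa [hGP a ((memP a).2 ha) hat, Finset.mem_singleton] at this
      · intro b hb hbe
        have := h (φ (R, []))
        rw [hGt, Finset.mem_sdiff] at this
        exact this.2 (hbe ▸ Finset.mem_image_of_mem _ ((memP b).2 hb))
      · intro v hvd hvP a ha hva
        have hvP' : v ∉ PF := by
          intro hv
          obtain ⟨b, hb, hbv⟩ := Finset.mem_image.1 hv
          exact hvP b ((memP b).1 hb) hbv
        have := h v
        rw [hGo v hvd hvP', Finset.mem_sdiff] at this
        exact this.2 (hva ▸ Finset.mem_image_of_mem _ ((memI a).2 ha))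
  rw [hset, hR μ (n + 2) G (by omega) hGv]
  have hcast : (((n + 2 : ℕ) : ℝ) - 1) = (n : ℝ) + 1 := by push_cast; ring
  have hn1 : (0 : ℝ) < (n : ℝ) + 1 := by positivity
  rw [hcast, hpc, hic]
  have hp1 : 1 ≤ P.card := Finset.card_pos.2 ⟨_, htop⟩
  have hpn : P.card ≤ n + 1 := by
    rw [← hPFc]
    have h1 : PF ⊆ Finset.univ.erase d := fun v hv => Finset.mem_erase.2
      ⟨fun h => hdPF (h ▸ hv), Finset.mem_univ _⟩
    have h2 := Finset.card_le_card h1
    rw [Finset.card_erase_of_mem (Finset.mem_univ d), Finset.card_univ, Fintype.card_fin] at h2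
    omega
  have hIPc : I.card ≤ P.card := Finset.card_le_card hIP
  -- split the product
  obtain ⟨g, hg⟩ : ∃ g : Fin (n + 2) → ENNReal, g = fun v =>
    ENNReal.ofReal ((G v).card / ((n : ℝ) + 1)) := ⟨_, rfl⟩
  have hgd : g d = 1 := by
    rw [hg]
    show ENNReal.ofReal ((G d).card / ((n : ℝ) + 1)) = 1
    rw [hGd, Finset.card_erase_of_mem (Finset.mem_univ d), Finset.card_univ, Fintype.card_fin]
    have : ((n + 2 - 1 : ℕ) : ℝ) = (n : ℝ) + 1 := by
      rw [show n + 2 - 1 = n + 1 from rfl]; push_cast; ring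
    rw [this, div_self hn1.ne', ENNReal.ofReal_one]
  have hgP : ∀ a ∈ P.erase (R, []), g (φ a) = ENNReal.ofReal (1 / ((n : ℝ) + 1)) := by
    intro a ha
    rw [Finset.mem_erase] at ha
    rw [hg]
    show ENNReal.ofReal ((G (φ a)).card / ((n : ℝ) + 1)) = _
    rw [hGP a ha.2 ha.1, Finset.card_singleton, Nat.cast_one]
  have hgt : g (φ (R, [])) = ENNReal.ofReal (1 - ((P.card : ℝ) - 1) / ((n : ℝ) + 1)) := by
    rw [hg]
    show ENNReal.ofReal ((G (φ (R, []))).card / ((n : ℝ) + 1)) = _
    rw [hGt, Finset.card_sdiff_of_subset (Finset.subset_univ _), Finset.card_univ,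
      Fintype.card_fin, hPFc, Nat.cast_sub (by omega)]
    congr 1
    push_cast
    field_simp
    ring
  have hgo : ∀ v ∈ (Finset.univ.erase d) \ PF,
      g v = ENNReal.ofReal (1 - (I.card : ℝ) / ((n : ℝ) + 1)) := by
    intro v hv
    rw [Finset.mem_sdiff, Finset.mem_erase] at hv
    rw [hg]
    show ENNReal.ofReal ((G v).card / ((n : ℝ) + 1)) = _
    have h1 : IF ⊆ Finset.univ.erase v := by
      intro w hw
      refine Finset.mem_erase.2 ⟨?_, Finset.mem_univ _⟩
      rintro rfl
      apply hv.2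
      obtain ⟨a, ha, hae⟩ := Finset.mem_image.1 hw
      exact Finset.mem_image.2 ⟨a, hIP ha, hae⟩
    rw [hGo v hv.1.1 hv.2, Finset.card_sdiff_of_subset h1,
      Finset.card_erase_of_mem (Finset.mem_univ v), Finset.card_univ, Fintype.card_fin, hIFc,
      Nat.cast_sub (by omega)]
    congr 1
    rw [show n + 2 - 1 = n + 1 from rfl]
    push_cast
    field_simp
  have hprod : ∏ v, ENNReal.ofReal ((G v).card / ((n : ℝ) + 1)) = g d * ((g (φ (R, [])) *
      ∏ a ∈ P.erase (R, []), g (φ a)) * ∏ v ∈ (Finset.univ.erase d) \ PF, g v) := by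
    rw [show (∏ v, ENNReal.ofReal ((G v).card / ((n : ℝ) + 1))) = ∏ v, g v by rw [hg],
      ← Finset.mul_prod_erase Finset.univ g (Finset.mem_univ d)]
    congr 1
    have h1 : PF ⊆ Finset.univ.erase d := fun v hv => Finset.mem_erase.2
      ⟨fun h => hdPF (h ▸ hv), Finset.mem_univ _⟩
    rw [Finset.mul_prod_erase P (fun a => g (φ a)) htop, ← Finset.prod_sdiff h1, mul_comm]
    congr 1
    rw [hPF, Finset.prod_image hinjP]
  rw [hprod, hgd, hgt, Finset.prod_congr rfl hgP, Finset.prod_congr rfl hgo, Finset.prod_const,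
    Finset.prod_const, one_mul, Finset.card_erase_of_mem htop]
  have hcard2 : ((Finset.univ.erase d) \ PF).card = n + 1 - P.card := by
    have h1 : PF ⊆ Finset.univ.erase d := fun v hv => Finset.mem_erase.2
      ⟨fun h => hdPF (h ▸ hv), Finset.mem_univ _⟩
    rw [Finset.card_sdiff_of_subset h1, Finset.card_erase_of_mem (Finset.mem_univ d),
      Finset.card_univ, Fintype.card_fin, hPFc]
    rfl
  have hq1 : 0 ≤ 1 - ((P.card : ℝ) - 1) / ((n : ℝ) + 1) := by
    rw [sub_nonneg, div_le_one hn1]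
    have : (P.card : ℝ) ≤ (n : ℝ) + 1 := by exact_mod_cast hpn
    linarith
  have hq2 : 0 ≤ 1 - (I.card : ℝ) / ((n : ℝ) + 1) := by
    rw [sub_nonneg, div_le_one hn1]
    have : (I.card : ℝ) ≤ (n : ℝ) + 1 := by exact_mod_cast (hIPc.trans hpn)
    linarith
  rw [hcard2, ← ENNReal.ofReal_pow (by positivity), ← ENNReal.ofReal_pow hq2,
    ← ENNReal.ofReal_mul hq1, ← ENNReal.ofReal_mul (mul_nonneg hq1 (by positivity))]
  congr 1
  ring

end
end Pool.Agent.T6.H59.MA
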