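import Pool.Agent.T6.H59.MA.Stm

/-! H3: number of increasing labellings. -/

namespace Pool.Agent.T6.H59.MA
namespace ModH3

open Equiv

/-- sorting inside groups: increasing labellings times permutations of the groups are all
labellings. -/
lemma count {X Y : Type} [Fintype X] [DecidableEq X] {m : ℕ} (π : X → Y) (r : X → ℕ)
    (hr : ∀ a b, π a = π b → r a = r b → a = b) (P : (X → Fin m) → Prop)
    (hP : ∀ ψ (g : Perm X), π ∘ g = π → P ψ → P (ψ ∘ g))
    (hinj : ∀ ψ, P ψ → Function.Injective ψ) :
    Nat.card {ψ : X → Fin m // P ψ ∧ ∀ a b, π a = π b → r a < r b → ψ a < ψ b} *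
      Nat.card {g : Perm X // π ∘ g = π} = Nat.card {ψ : X → Fin m // P ψ} := by
  classical
  rw [← Nat.card_prod]
  refine Nat.card_congr (Equiv.ofBijective
    (fun p => ⟨p.1.1 ∘ p.2.1, hP _ _ p.2.2 p.1.2.1⟩) ⟨?_, ?_⟩)
  · rintro ⟨⟨ψ, h1, h2⟩, ⟨g, hg⟩⟩ ⟨⟨ψ', h1', h2'⟩, ⟨g', hg'⟩⟩ h
    have hc : ψ ∘ g = ψ' ∘ g' := congrArg Subtype.val h
    have key : ∀ σ : Perm X, (∀ x, π (σ x) = π x) → (∀ x, ψ' x = ψ (σ x)) → σ = 1 := by
      intro σ hσ hψ
      by_contra hne
      have hex : ∃ a, σ a ≠ a := by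
        by_contra hcon
        push Not at hcon
        exact hne (Equiv.ext hcon)
      have mono : ∀ x y, π x = π y → r x < r y → r (σ x) < r (σ y) := by
        intro x y hxy hlt
        have e1 := h2' x y hxy hlt
        rw [hψ, hψ] at e1
        have e2 : π (σ x) = π (σ y) := by rw [hσ, hσ, hxy]
        rcases lt_trichotomy (r (σ x)) (r (σ y)) with h3 | h3 | h3
        · exact h3
        · have := hr _ _ e2 h3
          rw [this] at e1
          exact absurd e1 (lt_irrefl _)
        · exact absurd (h2 _ _ e2.symm h3) (not_lt_of_gt e1)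
      obtain ⟨a, ha, hmin⟩ := Finset.exists_min_image (Finset.univ.filter (fun a => σ a ≠ a)) r
        (by obtain ⟨a, ha⟩ := hex; exact ⟨a, by simpa using ha⟩)
      have ha' : σ a ≠ a := by simpa using ha
      have hmin' : ∀ b, r b < r a → σ b = b := by
        intro b hb
        by_contra hcon
        exact absurd (hmin b (by simpa using hcon)) (not_le_of_gt hb)
      rcases lt_trichotomy (r (σ a)) (r a) with h3 | h3 | h3
      · exact ha' (σ.injective (hmin' _ h3))
      · exact ha' (hr _ _ (hσ a) h3)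
      · set b := σ⁻¹ a with hb
        have hsb : σ b = a := by simp [hb]
        have hpb : π b = π a := by rw [← hσ b, hsb]
        rcases lt_trichotomy (r b) (r a) with h4 | h4 | h4
        · have := hmin' b h4
          rw [hsb] at this
          rw [← this] at h4
          exact absurd h4 (lt_irrefl _)
        · have := hr _ _ hpb h4
          rw [this] at hsb
          exact ha' hsb
        · have := mono a b hpb.symm h4
          rw [hsb] at this
          exact absurd this (not_lt_of_gt h3)
    have hg1 : ∀ x, π (g x) = π x := fun x => congrFun hg x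
    have hg1' : ∀ x, π (g' x) = π x := fun x => congrFun hg' x
    have e : g * g'⁻¹ = 1 := by
      apply key
      · intro x
        rw [Perm.mul_apply, hg1]
        have := hg1' (g'⁻¹ x)
        rw [← this]
        simp
      · intro x
        have := congrFun hc (g'⁻¹ x)
        simp only [Function.comp_apply] at this
        rw [Perm.mul_apply, this]
        simp
    have e2 : g = g' := by
      rw [mul_inv_eq_one] at e
      exact e
    subst e2
    have e3 : ψ = ψ' := by
      funext x
      have := congrFun hc (g⁻¹ x)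
      simpa using this
    subst e3
    rfl
  · rintro ⟨τ, hτ⟩
    -- choose the permutation maximising `∑ r x * τ (g x)`
    obtain ⟨g, hg, hmax⟩ := Finset.exists_max_image
      (Finset.univ.filter (fun g : Perm X => ∀ x, π (g x) = π x))
      (fun g => ∑ x, (r x : ℤ) * ((τ (g x) : ℕ) : ℤ)) ⟨1, by simp⟩
    have hg' : ∀ x, π (g x) = π x := by simpa using hg
    have hgc : π ∘ g = π := funext hg'
    have hψ := hP τ g hgc hτ
    have hi := hinj _ hψ
    have hinc : ∀ a b, π a = π b → r a < r b → (τ ∘ g) a < (τ ∘ g) b := by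
      intro a b hab hlt
      by_contra hcon
      push Not at hcon
      have hne : a ≠ b := by rintro rfl; exact absurd hlt (lt_irrefl _)
      have hlt2 : (τ ∘ g) b < (τ ∘ g) a := lt_of_le_of_ne hcon fun h => hne (hi h.symm)
      have hmem : g * swap a b ∈ Finset.univ.filter (fun g : Perm X => ∀ x, π (g x) = π x) := by
        simp only [Finset.mem_filter, Finset.mem_univ, true_and, Perm.mul_apply]
        intro x
        rw [hg']
        rcases eq_or_ne x a with rfl | hxa
        · rw [swap_apply_left, hab]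
        · rcases eq_or_ne x b with rfl | hxb
          · rw [swap_apply_right, hab]
          · rw [swap_apply_of_ne_of_ne hxa hxb]
      have h5 := hmax _ hmem
      simp only [Perm.mul_apply] at h5
      set f : X → ℤ := fun x => ((τ (g x) : ℕ) : ℤ) with hf
      have h6 : ∑ x, (r x : ℤ) * f (swap a b x) = ∑ x, (r (swap a b x) : ℤ) * f x := by
        rw [← Equiv.sum_comp (swap a b) (fun x => (r (swap a b x) : ℤ) * f x)]
        simp
      have h7 : ∑ x, ((r (swap a b x) : ℤ) * f x - (r x : ℤ) * f x) =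
          ((r b : ℤ) * f a - (r a : ℤ) * f a) + ((r a : ℤ) * f b - (r b : ℤ) * f b) := by
        rw [Fintype.sum_eq_add a b hne]
        · rw [swap_apply_left, swap_apply_right]
        · intro x hx
          rw [swap_apply_of_ne_of_ne hx.1 hx.2]
          ring
      rw [Finset.sum_sub_distrib] at h7
      have h8 : ∑ x, (r x : ℤ) * f (swap a b x) ≤ ∑ x, (r x : ℤ) * f x := h5
      have h9 : f b < f a := by
        have : ((τ (g b)) : ℕ) < (τ (g a) : ℕ) := hlt2
        simp only [hf]
        exact_mod_cast this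
      have h10 : (r a : ℤ) < (r b : ℤ) := by exact_mod_cast hlt
      nlinarith [mul_pos (sub_pos.2 h9) (sub_pos.2 h10)]
    refine ⟨⟨⟨τ ∘ g, hψ, hinc⟩, ⟨g⁻¹, ?_⟩⟩, ?_⟩
    · funext x
      have := hg' (g⁻¹ x)
      simp only [Function.comp_apply]
      rw [← this]
      simp
    · apply Subtype.ext
      funext x
      simp

/-- the group of an address: spine vertices alone, siblings together -/
def grp : Addr → Addr × Bool
  | (i, []) => ((i, []), false)
  | (i, _ :: u) => ((i, u), true)

/-- rank among the siblings -/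
def rk : Addr → ℕ
  | (_, []) => 0
  | (_, k :: _) => k

lemma grp_rk : ∀ a b : Addr, grp a = grp b → rk a = rk b → a = b := by
  rintro ⟨i, _ | ⟨k, u⟩⟩ ⟨j, _ | ⟨l, v⟩⟩ h1 h2 <;> simp_all [grp, rk]

lemma grp_root (b : Addr) (j : ℕ) (h : grp b = ((j, []), false)) : b = (j, []) := by
  obtain ⟨i, _ | ⟨k, u⟩⟩ := b
  · simp only [grp, Prod.mk.injEq, and_true] at h
    rw [h]
  · simp [grp] at h

lemma grp_child (b : Addr) (i : ℕ) (u : List ℕ) (h : grp b = ((i, u), true)) :
    ∃ k, b = (i, k :: u) := by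
  obtain ⟨j, _ | ⟨k, v⟩⟩ := b
  · simp [grp] at h
  · simp only [grp, Prod.mk.injEq, and_true] at h
    exact ⟨k, by rw [h.1, h.2]⟩

lemma card_grp (N : Addr → ℕ) (R : ℕ) [Fintype (PresR N R)] (hfin : (PresR N R).Finite) :
    Nat.card {g : Perm (PresR N R) // (fun a : PresR N R => grp a.1) ∘ g = fun a => grp a.1} =
      ∏ᶠ a ∈ IntR N R, (N a).factorial := by
  classical
  have hIsub : IntR N R ⊆ PresR N R := fun a ha => ⟨ha.1, ha.2.le⟩
  have hIfin : (IntR N R).Finite := hfin.subset hIsub
  rw [Nat.card_eq_fintype_card, DomMulAct.stabilizer_card', finprod_mem_eq_finite_toFinset_prod _ hIfin]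
  set f : PresR N R → Addr × Bool := fun a => grp a.1 with hf
  set T2 : Finset (Addr × Bool) := hIfin.toFinset.image (fun a => (a, true)) with hT2
  set T : Finset (Addr × Bool) := Finset.univ.image f ∪ T2 with hT
  have h1 : ∏ i ∈ Finset.univ.image f, (Fintype.card {a // f a = i}).factorial =
      ∏ i ∈ T, (Fintype.card {a // f a = i}).factorial := by
    apply Finset.prod_subset Finset.subset_union_left
    intro i _ hi
    have : IsEmpty {a // f a = i} := ⟨fun x => hi (Finset.mem_image.2 ⟨x.1, Finset.mem_univ _, x.2⟩)⟩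
    rw [Fintype.card_eq_zero]
    rfl
  have h2 : ∏ i ∈ T2, (Fintype.card {a // f a = i}).factorial =
      ∏ i ∈ T, (Fintype.card {a // f a = i}).factorial := by
    apply Finset.prod_subset Finset.subset_union_right
    intro i hi hi2
    rcases Finset.mem_union.1 hi with hi | hi
    · obtain ⟨⟨⟨j, l⟩, ha⟩, -, rfl⟩ := Finset.mem_image.1 hi
      rcases l with _ | ⟨k, u⟩
      · have : Fintype.card {a // f a = f ⟨(j, []), ha⟩} = 1 := by
          rw [Fintype.card_eq_one_iff]
          refine ⟨⟨⟨(j, []), ha⟩, rfl⟩, ?_⟩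
          rintro ⟨⟨b, hb⟩, hfb⟩
          apply Subtype.ext
          apply Subtype.ext
          exact grp_root b j hfb
        rw [this]
        rfl
      · exfalso
        apply hi2
        rw [hT2, Finset.mem_image]
        refine ⟨(j, u), ?_, rfl⟩
        rw [Set.Finite.mem_toFinset]
        refine ⟨ha.1.1, ?_⟩
        have := ha.2
        simp only [List.length_cons] at this
        simp only
        omega
    · exact absurd hi hi2
  rw [h1, ← h2, hT2, Finset.prod_image (by
    intro a _ b _ h
    exact (Prod.mk.inj h).1)]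
  apply Finset.prod_congr rfl
  rintro ⟨i, u⟩ ha
  rw [Set.Finite.mem_toFinset] at ha
  congr 1
  rw [← Fintype.card_fin (N (i, u))]
  symm
  have hmem : ∀ k : Fin (N (i, u)), ((i, (k : ℕ) :: u) : Addr) ∈ PresR N R := by
    intro k
    refine ⟨⟨ha.1, k.2⟩, ?_⟩
    have := ha.2
    simp only [List.length_cons]
    simp only at this
    omega
  refine Fintype.card_of_bijective (f := fun k : Fin (N (i, u)) =>
    (⟨⟨(i, (k : ℕ) :: u), hmem k⟩, rfl⟩ : {a : PresR N R // f a = ((i, u), true)})) ⟨?_, ?_⟩
  · intro k k' h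
    have := congrArg (fun x : {a : PresR N R // f a = ((i, u), true)} => x.1.1) h
    simp only [Prod.mk.injEq, List.cons.injEq, and_true, true_and] at this
    exact Fin.ext this
  · rintro ⟨⟨b, hb⟩, hfb⟩
    obtain ⟨k, rfl⟩ := grp_child b i u hfb
    exact ⟨⟨k, hb.1.2⟩, rfl⟩

lemma card_all {n : ℕ} (d : Fin (n + 2)) (hd : d ≠ 0) (X : Type) [Fintype X] [DecidableEq X]
    (x0 : X) :
    Nat.card {ψ : X → Fin (n + 2) // Function.Injective ψ ∧ ψ x0 = 0 ∧ ∀ a, ψ a ≠ d} =
      n.descFactorial (Fintype.card X - 1) := by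
  classical
  have e : {ψ : X → Fin (n + 2) // Function.Injective ψ ∧ ψ x0 = 0 ∧ ∀ a, ψ a ≠ d} ≃
      ({a : X // a ≠ x0} ↪ {x : Fin (n + 2) // x ≠ 0 ∧ x ≠ d}) := by
    refine Equiv.ofBijective (fun ψ => ⟨fun a => ⟨ψ.1 a.1, ⟨?_, ψ.2.2.2 _⟩⟩, ?_⟩) ⟨?_, ?_⟩
    · intro h
      exact a.2 (ψ.2.1 (h.trans ψ.2.2.1.symm))
    · intro a b h
      have := congrArg Subtype.val h
      exact Subtype.ext (ψ.2.1 this)
    · rintro ⟨ψ, h1, h2, h3⟩ ⟨ψ', h1', h2', h3'⟩ h
      apply Subtype.ext
      funext a
      by_cases ha : a = x0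
      · subst ha
        simp only
        rw [h2, h2']
      · have := congrArg (fun e : {a : X // a ≠ x0} ↪ {x : Fin (n + 2) // x ≠ 0 ∧ x ≠ d} =>
          (e ⟨a, ha⟩).1) h
        exact this
    · intro g
      refine ⟨⟨fun a => if h : a = x0 then 0 else (g ⟨a, h⟩).1, ?_, by simp, ?_⟩, ?_⟩
      · intro a b h
        simp only at h
        split_ifs at h with h1 h2 h2
        · rw [h1, h2]
        · exact absurd h.symm (g ⟨b, h2⟩).2.1
        · exact absurd h (g ⟨a, h1⟩).2.1
        · have := g.injective (Subtype.ext h)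
          exact congrArg Subtype.val this
      · intro a
        simp only
        split_ifs with h
        · exact hd.symm
        · exact (g ⟨a, h⟩).2.2
      · ext a
        simp [a.2]
  rw [Nat.card_congr e, Nat.card_eq_fintype_card, Fintype.card_embedding_eq]
  have c1 : Fintype.card {x : Fin (n + 2) // x ≠ 0 ∧ x ≠ d} = n := by
    rw [Fintype.card_subtype]
    have : (Finset.univ.filter fun x : Fin (n + 2) => x ≠ 0 ∧ x ≠ d) = {0, d}ᶜ := by
      ext x
      simp
    rw [this, Finset.card_compl, Finset.card_pair hd.symm, Fintype.card_fin]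
    rfl
  have c2 : Fintype.card {a : X // a ≠ x0} = Fintype.card X - 1 := by
    rw [Fintype.card_subtype]
    have : (Finset.univ.filter fun x : X => x ≠ x0) = {x0}ᶜ := by
      ext x
      simp
    rw [this, Finset.card_compl, Finset.card_singleton]
  rw [c1, c2]

end ModH3

open ModH3 in
theorem stmH3 (h5 : StmH5) : StmH3 := by
  classical
  intro n d R N hd
  have hfin : (PresR N R).Finite := (h5 R N).1
  let _ : Fintype (PresR N R) := hfin.fintype
  have hroot : ((0, []) : Addr) ∈ PresR N R := ⟨trivial, by simp⟩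
  set P : (PresR N R → Fin (n + 2)) → Prop := fun ψ => Function.Injective ψ ∧
    ψ ⟨(0, []), hroot⟩ = 0 ∧ (∀ a, ψ a ≠ d) with hPdef
  have hcount := ModH3.count (X := PresR N R) (m := n + 2) (fun a => grp a.1) (fun a => rk a.1)
    (fun a b h1 h2 => Subtype.ext (grp_rk _ _ h1 h2)) P
    (by
      rintro ψ g hg ⟨h1, h2, h3⟩
      refine ⟨h1.comp g.injective, ?_, fun a => h3 _⟩
      have h4 := congrFun hg ⟨(0, []), hroot⟩
      simp only [Function.comp_apply] at h4
      have h5 : g ⟨(0, []), hroot⟩ = ⟨(0, []), hroot⟩ := Subtype.ext (grp_root _ _ h4)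
      rw [Function.comp_apply, h5, h2])
    (fun ψ h => h.1)
  rw [card_grp N R hfin, card_all d hd] at hcount
  have hc : Fintype.card (PresR N R) = (PresR N R).ncard := by
    rw [← Nat.card_coe_set_eq, Nat.card_eq_fintype_card]
  rw [hc] at hcount
  rw [← hcount]
  congr 1
  rw [← Nat.card_coe_set_eq]
  apply Nat.card_congr
  apply Equiv.subtypeEquivRight
  intro ψ
  constructor
  · rintro ⟨h1, h2, h3, h4⟩
    refine ⟨⟨h1, h2 _ rfl, h3⟩, ?_⟩
    rintro ⟨⟨i, l⟩, ha⟩ ⟨⟨j, l'⟩, hb⟩ hg hr
    rcases l with _ | ⟨k, u⟩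
    · have h6 := grp_root _ _ (show grp (j, l') = ((i, []), false) from hg.symm)
      rw [Prod.mk.injEq] at h6
      obtain ⟨rfl, rfl⟩ := h6
      exact absurd hr (lt_irrefl _)
    · obtain ⟨k', h6⟩ := grp_child _ _ _ (show grp (j, l') = ((i, u), true) from hg.symm)
      rw [Prod.mk.injEq] at h6
      obtain ⟨rfl, rfl⟩ := h6
      exact h4 _ _ j k k' u rfl rfl hr
  · rintro ⟨⟨h1, h2, h3⟩, h4⟩
    refine ⟨h1, ?_, h3, ?_⟩
    · rintro ⟨a, ha⟩ h
      simp only at h
      subst h
      exact h2
    · rintro ⟨a, ha⟩ ⟨b, hb⟩ i k k' u h6 h7 h8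
      simp only at h6 h7
      subst h6 h7
      exact h4 _ _ rfl h8

end Pool.Agent.T6.H59.MA
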