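import Pool.Agent.T6.H59.MA.Stm

namespace Pool.Agent.T6.H59.MA
open MeasureTheory Filter Topology
noncomputable section

namespace ModH4

theorem intR_sub (N : Addr → ℕ) (R : ℕ) : IntR N R ⊆ PresR N R := fun _ h => ⟨h.1, h.2.le⟩

theorem match_congr {α : Type} {E : α → α → Prop} {ρ : α} {R : ℕ} {N : Addr → ℕ}
    {φ φ' : Addr → α} (h : ∀ a ∈ PresR N R, φ a = φ' a) (hM : Match E ρ R N φ) :
    Match E ρ R N φ' := by
  obtain ⟨h1, h2, h3, h4⟩ := hM
  have h0 : ((0, []) : Addr) ∈ PresR N R := ⟨trivial, by simp⟩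
  refine ⟨?_, ?_, ?_, ?_⟩
  · rw [← h _ h0]; exact h1
  · intro a ha b hb hab
    rw [← h a ha, ← h b hb] at hab
    exact h2 ha hb hab
  · intro a ha b hb
    rw [← h a ha, ← h b hb]
    exact h3 a ha b hb
  · intro a ha w hw
    rw [← h a (intR_sub N R ha)] at hw
    obtain ⟨b, hb, hbw⟩ := h4 a ha w hw
    exact ⟨b, hb, by rw [← h b hb]; exact hbw⟩

theorem meas_F0 (hMR : StmMR) (n : ℕ) (P : (Fin n → Fin n) → Prop) :
    MeasurableSet {c : Wt n | P (F0 c)} := by
  have h : {c : Wt n | P (F0 c)} = ⋃ g : {g : Fin n → Fin n // P g},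
      ⋂ v, (fun c : Wt n => c v) ⁻¹' {r | tgt r v = g.1 v} := by
    ext c
    simp only [Set.mem_iUnion, Set.mem_iInter, Set.mem_preimage]
    constructor
    · intro hc
      exact ⟨⟨F0 c, hc⟩, fun v => rfl⟩
    · rintro ⟨g, hg⟩
      have : F0 c = g.1 := funext hg
      have h2 := g.2
      rw [← this] at h2
      exact h2
  rw [h]
  refine MeasurableSet.iUnion (fun g => MeasurableSet.iInter (fun v => ?_))
  exact (measurable_pi_apply v) ((hMR n v 0 0).1 (g.1 v))

theorem lim1 (k : ℕ) : Tendsto (fun n : ℕ => (n.descFactorial k : ℝ) * (1 / ((n : ℝ) + 1)) ^ k)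
    atTop (𝓝 1) := by
  induction k with
  | zero => simp
  | succ k ih =>
    have h1 : Tendsto (fun n : ℕ => (((n - k : ℕ) : ℝ)) * (1 / ((n : ℝ) + 1))) atTop (𝓝 1) := by
      have h2 : Tendsto (fun n : ℕ => 1 - ((k : ℝ) + 1) / ((n : ℝ) + 1)) atTop (𝓝 (1 - 0)) := by
        refine tendsto_const_nhds.sub ?_
        exact tendsto_const_nhds.div_atTop
          (tendsto_atTop_add_const_right _ _ tendsto_natCast_atTop_atTop)
      rw [sub_zero] at h2
      refine h2.congr' ?_
      filter_upwards [eventually_ge_atTop k] with n hn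
      rw [Nat.cast_sub hn]
      have : (n : ℝ) + 1 ≠ 0 := by positivity
      field_simp
      ring
    have h3 := h1.mul ih
    rw [one_mul] at h3
    refine h3.congr (fun n => ?_)
    rw [Nat.descFactorial_succ, pow_succ]
    push_cast
    ring

theorem lim2 (k : ℝ) : Tendsto (fun n : ℕ => 1 - k / ((n : ℝ) + 1)) atTop (𝓝 1) := by
  have h2 : Tendsto (fun n : ℕ => 1 - k / ((n : ℝ) + 1)) atTop (𝓝 (1 - 0)) := by
    refine tendsto_const_nhds.sub ?_
    exact tendsto_const_nhds.div_atTop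
      (tendsto_atTop_add_const_right _ _ tendsto_natCast_atTop_atTop)
  rwa [sub_zero] at h2

theorem lim3 (I : ℝ) (h : ℕ) :
    Tendsto (fun n : ℕ => (1 - I / ((n : ℝ) + 1)) ^ (n + 1 - h)) atTop (𝓝 (Real.exp (-I))) := by
  have h1 : Tendsto (fun n : ℕ => (1 - I / ((n : ℝ) + 1)) ^ (n + 1)) atTop
      (𝓝 (Real.exp (-I))) := by
    have := (Real.tendsto_one_add_div_pow_exp (-I)).comp (tendsto_add_atTop_nat 1)
    refine this.congr (fun n => ?_)
    simp only [Function.comp_apply]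
    congr 1
    push_cast
    ring
  have h2 : Tendsto (fun n : ℕ => (1 - I / ((n : ℝ) + 1)) ^ h) atTop (𝓝 1) := by
    have := (lim2 I).pow h
    rwa [one_pow] at this
  have h3 := h1.div h2 one_ne_zero
  rw [div_one] at h3
  refine h3.congr' ?_
  have hpos : ∀ᶠ n : ℕ in atTop, (0 : ℝ) < 1 - I / ((n : ℝ) + 1) :=
    (lim2 I).eventually (lt_mem_nhds one_pos)
  filter_upwards [hpos, eventually_ge_atTop h] with n hn hnh
  simp only [Pi.div_apply]
  rw [div_eq_iff (pow_pos hn h).ne', ← pow_add]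
  congr 1
  omega

end ModH4

open ModH4

theorem stmH4_of (hMR : StmMR) (hH0 : StmH0) (hH2 : StmH2) (hH3 : StmH3) (hH5 : StmH5) :
    StmH4 := by
  classical
  intro μ _ _ d hd R N
  have hPfin := (hH5 R N).1
  have hIfin : (IntR N R).Finite := hPfin.subset (intR_sub N R)
  have : Finite (PresR N R) := hPfin
  let S : ∀ n : ℕ, Set (PresR N R → Fin (n + 2)) := fun n =>
    {ψ | Function.Injective ψ ∧ (∀ a, a.1 = (0, []) → ψ a = 0) ∧
    (∀ a, ψ a ≠ d n) ∧ ∀ (a b : PresR N R) (i k k' : ℕ) (u : List ℕ), a.1 = (i, k :: u) →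
      b.1 = (i, k' :: u) → k < k' → ψ a < ψ b}
  have hSfin : ∀ n, (S n).Finite := fun n => Set.toFinite _
  let ext : ∀ n : ℕ, (PresR N R → Fin (n + 2)) → Addr → Fin (n + 2) := fun n ψ a =>
    if h : a ∈ PresR N R then ψ ⟨a, h⟩ else 0
  have hext : ∀ n ψ a (h : a ∈ PresR N R), ext n ψ a = ψ ⟨a, h⟩ := by
    intro n ψ a h
    simp only [ext]
    rw [dif_pos h]
  set P : ℕ := ∏ᶠ a ∈ IntR N R, (N a).factorial with hP
  have hPpos : (P : ℝ) ≠ 0 := by
    rw [hP, finprod_mem_eq_finite_toFinset_prod _ hIfin]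
    rw [Nat.cast_ne_zero, Finset.prod_ne_zero_iff]
    intro a _
    exact Nat.factorial_ne_zero _
  set h := (PresR N R).ncard with hh
  set I := (IntR N R).ncard with hIdef
  have h0mem : ((0, []) : Addr) ∈ PresR N R := ⟨trivial, by simp⟩
  -- the probability
  have hprob : ∀ n : ℕ, law μ (n + 2) {c | ∃ φ, Match (EM (d n) (F0 c)) 0 R N φ ∧ Inc R N φ ∧
      ∀ a ∈ PresR N R, φ a ≠ d n} = ENNReal.ofReal
      (((n.descFactorial (h - 1) : ℝ) * (1 / ((n : ℝ) + 1)) ^ (h - 1)) / P *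
      (1 - ((h : ℝ) - 1) / ((n : ℝ) + 1)) *
      (1 - (I : ℝ) / ((n : ℝ) + 1)) ^ (n + 1 - h)) := by
    intro n
    have hset : {c : Wt (n + 2) | ∃ φ, Match (EM (d n) (F0 c)) 0 R N φ ∧ Inc R N φ ∧
      ∀ a ∈ PresR N R, φ a ≠ d n} =
      ⋃ ψ ∈ (hSfin n).toFinset, {c | Match (EM (d n) (F0 c)) 0 R N (ext n ψ)} := by
      ext c
      simp only [Set.mem_iUnion, Set.Finite.mem_toFinset]
      constructor
      · rintro ⟨φ, hM, hInc, hdφ⟩
        refine ⟨fun a => φ a.1, ⟨?_, ?_, ?_, ?_⟩, ?_⟩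
        · intro a b hab
          exact Subtype.ext (hM.2.1 a.2 b.2 hab)
        · intro a ha
          simp only
          rw [ha]
          exact hM.1
        · intro a
          exact hdφ a.1 a.2
        · intro a b i k k' u ha hb hk
          simp only
          rw [ha, hb]
          exact hInc i k k' u (ha ▸ a.2) (hb ▸ b.2) hk
        · refine match_congr (fun a ha => ?_) hM
          exact (hext n (fun a => φ a.1) a ha).symm
      · rintro ⟨ψ, ⟨h1, h2, h3, h4⟩, hM⟩
        refine ⟨ext n ψ, hM, ?_, ?_⟩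
        · intro i k k' u ha hb hk
          rw [hext n ψ _ ha, hext n ψ _ hb]
          exact h4 _ _ i k k' u rfl rfl hk
        · intro a ha
          rw [hext n ψ a ha]
          exact h3 _
    rw [hset, measure_biUnion_finset]
    · have hconst : ∀ ψ ∈ (hSfin n).toFinset, law μ (n + 2)
          {c | Match (EM (d n) (F0 c)) 0 R N (ext n ψ)} =
          ENNReal.ofReal ((1 / ((n : ℝ) + 1)) ^ (h - 1) *
          (1 - ((h : ℝ) - 1) / ((n : ℝ) + 1)) *
          (1 - (I : ℝ) / ((n : ℝ) + 1)) ^ (n + 1 - h)) := by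
        intro ψ hψ
        obtain ⟨h1, h2, h3, h4⟩ := (Set.Finite.mem_toFinset _).1 hψ
        apply hH2 μ n (d n) R N (ext n ψ)
        · rw [hext n ψ _ h0mem]
          exact h2 _ rfl
        · intro a ha b hb hab
          rw [hext n ψ a ha, hext n ψ b hb] at hab
          have := h1 hab
          exact congrArg Subtype.val this
        · intro a ha
          rw [hext n ψ a ha]
          exact h3 _
      rw [Finset.sum_congr rfl hconst, Finset.sum_const, nsmul_eq_mul]
      have hcard : ((hSfin n).toFinset.card : ℝ) = (n.descFactorial (h - 1) : ℝ) / P := by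
        have h3 := hH3 n (d n) R N (hd n)
        rw [← hP, ← hh] at h3
        have h4 : (S n).ncard = (hSfin n).toFinset.card := Set.ncard_eq_toFinset_card _ _
        rw [eq_div_iff hPpos, ← h4]
        exact_mod_cast h3
      rw [← ENNReal.ofReal_natCast, ← ENNReal.ofReal_mul (by positivity), hcard]
      congr 1
      ring
    · intro ψ hψ ψ' hψ' hne
      rw [Function.onFun, Set.disjoint_left]
      intro c hc hc'
      apply hne
      have hψ1 := (Set.Finite.mem_toFinset _).1 (Finset.mem_coe.1 hψ)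
      have hψ1' := (Set.Finite.mem_toFinset _).1 (Finset.mem_coe.1 hψ')
      have hInc : ∀ ψ ∈ S n, Inc R N (ext n ψ) := by
        rintro ψ ⟨_, _, _, h4⟩ i k k' u ha hb hk
        rw [hext n ψ _ ha, hext n ψ _ hb]
        exact h4 _ _ i k k' u rfl rfl hk
      obtain ⟨_, _, heq⟩ := hH0 (n + 2) (d n) 0 (F0 c) R N N (ext n ψ) (ext n ψ') hc
        (hInc ψ hψ1) hc' (hInc ψ' hψ1')
      funext a
      have := heq a.1 a.2
      rw [hext n ψ _ a.2, hext n ψ' _ a.2] at this
      exact this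
    · intro ψ _
      exact meas_F0 hMR (n + 2) (fun g => Match (EM (d n) g) 0 R N (ext n ψ))
  have hlim : Tendsto (fun n : ℕ =>
      (((n.descFactorial (h - 1) : ℝ) * (1 / ((n : ℝ) + 1)) ^ (h - 1)) / P *
      (1 - ((h : ℝ) - 1) / ((n : ℝ) + 1)) *
      (1 - (I : ℝ) / ((n : ℝ) + 1)) ^ (n + 1 - h))) atTop (𝓝 (1 / P * 1 * Real.exp (-I))) :=
    (((lim1 (h - 1)).div_const _).mul (lim2 _)).mul (lim3 _ _)
  have htarget : ∏ᶠ a ∈ IntR N R, ENNReal.ofReal (Real.exp (-1) / (N a).factorial) =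
      ENNReal.ofReal (1 / P * 1 * Real.exp (-I)) := by
    rw [finprod_mem_eq_finite_toFinset_prod _ hIfin, ← ENNReal.ofReal_prod_of_nonneg]
    · congr 1
      rw [Finset.prod_div_distrib, Finset.prod_const, ← Set.ncard_eq_toFinset_card _ hIfin,
        ← hIdef, ← Real.exp_nat_mul, hP, finprod_mem_eq_finite_toFinset_prod _ hIfin]
      push_cast
      rw [mul_one, mul_neg_one]
      ring
    · intro a _
      positivity
  rw [htarget]
  refine (ENNReal.tendsto_ofReal hlim).congr (fun n => ?_)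
  rw [hprob n]

end
end Pool.Agent.T6.H59.MA
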