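import Pool.Agent.T6.H59.MA.Stm

namespace Pool.Agent.T6.H59.MA
open MeasureTheory Filter Topology
noncomputable section

namespace ModH5

theorem presR_finite (N : Addr → ℕ) : ∀ R, (PresR N R).Finite := by
  intro R
  induction R with
  | zero =>
    apply (Set.finite_singleton ((0, []) : Addr)).subset
    rintro ⟨i, u⟩ ⟨_, h⟩
    simp only at h
    have h3 : i = 0 := by omega
    have h4 : u.length = 0 := by omega
    rw [h3, List.length_eq_zero_iff.1 h4]
    rfl
  | succ R ih =>
    have h : PresR N (R + 1) ⊆ PresR N R ∪ ((fun i : ℕ => ((i, []) : Addr)) '' (Set.Iic (R + 1)) ∪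
        ⋃ a ∈ PresR N R, (fun k : ℕ => ((a.1, k :: a.2) : Addr)) '' (Set.Iio (N a))) := by
      rintro ⟨i, u⟩ ⟨hp, hd⟩
      right
      rcases u with _ | ⟨k, u⟩
      · left
        simp only [List.length_nil, add_zero] at hd
        exact ⟨i, hd, rfl⟩
      · right
        have hp' : pres N i u ∧ k < N (i, u) := hp
        simp only [List.length_cons] at hd
        simp only [Set.mem_iUnion]
        exact ⟨(i, u), ⟨hp'.1, by simp only; omega⟩, k, hp'.2, rfl⟩
    refine Set.Finite.subset ?_ h
    refine ih.union (((Set.finite_Iic _).image _).union ?_)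
    exact ih.biUnion (fun a _ => (Set.finite_Iio _).image _)

theorem intR_finite (N : Addr → ℕ) (R : ℕ) : (IntR N R).Finite :=
  (presR_finite N R).subset (fun _ h => ⟨h.1, h.2.le⟩)

end ModH5

open ModH5

theorem stmH5 : StmH5 := by
  intro R N
  refine ⟨presR_finite N R, ?_⟩
  have hfin := intR_finite N R
  have hset : {N' : Addr → ℕ | ∀ a ∈ IntR N R, N' a = N a} =
      Set.pi (hfin.toFinset : Set Addr) (fun a => {N a}) := by
    ext N'
    simp [Set.mem_pi]
  rw [hset]
  unfold lawT
  rw [Measure.infinitePi_pi]
  · rw [finprod_mem_eq_finite_toFinset_prod _ hfin]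
    apply Finset.prod_congr rfl
    intro a _
    rw [ProbabilityTheory.poissonMeasure_singleton]
    simp
  · intro a _
    exact measurableSet_singleton _

end
end Pool.Agent.T6.H59.MA
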