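import Pool.Agent.T6.H59.MA.Stm

/-! H: local limit of the uniform map (Scheffe argument). -/

namespace Pool.Agent.T6.H59.MA
open MeasureTheory Filter Topology

namespace ModHH

section scheffe

variable {ι : Type} {Ω : ℕ → Type} [∀ n, MeasurableSpace (Ω n)]
  (P : ∀ n, Measure (Ω n)) [∀ n, IsProbabilityMeasure (P n)] (E : ∀ n, ι → Set (Ω n))

lemma lower (hE : ∀ n i, MeasurableSet (E n i)) (hd : ∀ n i j, i ≠ j → Disjoint (E n i) (E n j))
    (B : ∀ n, Set (Ω n)) (S : Set ι) (h1 : ∀ n, ∀ i ∈ S, E n i ⊆ B n) (p : ι → ENNReal)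
    (hp : ∀ i, Tendsto (fun n => P n (E n i)) atTop (𝓝 (p i))) (a : ENNReal)
    (ha : a < ∑' i, S.indicator p i) : ∀ᶠ n in atTop, a < P n (B n) := by
  classical
  rw [ENNReal.tsum_eq_iSup_sum, lt_iSup_iff] at ha
  obtain ⟨F, hF⟩ := ha
  have ht : Tendsto (fun n => ∑ i ∈ F, S.indicator (fun i => P n (E n i)) i) atTop
      (𝓝 (∑ i ∈ F, S.indicator p i)) := by
    apply tendsto_finsetSum
    intro i _
    by_cases hi : i ∈ S
    · simp only [Set.indicator_of_mem hi]
      exact hp i
    · simp only [Set.indicator_of_notMem hi]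
      exact tendsto_const_nhds
  filter_upwards [ht.eventually (lt_mem_nhds hF)] with n hn
  refine hn.trans_le ?_
  have e1 : ∑ i ∈ F, S.indicator (fun i => P n (E n i)) i =
      ∑ i ∈ F.filter (fun i => i ∈ S), P n (E n i) := by
    rw [Finset.sum_filter]
    apply Finset.sum_congr rfl
    intro i _
    rw [Set.indicator_apply]
  rw [e1, ← measure_biUnion_finset (fun i _ j _ hij => hd n i j hij) (fun i _ => hE n i)]
  apply measure_mono
  apply Set.iUnion₂_subset
  intro i hi
  exact h1 n i (Finset.mem_filter.1 hi).2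

lemma scheffe (hE : ∀ n i, MeasurableSet (E n i))
    (hd : ∀ n i j, i ≠ j → Disjoint (E n i) (E n j))
    (B : ∀ n, Set (Ω n)) (hB : ∀ n, MeasurableSet (B n)) (S : Set ι)
    (h1 : ∀ n, ∀ i ∈ S, E n i ⊆ B n) (h2 : ∀ n, ∀ i ∉ S, E n i ⊆ (B n)ᶜ) (p : ι → ENNReal)
    (hp : ∀ i, Tendsto (fun n => P n (E n i)) atTop (𝓝 (p i))) (hsum : ∑' i, p i = 1) :
    Tendsto (fun n => P n (B n)) atTop (𝓝 (∑' i, S.indicator p i)) := by
  set L := ∑' i, S.indicator p i with hL
  set L' := ∑' i, Sᶜ.indicator p i with hL'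
  have hLL : L + L' = 1 := by
    rw [hL, hL', ← ENNReal.tsum_add, ← hsum]
    congr 1
    funext i
    have := congrFun (Set.indicator_self_add_compl S p) i
    simpa using this
  have hlow := lower P E hE hd B S h1 p hp
  have hup := lower P E hE hd (fun n => (B n)ᶜ) Sᶜ h2 p hp
  rw [tendsto_order]
  refine ⟨hlow, ?_⟩
  intro b hb
  by_cases hb1 : b ≤ 1
  · have hb0 : b + (1 - b) = 1 := add_tsub_cancel_of_le hb1
    have hfin : (1 - b) ≠ ⊤ := ne_top_of_le_ne_top ENNReal.one_ne_top tsub_le_self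
    have h3 : 1 - b < L' := by
      by_contra hcon
      push Not at hcon
      have h4 : L + L' ≤ L + (1 - b) := by gcongr
      have h5 : L + (1 - b) < b + (1 - b) := ENNReal.add_lt_add_right hfin hb
      rw [hb0] at h5
      rw [hLL] at h4
      exact absurd h5 (not_lt_of_ge h4)
    filter_upwards [hup _ h3] with n hn
    by_contra hcon
    push Not at hcon
    have h6 : P n (B n) + P n (B n)ᶜ = 1 := by
      rw [measure_add_measure_compl (hB n), measure_univ]
    have hbt : b ≠ ⊤ := ne_top_of_le_ne_top ENNReal.one_ne_top hb1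
    have h7 : b + (1 - b) < P n (B n) + P n (B n)ᶜ :=
      ENNReal.add_lt_add_of_le_of_lt hbt hcon hn
    rw [hb0, h6] at h7
    exact absurd h7 (lt_irrefl _)
  · push Not at hb1
    exact Eventually.of_forall fun n => lt_of_le_of_lt prob_le_one hb1

end scheffe

/-! ### shapes -/

lemma pres_congr {N N' : Addr → ℕ} {R : ℕ} (h : ∀ a ∈ IntR N R, N' a = N a) (i : ℕ) :
    ∀ u : List ℕ, i + u.length ≤ R → (pres N' i u ↔ pres N i u)
  | [], _ => Iff.rfl
  | k :: u, hu => by
    have hu' : i + u.length < R := by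
      simp only [List.length_cons] at hu
      omega
    have ih := pres_congr h i u hu'.le
    constructor
    · rintro ⟨h1, h2⟩
      have h3 := ih.1 h1
      exact ⟨h3, by rw [h (i, u) ⟨h3, hu'⟩] at h2; exact h2⟩
    · rintro ⟨h1, h2⟩
      exact ⟨ih.2 h1, by rw [h (i, u) ⟨h1, hu'⟩]; exact h2⟩

lemma presR_congr {N N' : Addr → ℕ} {R : ℕ} (h : ∀ a ∈ IntR N R, N' a = N a) :
    PresR N' R = PresR N R ∧ IntR N' R = IntR N R := by
  constructor
  · ext ⟨i, u⟩
    constructor
    · rintro ⟨h1, h2⟩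
      exact ⟨(pres_congr h i u h2).1 h1, h2⟩
    · rintro ⟨h1, h2⟩
      exact ⟨(pres_congr h i u h2).2 h1, h2⟩
  · ext ⟨i, u⟩
    constructor
    · rintro ⟨h1, h2⟩
      exact ⟨(pres_congr h i u h2.le).1 h1, h2⟩
    · rintro ⟨h1, h2⟩
      exact ⟨(pres_congr h i u h2.le).2 h1, h2⟩

open Classical in
/-- the reduced shape -/
noncomputable def red (R : ℕ) (N : Addr → ℕ) : Addr → ℕ := fun a => if a ∈ IntR N R then N a else 0

lemma red_int (R : ℕ) (N : Addr → ℕ) : ∀ a ∈ IntR N R, red R N a = N a := by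
  intro a ha
  unfold red
  rw [if_pos ha]

lemma red_red (R : ℕ) (N : Addr → ℕ) : red R (red R N) = red R N := by
  have h := (presR_congr (red_int R N)).2
  funext a
  by_cases ha : a ∈ IntR N R
  · exact red_int R (red R N) a (by rw [h]; exact ha)
  · have ha' : a ∉ IntR (red R N) R := by rw [h]; exact ha
    unfold red at ha' ⊢
    rw [if_neg ha', if_neg ha]

lemma red_eq {R : ℕ} {N1 N2 : Addr → ℕ} (h1 : red R N1 = N1) (h2 : red R N2 = N2)
    (h : ∀ a ∈ IntR N1 R, N2 a = N1 a) : N1 = N2 := by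
  have h3 := (presR_congr h).2
  funext a
  by_cases ha : a ∈ IntR N1 R
  · exact (h a ha).symm
  · have ha' : a ∉ IntR N2 R := by rw [h3]; exact ha
    have e1 : N1 a = 0 := by
      rw [← h1]; unfold red; rw [if_neg ha]
    have e2 : N2 a = 0 := by
      rw [← h2]; unfold red; rw [if_neg ha']
    rw [e1, e2]

/-- the cylinder of a shape -/
def Cyl (R : ℕ) (N : Addr → ℕ) : Set (Addr → ℕ) := {N' | ∀ a ∈ IntR N R, N' a = N a}

lemma match_id {R : ℕ} {N N' : Addr → ℕ} (h : N' ∈ Cyl R N) :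
    Match (ET N') ((0, []) : Addr) R N id := by
  have h1 := (presR_congr h).1
  refine ⟨rfl, Function.injective_id.injOn, ?_, ?_⟩
  · intro a ha b hb
    have ha' : a ∈ PresR N' R := by rw [h1]; exact ha
    have hb' : b ∈ PresR N' R := by rw [h1]; exact hb
    simp only [id, ET]
    constructor
    · rintro ⟨-, -, h3⟩
      exact ⟨ha.1, hb.1, h3⟩
    · rintro ⟨-, -, h3⟩
      exact ⟨ha'.1, hb'.1, h3⟩
  · intro a ha w hw
    refine ⟨w, ?_, rfl⟩
    rw [← h1]
    simp only [id, ET] at hw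
    obtain ⟨i, u⟩ := a
    obtain ⟨j, v⟩ := w
    have ha2 : i + u.length < R := ha.2
    rcases hw with ⟨hw1, hw2, hw3 | ⟨hw3, k, hk⟩⟩ | ⟨hw1, hw2, hw3 | ⟨hw3, k, hk⟩⟩
    · refine ⟨hw1, ?_⟩
      simp only at hw3
      obtain ⟨e1, e2, e3⟩ := hw3
      subst e1 e2
      simp only [List.length_nil] at ha2 ⊢
      omega
    · refine ⟨hw1, ?_⟩
      simp only at hw3 hk
      subst hw3 hk
      simp only [List.length_cons]
      omega
    · refine ⟨hw2, ?_⟩
      simp only at hw3
      obtain ⟨e1, e2, e3⟩ := hw3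
      subst e1 e2
      simp only [List.length_nil] at ha2 ⊢
      omega
    · refine ⟨hw2, ?_⟩
      simp only at hw3 hk
      subst hw3 hk
      simp only [List.length_cons] at ha2
      simp only
      omega

lemma meas_F0 (hMR : StmMR) (n : ℕ) (A : Set (Fin n → Fin n)) :
    MeasurableSet {c : Wt n | F0 c ∈ A} := by
  have h : Measurable (fun c : Wt n => (F0 c : Fin n → Fin n)) := by
    rw [measurable_pi_iff]
    intro v
    have h1 : Measurable (fun r : Row n => tgt r v) := by
      apply measurable_to_countable'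
      intro w
      exact (hMR n v 0 0).1 w
    exact h1.comp (measurable_pi_apply v)
  exact h (Set.toFinite A).measurableSet

end ModHH

open ModHH in
theorem stmH (hMR : StmMR) (h0 : StmH0) (h1 : StmH1) (h4 : StmH4) (h5 : StmH5) : StmH := by
  intro μ _ _ d hd R H
  have hprob : ∀ n, IsProbabilityMeasure (law μ (n + 2)) := by
    intro n
    unfold law rowlaw
    infer_instance
  have hlT : IsProbabilityMeasure lawT := by
    unfold lawT
    infer_instance
  -- reduced shapes
  set ι : Type := {N : Addr →₀ ℕ // red R N = N} with hι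
  have hIfin : ∀ N : Addr → ℕ, (IntR N R).Finite := fun N =>
    ((h5 R N).1).subset fun a ha => ⟨ha.1, ha.2.le⟩
  have hC : ∀ N : Addr → ℕ, MeasurableSet (Cyl R N) := by
    intro N
    have : Cyl R N = ⋂ a ∈ IntR N R, {N' : Addr → ℕ | N' a = N a} := by
      ext N'
      simp [Cyl]
    rw [this]
    apply MeasurableSet.biInter (hIfin N).countable
    intro a _
    have hm : Measurable (fun N' : Addr → ℕ => N' a) := measurable_pi_apply a
    exact hm (measurableSet_singleton (N a))
  have hcov : ∀ N' : Addr → ℕ, ∃ i : ι, N' ∈ Cyl R i.1 := by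
    intro N'
    have hf : (Function.support (red R N')).Finite := by
      apply (hIfin N').subset
      intro a ha
      by_contra hcon
      apply ha
      unfold red
      rw [if_neg hcon]
    refine ⟨⟨Finsupp.ofSupportFinite (red R N') hf, ?_⟩, ?_⟩
    · exact red_red R N'
    · intro a ha
      change a ∈ IntR (red R N') R at ha
      change N' a = red R N' a
      rw [(presR_congr (red_int R N')).2] at ha
      exact (red_int R N' a ha).symm
  have hdisj : ∀ i j : ι, i ≠ j → Disjoint (Cyl R i.1) (Cyl R j.1) := by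
    intro i j hij
    rw [Set.disjoint_left]
    intro N' hi hj
    apply hij
    apply Subtype.ext
    apply DFunLike.coe_injective
    apply red_eq i.2 j.2
    intro a ha
    have e1 := (presR_congr hi).2
    have e2 := (presR_congr hj).2
    rw [← hi a ha, hj a (by rw [← e2, e1]; exact ha)]
  set S : Set ι := {i | BallIso (ET i.1) ((0, []) : Addr) R H} with hS
  set p : ι → ENNReal := fun i => lawT (Cyl R i.1) with hp
  have hiff : ∀ i : ι, ∀ N' ∈ Cyl R i.1,
      (BallIso (ET N') ((0, []) : Addr) R H ↔ BallIso (ET i.1) ((0, []) : Addr) R H) :=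
    fun i N' hN' => h1 Addr (ET N') ((0, []) : Addr) R i.1 id H (match_id hN')
  have hsum : ∑' i, p i = 1 := by
    rw [hp, ← measure_iUnion (fun i j hij => hdisj i j hij) (fun i => hC i.1)]
    have : (⋃ i : ι, Cyl R i.1) = Set.univ := by
      ext N'
      simp only [Set.mem_iUnion, Set.mem_univ, iff_true]
      exact hcov N'
    rw [this, measure_univ]
  have hlim : lawT {N | BallIso (ET N) ((0, []) : Addr) R H} = ∑' i, S.indicator p i := by
    have e : {N | BallIso (ET N) ((0, []) : Addr) R H} = ⋃ i ∈ S, Cyl R i.1 := by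
      ext N'
      simp only [Set.mem_ofPred_eq, Set.mem_iUnion, exists_prop]
      constructor
      · intro h
        obtain ⟨i, hi⟩ := hcov N'
        exact ⟨i, (hiff i N' hi).1 h, hi⟩
      · rintro ⟨i, hiS, hi⟩
        exact (hiff i N' hi).2 hiS
    rw [e, measure_biUnion (Set.to_countable S) (fun i _ j _ hij => hdisj i j hij)
      (fun i _ => hC i.1), ← tsum_subtype S p]
  rw [hlim]
  refine scheffe (fun n => law μ (n + 2))
    (fun n (i : ι) => {c | ∃ φ, Match (EM (d n) (F0 c)) 0 R i.1 φ ∧ Inc R i.1 φ ∧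
      ∀ a ∈ PresR i.1 R, φ a ≠ d n}) ?_ ?_ _ ?_ S ?_ ?_ p ?_ hsum
  · intro n i
    exact meas_F0 hMR (n + 2) {f | ∃ φ, Match (EM (d n) f) 0 R i.1 φ ∧ Inc R i.1 φ ∧
      ∀ a ∈ PresR i.1 R, φ a ≠ d n}
  · intro n i j hij
    rw [Set.disjoint_left]
    rintro c ⟨φ, hφ1, hφ2, -⟩ ⟨φ', hφ1', hφ2', -⟩
    apply hij
    apply Subtype.ext
    apply DFunLike.coe_injective
    apply red_eq i.2 j.2
    intro a ha
    exact ((h0 _ _ _ _ _ _ _ _ _ hφ1 hφ2 hφ1' hφ2').2.1 a ha).symm
  · intro n
    exact meas_F0 hMR (n + 2) {f | BallIso (EM (d n) f) 0 R H}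
  · rintro n i hi c ⟨φ, hφ, -, -⟩
    exact (h1 _ _ _ _ _ _ H hφ).2 hi
  · rintro n i hi c ⟨φ, hφ, -, -⟩ hc
    exact hi ((h1 _ _ _ _ _ _ H hφ).1 hc)
  · intro i
    have := h4 μ d hd R i.1
    rw [← (h5 R i.1).2] at this
    exact this

end Pool.Agent.T6.H59.MA
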