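import Pool.Agent.T6.H59.MA.EE

/-!
# Module I: the ball about vertex `0` in the minimum arborescence is the ball in the uniform map
-/

set_option autoImplicit false

namespace Pool.Agent.T6.H59.MA
open MeasureTheory Filter Topology
noncomputable section

namespace ModI

/-! ## cheapest targets -/

theorem isTgt_iff {n : ℕ} {r : Row n} (hr : Function.Injective r) (v w : Fin n) :
    IsTgt r v w ↔ w ≠ v ∧ ∀ w', w' ≠ v → r w ≤ r w' := by
  constructor
  · rintro ⟨h1, h2⟩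
    exact ⟨h1, fun w' hw' => (h2 w' hw').1⟩
  · rintro ⟨h1, h2⟩
    refine ⟨h1, fun w' hw' => ⟨h2 w' hw', fun hlt => ?_⟩⟩
    refine lt_of_le_of_ne (h2 w' hw') (fun e => ?_)
    exact absurd (hr e) (ne_of_gt hlt)

theorem isTgt_unique {n : ℕ} {r : Row n} {v w w' : Fin n} (h : IsTgt r v w) (h' : IsTgt r v w') :
    w = w' := by
  rcases lt_trichotomy w w' with hlt | heq | hgt
  · exact absurd ((h'.2 w h.1).2 hlt) (not_lt.mpr (h.2 w' h'.1).1)
  · exact heq
  · exact absurd ((h.2 w' h'.1).2 hgt) (not_lt.mpr (h'.2 w h.1).1)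

theorem tgt_eq {n : ℕ} {r : Row n} {v w : Fin n} (h : IsTgt r v w) : tgt r v = w := by
  unfold tgt
  have hex : ∃ w, IsTgt r v w := ⟨w, h⟩
  rw [dif_pos hex]
  exact isTgt_unique hex.choose_spec h

/-- relabelled weights -/
def Tr {n : ℕ} (τ : Equiv.Perm (Fin n)) (c : Wt n) : Wt n := fun v w => c (τ v) (τ w)

/-- conjugate map -/
def Cj {n : ℕ} (τ : Equiv.Perm (Fin n)) (f : Fin n → Fin n) : Fin n → Fin n := fun x => τ (f (τ x))

theorem Cj_Cj {n : ℕ} (τ : Equiv.Perm (Fin n)) (hτ : ∀ x, τ (τ x) = x) (f : Fin n → Fin n) :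
    Cj τ (Cj τ f) = f := by
  funext x
  simp [Cj, hτ]

theorem F0_Tr {n : ℕ} (τ : Equiv.Perm (Fin n)) (hτ : ∀ x, τ (τ x) = x) (c : Wt n) (hc : Gen c) :
    F0 (Tr τ c) = Cj τ (F0 c) := by
  funext x
  have hinj : Function.Injective (Tr τ c x) := fun a b hab => τ.injective (hc (τ x) hab)
  have key : ∀ w, IsTgt (Tr τ c x) x w ↔ IsTgt (c (τ x)) (τ x) (τ w) := by
    intro w
    rw [isTgt_iff hinj, isTgt_iff (hc (τ x))]
    constructor
    · rintro ⟨h1, h2⟩
      refine ⟨fun e => h1 (τ.injective e), fun w' hw' => ?_⟩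
      have := h2 (τ w') (fun e => hw' (by rw [← e, hτ]))
      simpa [Tr, hτ] using this
    · rintro ⟨h1, h2⟩
      refine ⟨fun e => h1 (by rw [e]), fun w' hw' => ?_⟩
      exact h2 (τ w') (fun e => hw' (τ.injective e))
  show tgt (Tr τ c x) x = τ (tgt (c (τ x)) (τ x))
  by_cases hex : ∃ w, IsTgt (Tr τ c x) x w
  · obtain ⟨w, hw⟩ := hex
    rw [tgt_eq hw, tgt_eq ((key w).mp hw), hτ]
  · have hex' : ¬ ∃ w, IsTgt (c (τ x)) (τ x) w := by
      rintro ⟨w, hw⟩
      refine hex ⟨τ w, (key _).mpr ?_⟩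
      rw [hτ]; exact hw
    unfold tgt
    rw [dif_neg hex, dif_neg hex', hτ]

theorem wt_Tr {n : ℕ} (τ : Equiv.Perm (Fin n)) (hτ : ∀ x, τ (τ x) = x) (c : Wt n) (d : Fin n)
    (hd : τ d = d) (M : Fin n → Fin n) : wt (Tr τ c) d M = wt c d (Cj τ M) := by
  unfold wt
  refine Finset.sum_equiv τ ?_ ?_
  · intro i
    simp only [Finset.mem_erase, Finset.mem_univ, and_true]
    constructor
    · intro h e
      exact h (τ.injective (by rw [e, hd]))
    · intro h e
      exact h (by rw [e, hd])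
  · intro i _
    simp [Tr, Cj, hτ]

theorem iter_Cj {n : ℕ} (τ : Equiv.Perm (Fin n)) (hτ : ∀ x, τ (τ x) = x) (f : Fin n → Fin n)
    (t : ℕ) (v : Fin n) : (Cj τ f)^[t] v = τ (f^[t] (τ v)) := by
  induction t with
  | zero => simp [hτ]
  | succ t ih =>
    rw [Function.iterate_succ_apply', ih, Function.iterate_succ_apply']
    simp [Cj, hτ]

theorem isArb_Cj {n : ℕ} (τ : Equiv.Perm (Fin n)) (hτ : ∀ x, τ (τ x) = x) (d : Fin n)
    (hd : τ d = d) (M : Fin n → Fin n) (h : IsArb d M) : IsArb d (Cj τ M) := by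
  obtain ⟨h1, h2, h3⟩ := h
  refine ⟨by simp [Cj, hd, h1], fun v hv e => ?_, fun v => ?_⟩
  · have hv' : τ v ≠ d := fun e' => hv (by rw [← hτ v, e', hd])
    refine h2 (τ v) hv' ?_
    have : τ (τ (M (τ v))) = τ v := by
      have e1 : τ (M (τ v)) = v := e
      rw [e1]
    rwa [hτ] at this
  · obtain ⟨t, ht⟩ := h3 (τ v)
    exact ⟨t, by rw [iter_Cj τ hτ, ht, hd]⟩

theorem isMinArb_Cj {n : ℕ} (τ : Equiv.Perm (Fin n)) (hτ : ∀ x, τ (τ x) = x) (c : Wt n)
    (d : Fin n) (hd : τ d = d) (M : Fin n → Fin n) (h : IsMinArb (Tr τ c) d M) :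
    IsMinArb c d (Cj τ M) := by
  refine ⟨isArb_Cj τ hτ d hd M h.1, fun M' hM' => ?_⟩
  have h1 := h.2 (Cj τ M') (isArb_Cj τ hτ d hd M' hM')
  rwa [wt_Tr τ hτ c d hd, wt_Tr τ hτ c d hd, Cj_Cj τ hτ] at h1

theorem ball_tr {n : ℕ} (τ : Equiv.Perm (Fin n)) (hτ : ∀ x, τ (τ x) = x)
    (E E' : Fin n → Fin n → Prop) (hE : ∀ x y, E' x y ↔ E (τ x) (τ y)) (ρ : Fin n) (R : ℕ) :
    ∀ x, x ∈ Ball E' ρ R ↔ τ x ∈ Ball E (τ ρ) R := by
  induction R with
  | zero =>
    intro x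
    show x = ρ ↔ τ x = τ ρ
    exact τ.injective.eq_iff.symm
  | succ R ih =>
    intro x
    show (x ∈ Ball E' ρ R ∨ ∃ z ∈ Ball E' ρ R, E' z x ∨ E' x z) ↔
      (τ x ∈ Ball E (τ ρ) R ∨ ∃ z ∈ Ball E (τ ρ) R, E z (τ x) ∨ E (τ x) z)
    rw [ih x]
    apply or_congr Iff.rfl
    constructor
    · rintro ⟨z, hz, h⟩
      exact ⟨τ z, (ih z).mp hz, by rwa [hE, hE] at h⟩
    · rintro ⟨z, hz, h⟩
      refine ⟨τ z, (ih (τ z)).mpr (by rwa [hτ]), ?_⟩
      rwa [hE, hE, hτ]

theorem EM_Cj {n : ℕ} (τ : Equiv.Perm (Fin n)) (hτ : ∀ x, τ (τ x) = x) (d : Fin n)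
    (hd : τ d = d) (M : Fin n → Fin n) (x y : Fin n) :
    EM d M x y ↔ EM d (Cj τ M) (τ x) (τ y) := by
  unfold EM Cj
  rw [hτ]
  constructor
  · rintro ⟨h1, h2⟩
    exact ⟨fun e => h1 (τ.injective (by rw [e, hd])), by rw [h2]⟩
  · rintro ⟨h1, h2⟩
    exact ⟨fun e => h1 (by rw [e, hd]), τ.injective h2⟩

theorem same_Cj {n : ℕ} (τ : Equiv.Perm (Fin n)) (hτ : ∀ x, τ (τ x) = x) (d : Fin n)
    (hd : τ d = d) (M f : Fin n → Fin n) (ρ : Fin n) (R : ℕ)
    (h : Same d (Cj τ M) (Cj τ f) (τ ρ) R) : Same d M f ρ R := by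
  obtain ⟨h1, h2⟩ := h
  have b1 := ball_tr τ hτ (EM d (Cj τ M)) (EM d M) (EM_Cj τ hτ d hd M) ρ R
  have b2 := ball_tr τ hτ (EM d (Cj τ f)) (EM d f) (EM_Cj τ hτ d hd f) ρ R
  refine ⟨?_, fun x hx y hy => ?_⟩
  · ext x
    rw [b1, b2, h1]
  · rw [EM_Cj τ hτ d hd M, EM_Cj τ hτ d hd f]
    exact h2 _ ((b2 x).mp hx) _ ((b2 y).mp hy)

/-! ## the bad events -/

/-- the ball about `v` differs -/
def Bad {n : ℕ} (d v : Fin n) (R : ℕ) : Set (Wt n) :=
  {c | ∃ M, IsMinArb c d M ∧ ¬ Same d M (F0 c) v R}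

theorem bad_tr {n : ℕ} (τ : Equiv.Perm (Fin n)) (hτ : ∀ x, τ (τ x) = x) (c : Wt n) (hc : Gen c)
    (d : Fin n) (hd : τ d = d) (ρ : Fin n) (R : ℕ) (h : Tr τ c ∈ Bad d ρ R) :
    c ∈ Bad d (τ ρ) R := by
  obtain ⟨M, hM, hS⟩ := h
  refine ⟨Cj τ M, isMinArb_Cj τ hτ c d hd M hM, fun hS' => hS ?_⟩
  rw [F0_Tr τ hτ c hc]
  apply same_Cj τ hτ d hd
  rwa [Cj_Cj τ hτ]

theorem meas_min {n : ℕ} (d : Fin n) (M : Fin n → Fin n) :
    MeasurableSet {c : Wt n | IsMinArb c d M} := by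
  classical
  have hwt : ∀ M : Fin n → Fin n, Measurable (fun c : Wt n => wt c d M) := by
    intro M
    unfold wt
    apply Finset.measurable_sum
    intro v _
    exact (measurable_pi_apply (M v)).comp (measurable_pi_apply v)
  by_cases h : IsArb d M
  · have : {c : Wt n | IsMinArb c d M} =
        ⋂ M' : {M' : Fin n → Fin n // IsArb d M'}, {c | wt c d M ≤ wt c d M'.1} := by
      ext c
      simp only [Set.mem_setOf_eq, Set.mem_iInter, IsMinArb]
      constructor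
      · intro hc M'
        exact hc.2 M'.1 M'.2
      · intro hc
        exact ⟨h, fun M' hM' => hc ⟨M', hM'⟩⟩
    rw [this]
    exact MeasurableSet.iInter (fun M' => measurableSet_le (hwt M) (hwt M'.1))
  · have : {c : Wt n | IsMinArb c d M} = ∅ := by
      ext c
      simp only [Set.mem_setOf_eq, Set.mem_empty_iff_false, iff_false]
      exact fun hc => h hc.1
    rw [this]
    exact MeasurableSet.empty

theorem meas_F0 (hMR : StmMR) {n : ℕ} (f : Fin n → Fin n) :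
    MeasurableSet {c : Wt n | F0 c = f} := by
  have : {c : Wt n | F0 c = f} = ⋂ v : Fin n, (fun c : Wt n => c v) ⁻¹' {r | tgt r v = f v} := by
    ext c
    simp only [Set.mem_setOf_eq, Set.mem_iInter, Set.mem_preimage]
    constructor
    · intro h v
      rw [← h]; rfl
    · intro h
      funext v
      exact h v
  rw [this]
  exact MeasurableSet.iInter (fun v => ((hMR n v 0 0).1 (f v)).preimage (measurable_pi_apply v))

theorem meas_bad (hMR : StmMR) {n : ℕ} (d v : Fin n) (R : ℕ) : MeasurableSet (Bad d v R) := by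
  classical
  have : Bad d v R = ⋃ p : {p : (Fin n → Fin n) × (Fin n → Fin n) // ¬ Same d p.1 p.2 v R},
      ({c | IsMinArb c d p.1.1} ∩ {c | F0 c = p.1.2}) := by
    ext c
    simp only [Bad, Set.mem_setOf_eq, Set.mem_iUnion, Set.mem_inter_iff]
    constructor
    · rintro ⟨M, h1, h2⟩
      exact ⟨⟨(M, F0 c), h2⟩, h1, rfl⟩
    · rintro ⟨⟨⟨M, f⟩, h⟩, h1, h2⟩
      refine ⟨M, h1, ?_⟩
      rw [h2]
      exact h
  rw [this]
  exact MeasurableSet.iUnion (fun p => (meas_min d _).inter (meas_F0 hMR _))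

theorem bad_le (hMR : StmMR) (hGEN : StmGEN) (hX : StmX) (μ : Measure ℝ)
    [IsProbabilityMeasure μ] [NullSingletonClass μ] {n : ℕ} (d ρ v : Fin n) (hρ : d ≠ ρ)
    (hv : d ≠ v) (R : ℕ) : law μ n (Bad d ρ R) ≤ law μ n (Bad d v R) := by
  set τ : Equiv.Perm (Fin n) := Equiv.swap ρ v with hτd
  have hτ : ∀ x, τ (τ x) = x := fun x => Equiv.congr_fun (Equiv.swap_swap ρ v) x
  have hd : τ d = d := Equiv.swap_apply_of_ne_of_ne hρ hv
  have h1 : law μ n (Bad d ρ R) = law μ n ((Tr τ) ⁻¹' (Bad d ρ R)) :=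
    ((hX μ n τ).measure_preimage (meas_bad hMR d ρ R).nullMeasurableSet).symm
  have h2 : (Tr τ) ⁻¹' (Bad d ρ R) ⊆ Bad d v R ∪ {c | ¬ Gen c} := by
    intro c hc
    by_cases hg : Gen c
    · left
      have := bad_tr τ hτ c hg d hd ρ R hc
      rwa [hτd, Equiv.swap_apply_left] at this
    · right; exact hg
  rw [h1]
  refine (measure_mono h2).trans ((measure_union_le _ _).trans ?_)
  rw [(hGEN μ n).2, add_zero]

/-- averaging -/
theorem avg {Ω ι : Type*} [MeasurableSpace Ω] (ν : Measure Ω) [IsProbabilityMeasure ν]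
    (S : Finset ι) (A : ι → Set Ω) (hA : ∀ i, MeasurableSet (A i)) (B : Set Ω) (K : ℕ)
    (h : ∀ ω, ω ∉ B → ∀ T : Finset ι, T ⊆ S → (∀ i ∈ T, ω ∈ A i) → T.card ≤ K) :
    ∑ i ∈ S, ν (A i) ≤ S.card * ν B + K := by
  classical
  set B' := toMeasurable ν B with hB'
  have hB'm : MeasurableSet B' := measurableSet_toMeasurable ν B
  have h1 : ∀ i ∈ S, ν (A i) ≤ ν B + ν (A i \ B') := by
    intro i _
    calc ν (A i) ≤ ν (B' ∪ (A i \ B')) := measure_mono (by
          intro x hx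
          by_cases hxB : x ∈ B'
          · left; exact hxB
          · right; exact ⟨hx, hxB⟩)
      _ ≤ ν B' + ν (A i \ B') := measure_union_le _ _
      _ = ν B + ν (A i \ B') := by rw [hB', measure_toMeasurable]
  refine (Finset.sum_le_sum h1).trans ?_
  rw [Finset.sum_add_distrib, Finset.sum_const, nsmul_eq_mul]
  gcongr
  have hm : ∀ i, MeasurableSet (A i \ B') := fun i => (hA i).diff hB'm
  calc ∑ i ∈ S, ν (A i \ B')
      = ∑ i ∈ S, ∫⁻ ω, (A i \ B').indicator (fun _ => (1 : ENNReal)) ω ∂ν := by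
        apply Finset.sum_congr rfl
        intro i _
        rw [lintegral_indicator_const (hm i), one_mul]
    _ = ∫⁻ ω, ∑ i ∈ S, (A i \ B').indicator (fun _ => (1 : ENNReal)) ω ∂ν := by
        rw [lintegral_finsetSum]
        intro i _
        exact measurable_const.indicator (hm i)
    _ ≤ ∫⁻ _ω, (K : ENNReal) ∂ν := by
        apply lintegral_mono
        intro ω
        simp only [Set.indicator_apply]
        rw [Finset.sum_boole]
        by_cases hω : ω ∈ B'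
        · have : S.filter (fun i => ω ∈ A i \ B') = ∅ := by
            apply Finset.filter_eq_empty_iff.mpr
            intro i _ hi
            exact hi.2 hω
          rw [this]
          simp
        · have hωB : ω ∉ B := fun hb => hω (subset_toMeasurable ν B hb)
          have := h ω hωB (S.filter (fun i => ω ∈ A i \ B')) (Finset.filter_subset _ _)
            (fun i hi => (Finset.mem_filter.mp hi).2.1)
          exact_mod_cast this
    _ = K := by simp

/-! ## the numerical estimates -/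

theorem two_pow_le_factorial (k : ℕ) : 2 ^ k ≤ (k + 1).factorial := by
  induction k with
  | zero => simp
  | succ k ih =>
    rw [Nat.factorial_succ, pow_succ]
    calc 2 ^ k * 2 ≤ (k + 1).factorial * (k + 1 + 1) := Nat.mul_le_mul ih (by omega)
      _ = (k + 1 + 1) * (k + 1).factorial := by ring

/-- bound for the in-degrees -/
def DD (n : ℕ) : ℕ := 2 * Nat.log 2 n + 4

theorem DD_fact (n : ℕ) : n * n ≤ (DD n).factorial := by
  have h1 : n < 2 ^ (Nat.log 2 n + 1) := Nat.lt_pow_succ_log_self (by norm_num) n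
  have h2 := two_pow_le_factorial (2 * Nat.log 2 n + 3)
  have h3 : n * n ≤ 2 ^ (Nat.log 2 n + 1) * 2 ^ (Nat.log 2 n + 1) := Nat.mul_le_mul h1.le h1.le
  have h4 : 2 ^ (Nat.log 2 n + 1) * 2 ^ (Nat.log 2 n + 1) ≤ 2 ^ (2 * Nat.log 2 n + 3) := by
    rw [← pow_add]
    exact Nat.pow_le_pow_right (by norm_num) (by omega)
  exact h3.trans (h4.trans h2)

/-- `1 + log n` -/
def ll (n : ℕ) : ℝ := 1 + Real.log n

theorem ll_ge {n : ℕ} (hn : 1 ≤ n) : 1 ≤ ll n := by
  unfold ll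
  have : 0 ≤ Real.log n := Real.log_nonneg (by exact_mod_cast hn)
  linarith

theorem DD_le {n : ℕ} (hn : 1 ≤ n) : ((DD n : ℕ) : ℝ) + 2 ≤ 6 * ll n := by
  have hlog : (Nat.log 2 n : ℝ) * Real.log 2 ≤ Real.log n := by
    have h1 : 2 ^ (Nat.log 2 n) ≤ n := Nat.pow_log_le_self 2 (by omega)
    have h2 : ((2 : ℝ) ^ (Nat.log 2 n)) ≤ n := by exact_mod_cast h1
    have h3 := Real.log_le_log (by positivity) h2
    rwa [Real.log_pow] at h3
  have h2 : (1 / 2 : ℝ) ≤ Real.log 2 := by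
    have := Real.log_two_gt_d9
    linarith
  have h0 : (0 : ℝ) ≤ Nat.log 2 n := by positivity
  have h3 : (Nat.log 2 n : ℝ) * (1 / 2) ≤ Real.log n := le_trans (by gcongr) hlog
  have h4 : 0 ≤ Real.log n := by nlinarith
  unfold DD ll
  push_cast
  linarith

/-- number of changed balls -/
def KK (n R : ℕ) : ℕ :=
  3 * (⌊(ll n) ^ 2⌋₊ * (⌊(ll n) ^ 2⌋₊ + 1) * (4 * n / (sn n) ^ 2 + 1)) * (DD n + 2) ^ R

/-- the constant of the bound -/
def CC (R : ℕ) : ℝ := 3 * (101 ^ 2 * (2 * 101 ^ 2)) * 40 * 606 ^ R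

theorem ll_le (n : ℕ) (hn : 2 ≤ n) (hs : 2 ≤ sn n) :
    ll n ≤ 101 * Real.log ((sn n : ℝ) + 1) := by
  have hlt : n < (sn n + 1) ^ 100 := ModE.sn_lt n
  have hsR : (2 : ℝ) ≤ sn n := by exact_mod_cast hs
  have h1 : (n : ℝ) ≤ ((sn n : ℝ) + 1) ^ 100 := by exact_mod_cast hlt.le
  clear hlt
  have hn0 : (0 : ℝ) < n := by
    have : 0 < n := by omega
    exact_mod_cast this
  have h2 := Real.log_le_log hn0 h1
  clear h1
  rw [Real.log_pow] at h2
  have hx1 : 1 ≤ Real.log ((sn n : ℝ) + 1) := by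
    rw [Real.le_log_iff_exp_le (by linarith)]
    have := Real.exp_one_lt_d9
    linarith
  unfold ll
  push_cast at h2
  linarith

theorem sq_le (n : ℕ) : sn n ^ 2 ≤ n := by
  have hspec : sn n ^ 100 ≤ n := ModE.sn_spec n
  rcases Nat.eq_zero_or_pos (sn n) with h | h
  · rw [h]; simp
  · exact le_trans (Nat.pow_le_pow_right h (by norm_num)) hspec

theorem KK_le (n R : ℕ) (hn : 2 ≤ n) (hs : 2 ≤ sn n) :
    (KK n R : ℝ) / ((n : ℝ) - 1) ≤
      CC R * (Real.log ((sn n : ℝ) + 1) ^ (R + 4) / ((sn n : ℝ) + 1)) := by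
  have hl := ll_le n hn hs
  have hs2 := sq_le n
  set s := sn n with hsd
  set u : ℝ := (s : ℝ) + 1 with hu
  set x : ℝ := Real.log u with hx
  have hsR : (2 : ℝ) ≤ s := by exact_mod_cast hs
  have hu3 : (3 : ℝ) ≤ u := by rw [hu]; linarith
  have hx1 : 1 ≤ x := by
    rw [hx, Real.le_log_iff_exp_le (by linarith)]
    have := Real.exp_one_lt_d9
    linarith
  have hx0 : 0 < x := by linarith
  have hnR : (2 : ℝ) ≤ n := by exact_mod_cast hn
  have hl1 : 1 ≤ ll n := ll_ge (by omega)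
  set T : ℝ := (ll n) ^ 2 with hT
  have hT1 : 1 ≤ T := by
    rw [hT]; exact one_le_pow₀ hl1
  have hTx : T ≤ 101 ^ 2 * x ^ 2 := by
    rw [hT, ← mul_pow]
    gcongr
  have hfl : (⌊T⌋₊ : ℝ) ≤ 101 ^ 2 * x ^ 2 := (Nat.floor_le (by linarith)).trans hTx
  have hx2 : 1 ≤ x ^ 2 := one_le_pow₀ hx1
  have hfl1 : (⌊T⌋₊ : ℝ) + 1 ≤ 2 * 101 ^ 2 * x ^ 2 := by linarith
  have hs2R : (s : ℝ) ^ 2 ≤ n := by exact_mod_cast hs2
  have hdiv : ((4 * n / s ^ 2 : ℕ) : ℝ) + 1 ≤ 20 * n / u ^ 2 := by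
    have h1 : ((4 * n / s ^ 2 : ℕ) : ℝ) ≤ (4 * n : ℝ) / (s : ℝ) ^ 2 := by
      have := @Nat.cast_div_le ℝ _ _ _ (4 * n) (s ^ 2)
      push_cast at this
      exact this
    have h2 : (1 : ℝ) ≤ n / (s : ℝ) ^ 2 := by
      rw [le_div_iff₀ (by positivity)]
      linarith
    have h3 : (u : ℝ) ^ 2 ≤ 4 * (s : ℝ) ^ 2 := by
      rw [hu]; nlinarith
    calc ((4 * n / s ^ 2 : ℕ) : ℝ) + 1 ≤ 4 * n / (s : ℝ) ^ 2 + n / (s : ℝ) ^ 2 := by linarith
      _ = 5 * n / (s : ℝ) ^ 2 := by ring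
      _ ≤ 20 * n / u ^ 2 := by
        rw [div_le_div_iff₀ (by positivity) (by positivity)]
        nlinarith
  have hDD : ((DD n : ℕ) : ℝ) + 2 ≤ 606 * x := by
    have := DD_le (n := n) (by omega)
    linarith
  have hn1 : (n : ℝ) / ((n : ℝ) - 1) ≤ 2 := by
    rw [div_le_iff₀ (by linarith)]
    linarith
  have hK : (KK n R : ℝ) ≤ 3 * ((101 ^ 2 * x ^ 2) * (2 * 101 ^ 2 * x ^ 2) * (20 * n / u ^ 2)) *
      (606 * x) ^ R := by
    unfold KK
    push_cast
    rw [← hsd, ← hT]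
    gcongr
  calc (KK n R : ℝ) / ((n : ℝ) - 1)
      ≤ (3 * ((101 ^ 2 * x ^ 2) * (2 * 101 ^ 2 * x ^ 2) * (20 * n / u ^ 2)) * (606 * x) ^ R) /
          ((n : ℝ) - 1) := by
        have : 0 < (n : ℝ) - 1 := by linarith
        gcongr
    _ = (3 * (101 ^ 2 * (2 * 101 ^ 2)) * 20 * 606 ^ R) * (x ^ (R + 4)) * (1 / u ^ 2) *
          ((n : ℝ) / ((n : ℝ) - 1)) := by
        rw [mul_pow, pow_add]
        have : (n : ℝ) - 1 ≠ 0 := by linarith
        have : u ≠ 0 := by linarith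
        field_simp
    _ ≤ (3 * (101 ^ 2 * (2 * 101 ^ 2)) * 20 * 606 ^ R) * (x ^ (R + 4)) * (1 / u) * 2 := by
        have hu2 : (1 : ℝ) / u ^ 2 ≤ 1 / u := by
          rw [div_le_div_iff₀ (by positivity) (by positivity)]
          nlinarith
        have hq : 0 ≤ (n : ℝ) / ((n : ℝ) - 1) := div_nonneg (by linarith) (by linarith)
        gcongr
    _ = CC R * (x ^ (R + 4) / u) := by
        unfold CC
        ring

theorem lim_KK (R : ℕ) : Tendsto (fun n : ℕ => ENNReal.ofReal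
    (CC R * (Real.log ((sn n : ℝ) + 1) ^ (R + 4) / ((sn n : ℝ) + 1)))) atTop (𝓝 0) := by
  have h1 : Tendsto (fun x : ℝ => Real.log x ^ (R + 4) / x) atTop (𝓝 0) :=
    (Real.isLittleO_pow_log_id_atTop (n := R + 4)).tendsto_div_nhds_zero
  have h2 : Tendsto (fun n : ℕ => ((sn n : ℝ) + 1)) atTop atTop :=
    tendsto_atTop_add_const_right _ _ (tendsto_natCast_atTop_atTop.comp ModE.sn_tendsto)
  have h3 := (h1.comp h2).const_mul (CC R)
  rw [mul_zero] at h3
  have h4 := ENNReal.tendsto_ofReal h3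
  rwa [ENNReal.ofReal_zero] at h4

theorem lim_T : Tendsto (fun n : ℕ => ENNReal.ofReal
    (2 * (1 + Real.log n) / (ll n) ^ 2)) atTop (𝓝 0) := by
  have h1 : Tendsto (fun n : ℕ => ll n) atTop atTop :=
    tendsto_atTop_add_const_left _ _ (Real.tendsto_log_atTop.comp tendsto_natCast_atTop_atTop)
  have h2 : Tendsto (fun n : ℕ => 2 / ll n) atTop (𝓝 0) := h1.const_div_atTop 2
  have h3 : (fun n : ℕ => 2 * (1 + Real.log n) / (ll n) ^ 2) =ᶠ[atTop] (fun n : ℕ => 2 / ll n) := by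
    filter_upwards [eventually_ge_atTop 1] with n hn
    have := ll_ge hn
    have h0 : ll n ≠ 0 := by linarith
    show 2 * ll n / (ll n) ^ 2 = 2 / ll n
    field_simp
  have h4 := ENNReal.tendsto_ofReal (h2.congr' h3.symm)
  rwa [ENNReal.ofReal_zero] at h4

theorem lim_D : Tendsto (fun n : ℕ => ENNReal.ofReal
    (n / ((DD n).factorial : ℝ))) atTop (𝓝 0) := by
  have h2 : Tendsto (fun n : ℕ => (1 : ℝ) / n) atTop (𝓝 0) := tendsto_one_div_atTop_nhds_zero_nat
  have h4 := ENNReal.tendsto_ofReal h2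
  rw [ENNReal.ofReal_zero] at h4
  refine tendsto_of_tendsto_of_tendsto_of_le_of_le' tendsto_const_nhds h4
    (Eventually.of_forall (fun n => by simp)) ?_
  filter_upwards [eventually_ge_atTop 1] with n hn
  apply ENNReal.ofReal_le_ofReal
  have h5 : ((n : ℝ)) * n ≤ ((DD n).factorial : ℝ) := by exact_mod_cast DD_fact n
  have hn0 : (0 : ℝ) < n := by exact_mod_cast hn
  rw [div_le_div_iff₀ (by positivity) hn0]
  linarith

attribute [local irreducible] sn

/-- the bound for the probability that the balls about the root differ -/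
def bd (μ : Measure ℝ) (R n : ℕ) : ENNReal :=
  ((ENNReal.ofReal (2 * (1 + Real.log n) / (ll n) ^ 2) +
    law μ n {c | ∃ (y : ℕ → Fin n) (L : ℕ), Geo c y L ∧ 4 * n < (exs c y L).card * (sn n) ^ 2} +
    ENNReal.ofReal (n / ((DD n).factorial : ℝ))) +
    ENNReal.ofReal (CC R * (Real.log ((sn n : ℝ) + 1) ^ (R + 4) / ((sn n : ℝ) + 1))))

theorem lim_bd (hE : StmE) (μ : Measure ℝ) [IsProbabilityMeasure μ] [NullSingletonClass μ]
    (R : ℕ) : Tendsto (fun n : ℕ => bd μ R n) atTop (𝓝 0) := by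
  have := ((lim_T.add (hE μ)).add lim_D).add (lim_KK R)
  simp only [add_zero] at this
  exact this

open Classical in
/-- the core estimate -/
theorem core (hMR : StmMR) (hGEN : StmGEN) (hUNI : StmUNI) (hA : StmA) (hF : StmF)
    (hG : StmG) (hX : StmX) (hI1 : StmI1) (μ : Measure ℝ) [IsProbabilityMeasure μ]
    [NullSingletonClass μ] (R n : ℕ) (hn2 : 2 ≤ n) (hs : 2 ≤ sn n) (d ρ : Fin n) (hd : d ≠ ρ) :
    law μ n (Bad d ρ R) ≤ bd μ R n := by
  haveI : IsProbabilityMeasure (law μ n) := by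
    haveI := ModE.prob_row μ n
    unfold law; infer_instance
  -- the bad event
  set B : Set (Wt n) := (({c | ¬ Gen c} ∪ {c | ∃ M M', M ≠ M' ∧ IsMinArb c d M ∧
      IsMinArb c d M'}) ∪ {c | (ll n) ^ 2 ≤ ((cyc (F0 c)).card : ℝ)}) ∪
    ({c | ∃ (y : ℕ → Fin n) (L : ℕ), Geo c y L ∧ 4 * n < (exs c y L).card * (sn n) ^ 2} ∪
      {c | ∃ v : Fin n, DD n ≤ (Finset.univ.filter (fun w => F0 c w = v)).card}) with hB
  have hl1 : 1 ≤ ll n := ll_ge (by omega)
  have hBle : law μ n B ≤ ENNReal.ofReal (2 * (1 + Real.log n) / (ll n) ^ 2) +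
      law μ n {c | ∃ (y : ℕ → Fin n) (L : ℕ), Geo c y L ∧ 4 * n < (exs c y L).card * (sn n) ^ 2} +
      ENNReal.ofReal (n / ((DD n).factorial : ℝ)) := by
    rw [add_assoc]
    refine (measure_union_le _ _).trans (add_le_add ?_ ?_)
    · refine (measure_union_le _ _).trans ?_
      have h1 : law μ n ({c | ¬ Gen c} ∪ {c | ∃ M M', M ≠ M' ∧ IsMinArb c d M ∧
          IsMinArb c d M'}) ≤ 0 := by
        refine (measure_union_le _ _).trans ?_
        rw [(hGEN μ n).2, hUNI μ n d, add_zero]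
      refine (add_le_add h1 (hF μ n ((ll n) ^ 2) hn2 (by positivity))).trans ?_
      rw [zero_add]
    · exact (measure_union_le _ _).trans (add_le_add le_rfl (hG μ n (DD n) hn2))
  -- the number of changed balls
  have hcount : ∀ c : Wt n, c ∉ B → ∀ S : Finset (Fin n), S ⊆ Finset.univ.erase d →
      (∀ v ∈ S, c ∈ Bad d v R) → S.card ≤ KK n R := by
    intro c hc S _ hS
    simp only [hB, Set.mem_union, Set.mem_setOf_eq, not_or, not_not, not_exists, not_le,
      not_and, not_lt] at hc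
    obtain ⟨⟨⟨c1, c2⟩, c3⟩, c4, c5⟩ := hc
    rcases S.eq_empty_or_nonempty with rfl | ⟨v0, hv0⟩
    · simp
    obtain ⟨M, hM, -⟩ := hS v0 hv0
    have huniq : ∀ M', IsMinArb c d M' → M' = M := by
      intro M' hM'
      by_contra hne
      exact c2 M' M hne hM' hM
    have hsub : S ⊆ Finset.univ.filter (fun v => ¬ Same d M (F0 c) v R) := by
      intro v hv
      obtain ⟨M', hM', hS'⟩ := hS v hv
      rw [huniq M' hM'] at hS'
      exact Finset.mem_filter.mpr ⟨Finset.mem_univ _, hS'⟩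
    have h1 := hI1 n d M (F0 c) R (DD n) (fun x => (c5 x).le)
    have h2 : (dif c d M).card ≤ (cyc (F0 c)).card * ((cyc (F0 c)).card + 1) *
        (4 * n / (sn n) ^ 2 + 1) := by
      apply hA n c hn2 c1 d M hM
      intro y L hy
      rw [Nat.le_div_iff_mul_le (by positivity)]
      exact c4 y L hy
    have h3 : (cyc (F0 c)).card ≤ ⌊(ll n) ^ 2⌋₊ := Nat.le_floor c3.le
    have h4 : (Finset.univ.filter (fun x => x ≠ d ∧ M x ≠ F0 c x)).card =
        (dif c d M).card := by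
      unfold dif
      rfl
    refine (Finset.card_le_card hsub).trans (h1.trans ?_)
    rw [h4]
    unfold KK
    refine Nat.mul_le_mul_right _ (Nat.mul_le_mul_left _ (h2.trans ?_))
    exact Nat.mul_le_mul_right _ (Nat.mul_le_mul h3 (Nat.add_le_add_right h3 1))
  have havg := avg (law μ n) (Finset.univ.erase d) (fun v => Bad d v R)
    (fun v => meas_bad hMR d v R) B (KK n R) hcount
  have hcard : (Finset.univ.erase d).card = n - 1 := by
    rw [Finset.card_erase_of_mem (Finset.mem_univ _), Finset.card_univ, Fintype.card_fin]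
  rw [hcard] at havg
  have hsum : ((n - 1 : ℕ) : ENNReal) * law μ n (Bad d ρ R) ≤
      ∑ v ∈ Finset.univ.erase d, law μ n (Bad d v R) := by
    calc ((n - 1 : ℕ) : ENNReal) * law μ n (Bad d ρ R)
        = ∑ _v ∈ Finset.univ.erase d, law μ n (Bad d ρ R) := by
          rw [Finset.sum_const, hcard, nsmul_eq_mul]
      _ ≤ _ := by
          apply Finset.sum_le_sum
          intro v hv
          exact bad_le hMR hGEN hX μ d ρ v hd (Finset.ne_of_mem_erase hv).symm R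
  have hfin := hsum.trans havg
  have hKK := KK_le n R hn2 hs
  have hn1 : (0 : ℝ) < (n : ℝ) - 1 := by
    have : (2 : ℝ) ≤ n := by exact_mod_cast hn2
    linarith
  have hcast : ((n - 1 : ℕ) : ENNReal) = ENNReal.ofReal ((n : ℝ) - 1) := by
    rw [← ENNReal.ofReal_natCast, Nat.cast_sub (by omega), Nat.cast_one]
  have hK2 : ((KK n R : ℕ) : ENNReal) ≤ ((n - 1 : ℕ) : ENNReal) * ENNReal.ofReal
      (CC R * (Real.log ((sn n : ℝ) + 1) ^ (R + 4) / ((sn n : ℝ) + 1))) := by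
    rw [hcast, ← ENNReal.ofReal_mul hn1.le, ← ENNReal.ofReal_natCast]
    apply ENNReal.ofReal_le_ofReal
    rw [div_le_iff₀ hn1] at hKK
    linarith
  have hfin2 : ((n - 1 : ℕ) : ENNReal) * law μ n (Bad d ρ R) ≤
      ((n - 1 : ℕ) : ENNReal) * bd μ R n := by
    refine hfin.trans ?_
    unfold bd
    rw [mul_add]
    exact add_le_add (mul_le_mul_right hBle _) hK2
  have hne0 : ((n - 1 : ℕ) : ENNReal) ≠ 0 := by
    simp only [ne_eq, Nat.cast_eq_zero]
    omega
  exact (ENNReal.mul_le_mul_iff_right hne0 (by simp)).mp hfin2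

end ModI

attribute [local irreducible] sn

/-- I: the ball about vertex `0` in the minimum arborescence is the ball in the uniform map -/
theorem stmI (hMR : StmMR) (hGEN : StmGEN) (hUNI : StmUNI) (hE : StmE) (hA : StmA) (hF : StmF)
    (hG : StmG) (hX : StmX) (hI1 : StmI1) : StmI := by
  intro μ _ _ d hd R
  have hlim2 : Tendsto (fun N : ℕ => ModI.bd μ R (N + 2)) atTop (𝓝 0) :=
    (ModI.lim_bd hE μ R).comp (tendsto_add_atTop_nat 2)
  refine tendsto_of_tendsto_of_tendsto_of_le_of_le' tendsto_const_nhds hlim2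
    (Eventually.of_forall (fun n => by simp)) ?_
  have hs2 : ∀ᶠ N : ℕ in atTop, 2 ≤ sn (N + 2) :=
    (ModE.sn_tendsto.comp (tendsto_add_atTop_nat 2)).eventually_ge_atTop 2
  filter_upwards [hs2] with N hs
  exact ModI.core hMR hGEN hUNI hA hF hG hX hI1 μ R (N + 2) (by omega) hs (d N) 0 (hd N)

end
end Pool.Agent.T6.H59.MA
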