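import Pool.Agent.T6.H59.MA.Stm

/-!
# Few changed edges change few balls (helper24, module I1)
-/

set_option autoImplicit false

namespace Pool.Agent.T6.H59.MA
open MeasureTheory Filter Topology
noncomputable section

namespace ModI1

theorem ball_mono {α : Type*} (E : α → α → Prop) (ρ : α) {r R : ℕ} (h : r ≤ R) :
    Ball E ρ r ⊆ Ball E ρ R := by
  induction R, h using Nat.le_induction with
  | base => exact le_rfl
  | succ k _ ih => exact ih.trans fun y hy => Or.inl hy

open Classical in
theorem card_back {n : ℕ} (d : Fin n) (f : Fin n → Fin n) (D : ℕ)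
    (hD : ∀ x, (Finset.univ.filter (fun w => f w = x)).card ≤ D) :
    ∀ (r : ℕ) (x : Fin n),
      (Finset.univ.filter (fun v => x ∈ Ball (EM d f) v r)).card ≤ (D + 2) ^ r := by
  intro r
  induction r with
  | zero =>
    intro x
    rw [pow_zero, Finset.card_le_one]
    intro a ha b hb
    have h1 : x = a := (Finset.mem_filter.1 ha).2
    have h2 : x = b := (Finset.mem_filter.1 hb).2
    rw [← h1, ← h2]
  | succ r ih =>
    intro x
    have hsub : (Finset.univ.filter (fun v => x ∈ Ball (EM d f) v (r + 1))) ⊆
        (insert x (insert (f x) (Finset.univ.filter (fun w => f w = x)))).biUnion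
          (fun z => Finset.univ.filter (fun v => z ∈ Ball (EM d f) v r)) := by
      intro v hv
      rw [Finset.mem_biUnion]
      rcases (Finset.mem_filter.1 hv).2 with h | ⟨z, hz, h | h⟩
      · exact ⟨x, Finset.mem_insert_self _ _, Finset.mem_filter.2 ⟨Finset.mem_univ _, h⟩⟩
      · refine ⟨z, ?_, Finset.mem_filter.2 ⟨Finset.mem_univ _, hz⟩⟩
        exact Finset.mem_insert_of_mem (Finset.mem_insert_of_mem
          (Finset.mem_filter.2 ⟨Finset.mem_univ _, h.2⟩))
      · refine ⟨z, ?_, Finset.mem_filter.2 ⟨Finset.mem_univ _, hz⟩⟩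
        rw [← h.2]
        exact Finset.mem_insert_of_mem (Finset.mem_insert_self _ _)
    refine (Finset.card_le_card hsub).trans ?_
    refine (Finset.card_biUnion_le_card_mul _ _ ((D + 2) ^ r) (fun z _ => ih z)).trans ?_
    rw [pow_succ, mul_comm]
    apply Nat.mul_le_mul_left
    have h1 := Finset.card_insert_le x (insert (f x) (Finset.univ.filter (fun w => f w = x)))
    have h2 := Finset.card_insert_le (f x) (Finset.univ.filter (fun w => f w = x))
    have h3 := hD x
    omega

theorem same_of_disj {n : ℕ} (d : Fin n) (M f : Fin n → Fin n) (v : Fin n) (R : ℕ)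
    (h : ∀ x ∈ Ball (EM d f) v R, (x = d ∨ M x = f x) ∧
      ∀ y, y ≠ d → M y ≠ f y → M y ≠ x ∧ f y ≠ x) : Same d M f v R := by
  have hout : ∀ x ∈ Ball (EM d f) v R, ∀ y, EM d M x y ↔ EM d f x y := by
    intro x hx y
    unfold EM
    rcases (h x hx).1 with h1 | h1
    · constructor
      · intro h2
        exact absurd h1 h2.1
      · intro h2
        exact absurd h1 h2.1
    · rw [h1]
  have hin : ∀ x ∈ Ball (EM d f) v R, ∀ y, EM d M y x ↔ EM d f y x := by
    intro x hx y
    unfold EM
    by_cases hy : y = d
    · simp [hy]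
    · by_cases hy' : M y = f y
      · rw [hy']
      · have h2 := (h x hx).2 y hy hy'
        constructor
        · intro h3
          exact absurd h3.2 h2.1
        · intro h3
          exact absurd h3.2 h2.2
  refine ⟨?_, fun x hx y _ => hout x hx y⟩
  have key : ∀ r, r ≤ R → Ball (EM d M) v r = Ball (EM d f) v r := by
    intro r
    induction r with
    | zero => intro _; rfl
    | succ r ih =>
      intro hr
      have ih' := ih (by omega)
      ext y
      show (y ∈ Ball (EM d M) v r ∨ ∃ x ∈ Ball (EM d M) v r, EM d M x y ∨ EM d M y x) ↔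
        (y ∈ Ball (EM d f) v r ∨ ∃ x ∈ Ball (EM d f) v r, EM d f x y ∨ EM d f y x)
      rw [ih']
      have : (∃ x ∈ Ball (EM d f) v r, EM d M x y ∨ EM d M y x) ↔
          (∃ x ∈ Ball (EM d f) v r, EM d f x y ∨ EM d f y x) := by
        constructor
        · rintro ⟨x, hx, hxy⟩
          have hx' := ball_mono (EM d f) v (by omega : r ≤ R) hx
          refine ⟨x, hx, ?_⟩
          rwa [hout x hx' y, hin x hx' y] at hxy
        · rintro ⟨x, hx, hxy⟩
          have hx' := ball_mono (EM d f) v (by omega : r ≤ R) hx
          refine ⟨x, hx, ?_⟩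
          rwa [hout x hx' y, hin x hx' y]
      rw [this]
  exact key R le_rfl

end ModI1

theorem stmI1 : StmI1 := by
  classical
  intro n d M f R D hD
  set A : Finset (Fin n) := Finset.univ.filter (fun x => x ≠ d ∧ M x ≠ f x) with hA
  set X : Finset (Fin n) := A ∪ (A.image f ∪ A.image M) with hX
  have hXc : X.card ≤ 3 * A.card := by
    have h1 := Finset.card_union_le A (A.image f ∪ A.image M)
    have h2 := Finset.card_union_le (A.image f) (A.image M)
    have h3 : (A.image f).card ≤ A.card := Finset.card_image_le
    have h4 : (A.image M).card ≤ A.card := Finset.card_image_le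
    rw [hX]
    omega
  have hsub : (Finset.univ.filter (fun v => ¬ Same d M f v R)) ⊆
      X.biUnion (fun x => Finset.univ.filter (fun v => x ∈ Ball (EM d f) v R)) := by
    intro v hv
    have hv' := (Finset.mem_filter.1 hv).2
    by_contra hcon
    apply hv'
    apply ModI1.same_of_disj
    intro x hx
    have hxX : x ∉ X := by
      intro hxX
      exact hcon (Finset.mem_biUnion.2 ⟨x, hxX, Finset.mem_filter.2 ⟨Finset.mem_univ _, hx⟩⟩)
    refine ⟨?_, ?_⟩
    · by_contra h1
      push Not at h1
      exact hxX (Finset.mem_union_left _ (Finset.mem_filter.2 ⟨Finset.mem_univ _, h1⟩))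
    · intro y hy hy'
      have hyA : y ∈ A := Finset.mem_filter.2 ⟨Finset.mem_univ _, hy, hy'⟩
      constructor
      · rintro rfl
        exact hxX (Finset.mem_union_right _ (Finset.mem_union_right _
          (Finset.mem_image_of_mem _ hyA)))
      · rintro rfl
        exact hxX (Finset.mem_union_right _ (Finset.mem_union_left _
          (Finset.mem_image_of_mem _ hyA)))
  refine (Finset.card_le_card hsub).trans ?_
  refine (Finset.card_biUnion_le_card_mul _ _ ((D + 2) ^ R)
    (fun z _ => ModI1.card_back d f D ?_ R z)).trans ?_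
  · intro x
    exact hD x
  · exact Nat.mul_le_mul_right _ hXc

end
end Pool.Agent.T6.H59.MA
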