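import Pool.Agent.T6.H59.MA.Stm

/-!
Project MA (helper59), MP_e4ce4d_pr: module PA (numerical estimates).
-/

set_option autoImplicit false

namespace Pool.Agent.T6.H59.MA

open Filter Topology

namespace NumP

theorem pw {c a b d s : ℕ} (hs : 1 ≤ s) (h : c ≤ s ^ d) (hb : a + d ≤ b) : c * s ^ a ≤ s ^ b := by
  calc c * s ^ a ≤ s ^ d * s ^ a := Nat.mul_le_mul_right _ h
    _ = s ^ (a + d) := by rw [pow_add, mul_comm]
    _ ≤ s ^ b := Nat.pow_le_pow_right hs hb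

theorem pw1 {c a b s : ℕ} (hs : 1 ≤ s) (h : c ≤ s) (hb : a + 1 ≤ b) : c * s ^ a ≤ s ^ b :=
  pw hs (d := 1) (by rwa [pow_one]) hb

/-- the basic facts about the windows -/
theorem win {s n : ℕ} (hs : 264 ≤ s) (hn : s ^ 100 ≤ n) :
    64 ≤ bw s n ∧ bw s n * (64 * s ^ 6) ≤ n ∧ n ≤ 65 * s ^ 6 * bw s n ∧
    m0 s n * s ^ 2 ≤ n ∧ n < (m0 s n + 1) * s ^ 2 ∧ s ^ 98 ≤ m0 s n ∧
    (∀ i ≤ nw s n, mm s n i + 1 + m0 s n ≤ n) ∧ n ≤ mm s n (nw s n) + m0 s n + bw s n ∧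
    nw s n ≤ 65 * s ^ 6 := by
  have hs1 : 1 ≤ s := by omega
  have h6 : 0 < 64 * s ^ 6 := by positivity
  have h2 : 0 < s ^ 2 := by positivity
  have w1 : 64 ≤ bw s n := by
    unfold bw
    rw [Nat.le_div_iff_mul_le h6]
    calc 64 * (64 * s ^ 6) = 4096 * s ^ 6 := by ring
      _ ≤ s ^ 100 := pw hs1 (d := 2) (by nlinarith) (by norm_num)
      _ ≤ n := hn
  have w2 : bw s n * (64 * s ^ 6) ≤ n := Nat.div_mul_le_self _ _
  have w3 : n ≤ 65 * s ^ 6 * bw s n := by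
    have h := Nat.lt_mul_div_succ n h6
    have h' : n < 64 * s ^ 6 * (bw s n + 1) := h
    nlinarith [Nat.mul_le_mul_left (s ^ 6) w1]
  have w4 : m0 s n * s ^ 2 ≤ n := Nat.div_mul_le_self _ _
  have w5 : n < (m0 s n + 1) * s ^ 2 := by
    have h := Nat.lt_mul_div_succ n h2
    rw [mul_comm]
    exact h
  have w6 : s ^ 98 ≤ m0 s n := by
    unfold m0
    rw [Nat.le_div_iff_mul_le h2]
    calc s ^ 98 * s ^ 2 = s ^ 100 := by rw [← pow_add]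
      _ ≤ n := hn
  have hm0 : 4 * m0 s n ≤ n := by
    have : 4 ≤ s ^ 2 := by nlinarith
    nlinarith
  have w7 : nw s n * bw s n ≤ n - 1 - 2 * m0 s n := Nat.div_mul_le_self _ _
  have hpos : 1 ≤ m0 s n := le_trans (Nat.one_le_pow _ _ (by omega)) w6
  have w8 : ∀ i ≤ nw s n, mm s n i + 1 + m0 s n ≤ n := by
    intro i hi
    have h : i * bw s n ≤ nw s n * bw s n := Nat.mul_le_mul_right _ hi
    unfold mm
    omega
  have w9 : n ≤ mm s n (nw s n) + m0 s n + bw s n := by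
    have h := Nat.lt_mul_div_succ (n - 1 - 2 * m0 s n) (show 0 < bw s n by omega)
    have h' : n - 1 - 2 * m0 s n < bw s n * (nw s n + 1) := h
    have h'' : bw s n * (nw s n + 1) = nw s n * bw s n + bw s n := by ring
    rw [h''] at h'
    unfold mm
    omega
  have w10 : nw s n ≤ 65 * s ^ 6 := by
    have h : nw s n * bw s n ≤ 65 * s ^ 6 * bw s n := by omega
    exact Nat.le_of_mul_le_mul_right h (by omega)
  exact ⟨w1, w2, w3, w4, w5, w6, w8, w9, w10⟩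

theorem third {s n : ℕ} (hs : 264 ≤ s) (hn : s ^ 100 ≤ n) :
    ((m0 s n + 1) + (n - 1 - mm s n (nw s n)) + (nw s n + 1)
      + nw s n * ((n / s ^ 10 + 1) * s)) * s ^ 2 ≤ 4 * n := by
  obtain ⟨w1, w2, w3, w4, w5, w6, w7, w8, w9⟩ := win hs hn
  have hs1 : 1 ≤ s := by omega
  have hA : (n - 1 - mm s n (nw s n)) ≤ m0 s n + bw s n := by omega
  have hB : bw s n * s ^ 2 ≤ n := by
    calc bw s n * s ^ 2 ≤ bw s n * (64 * s ^ 6) := by
          apply Nat.mul_le_mul_left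
          have := Nat.pow_le_pow_right hs1 (show 2 ≤ 6 by norm_num)
          omega
      _ ≤ n := w2
  set q := n / s ^ 10 with hq
  have hq1 : q * s ^ 10 ≤ n := Nat.div_mul_le_self _ _
  have hC : 2 * (65 * s ^ 9 * q) ≤ n := by
    calc 2 * (65 * s ^ 9 * q) = 130 * s ^ 9 * q := by ring
      _ ≤ s ^ 10 * q := Nat.mul_le_mul_right _ (pw1 hs1 (by omega) (by norm_num))
      _ = q * s ^ 10 := mul_comm _ _
      _ ≤ n := hq1
  have hD : 2 * (132 * s ^ 9) ≤ n := by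
    calc 2 * (132 * s ^ 9) = 264 * s ^ 9 := by ring
      _ ≤ s ^ 100 := pw1 hs1 (by omega) (by norm_num)
      _ ≤ n := hn
  have h29 : s ^ 2 ≤ s ^ 9 := Nat.pow_le_pow_right hs1 (by norm_num)
  have h89 : s ^ 8 ≤ s ^ 9 := Nat.pow_le_pow_right hs1 (by norm_num)
  have hE : (nw s n + 1) * s ^ 2 ≤ 65 * s ^ 8 + s ^ 2 := by
    calc (nw s n + 1) * s ^ 2 ≤ (65 * s ^ 6 + 1) * s ^ 2 := by gcongr
      _ = 65 * s ^ 8 + s ^ 2 := by ring
  have hF : nw s n * ((q + 1) * s) * s ^ 2 ≤ 65 * s ^ 9 * q + 65 * s ^ 9 := by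
    calc nw s n * ((q + 1) * s) * s ^ 2 ≤ 65 * s ^ 6 * ((q + 1) * s) * s ^ 2 := by gcongr
      _ = 65 * s ^ 9 * q + 65 * s ^ 9 := by ring
  calc ((m0 s n + 1) + (n - 1 - mm s n (nw s n)) + (nw s n + 1)
      + nw s n * ((q + 1) * s)) * s ^ 2 =
      m0 s n * s ^ 2 + s ^ 2 + (n - 1 - mm s n (nw s n)) * s ^ 2 + (nw s n + 1) * s ^ 2 +
        nw s n * ((q + 1) * s) * s ^ 2 := by ring
    _ ≤ n + s ^ 2 + (m0 s n + bw s n) * s ^ 2 + (65 * s ^ 8 + s ^ 2) +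
        (65 * s ^ 9 * q + 65 * s ^ 9) := by gcongr
    _ = n + m0 s n * s ^ 2 + bw s n * s ^ 2 + (s ^ 2 + 65 * s ^ 8 + s ^ 2 + 65 * s ^ 9) +
        65 * s ^ 9 * q := by ring
    _ ≤ 4 * n := by omega

theorem fourth_aux {s n w : ℕ} {t : ℝ} (ht : t = (s : ℝ) + 1) (h4 : 264 ≤ s)
    (h3 : t ^ 207 * (3 / 4 : ℝ) ^ (s + 1) ≤ 1 / 347) (hnr : (n : ℝ) ≤ t ^ 100)
    (hw : w ≤ 65 * s ^ 6) :
    (n : ℝ) * w * (Real.exp (-(s : ℝ) ^ 2) + n * (3 / 4 : ℝ) ^ s) + w * (1 / (s : ℝ) ^ 9) ≤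
      1 / s := by
  have hs : (264 : ℝ) ≤ s := by exact_mod_cast h4
  have hs0 : (0 : ℝ) < s := by linarith
  have ht1 : 1 ≤ t := by linarith
  have hst : (s : ℝ) ≤ t := by linarith
  have hwr : (w : ℝ) ≤ 65 * (s : ℝ) ^ 6 := by exact_mod_cast hw
  have hw6 : (w : ℝ) ≤ 65 * t ^ 6 := by
    refine hwr.trans ?_
    gcongr
  have he : Real.exp (-(s : ℝ) ^ 2) ≤ (3 / 4 : ℝ) ^ s := by
    calc Real.exp (-(s : ℝ) ^ 2) ≤ Real.exp (s * (-1 : ℝ)) := by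
          apply Real.exp_le_exp.2
          nlinarith
      _ = Real.exp (-1 : ℝ) ^ s := by rw [← Real.exp_nat_mul]
      _ ≤ (3 / 4 : ℝ) ^ s := by
          apply pow_le_pow_left₀ (Real.exp_pos _).le
          have h5 := Real.exp_neg_one_lt_d9
          linarith
  have hp : (0 : ℝ) < (3 / 4 : ℝ) ^ s := by positivity
  have hb : 1 ≤ t ^ 100 := one_le_pow₀ ht1
  have hfirst : (n : ℝ) * w * (Real.exp (-(s : ℝ) ^ 2) + n * (3 / 4 : ℝ) ^ s) ≤ 1 / (2 * s) := by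
    calc (n : ℝ) * w * (Real.exp (-(s : ℝ) ^ 2) + n * (3 / 4 : ℝ) ^ s) ≤
        t ^ 100 * (65 * t ^ 6) * ((3 / 4 : ℝ) ^ s + t ^ 100 * (3 / 4 : ℝ) ^ s) := by gcongr
      _ ≤ t ^ 100 * (65 * t ^ 6) * (t ^ 100 * (3 / 4 : ℝ) ^ s + t ^ 100 * (3 / 4 : ℝ) ^ s) := by
          gcongr
          exact le_mul_of_one_le_left hp.le hb
      _ = 130 * t ^ 206 * (3 / 4 : ℝ) ^ s := by ring
      _ ≤ 1 / (2 * s) := by
        rw [le_div_iff₀ (by positivity)]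
        calc 130 * t ^ 206 * (3 / 4 : ℝ) ^ s * (2 * s) ≤
            130 * t ^ 206 * (3 / 4 : ℝ) ^ s * (2 * t) := by gcongr
          _ = 260 * (4 / 3) * (t ^ 207 * (3 / 4 : ℝ) ^ (s + 1)) := by
              rw [pow_succ (3 / 4 : ℝ) s]
              ring
          _ ≤ 260 * (4 / 3) * (1 / 347) := by gcongr
          _ ≤ 1 := by norm_num
  have hsecond : (w : ℝ) * (1 / (s : ℝ) ^ 9) ≤ 1 / (2 * s) := by
    calc (w : ℝ) * (1 / (s : ℝ) ^ 9) ≤ 65 * (s : ℝ) ^ 6 * (1 / (s : ℝ) ^ 9) := by gcongr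
      _ = 65 / (s : ℝ) ^ 3 := by
        field_simp
      _ ≤ 1 / (2 * s) := by
        rw [div_le_div_iff₀ (by positivity) (by positivity)]
        nlinarith [mul_pos hs0 hs0]
  calc _ ≤ 1 / (2 * (s : ℝ)) + 1 / (2 * s) := add_le_add hfirst hsecond
    _ = 1 / s := by
      field_simp
      norm_num

theorem fourth : ∀ᶠ s : ℕ in atTop, ∀ n w : ℕ, n < (s + 1) ^ 100 → w ≤ 65 * s ^ 6 →
    (n : ℝ) * w * (Real.exp (-(s : ℝ) ^ 2) + n * (3 / 4 : ℝ) ^ s) + w * (1 / (s : ℝ) ^ 9) ≤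
      1 / s := by
  have h1 := tendsto_pow_const_mul_const_pow_of_abs_lt_one 207 (r := (3 / 4 : ℝ))
    (by rw [abs_of_pos (by norm_num)]; norm_num)
  have h2 := (h1.comp (tendsto_add_atTop_nat 1)).eventually (ge_mem_nhds
    (show (0 : ℝ) < 1 / 347 by norm_num))
  filter_upwards [h2, eventually_ge_atTop 264] with s h3 h4
  intro n w hn hw
  refine fourth_aux (t := ((s + 1 : ℕ) : ℝ)) (by rw [Nat.cast_add, Nat.cast_one]) h4 h3 ?_ hw
  rw [← Nat.cast_pow]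
  exact Nat.cast_le.2 hn.le

end NumP

/-- module PA -/
theorem stmPA : StmPA := by
  obtain ⟨s1, hs1⟩ := eventually_atTop.1 NumP.fourth
  refine ⟨max s1 264, ?_⟩
  intro s hs n hn hn'
  have h264 : 264 ≤ s := (le_max_right _ _).trans hs
  obtain ⟨w1, w2, w3, w4, w5, w6, w7, w8, w9⟩ := NumP.win h264 hn
  refine ⟨by omega, ?_, ?_, ?_⟩
  · intro i hi
    have h1 := w7 i hi
    have h2 : s ^ 20 + 1 ≤ s ^ 98 := by
      have h3 : 1 ≤ s ^ 20 := Nat.one_le_pow _ _ (by omega)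
      have h4 : 2 * s ^ 20 ≤ s ^ 98 := NumP.pw1 (by omega) (by omega) (by norm_num)
      omega
    omega
  · have h1 := NumP.third h264 hn
    have h2 : ((((m0 s n + 1) + (n - 1 - mm s n (nw s n)) + (nw s n + 1)
      + nw s n * ((n / s ^ 10 + 1) * s)) * s ^ 2 : ℕ) : ℝ) ≤ ((4 * n : ℕ) : ℝ) := by
      exact_mod_cast h1
    rw [Nat.cast_mul, Nat.cast_mul] at h2
    push_cast at h2 ⊢
    exact h2
  · exact hs1 s ((le_max_left _ _).trans hs) n (nw s n) hn' w9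

end Pool.Agent.T6.H59.MA
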