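import Pool.Agent.T6.H59.MA.PB

/-!
Project MA (helper59), MP_e4ce4d_pr: module PC (numerical estimates).
-/

set_option autoImplicit false

namespace Pool.Agent.T6.H59.MA

open Filter Topology

namespace NumP

theorem choose_ratio {n N j : ℕ} (hj : j < N + 1) :
    (n.choose j : ℝ) / (N.choose j : ℝ) ≤ ((n : ℝ) / ((N + 1 - j : ℕ) : ℝ)) ^ j := by
  have h1 : (n.choose j : ℝ) ≤ (n : ℝ) ^ j / (j.factorial : ℝ) := Nat.choose_le_pow_div j n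
  have h2 : ((N + 1 - j : ℕ) : ℝ) ^ j / (j.factorial : ℝ) ≤ (N.choose j : ℝ) :=
    Nat.pow_le_choose j N
  have hf : (0 : ℝ) < (j.factorial : ℝ) := by exact_mod_cast j.factorial_pos
  have hq : (0 : ℝ) < ((N + 1 - j : ℕ) : ℝ) := by
    have : 0 < N + 1 - j := by omega
    exact_mod_cast this
  calc (n.choose j : ℝ) / (N.choose j : ℝ) ≤
      ((n : ℝ) ^ j / (j.factorial : ℝ)) / (((N + 1 - j : ℕ) : ℝ) ^ j / (j.factorial : ℝ)) := by
        apply div_le_div₀ (by positivity) h1 (by positivity) h2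
    _ = ((n : ℝ) / ((N + 1 - j : ℕ) : ℝ)) ^ j := by
        rw [div_pow]
        field_simp

theorem pow_part {a b : ℝ} {k : ℕ} (h0 : 0 ≤ 1 - a + b) :
    (1 - a + b) ^ k ≤ Real.exp (k * (-a + b)) := by
  rw [Real.exp_nat_mul]
  apply pow_le_pow_left₀ h0
  have := Real.add_one_le_exp (-a + b)
  linarith

/-- the last step -/
theorem last {s j : ℕ} (hs : 264 ≤ s) (hj : j = s ^ 20) {nr Q y : ℝ} (hn : 0 < nr) (hQ : 0 < Q)
    (hQn : Q ≤ nr) (hy : 0 < 1 - y) (h : (1 - y) * nr ≤ Q - nr / (128 * (s : ℝ) ^ 6)) :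
    (nr / Q) ^ j * Real.exp (j * Real.log (1 - y) + 1) ≤ Real.exp (-(s : ℝ) ^ 2) := by
  have hsr : (264 : ℝ) ≤ s := by exact_mod_cast hs
  have hs0 : (0 : ℝ) < s := by linarith
  have h1 : nr / Q * (1 - y) ≤ Real.exp (-(1 / (128 * (s : ℝ) ^ 6))) := by
    have h2 : nr / Q * (1 - y) ≤ 1 - 1 / (128 * (s : ℝ) ^ 6) := by
      have h3 : nr / Q * (1 - y) = (1 - y) * nr / Q := by ring
      rw [h3, div_le_iff₀ hQ]
      have h4 : 1 / (128 * (s : ℝ) ^ 6) * Q ≤ nr / (128 * (s : ℝ) ^ 6) := by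
        rw [one_div_mul_eq_div]
        gcongr
      calc (1 - y) * nr ≤ Q - nr / (128 * (s : ℝ) ^ 6) := h
        _ ≤ Q - 1 / (128 * (s : ℝ) ^ 6) * Q := by linarith
        _ = (1 - 1 / (128 * (s : ℝ) ^ 6)) * Q := by ring
    have h5 := Real.add_one_le_exp (-(1 / (128 * (s : ℝ) ^ 6)))
    linarith
  have h6 : (nr / Q) ^ j * Real.exp (j * Real.log (1 - y) + 1) =
      (nr / Q * (1 - y)) ^ j * Real.exp 1 := by
    rw [Real.exp_add, Real.exp_nat_mul, Real.exp_log hy, mul_pow]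
    ring
  rw [h6]
  have h7 : (0 : ℝ) ≤ nr / Q * (1 - y) := by positivity
  calc (nr / Q * (1 - y)) ^ j * Real.exp 1 ≤
      Real.exp (-(1 / (128 * (s : ℝ) ^ 6))) ^ j * Real.exp 1 := by
        gcongr
    _ = Real.exp (j * (-(1 / (128 * (s : ℝ) ^ 6))) + 1) := by
        rw [Real.exp_add, Real.exp_nat_mul]
    _ ≤ Real.exp (-(s : ℝ) ^ 2) := by
        apply Real.exp_le_exp.2
        have h8 : (j : ℝ) = (s : ℝ) ^ 20 := by
          rw [hj, Nat.cast_pow]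
        rw [h8]
        have h9 : (s : ℝ) ^ 20 * (-(1 / (128 * (s : ℝ) ^ 6))) = -((s : ℝ) ^ 14 / 128) := by
          field_simp
        rw [h9]
        have h10 : (s : ℝ) ^ 2 + 1 ≤ (s : ℝ) ^ 14 / 128 := by
          have h11 : (256 : ℝ) ≤ (s : ℝ) ^ 12 := by
            calc (256 : ℝ) ≤ (s : ℝ) := by linarith
              _ = (s : ℝ) ^ 1 := (pow_one _).symm
              _ ≤ (s : ℝ) ^ 12 := pow_le_pow_right₀ (by linarith) (by norm_num)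
          have h12 : (s : ℝ) ^ 14 = (s : ℝ) ^ 2 * (s : ℝ) ^ 12 := by rw [← pow_add]
          have h13 : (1 : ℝ) ≤ (s : ℝ) ^ 2 := one_le_pow₀ (by linarith)
          rw [h12]
          nlinarith
        linarith

/-- the exponent -/
theorem expo {nr mr x κ l jr J : ℝ} (hn : 3 ≤ nr) (hm : 0 ≤ mr) (hx : x = mr / nr)
    (hj : 0 ≤ jr) (hκ : 0 ≤ κ) (hl : (1 + κ) * x = -l) (hmn : mr ≤ nr - 2)
    (hb : jr ^ 2 * (J + 1) ^ 2 ≤ nr - 1) :
    mr * (-(jr * (1 + κ) / (nr - 1)) + jr ^ 2 * (J + 1) ^ 2 / ((nr - 1) * (nr - 2))) ≤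
      jr * l + 1 := by
  have h1 : 0 < nr - 1 := by linarith
  have h2 : 0 < nr - 2 := by linarith
  have h3 : jr * (-l) ≤ mr * (jr * (1 + κ) / (nr - 1)) := by
    rw [← hl, hx]
    have e : jr * ((1 + κ) * (mr / nr)) = mr * (jr * (1 + κ) / nr) := by ring
    rw [e]
    apply mul_le_mul_of_nonneg_left _ hm
    apply div_le_div_of_nonneg_left _ h1
    · linarith
    · positivity
  have h4 : mr * (jr ^ 2 * (J + 1) ^ 2 / ((nr - 1) * (nr - 2))) ≤ 1 := by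
    have e : mr * (jr ^ 2 * (J + 1) ^ 2 / ((nr - 1) * (nr - 2))) =
        (mr / (nr - 2)) * (jr ^ 2 * (J + 1) ^ 2 / (nr - 1)) := by
      field_simp
    rw [e]
    have h5 : mr / (nr - 2) ≤ 1 := (div_le_one h2).2 hmn
    have h6 : jr ^ 2 * (J + 1) ^ 2 / (nr - 1) ≤ 1 := (div_le_one h1).2 hb
    exact mul_le_one₀ h5 (by positivity) h6
  have e : mr * (-(jr * (1 + κ) / (nr - 1)) + jr ^ 2 * (J + 1) ^ 2 / ((nr - 1) * (nr - 2))) =
      -(mr * (jr * (1 + κ) / (nr - 1))) + mr * (jr ^ 2 * (J + 1) ^ 2 / ((nr - 1) * (nr - 2))) := by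
    ring
  rw [e]
  linarith

end NumP

/-- module PC -/
theorem stmPC : StmPC := by
  obtain ⟨s1, hPB⟩ := stmPB
  refine ⟨max s1 264, ?_⟩
  intro s hs' n hn hn' i hi
  obtain ⟨hk0, hk3, _, _, _⟩ := hPB s ((le_max_left _ _).trans hs') n hn hn' i hi
  clear hn' hPB
  have hs : 264 ≤ s := (le_max_right _ _).trans hs'
  clear hs'
  obtain ⟨w1, w2, w3, w4, w5, w6, w7, w8, w9⟩ := NumP.win hs hn
  obtain ⟨hn0, hx, hx1, hmm⟩ := NumP.xx_bounds hs hn hi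
  obtain ⟨he, he1, he2, he3⟩ := NumP.eps_bounds hs hx hx1
  have hsr : (264 : ℝ) ≤ s := by exact_mod_cast hs
  have hs0 : (0 : ℝ) < s := by linarith
  have hp : 0 < 1 / (s : ℝ) ^ 2 := by positivity
  have hs1 : 1 ≤ s := by omega
  have h2 : mm s n (i + 1) = mm s n i + bw s n := by
    unfold mm
    ring
  -- powers of `s`
  have p1 : s ^ 20 + 1 ≤ s ^ 98 := by
    have h3 : 1 ≤ s ^ 20 := Nat.one_le_pow _ _ (by omega)
    have h4 : 2 * s ^ 20 ≤ s ^ 98 := NumP.pw1 (by omega) (by omega) (by norm_num)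
    omega
  have p0 : 264 ≤ s ^ 98 := by
    have h4 : 264 * s ^ 0 ≤ s ^ 98 := NumP.pw1 hs1 hs (by norm_num)
    simpa using h4
  have p2 : 128 * s ^ 26 ≤ n := (NumP.pw1 hs1 (by omega) (by norm_num)).trans hn
  have p3 : s ^ 20 * (1 + s ^ 3) + 1 ≤ n := by
    have h3 : 1 ≤ s ^ 20 := Nat.one_le_pow _ _ (by omega)
    have h4 : s ^ 20 ≤ s ^ 23 := Nat.pow_le_pow_right hs1 (by norm_num)
    have h5 : 3 * s ^ 23 ≤ s ^ 100 := NumP.pw1 hs1 (by omega) (by norm_num)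
    have h6 : s ^ 20 * (1 + s ^ 3) = s ^ 20 + s ^ 23 := by ring
    omega
  have p4 : (s ^ 20) ^ 2 * (s ^ 22 + 1) ^ 2 + 1 ≤ n := by
    have h3 : 1 ≤ s ^ 22 := Nat.one_le_pow _ _ (by omega)
    have h4 : (s ^ 22 + 1) ^ 2 ≤ (2 * s ^ 22) ^ 2 := Nat.pow_le_pow_left (by omega) 2
    have h5 : (s ^ 20) ^ 2 * (s ^ 22 + 1) ^ 2 ≤ 4 * s ^ 84 := by
      calc (s ^ 20) ^ 2 * (s ^ 22 + 1) ^ 2 ≤ (s ^ 20) ^ 2 * (2 * s ^ 22) ^ 2 :=
            Nat.mul_le_mul_left _ h4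
        _ = 4 * s ^ 84 := by ring
    have h6 : 5 * s ^ 84 ≤ s ^ 100 := NumP.pw1 hs1 (by omega) (by norm_num)
    have h7 : 1 ≤ s ^ 84 := Nat.one_le_pow _ _ (by omega)
    omega
  -- the first factor
  have hjN : s ^ 20 < n - (mm s n (i + 1) + 1) + 1 := by omega
  have hratio := NumP.choose_ratio (n := n) hjN
  have hQ : (((n - (mm s n (i + 1) + 1) + 1 - s ^ 20 : ℕ) : ℝ)) =
      (n : ℝ) - mm s n i - bw s n - ((s ^ 20 : ℕ) : ℝ) := by
    have h3 : n - (mm s n (i + 1) + 1) + 1 - s ^ 20 + (mm s n i + bw s n + s ^ 20) = n := by omega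
    have h4 : (((n - (mm s n (i + 1) + 1) + 1 - s ^ 20 + (mm s n i + bw s n + s ^ 20) : ℕ)) : ℝ) =
        (n : ℝ) := by rw [h3]
    rw [Nat.cast_add, Nat.cast_add, Nat.cast_add] at h4
    linarith
  have hQ0 : (0 : ℝ) < (n : ℝ) - mm s n i - bw s n - ((s ^ 20 : ℕ) : ℝ) := by
    rw [← hQ]
    have : 0 < n - (mm s n (i + 1) + 1) + 1 - s ^ 20 := by omega
    exact_mod_cast this
  rw [hQ] at hratio
  -- real numbers
  have hbw0 : (0 : ℝ) ≤ bw s n := Nat.cast_nonneg _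
  have hm0 : (0 : ℝ) ≤ mm s n i := Nat.cast_nonneg _
  have hj0 : (0 : ℝ) ≤ ((s ^ 20 : ℕ) : ℝ) := Nat.cast_nonneg _
  have hJ0 : (0 : ℝ) ≤ ((s ^ 22 : ℕ) : ℝ) := Nat.cast_nonneg _
  have hn3 : (3 : ℝ) ≤ n := by
    have : 3 ≤ n := by omega
    exact_mod_cast this
  have p3r : ((s ^ 20 : ℕ) : ℝ) * (1 + (s : ℝ) ^ 3) + 1 ≤ n := by exact_mod_cast p3
  have p4r : ((s ^ 20 : ℕ) : ℝ) ^ 2 * (((s ^ 22 : ℕ) : ℝ) + 1) ^ 2 + 1 ≤ n := by exact_mod_cast p4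
  have hmn : (mm s n i : ℝ) + 1 ≤ n - 2 := by
    have : mm s n i + 1 + 2 ≤ n := by omega
    have h3 : (mm s n i : ℝ) + 1 + 2 ≤ n := by exact_mod_cast this
    linarith
  have hx0 : 0 < xx s n i := by linarith
  have hy0 : 0 < 1 - (xx s n i + 1 / (32 * (s : ℝ) ^ 6)) := by linarith
  have hl : (1 + kp s n i) * xx s n i =
      -Real.log (1 - (xx s n i + 1 / (32 * (s : ℝ) ^ 6))) := by
    unfold kp
    field_simp
    ring
  have hexpo := NumP.expo (nr := (n : ℝ)) (mr := (mm s n i : ℝ) + 1) (x := xx s n i)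
    (κ := kp s n i) (jr := ((s ^ 20 : ℕ) : ℝ)) (J := ((s ^ 22 : ℕ) : ℝ)) hn3 (by linarith) rfl
    hj0 hk0 hl hmn (by linarith)
  have ha : ((s ^ 20 : ℕ) : ℝ) * (1 + kp s n i) / ((n : ℝ) - 1) ≤ 1 := by
    rw [div_le_one (by linarith)]
    calc ((s ^ 20 : ℕ) : ℝ) * (1 + kp s n i) ≤ ((s ^ 20 : ℕ) : ℝ) * (1 + (s : ℝ) ^ 3) := by
          gcongr
      _ ≤ (n : ℝ) - 1 := by linarith
  have hb : 0 ≤ ((s ^ 20 : ℕ) : ℝ) ^ 2 * (((s ^ 22 : ℕ) : ℝ) + 1) ^ 2 /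
      (((n : ℝ) - 1) * ((n : ℝ) - 2)) := by
    apply div_nonneg (by positivity)
    apply mul_nonneg <;> linarith
  have hpow := NumP.pow_part (a := ((s ^ 20 : ℕ) : ℝ) * (1 + kp s n i) / ((n : ℝ) - 1))
    (b := ((s ^ 20 : ℕ) : ℝ) ^ 2 * (((s ^ 22 : ℕ) : ℝ) + 1) ^ 2 /
      (((n : ℝ) - 1) * ((n : ℝ) - 2))) (k := mm s n i + 1) (by linarith)
  have hcast : ((mm s n i + 1 : ℕ) : ℝ) = (mm s n i : ℝ) + 1 := by push_cast; ring
  rw [hcast] at hpow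
  have hpow0 : 0 ≤ (1 - ((s ^ 20 : ℕ) : ℝ) * (1 + kp s n i) / ((n : ℝ) - 1) +
      ((s ^ 20 : ℕ) : ℝ) ^ 2 * (((s ^ 22 : ℕ) : ℝ) + 1) ^ 2 /
      (((n : ℝ) - 1) * ((n : ℝ) - 2))) ^ (mm s n i + 1) := by
    apply pow_nonneg
    linarith
  -- the last inequality
  have hbwr : (bw s n : ℝ) ≤ n / (64 * (s : ℝ) ^ 6) := by
    rw [le_div_iff₀ (by positivity)]
    exact_mod_cast w2
  have hjr : ((s ^ 20 : ℕ) : ℝ) ≤ n / (128 * (s : ℝ) ^ 6) := by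
    rw [le_div_iff₀ (by positivity)]
    have h3 : s ^ 20 * (128 * s ^ 6) ≤ n := by
      calc s ^ 20 * (128 * s ^ 6) = 128 * s ^ 26 := by ring
        _ ≤ n := p2
    exact_mod_cast h3
  have hlast := NumP.last (s := s) (j := s ^ 20) hs rfl hn0 hQ0 (by linarith) hy0 (by
    have h3 : (1 - (xx s n i + 1 / (32 * (s : ℝ) ^ 6))) * n =
        n - ((mm s n i : ℝ) + 1) - 4 * (n / (128 * (s : ℝ) ^ 6)) := by
      unfold xx
      field_simp
      ring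
    have h4 : (n : ℝ) / (64 * (s : ℝ) ^ 6) = 2 * (n / (128 * (s : ℝ) ^ 6)) := by
      field_simp
      norm_num
    rw [h3]
    rw [h4] at hbwr
    linarith)
  refine le_trans ?_ hlast
  apply mul_le_mul hratio _ hpow0 (by positivity)
  refine hpow.trans (Real.exp_le_exp.2 ?_)
  exact hexpo

end Pool.Agent.T6.H59.MA
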