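import Pool.Agent.T6.H59.MA.MR

/-!
# Local limit of the minimum spanning arborescence (MP_e4ce4d_pr): module R
-/

namespace Pool.Agent.T6.H59.MA
open MeasureTheory Filter Topology
noncomputable section

namespace ModR

/-- permuting the entries of a row -/
theorem perm {n : ℕ} (μ : Measure ℝ) [IsProbabilityMeasure μ] (τ : Equiv.Perm (Fin n)) :
    MeasurePreserving (fun (r : Row n) (v : Fin n) => r (τ v)) (rowlaw μ n) (rowlaw μ n) := by
  unfold rowlaw
  have hmeas : Measurable (fun (c : Fin n → ℝ) (v : Fin n) => c (τ v)) :=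
    measurable_pi_lambda _ fun v => measurable_pi_apply (τ v)
  refine ⟨hmeas, (Measure.pi_eq fun s hs => ?_).symm⟩
  rw [Measure.map_apply hmeas (MeasurableSet.univ_pi hs)]
  have e : (fun (c : Fin n → ℝ) (v : Fin n) => c (τ v)) ⁻¹' (Set.univ.pi s) =
      Set.univ.pi (fun v => s (τ.symm v)) := by
    ext c
    simp only [Set.mem_preimage, Set.mem_pi, Set.mem_univ, true_imp_iff]
    constructor
    · intro h v
      have := h (τ.symm v)
      rwa [Equiv.apply_symm_apply] at this
    · intro h v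
      have := h (τ v)
      rwa [Equiv.symm_apply_apply] at this
  rw [e, Measure.pi_pi]
  exact Equiv.prod_comp τ.symm (fun v => μ (s v))

/-- for distinct weights the tie-break plays no role -/
theorem isTgt_inj {n : ℕ} {r : Row n} (hr : Function.Injective r) (v w : Fin n) :
    IsTgt r v w ↔ (w ≠ v ∧ ∀ w', w' ≠ v → r w ≤ r w') := by
  constructor
  · rintro ⟨h1, h2⟩
    exact ⟨h1, fun w' hw' => (h2 w' hw').1⟩
  · rintro ⟨h1, h2⟩
    refine ⟨h1, fun w' hw' => ⟨h2 w' hw', fun hlt => ?_⟩⟩
    exact lt_of_le_of_ne (h2 w' hw') fun heq => hlt.ne' (hr heq)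

theorem tgt_perm {n : ℕ} (hn : 2 ≤ n) {r : Row n} (hr : Function.Injective r) (v : Fin n)
    (τ : Equiv.Perm (Fin n)) (hτ : τ v = v) :
    τ (tgt (fun w => r (τ w)) v) = tgt r v := by
  have hex := ModMR.exists_ne_of_two hn v
  have h1 := ModMR.tgt_spec (fun w => r (τ w)) hex
  have hinj : Function.Injective (fun w => r (τ w)) := hr.comp τ.injective
  rw [isTgt_inj hinj] at h1
  symm
  rw [ModMR.tgt_iff r hex, isTgt_inj hr]
  refine ⟨fun h => h1.1 (τ.injective (h.trans hτ.symm)), fun w' hw' => ?_⟩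
  have h2 := h1.2 (τ.symm w') (fun h => hw' (by
    have h3 : w' = τ v := (Equiv.symm_apply_eq τ).mp h
    rw [h3, hτ]))
  simpa using h2

theorem law_tgt (hGEN : StmGEN) (μ : Measure ℝ) [IsProbabilityMeasure μ] [NullSingletonClass μ]
    {n : ℕ} (hn : 2 ≤ n) (v w : Fin n) (hw : w ≠ v) :
    rowlaw μ n {r | tgt r v = w} = ENNReal.ofReal (1 / ((n : ℝ) - 1)) := by
  have hprob : IsProbabilityMeasure (rowlaw μ n) := by unfold rowlaw; infer_instance
  have hinj0 : ∀ᵐ r ∂(rowlaw μ n), Function.Injective r := (hGEN μ n).1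
  -- exchangeability
  have hex : ∀ w' : Fin n, w' ≠ v →
      rowlaw μ n {r | tgt r v = w'} = rowlaw μ n {r | tgt r v = w} := by
    intro w' hw'
    set τ : Equiv.Perm (Fin n) := Equiv.swap w w' with hτ
    have hτv : τ v = v := Equiv.swap_apply_of_ne_of_ne (Ne.symm hw) (Ne.symm hw')
    have hp := perm μ τ
    have h1 := hp.measure_preimage (ModMR.meas_tgt_set v w).nullMeasurableSet
    rw [← h1]
    refine measure_congr ?_
    filter_upwards [hinj0] with r hr
    have h2 := tgt_perm hn hr v τ hτv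
    refine propext ?_
    show tgt r v = w' ↔ tgt (fun x => r (τ x)) v = w
    rw [← h2]
    constructor
    · intro h
      have h3 : τ.symm (τ (tgt (fun x => r (τ x)) v)) = τ.symm w' := by rw [h]
      rw [Equiv.symm_apply_apply] at h3
      rw [h3, hτ, Equiv.symm_swap, Equiv.swap_apply_right]
    · intro h
      rw [h, hτ, Equiv.swap_apply_left]
  have hsum : ∑ w' ∈ Finset.univ.erase v, rowlaw μ n {r | tgt r v = w'} = 1 := by
    rw [← measure_biUnion_finset (fun a _ b _ hab => by
      refine Set.disjoint_left.mpr fun r ha hb => hab ?_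
      exact (show tgt r v = a from ha).symm.trans hb) (fun b _ => ModMR.meas_tgt_set v b)]
    have huniv : (⋃ b ∈ Finset.univ.erase v, {r : Row n | tgt r v = b}) = Set.univ := by
      ext r
      simp only [Set.mem_iUnion, Set.mem_univ, iff_true]
      exact ⟨tgt r v, Finset.mem_erase.mpr
        ⟨(ModMR.tgt_spec r (ModMR.exists_ne_of_two hn v)).1, Finset.mem_univ _⟩, rfl⟩
    rw [huniv]
    exact measure_univ
  have hcard : (Finset.univ.erase v).card = n - 1 := by
    rw [Finset.card_erase_of_mem (Finset.mem_univ v), Finset.card_univ, Fintype.card_fin]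
  rw [Finset.sum_congr rfl (fun w' hw' => hex w' (Finset.ne_of_mem_erase hw')),
    Finset.sum_const, hcard, nsmul_eq_mul] at hsum
  have hn1 : (0 : ℝ) < (n : ℝ) - 1 := by
    have : (2 : ℝ) ≤ n := by exact_mod_cast hn
    linarith
  have hcast : ((n - 1 : ℕ) : ENNReal) = ENNReal.ofReal ((n : ℝ) - 1) := by
    rw [← ENNReal.ofReal_natCast, Nat.cast_sub (by omega)]
    simp
  rw [hcast] at hsum
  rw [one_div, ENNReal.ofReal_inv_of_pos hn1]
  exact ENNReal.eq_inv_of_mul_eq_one_left (by rw [mul_comm]; exact hsum)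

end ModR

theorem stmR : StmR := by
  intro μ _ _ n G hn hG
  have hprob : IsProbabilityMeasure (rowlaw μ n) := by unfold rowlaw; infer_instance
  have e : {c : Wt n | ∀ v, F0 c v ∈ G v} = Set.univ.pi (fun v => {r : Row n | tgt r v ∈ G v}) := by
    ext c
    simp [F0, Set.mem_pi]
  rw [e]
  unfold law
  rw [Measure.pi_pi]
  refine Finset.prod_congr rfl fun v _ => ?_
  have e2 : {r : Row n | tgt r v ∈ G v} = ⋃ w ∈ G v, {r : Row n | tgt r v = w} := by
    ext r
    simp
  rw [e2, measure_biUnion_finset (fun a _ b _ hab => by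
      refine Set.disjoint_left.mpr fun r ha hb => hab ?_
      exact (show tgt r v = a from ha).symm.trans hb) (fun b _ => ModMR.meas_tgt_set v b)]
  rw [Finset.sum_congr rfl (fun w hw => ModR.law_tgt stmGEN μ hn v w
    (fun h => hG v (by rw [h] at hw; exact hw))), Finset.sum_const, nsmul_eq_mul, ← ENNReal.ofReal_natCast,
    ← ENNReal.ofReal_mul (Nat.cast_nonneg _)]
  congr 1
  ring

end
end Pool.Agent.T6.H59.MA
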