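import Pool.Agent.T6.H59.MA.FIN

/-!
# Local limit of the minimum spanning arborescence (MP_e4ce4d_pr): existence and almost sure
uniqueness of the minimum spanning arborescence
-/

namespace Pool.Agent.T6.H59.MA
open MeasureTheory Filter Topology ModFIN ModA1

theorem exists_minSpan {n : ℕ} (d : Fin n) (W : Edg n → ℝ) : ∃ T, IsMinSpan W d T := by
  classical
  have hne : ∃ T : Set (Fin n × Fin n), IsSpanArb d T := by
    refine ⟨TS d (fun _ => d), ts_isSpanArb ⟨rfl, fun v hv => Ne.symm hv, fun v => ⟨1, rfl⟩⟩⟩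
  obtain ⟨T, hT1, hT2⟩ := Set.exists_min_image {T : Set (Fin n × Fin n) | IsSpanArb d T} (tw W)
    (Set.toFinite _) hne
  exact ⟨T, hT1, hT2⟩

theorem unique_minSpan (hUNI : StmUNI) (μ : Measure ℝ) [IsProbabilityMeasure μ]
    [NullSingletonClass μ] {n : ℕ} (d : Fin n) :
    ∀ᵐ W ∂(Measure.pi (fun _ : Edg n => μ)), ∃! T, IsMinSpan W d T := by
  classical
  have hmp := off_measurePreserving μ n
  have hZm : MeasurableSet {W : Edg n → ℝ | ∃ T, IsMinSpan W d T ∧
      ∃ T', IsMinSpan W d T' ∧ T ≠ T'} := by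
    have h : {W : Edg n → ℝ | ∃ T, IsMinSpan W d T ∧ ∃ T', IsMinSpan W d T' ∧ T ≠ T'} =
        ⋃ T : Set (Fin n × Fin n), ({W | IsMinSpan W d T} ∩
        {W | ∃ T', IsMinSpan W d T' ∧ T ≠ T'}) := by
      ext W
      simp only [Set.mem_iUnion]
      exact Iff.rfl
    rw [h]
    exact MeasurableSet.iUnion (fun T => (meas_isMinSpan _ _).inter (meas_exists d _))
  have hZ0 : (Measure.pi (fun _ : Edg n => μ)) {W : Edg n → ℝ | ∃ T, IsMinSpan W d T ∧
      ∃ T', IsMinSpan W d T' ∧ T ≠ T'} = 0 := by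
    rw [← hmp.measure_preimage hZm.nullMeasurableSet]
    refine measure_mono_null ?_ (hUNI μ n d)
    rintro c ⟨T, hT, T', hT', hne⟩
    obtain ⟨A, hA, rfl⟩ := exists_isMinArb c hT
    obtain ⟨A', hA', rfl⟩ := exists_isMinArb c hT'
    exact ⟨A, A', fun h => hne (by rw [h]), hA, hA'⟩
  rw [ae_iff]
  refine measure_mono_null ?_ hZ0
  intro W hW
  obtain ⟨T, hT⟩ := exists_minSpan d W
  by_contra hcon
  apply hW
  refine ⟨T, hT, fun T' hT' => ?_⟩
  by_contra hne
  exact hcon ⟨T', hT', T, hT, hne⟩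

end Pool.Agent.T6.H59.MA
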