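import Pool.Agent.T6.H59.MA.Stm

/-!
# Local limit of the minimum spanning arborescence (MP_e4ce4d_pr): module X
-/

namespace Pool.Agent.T6.H59.MA
open MeasureTheory Filter Topology
noncomputable section

namespace ModX

/-- permuting the coordinates of a power of a measure -/
theorem perm {n : ℕ} {X : Type*} [MeasurableSpace X] (m : Measure X) [IsProbabilityMeasure m]
    (τ : Equiv.Perm (Fin n)) :
    MeasurePreserving (fun (c : Fin n → X) (v : Fin n) => c (τ v)) (Measure.pi fun _ => m)
      (Measure.pi fun _ => m) := by
  have hmeas : Measurable (fun (c : Fin n → X) (v : Fin n) => c (τ v)) :=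
    measurable_pi_lambda _ fun v => measurable_pi_apply (τ v)
  refine ⟨hmeas, (Measure.pi_eq fun s hs => ?_).symm⟩
  rw [Measure.map_apply hmeas (MeasurableSet.univ_pi hs)]
  have e : (fun (c : Fin n → X) (v : Fin n) => c (τ v)) ⁻¹' (Set.univ.pi s) =
      Set.univ.pi (fun v => s (τ.symm v)) := by
    ext c
    simp only [Set.mem_preimage, Set.mem_pi, Set.mem_univ, true_imp_iff]
    constructor
    · intro h v
      have := h (τ.symm v)
      rwa [Equiv.apply_symm_apply] at this
    · intro h v
      have := h (τ v)
      rwa [Equiv.symm_apply_apply] at this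
  rw [e, Measure.pi_pi]
  exact Equiv.prod_comp τ.symm (fun v => m (s v))

end ModX

theorem stmX : StmX := by
  intro μ _ n τ
  have : IsProbabilityMeasure (rowlaw μ n) := by unfold rowlaw; infer_instance
  have h1 : MeasurePreserving (fun (r : Row n) (w : Fin n) => r (τ w)) (rowlaw μ n)
      (rowlaw μ n) := ModX.perm μ τ
  have h2 : MeasurePreserving (fun (c : Wt n) (v : Fin n) => c (τ v)) (law μ n) (law μ n) :=
    ModX.perm (rowlaw μ n) τ
  have h3 : MeasurePreserving (fun (c : Wt n) (v w : Fin n) => c v (τ w)) (law μ n) (law μ n) :=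
    measurePreserving_pi (fun _ : Fin n => rowlaw μ n) (fun _ : Fin n => rowlaw μ n)
      (fun _ => h1)
  exact h3.comp h2

end
end Pool.Agent.T6.H59.MA
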