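import Mathlib

/-!
# Local limit of the minimum spanning arborescence (MP_e4ce4d_pr): definitions

Vertices are `Fin n`, a weight configuration is `c : Wt n`, `c v w` is the weight of the oriented edge
from `v` to `w` (the diagonal entries `c v v` are dummies, never used).
-/

namespace Pool.Agent.T6.H59.MA
open MeasureTheory
noncomputable section

/-- the weights of the out-edges of one vertex -/
abbrev Row (n : ℕ) := Fin n → ℝ
/-- the weights of all oriented edges -/
abbrev Wt (n : ℕ) := Fin n → Row n

/-- law of one row -/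
def rowlaw (μ : Measure ℝ) (n : ℕ) : Measure (Row n) := Measure.pi fun _ => μ
/-- i.i.d. weights with law `μ` -/
def law (μ : Measure ℝ) (n : ℕ) : Measure (Wt n) := Measure.pi fun _ => rowlaw μ n

/-- all weights out of each vertex are distinct -/
def Gen {n : ℕ} (c : Wt n) : Prop := ∀ v, Function.Injective (c v)

/-- `w` is the (tie-broken) cheapest target from `v` -/
def IsTgt {n : ℕ} (r : Row n) (v w : Fin n) : Prop :=
  w ≠ v ∧ ∀ w', w' ≠ v → r w ≤ r w' ∧ (w' < w → r w < r w')

open Classical in
/-- the cheapest target from `v` -/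
def tgt {n : ℕ} (r : Row n) (v : Fin n) : Fin n :=
  if h : ∃ w, IsTgt r v w then h.choose else v

/-- reduced cost of the edge `(v, w)` -/
def rc {n : ℕ} (r : Row n) (v w : Fin n) : ℝ := r w - r (tgt r v)

open Classical in
/-- the exits of `v` with reduced cost at most `h` (the cheapest target is not an exit) -/
def ex {n : ℕ} (r : Row n) (v : Fin n) (h : ℝ) : Finset (Fin n) :=
  Finset.univ.filter (fun w => w ≠ v ∧ w ≠ tgt r v ∧ rc r v w ≤ h)

open Classical in
/-- the targets of `v` with reduced cost at most `h` and with at most `J` strictly cheaper targets -/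
def nb {n : ℕ} (r : Row n) (v : Fin n) (h : ℝ) (J : ℕ) : Finset (Fin n) :=
  Finset.univ.filter (fun w => w ≠ v ∧ rc r v w ≤ h ∧
    (Finset.univ.filter (fun w' => w' ≠ v ∧ r w' < r w)).card ≤ J)

/-- mean of the truncated number of exits of reduced cost at most `h` -/
def kap (μ : Measure ℝ) (n : ℕ) (v : Fin n) (h : ℝ) (J : ℕ) : ℝ :=
  ∫ r, ((min (ex r v h).card J : ℕ) : ℝ) ∂(rowlaw μ n)

/-- the set of explored vertices: the source `u` and the list `l` (most recent first) -/
def expl {n : ℕ} (u : Fin n) (l : List (Fin n)) : Finset (Fin n) := insert u l.toFinset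

/-- Dijkstra keys: `key c u l w` is the least cost of a path from `u` to `w` through explored
vertices, `key c u l v` with `v` the next explored vertex being its distance. -/
def key {n : ℕ} (c : Wt n) (u : Fin n) : List (Fin n) → Fin n → ℝ
  | [], w => rc (c u) u w
  | v :: l, w => min (key c u l w) (key c u l v + rc (c v) v w)

/-- `w` is the next vertex explored by Dijkstra's algorithm -/
def IsNext {n : ℕ} (c : Wt n) (u : Fin n) (l : List (Fin n)) (w : Fin n) : Prop :=
  w ∉ expl u l ∧ ∀ w', w' ∉ expl u l →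
    key c u l w ≤ key c u l w' ∧ (w' < w → key c u l w < key c u l w')

open Classical in
/-- the next vertex explored by Dijkstra's algorithm -/
def nxt {n : ℕ} (c : Wt n) (u : Fin n) (l : List (Fin n)) : Fin n :=
  if h : ∃ w, IsNext c u l w then h.choose else u

/-- the first `m` vertices explored after the source `u`, most recent first -/
def ord {n : ℕ} (c : Wt n) (u : Fin n) : ℕ → List (Fin n)
  | 0 => []
  | m + 1 => nxt c u (ord c u m) :: ord c u m

/-- the explored vertices together with their cheap targets -/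
def Cov {n : ℕ} (c : Wt n) (u : Fin n) (m : ℕ) (h : ℝ) (J : ℕ) : Finset (Fin n) :=
  expl u (ord c u m) ∪ (expl u (ord c u m)).biUnion (fun v => nb (c v) v h J)

/-- `Chain c h J k U b`: there is a self-avoiding path in `U` from `b` with `k` exits, each of
reduced cost at most `h` and from a vertex with at most `J` exits of reduced cost at most `h`, all
other steps being to cheapest targets -/
inductive Chain {n : ℕ} (c : Wt n) (h : ℝ) (J : ℕ) : ℕ → Finset (Fin n) → Fin n → Prop
  | zero (U : Finset (Fin n)) (b : Fin n) : b ∈ U → Chain c h J 0 U b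
  | free (k : ℕ) (U : Finset (Fin n)) (b : Fin n) : b ∈ U →
      Chain c h J k (U.erase b) (tgt (c b) b) → Chain c h J k U b
  | exit (k : ℕ) (U : Finset (Fin n)) (b w : Fin n) : b ∈ U → (ex (c b) b h).card ≤ J →
      w ∈ ex (c b) b h → Chain c h J k (U.erase b) w → Chain c h J (k + 1) U b

/-- `y 0, ..., y L` is a walk -/
def IsPath {n : ℕ} (y : ℕ → Fin n) (L : ℕ) : Prop := ∀ s < L, y (s + 1) ≠ y s

/-- reduced cost of a walk -/
def pcost {n : ℕ} (c : Wt n) (y : ℕ → Fin n) (L : ℕ) : ℝ :=
  ∑ s ∈ Finset.range L, rc (c (y s)) (y s) (y (s + 1))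

open Classical in
/-- the steps of a walk which are not to the cheapest target -/
def exs {n : ℕ} (c : Wt n) (y : ℕ → Fin n) (L : ℕ) : Finset ℕ :=
  (Finset.range L).filter (fun s => y (s + 1) ≠ tgt (c (y s)) (y s))

/-- `y 0, ..., y L` is a self-avoiding walk of least reduced cost from `y 0` to `y L` -/
def Geo {n : ℕ} (c : Wt n) (y : ℕ → Fin n) (L : ℕ) : Prop :=
  IsPath y L ∧ Set.InjOn y (Set.Iic L) ∧
    ∀ (y' : ℕ → Fin n) (L' : ℕ), IsPath y' L' → y' 0 = y 0 → y' L' = y L →
      pcost c y L ≤ pcost c y' L'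

/-- `M` is (the parent map of) a spanning arborescence with root `d`: every vertex other than `d`
has the one out-edge `(v, M v)` and following out-edges leads to `d` (we put `M d = d`, the root
has no out-edge). -/
def IsArb {n : ℕ} (d : Fin n) (M : Fin n → Fin n) : Prop :=
  M d = d ∧ (∀ v, v ≠ d → M v ≠ v) ∧ ∀ v, ∃ t, M^[t] v = d

/-- weight of an arborescence -/
def wt {n : ℕ} (c : Wt n) (d : Fin n) (M : Fin n → Fin n) : ℝ :=
  ∑ v ∈ Finset.univ.erase d, c v (M v)

/-- minimum spanning arborescence -/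
def IsMinArb {n : ℕ} (c : Wt n) (d : Fin n) (M : Fin n → Fin n) : Prop :=
  IsArb d M ∧ ∀ M', IsArb d M' → wt c d M ≤ wt c d M'

/-- the map to the cheapest target -/
def F0 {n : ℕ} (c : Wt n) (v : Fin n) : Fin n := tgt (c v) v

open Classical in
/-- vertices whose out-edge in `M` is not the cheapest one -/
def dif {n : ℕ} (c : Wt n) (d : Fin n) (M : Fin n → Fin n) : Finset (Fin n) :=
  Finset.univ.filter (fun v => v ≠ d ∧ M v ≠ F0 c v)

open Classical in
/-- smallest elements of the cycles of `f` -/
def cyc {n : ℕ} (f : Fin n → Fin n) : Finset (Fin n) :=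
  Finset.univ.filter (fun v => (∃ p, 0 < p ∧ f^[p] v = v) ∧ ∀ i, v ≤ f^[i] v)

/-- vertices within distance `R` of `ρ`, orientations ignored -/
def Ball {α : Type*} (E : α → α → Prop) (ρ : α) : ℕ → Set α
  | 0 => {ρ}
  | R + 1 => {y | y ∈ Ball E ρ R ∨ ∃ x ∈ Ball E ρ R, E x y ∨ E y x}

/-- finite rooted oriented graphs -/
structure FG where
  /-- number of vertices -/
  k : ℕ
  /-- oriented edges -/
  E : Fin k → Fin k → Prop
  /-- root -/
  r : Fin k

/-- the ball of radius `R` about `ρ` is isomorphic, as a rooted oriented graph, to `H` -/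
def BallIso {α : Type*} (E : α → α → Prop) (ρ : α) (R : ℕ) (H : FG) : Prop :=
  ∃ φ : Ball E ρ R ≃ Fin H.k, (∀ x : Ball E ρ R, x.1 = ρ → φ x = H.r) ∧
    ∀ x y : Ball E ρ R, E x.1 y.1 ↔ H.E (φ x) (φ y)

/-- the oriented edges `(x, M x)`, `x ≠ d` -/
def EM {n : ℕ} (d : Fin n) (M : Fin n → Fin n) (x y : Fin n) : Prop := x ≠ d ∧ M x = y

/-- addresses of the vertices of the limit tree: `(i, [])` is the `i`-th vertex of the infinite
path, `(i, k :: u)` is the `k`-th child of `(i, u)` -/
abbrev Addr := ℕ × List ℕ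

/-- presence of an address, `N a` being the number of children of `a` -/
def pres (N : Addr → ℕ) (i : ℕ) : List ℕ → Prop
  | [] => True
  | k :: u => pres N i u ∧ k < N (i, u)

/-- oriented edges of the limit tree: `(i, [])` to `(i + 1, [])` and child to parent -/
def ET (N : Addr → ℕ) (x y : Addr) : Prop :=
  pres N x.1 x.2 ∧ pres N y.1 y.2 ∧
    ((x.2 = [] ∧ y.2 = [] ∧ y.1 = x.1 + 1) ∨ (y.1 = x.1 ∧ ∃ k, x.2 = k :: y.2))

/-- i.i.d. Poisson(1) numbers of children -/
def lawT : Measure (Addr → ℕ) := Measure.infinitePi (fun _ => ProbabilityTheory.poissonMeasure 1)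

/-- largest `s` with `s ^ 100 ≤ n` -/
def sn (n : ℕ) : ℕ := Nat.findGreatest (fun s => s ^ 100 ≤ n) n

end
end Pool.Agent.T6.H59.MA
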