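import Pool.Agent.T6.H59.MA.Stm

namespace Pool.Agent.T6.H59.MA
open MeasureTheory Filter Topology
noncomputable section

namespace ModMAIN

theorem ballIso_congr {α : Type*} {E E' : α → α → Prop} {ρ : α} {R : ℕ} {H : FG}
    (hB : Ball E ρ R = Ball E' ρ R)
    (hE : ∀ x ∈ Ball E' ρ R, ∀ y ∈ Ball E' ρ R, E x y ↔ E' x y) :
    BallIso E ρ R H ↔ BallIso E' ρ R H := by
  constructor
  · rintro ⟨φ, hr, he⟩
    refine ⟨(Equiv.setCongr hB).symm.trans φ, ?_, ?_⟩
    · intro x hx
      exact hr ((Equiv.setCongr hB).symm x) hx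
    · intro x y
      rw [← hE x.1 x.2 y.1 y.2]
      exact he ((Equiv.setCongr hB).symm x) ((Equiv.setCongr hB).symm y)
  · rintro ⟨φ, hr, he⟩
    refine ⟨(Equiv.setCongr hB).trans φ, ?_, ?_⟩
    · intro x hx
      exact hr ((Equiv.setCongr hB) x) hx
    · intro x y
      rw [hE x.1 (by rw [← hB]; exact x.2) y.1 (by rw [← hB]; exact y.2)]
      exact he ((Equiv.setCongr hB) x) ((Equiv.setCongr hB) y)

end ModMAIN

open ModMAIN

theorem stmMain_of (hI : StmI) (hH : StmH) : StmMain := by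
  intro μ _ _ d hd M hM R H
  have h1 := hI μ d hd R
  have h2 := hH μ d hd R H
  have hsub : ∀ N, {c : Wt (N + 2) | BallIso (EM (d N) (M N c)) 0 R H} ⊆
      {c | BallIso (EM (d N) (F0 c)) 0 R H} ∪
      {c | ∃ M, IsMinArb c (d N) M ∧ ¬ Same (d N) M (F0 c) 0 R} := by
    intro N c hc
    by_cases h : Same (d N) (M N c) (F0 c) 0 R
    · left
      exact (ballIso_congr h.1 h.2).1 hc
    · right
      exact ⟨M N c, hM N c, h⟩
  have hsub' : ∀ N, {c : Wt (N + 2) | BallIso (EM (d N) (F0 c)) 0 R H} ⊆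
      {c | BallIso (EM (d N) (M N c)) 0 R H} ∪
      {c | ∃ M, IsMinArb c (d N) M ∧ ¬ Same (d N) M (F0 c) 0 R} := by
    intro N c hc
    by_cases h : Same (d N) (M N c) (F0 c) 0 R
    · left
      exact (ballIso_congr h.1 h.2).2 hc
    · right
      exact ⟨M N c, hM N c, h⟩
  have hup : ∀ N, law μ (N + 2) {c | BallIso (EM (d N) (M N c)) 0 R H} ≤
      law μ (N + 2) {c | BallIso (EM (d N) (F0 c)) 0 R H} +
      law μ (N + 2) {c | ∃ M, IsMinArb c (d N) M ∧ ¬ Same (d N) M (F0 c) 0 R} := fun N =>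
    (measure_mono (hsub N)).trans (measure_union_le _ _)
  have hlo : ∀ N, law μ (N + 2) {c | BallIso (EM (d N) (F0 c)) 0 R H} -
      law μ (N + 2) {c | ∃ M, IsMinArb c (d N) M ∧ ¬ Same (d N) M (F0 c) 0 R} ≤
      law μ (N + 2) {c | BallIso (EM (d N) (M N c)) 0 R H} := fun N =>
    tsub_le_iff_right.2 ((measure_mono (hsub' N)).trans (measure_union_le _ _))
  have hlim : lawT {N | BallIso (ET N) ((0, []) : Addr) R H} ≠ ⊤ := by
    have : IsProbabilityMeasure lawT := by unfold lawT; infer_instance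
    exact measure_ne_top _ _
  refine tendsto_of_tendsto_of_tendsto_of_le_of_le ?_ ?_ hlo hup
  · have := ENNReal.Tendsto.sub h2 h1 (Or.inl hlim)
    simpa using this
  · have := h2.add h1
    simpa using this

end
end Pool.Agent.T6.H59.MA
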