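import Pool.Agent.T6.H59.MA.PA

/-!
Project MA (helper59), MP_e4ce4d_pr: module PB (numerical estimates).
-/

set_option autoImplicit false

namespace Pool.Agent.T6.H59.MA

open Filter Topology

namespace NumP

/-- `- log (1 - y) ≤ (1 / (1 - y) - (1 - y)) / 2` -/
theorem neg_log_le {y : ℝ} (h0 : 0 ≤ y) (h1 : y < 1) :
    -Real.log (1 - y) ≤ ((1 - y)⁻¹ - (1 - y)) / 2 := by
  have h2 : 0 < 1 - y := by linarith
  have h3 : 0 ≤ -Real.log (1 - y) := by
    have := Real.log_nonpos h2.le (by linarith)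
    linarith
  have h4 := Real.self_le_sinh_iff.2 h3
  refine h4.trans (le_of_eq ?_)
  rw [← Real.log_inv, Real.sinh_log (inv_pos.2 h2), inv_inv]

/-- the main inequality -/
theorem pb_core {x e δ : ℝ} (hx : 0 < x) (hx1 : 0 < 1 - x) (he : 0 < e) (he1 : e ≤ x ^ 2 / 100)
    (he2 : e ≤ x / 100) (he3 : e ≤ (1 - x) / 100) (hδ : δ = -Real.log (1 - (x + e)) / x - 1) :
    δ * (1 - x) ≤ 3 / 4 * x := by
  have hy : x + e < 1 := by linarith
  have h1 := neg_log_le (y := x + e) (by linarith) hy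
  have h2 : 0 < 1 - (x + e) := by linarith
  have h3 : ((1 - (x + e))⁻¹ - (1 - (x + e))) / 2 = (x + e) + (x + e) ^ 2 / (2 * (1 - (x + e))) := by
    field_simp
    ring
  rw [h3] at h1
  have h4 : (x + e) ^ 2 ≤ (1.01 * x) ^ 2 := by
    apply pow_le_pow_left₀ (by linarith)
    linarith
  have h5 : (1 - x) / (1 - (x + e)) ≤ 100 / 99 := by
    rw [div_le_div_iff₀ h2 (by norm_num)]
    linarith
  have h6 : (-Real.log (1 - (x + e)) - x) * (1 - x) ≤ 3 / 4 * x ^ 2 := by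
    calc (-Real.log (1 - (x + e)) - x) * (1 - x) ≤
        (e + (x + e) ^ 2 / (2 * (1 - (x + e)))) * (1 - x) := by
          apply mul_le_mul_of_nonneg_right _ hx1.le
          linarith
      _ = e * (1 - x) + (x + e) ^ 2 / 2 * ((1 - x) / (1 - (x + e))) := by
          field_simp
      _ ≤ x ^ 2 / 100 * 1 + (1.01 * x) ^ 2 / 2 * (100 / 99) := by
          gcongr
          linarith
      _ ≤ 3 / 4 * x ^ 2 := by nlinarith
  rw [hδ]
  have h7 : (-Real.log (1 - (x + e)) / x - 1) * (1 - x) =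
      ((-Real.log (1 - (x + e)) - x) * (1 - x)) / x := by
    field_simp
  rw [h7, div_le_iff₀ hx]
  calc _ ≤ 3 / 4 * x ^ 2 := h6
    _ = 3 / 4 * x * x := by ring

/-- the explored fraction is not near `0` or `1` -/
theorem xx_bounds {s n : ℕ} (hs : 264 ≤ s) (hn : s ^ 100 ≤ n) {i : ℕ} (hi : i < nw s n) :
    0 < (n : ℝ) ∧ 1 / (s : ℝ) ^ 2 ≤ xx s n i ∧ 1 / (s : ℝ) ^ 2 ≤ 1 - xx s n i ∧
      mm s n i + bw s n + 1 + m0 s n ≤ n := by
  obtain ⟨w1, w2, w3, w4, w5, w6, w7, w8, w9⟩ := win hs hn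
  have hs0 : (0 : ℝ) < s := by
    have : 0 < s := by omega
    exact_mod_cast this
  have hn0 : 0 < n := lt_of_lt_of_le (pow_pos (by omega) _) hn
  have hnr : (0 : ℝ) < n := by exact_mod_cast hn0
  have h1 := w7 (i + 1) hi
  have h2 : mm s n (i + 1) = mm s n i + bw s n := by
    unfold mm
    ring
  rw [h2] at h1
  have h3 : m0 s n ≤ mm s n i := by
    unfold mm
    omega
  have h5 : (n : ℝ) ≤ ((m0 s n : ℝ) + 1) * (s : ℝ) ^ 2 := by exact_mod_cast w5.le
  have h3r : (m0 s n : ℝ) ≤ mm s n i := by exact_mod_cast h3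
  refine ⟨hnr, ?_, ?_, h1⟩
  · unfold xx
    rw [div_le_div_iff₀ (by positivity) hnr]
    nlinarith [mul_le_mul_of_nonneg_right h3r (sq_nonneg (s : ℝ))]
  · have h6 : m0 s n + 1 ≤ n - mm s n i - 1 := by omega
    have h7 : mm s n i + 1 + (m0 s n + 1) ≤ n := by omega
    have h8 : (mm s n i : ℝ) + 1 + (m0 s n + 1) ≤ n := by exact_mod_cast h7
    unfold xx
    rw [le_sub_iff_add_le, div_add_div _ _ (by positivity) hnr.ne', div_le_one (by positivity)]
    have h9 : (mm s n i : ℝ) + 1 ≤ n - (m0 s n + 1) := by linarith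
    nlinarith [mul_le_mul_of_nonneg_left h9 (sq_nonneg (s : ℝ))]

theorem eps_bounds {s : ℕ} (hs : 264 ≤ s) {x : ℝ} (hx : 1 / (s : ℝ) ^ 2 ≤ x)
    (hx1 : 1 / (s : ℝ) ^ 2 ≤ 1 - x) : 0 < 1 / (32 * (s : ℝ) ^ 6) ∧
      1 / (32 * (s : ℝ) ^ 6) ≤ x ^ 2 / 100 ∧ 1 / (32 * (s : ℝ) ^ 6) ≤ x / 100 ∧
      1 / (32 * (s : ℝ) ^ 6) ≤ (1 - x) / 100 := by
  have hsr : (264 : ℝ) ≤ s := by exact_mod_cast hs
  have hs0 : (0 : ℝ) < s := by linarith
  have h1 : 1 ≤ (s : ℝ) ^ 2 := one_le_pow₀ (by linarith)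
  have h2 : (100 : ℝ) ≤ (s : ℝ) ^ 2 := by nlinarith
  have hp : 0 < 1 / (s : ℝ) ^ 2 := by positivity
  have e1 : 1 / (32 * (s : ℝ) ^ 6) ≤ (1 / (s : ℝ) ^ 2) ^ 2 / 100 := by
    rw [div_pow, one_pow, div_div, div_le_div_iff₀ (by positivity) (by positivity)]
    nlinarith [pow_pos hs0 4]
  have e2 : (1 / (s : ℝ) ^ 2) ^ 2 ≤ 1 / (s : ℝ) ^ 2 := by
    have : 1 / (s : ℝ) ^ 2 ≤ 1 := by
      rw [div_le_one (by positivity)]
      exact h1
    nlinarith
  have e3 : (1 / (s : ℝ) ^ 2) ^ 2 ≤ x ^ 2 := pow_le_pow_left₀ hp.le hx 2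
  refine ⟨by positivity, ?_, ?_, ?_⟩
  · linarith
  · linarith
  · linarith

end NumP

/-- module PB -/
theorem stmPB : StmPB := by
  refine ⟨264, ?_⟩
  intro s hs n hn hn' i hi
  clear hn'
  obtain ⟨hn0, hx, hx1, hmm⟩ := NumP.xx_bounds hs hn hi
  obtain ⟨he, he1, he2, he3⟩ := NumP.eps_bounds hs hx hx1
  have hsr : (264 : ℝ) ≤ s := by exact_mod_cast hs
  have hs0 : (0 : ℝ) < s := by linarith
  have hp : 0 < 1 / (s : ℝ) ^ 2 := by positivity
  have hx0 : 0 < xx s n i := by linarith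
  have hx10 : 0 < 1 - xx s n i := by linarith
  set x := xx s n i with hxdef
  set e := 1 / (32 * (s : ℝ) ^ 6) with hedef
  have hkp : kp s n i = -Real.log (1 - (x + e)) / x - 1 := rfl
  have hy0 : 0 < 1 - (x + e) := by linarith
  -- lower bound
  have h1 : x ≤ -Real.log (1 - (x + e)) := by
    have := Real.log_le_sub_one_of_pos hy0
    linarith
  have hk0 : 0 ≤ kp s n i := by
    rw [hkp, sub_nonneg, le_div_iff₀ hx0]
    linarith
  -- upper bound
  have h2 : 1 / (2 * (s : ℝ) ^ 2) ≤ 1 - (x + e) := by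
    have : 1 / (2 * (s : ℝ) ^ 2) = 1 / (s : ℝ) ^ 2 / 2 := by
      field_simp
    rw [this]
    linarith
  have h3 : -Real.log (1 - (x + e)) ≤ s := by
    have h4 : Real.log (1 / (2 * (s : ℝ) ^ 2)) ≤ Real.log (1 - (x + e)) :=
      Real.log_le_log (by positivity) h2
    rw [one_div, Real.log_inv] at h4
    have h5 : Real.log (2 * (s : ℝ) ^ 2) ≤ s := by
      rw [Real.log_le_iff_le_exp (by positivity)]
      have h6 := Real.pow_div_factorial_le_exp (s : ℝ) hs0.le 3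
      refine le_trans ?_ h6
      rw [le_div_iff₀ (by positivity)]
      have h7 : ((Nat.factorial 3 : ℕ) : ℝ) = 6 := by norm_num [Nat.factorial]
      rw [h7]
      nlinarith [pow_pos hs0 2]
    linarith
  have h8 : kp s n i ≤ (s : ℝ) ^ 3 := by
    rw [hkp]
    have h9 : -Real.log (1 - (x + e)) / x ≤ (s : ℝ) ^ 3 := by
      rw [div_le_iff₀ hx0]
      refine h3.trans ?_
      calc (s : ℝ) = (s : ℝ) ^ 3 * (1 / (s : ℝ) ^ 2) := by
            field_simp
        _ ≤ (s : ℝ) ^ 3 * x := by gcongr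
    linarith
  have hs1 : 1 < s := by omega
  refine ⟨hk0, h8, ?_, ?_, ?_⟩
  · refine h8.trans_lt ?_
    have : s ^ 3 < s ^ 22 := Nat.pow_lt_pow_right hs1 (by norm_num)
    exact_mod_cast this
  · refine h8.trans_lt ?_
    have h10 : s ^ 3 + 2 < n := by
      have h11 : s ^ 3 < s ^ 4 := Nat.pow_lt_pow_right hs1 (by norm_num)
      have h12 : s ^ 4 < s ^ 5 := Nat.pow_lt_pow_right hs1 (by norm_num)
      have h13 : s ^ 5 < s ^ 100 := Nat.pow_lt_pow_right hs1 (by norm_num)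
      omega
    have h14 : ((s : ℝ)) ^ 3 + 2 < n := by exact_mod_cast h10
    linarith
  · have h15 := NumP.pb_core hx0 hx10 he he1 he2 he3 hkp
    have h16 : (n : ℝ) - mm s n i - 1 = n * (1 - x) := by
      rw [hxdef]
      unfold xx
      field_simp
      ring
    have h17 : (mm s n i : ℝ) + 1 = n * x := by
      rw [hxdef]
      unfold xx
      field_simp
    rw [h16, h17]
    calc kp s n i * (n * (1 - x)) = n * (kp s n i * (1 - x)) := by ring
      _ ≤ n * (3 / 4 * x) := by gcongr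
      _ = 3 / 4 * (n * x) := by ring

end Pool.Agent.T6.H59.MA
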