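import Pool.Agent.T6.H59.MA.Defs

/-!
# Local limit of the minimum spanning arborescence (MP_e4ce4d_pr): statements of the modules
-/

namespace Pool.Agent.T6.H59.MA
open MeasureTheory Filter Topology
noncomputable section

/-- MR: measurability of row functions -/
def StmMR : Prop := ∀ (n : ℕ) (v : Fin n) (h : ℝ) (J : ℕ),
  (∀ w, MeasurableSet {r : Row n | tgt r v = w}) ∧
  (∀ S, MeasurableSet {r : Row n | ex r v h = S}) ∧
  (∀ S, MeasurableSet {r : Row n | nb r v h J = S})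

/-- GEN: weights are almost surely distinct -/
def StmGEN : Prop := ∀ (μ : Measure ℝ) [IsProbabilityMeasure μ] [NullSingletonClass μ] (n : ℕ),
  rowlaw μ n {r | ¬ Function.Injective r} = 0 ∧ law μ n {c | ¬ Gen c} = 0

/-- UNI: the minimum spanning arborescence is almost surely unique -/
def StmUNI : Prop := ∀ (μ : Measure ℝ) [IsProbabilityMeasure μ] [NullSingletonClass μ] (n : ℕ) (d : Fin n),
  law μ n {c | ∃ M M', M ≠ M' ∧ IsMinArb c d M ∧ IsMinArb c d M'} = 0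

/-- IND: independence of a row and an event not depending on it -/
def StmIND : Prop := ∀ (μ : Measure ℝ) [IsProbabilityMeasure μ] (n : ℕ) (w : Fin n)
  (A : Set (Wt n)) (B : Set (Row n)), MeasurableSet A → MeasurableSet B →
  (∀ (c : Wt n) (r : Row n), Function.update c w r ∈ A ↔ c ∈ A) →
  law μ n (A ∩ {c | c w ∈ B}) = law μ n A * rowlaw μ n B

/-- ORD: the next explored vertex is a measurable function of the explored rows -/
def StmORD : Prop := ∀ (n : ℕ) (u : Fin n) (l : List (Fin n)),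
  (∀ w, MeasurableSet {c : Wt n | nxt c u l = w}) ∧
  ∀ x, x ∉ expl u l → ∀ (c : Wt n) (r : Row n), nxt (Function.update c x r) u l = nxt c u l

/-- C1: probability that the cheap targets of one vertex avoid a set -/
def StmC1 : Prop := ∀ (μ : Measure ℝ) [IsProbabilityMeasure μ] [NullSingletonClass μ] (n : ℕ) (v : Fin n)
  (h : ℝ) (J : ℕ) (W : Finset (Fin n)), 3 ≤ n → 0 ≤ h → v ∉ W →
  (rowlaw μ n).real {r | Disjoint W (nb r v h J)} ≤
    1 - W.card * (1 + kap μ n v h J) / ((n : ℝ) - 1)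
      + (W.card : ℝ) ^ 2 * ((J : ℝ) + 1) ^ 2 / (((n : ℝ) - 1) * ((n : ℝ) - 2))

/-- C2: the covered set avoids a given set -/
def StmC2 : Prop := ∀ (μ : Measure ℝ) [IsProbabilityMeasure μ] (n : ℕ) (u : Fin n)
  (h : ℝ) (J : ℕ) (W : Finset (Fin n)) (q : ENNReal),
  (∀ v, v ∉ W → rowlaw μ n {r | Disjoint W (nb r v h J)} ≤ q) →
  ∀ m, m + 1 ≤ n → law μ n {c | Disjoint W (Cov c u m h J)} ≤ q ^ (m + 1)

/-- C3: the covered set is not small -/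
def StmC3 : Prop := ∀ (μ : Measure ℝ) [IsProbabilityMeasure μ] [NullSingletonClass μ] (n : ℕ) (u : Fin n)
  (m : ℕ) (h : ℝ) (J j M' : ℕ) (κ : ℝ), 3 ≤ n → 0 ≤ h → m + 1 ≤ n → 1 ≤ j → M' + j ≤ n → 1 ≤ M' →
  (∀ v, κ ≤ kap μ n v h J) →
  law μ n {c | (Cov c u m h J).card ≤ M'} ≤
    ENNReal.ofReal (((n.choose j : ℝ) / ((n - M').choose j : ℝ)) *
      (1 - j * (1 + κ) / ((n : ℝ) - 1)
        + (j : ℝ) ^ 2 * ((J : ℝ) + 1) ^ 2 / (((n : ℝ) - 1) * ((n : ℝ) - 2))) ^ (m + 1))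

/-- D1: one row, uniform targets -/
def StmD1 : Prop := ∀ (μ : Measure ℝ) [IsProbabilityMeasure μ] [NullSingletonClass μ] (n : ℕ) (b w : Fin n),
  2 ≤ n → w ≠ b →
  rowlaw μ n {r | tgt r b = w} = ENNReal.ofReal (1 / ((n : ℝ) - 1)) ∧
  ∀ (h : ℝ) (J : ℕ), rowlaw μ n {r | (ex r b h).card ≤ J ∧ w ∈ ex r b h} ≤
    ENNReal.ofReal (kap μ n b h J / ((n : ℝ) - 1))

/-- D2: no long chains of exits among unexplored vertices -/
def StmD2 : Prop := ∀ (μ : Measure ℝ) [IsProbabilityMeasure μ] [NullSingletonClass μ] (n : ℕ) (u : Fin n)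
  (m k : ℕ) (h : ℝ) (J : ℕ) (κ r : ℝ), 2 ≤ n → m + 1 ≤ n → 0 ≤ κ → (∀ v, kap μ n v h J ≤ κ) →
  0 ≤ r → κ * ((n : ℝ) - m - 1) ≤ r * ((m : ℝ) + 1) →
  law μ n {c | ∃ b, Chain c h J k (Finset.univ \ expl u (ord c u m)) b} ≤
    ENNReal.ofReal (n * r ^ k)

/-- B0: facts on Dijkstra's algorithm (deterministic): `ρ` is the distance from `u` and `t m` the
distance of the `m`-th explored vertex -/
def StmB0 : Prop := ∀ (n : ℕ) (c : Wt n), 2 ≤ n → Gen c → ∀ u : Fin n,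
  ∃ (ρ : Fin n → ℝ) (t : ℕ → ℝ), ρ u = 0 ∧ t 0 = 0 ∧
    (∀ v w, v ≠ w → ρ w ≤ ρ v + rc (c v) v w) ∧
    (∀ w, ∃ (y : ℕ → Fin n) (L : ℕ), IsPath y L ∧ y 0 = u ∧ y L = w ∧ pcost c y L = ρ w) ∧
    (∀ m m', m ≤ m' → m' + 1 ≤ n → t m ≤ t m') ∧
    (∀ m m', m ≤ m' → expl u (ord c u m) ⊆ expl u (ord c u m')) ∧
    (∀ m, m + 1 ≤ n → (expl u (ord c u m)).card = m + 1 ∧
      (∀ v ∈ expl u (ord c u m), ρ v ≤ t m) ∧ (∀ v, v ∉ expl u (ord c u m) → t m ≤ ρ v))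

/-- B: number of exits on a geodesic (deterministic) -/
def StmB : Prop := ∀ (n : ℕ) (c : Wt n), 2 ≤ n → Gen c → ∀ (y : ℕ → Fin n) (L : ℕ), Geo c y L →
  ∀ (W : ℕ) (m : ℕ → ℕ) (h : ℕ → ℝ) (J k0 H : ℕ), 1 ≤ k0 → (∀ i ≤ W, m i + 1 ≤ n) →
  (∀ i < W, m i < m (i + 1)) → (∀ i < W, 0 ≤ h i) →
  (∀ i < W, m (i + 1) + 1 < (Cov c (y 0) (m i) (h i) J).card) →
  (∀ i < W, ∀ b, ¬ Chain c (h i) J k0 (Finset.univ \ expl (y 0) (ord c (y 0) (m i))) b) →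
  (∀ i < W, (Finset.univ.filter (fun v => J < (ex (c v) v (h i)).card)).card ≤ H) →
  (exs c y L).card ≤ (m 0 + 1) + (n - 1 - m W) + (W + 1) + W * ((H + 1) * k0)

/-- A1: a run of regular non-cheapest edges of the minimum arborescence is a geodesic -/
def StmA1 : Prop := ∀ (n : ℕ) (c : Wt n), 2 ≤ n → Gen c → ∀ (d : Fin n) (M : Fin n → Fin n),
  IsMinArb c d M → ∀ (a : Fin n) (L : ℕ), 1 ≤ L → (∀ s < L, M^[s] a ≠ d) → a ∈ dif c d M →
  M^[L - 1] a ∈ dif c d M →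
  (∀ s, 0 < s → s < L → M^[s] a ∈ dif c d M →
    ∃ s' < s, M^[s'] a ∈ dif c d M ∧ ∃ t, M^[t] (F0 c (M^[s] a)) = M^[s'] a) →
  Geo c (fun s => M^[s] a) L

/-- A: the minimum spanning arborescence has few non-cheapest edges (deterministic) -/
def StmA : Prop := ∀ (n : ℕ) (c : Wt n), 2 ≤ n → Gen c → ∀ (d : Fin n) (M : Fin n → Fin n),
  IsMinArb c d M → ∀ Lm : ℕ,
  (∀ (y : ℕ → Fin n) (L : ℕ), Geo c y L → (exs c y L).card ≤ Lm) →
  (dif c d M).card ≤ (cyc (F0 c)).card * ((cyc (F0 c)).card + 1) * (Lm + 1)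

/-- E1: thresholds with a given mean number of exits -/
def StmE1 : Prop := ∀ (μ : Measure ℝ) [IsProbabilityMeasure μ] [NullSingletonClass μ] (n J : ℕ) (κ : ℝ),
  3 ≤ n → 0 ≤ κ → κ < J → κ < (n : ℝ) - 2 → ∃ h : ℝ, 0 ≤ h ∧ ∀ v, kap μ n v h J = κ

/-- size of the first window -/
def m0 (s n : ℕ) : ℕ := n / s ^ 2
/-- width of the windows -/
def bw (s n : ℕ) : ℕ := n / (64 * s ^ 6)
/-- number of windows -/
def nw (s n : ℕ) : ℕ := (n - 1 - 2 * m0 s n) / bw s n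
/-- ends of the windows -/
def mm (s n i : ℕ) : ℕ := m0 s n + i * bw s n
/-- explored fraction -/
def xx (s n i : ℕ) : ℝ := ((mm s n i : ℝ) + 1) / n
/-- target mean number of exits -/
def kp (s n i : ℕ) : ℝ := - Real.log (1 - (xx s n i + 1 / (32 * (s : ℝ) ^ 6))) / xx s n i - 1

/-- PA: numerical estimates, window sizes and error terms -/
def StmPA : Prop := ∃ s0 : ℕ, ∀ s ≥ s0, ∀ n : ℕ, s ^ 100 ≤ n → n < (s + 1) ^ 100 →
  0 < bw s n ∧
  (∀ i ≤ nw s n, mm s n i + 2 + s ^ 20 ≤ n) ∧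
  ((((m0 s n + 1) + (n - 1 - mm s n (nw s n)) + (nw s n + 1)
    + nw s n * ((n / s ^ 10 + 1) * s) : ℕ) : ℝ)) * (s : ℝ) ^ 2 ≤ 4 * n ∧
  (n : ℝ) * nw s n * (Real.exp (- (s : ℝ) ^ 2) + n * (3 / 4 : ℝ) ^ s)
    + nw s n * (1 / (s : ℝ) ^ 9) ≤ 1 / s

/-- PB: numerical estimates for the target mean numbers of exits -/
def StmPB : Prop := ∃ s0 : ℕ, ∀ s ≥ s0, ∀ n : ℕ, s ^ 100 ≤ n → n < (s + 1) ^ 100 →
  ∀ i < nw s n, 0 ≤ kp s n i ∧ kp s n i ≤ (s : ℝ) ^ 3 ∧ kp s n i < ((s ^ 22 : ℕ) : ℝ) ∧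
    kp s n i < (n : ℝ) - 2 ∧
    kp s n i * ((n : ℝ) - mm s n i - 1) ≤ 3 / 4 * ((mm s n i : ℝ) + 1)

/-- PC: numerical estimate for the covering probability -/
def StmPC : Prop := ∃ s0 : ℕ, ∀ s ≥ s0, ∀ n : ℕ, s ^ 100 ≤ n → n < (s + 1) ^ 100 →
  ∀ i < nw s n,
    (((n.choose (s ^ 20) : ℝ) / ((n - (mm s n (i + 1) + 1)).choose (s ^ 20) : ℝ)) *
      (1 - ((s ^ 20 : ℕ) : ℝ) * (1 + kp s n i) / ((n : ℝ) - 1)
        + (((s ^ 20 : ℕ) : ℝ)) ^ 2 * (((s ^ 22 : ℕ) : ℝ) + 1) ^ 2 /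
          (((n : ℝ) - 1) * ((n : ℝ) - 2))) ^ (mm s n i + 1)) ≤ Real.exp (- (s : ℝ) ^ 2)

/-- E: with probability tending to one all geodesics have few exits -/
def StmE : Prop := ∀ (μ : Measure ℝ) [IsProbabilityMeasure μ] [NullSingletonClass μ],
  Tendsto (fun n : ℕ => law μ n {c | ∃ (y : ℕ → Fin n) (L : ℕ), Geo c y L ∧
    4 * n < (exs c y L).card * (sn n) ^ 2}) atTop (𝓝 0)

/-- R: the map to the cheapest target is a uniform map -/
def StmR : Prop := ∀ (μ : Measure ℝ) [IsProbabilityMeasure μ] [NullSingletonClass μ] (n : ℕ)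
  (G : Fin n → Finset (Fin n)), 2 ≤ n → (∀ v, v ∉ G v) →
  law μ n {c | ∀ v, F0 c v ∈ G v} = ∏ v, ENNReal.ofReal ((G v).card / ((n : ℝ) - 1))

/-- F: few cycles -/
def StmF : Prop := ∀ (μ : Measure ℝ) [IsProbabilityMeasure μ] [NullSingletonClass μ] (n : ℕ) (T : ℝ),
  2 ≤ n → 0 < T →
  law μ n {c | T ≤ ((cyc (F0 c)).card : ℝ)} ≤ ENNReal.ofReal (2 * (1 + Real.log n) / T)

open Classical in
/-- G: in-degrees are small -/
def StmG : Prop := ∀ (μ : Measure ℝ) [IsProbabilityMeasure μ] [NullSingletonClass μ] (n D : ℕ), 2 ≤ n →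
  law μ n {c | ∃ v : Fin n, D ≤ (Finset.univ.filter (fun w => F0 c w = v)).card} ≤
    ENNReal.ofReal (n / (D.factorial : ℝ))

/-- X: relabelling the vertices preserves the law -/
def StmX : Prop := ∀ (μ : Measure ℝ) [IsProbabilityMeasure μ] (n : ℕ) (τ : Equiv.Perm (Fin n)),
  MeasurePreserving (fun (c : Wt n) (v w : Fin n) => c (τ v) (τ w)) (law μ n) (law μ n)

/-- `M` and `f` have the same ball of radius `R` about `v` -/
def Same {n : ℕ} (d : Fin n) (M f : Fin n → Fin n) (v : Fin n) (R : ℕ) : Prop :=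
  Ball (EM d M) v R = Ball (EM d f) v R ∧
    ∀ x ∈ Ball (EM d f) v R, ∀ y ∈ Ball (EM d f) v R, EM d M x y ↔ EM d f x y

open Classical in
/-- I1: few changed edges change few balls (deterministic) -/
def StmI1 : Prop := ∀ (n : ℕ) (d : Fin n) (M f : Fin n → Fin n) (R D : ℕ),
  (∀ x, (Finset.univ.filter (fun w => f w = x)).card ≤ D) →
  (Finset.univ.filter (fun v => ¬ Same d M f v R)).card ≤
    3 * (Finset.univ.filter (fun x => x ≠ d ∧ M x ≠ f x)).card * (D + 2) ^ R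

/-- I: the ball about vertex `0` in the minimum arborescence is the ball in the uniform map -/
def StmI : Prop := ∀ (μ : Measure ℝ) [IsProbabilityMeasure μ] [NullSingletonClass μ]
  (d : ∀ N : ℕ, Fin (N + 2)), (∀ N, d N ≠ 0) → ∀ R : ℕ,
  Tendsto (fun N : ℕ => law μ (N + 2) {c | ∃ M, IsMinArb c (d N) M ∧ ¬ Same (d N) M (F0 c) 0 R})
    atTop (𝓝 0)

/-- addresses at distance at most `R` -/
def PresR (N : Addr → ℕ) (R : ℕ) : Set Addr := {a | pres N a.1 a.2 ∧ a.1 + a.2.length ≤ R}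
/-- addresses at distance less than `R` -/
def IntR (N : Addr → ℕ) (R : ℕ) : Set Addr := {a | pres N a.1 a.2 ∧ a.1 + a.2.length < R}

/-- `φ` identifies the ball of radius `R` of the tree with numbers of children `N` with the ball
of radius `R` about `ρ` -/
def Match {α : Type} (E : α → α → Prop) (ρ : α) (R : ℕ) (N : Addr → ℕ) (φ : Addr → α) : Prop :=
  φ (0, []) = ρ ∧ Set.InjOn φ (PresR N R) ∧
  (∀ a ∈ PresR N R, ∀ b ∈ PresR N R, E (φ a) (φ b) ↔ ET N a b) ∧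
  (∀ a ∈ IntR N R, ∀ w, (E w (φ a) ∨ E (φ a) w) → ∃ b ∈ PresR N R, φ b = w)

/-- siblings have increasing labels -/
def Inc {n : ℕ} (R : ℕ) (N : Addr → ℕ) (φ : Addr → Fin n) : Prop :=
  ∀ (i k k' : ℕ) (u : List ℕ), (i, k :: u) ∈ PresR N R → (i, k' :: u) ∈ PresR N R → k < k' →
    φ (i, k :: u) < φ (i, k' :: u)

/-- H1: matching gives the isomorphism class of the ball -/
def StmH1 : Prop := ∀ (α : Type) (E : α → α → Prop) (ρ : α) (R : ℕ) (N : Addr → ℕ) (φ : Addr → α)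
  (H : FG), Match E ρ R N φ → (BallIso E ρ R H ↔ BallIso (ET N) ((0, []) : Addr) R H)

/-- H0: uniqueness of the shape and of the increasing labelling -/
def StmH0 : Prop := ∀ (n : ℕ) (d ρ : Fin n) (f : Fin n → Fin n) (R : ℕ) (N N' : Addr → ℕ)
  (φ φ' : Addr → Fin n), Match (EM d f) ρ R N φ → Inc R N φ → Match (EM d f) ρ R N' φ' →
  Inc R N' φ' → PresR N R = PresR N' R ∧ (∀ a ∈ IntR N R, N a = N' a) ∧ ∀ a ∈ PresR N R, φ a = φ' a

/-- H2: probability that a given labelling matches -/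
def StmH2 : Prop := ∀ (μ : Measure ℝ) [IsProbabilityMeasure μ] [NullSingletonClass μ] (n : ℕ)
  (d : Fin (n + 2)) (R : ℕ) (N : Addr → ℕ) (φ : Addr → Fin (n + 2)), φ (0, []) = 0 →
  Set.InjOn φ (PresR N R) → (∀ a ∈ PresR N R, φ a ≠ d) →
  law μ (n + 2) {c | Match (EM d (F0 c)) 0 R N φ} =
    ENNReal.ofReal ((1 / ((n : ℝ) + 1)) ^ ((PresR N R).ncard - 1) *
      (1 - (((PresR N R).ncard : ℝ) - 1) / ((n : ℝ) + 1)) *
      (1 - ((IntR N R).ncard : ℝ) / ((n : ℝ) + 1)) ^ (n + 1 - (PresR N R).ncard))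

/-- H3: number of increasing labellings -/
def StmH3 : Prop := ∀ (n : ℕ) (d : Fin (n + 2)) (R : ℕ) (N : Addr → ℕ), d ≠ 0 →
  {ψ : PresR N R → Fin (n + 2) | Function.Injective ψ ∧ (∀ a, a.1 = (0, []) → ψ a = 0) ∧
    (∀ a, ψ a ≠ d) ∧ ∀ (a b : PresR N R) (i k k' : ℕ) (u : List ℕ), a.1 = (i, k :: u) →
      b.1 = (i, k' :: u) → k < k' → ψ a < ψ b}.ncard * ∏ᶠ a ∈ IntR N R, (N a).factorial
    = n.descFactorial ((PresR N R).ncard - 1)

/-- H4: limit of the probability of a shape -/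
def StmH4 : Prop := ∀ (μ : Measure ℝ) [IsProbabilityMeasure μ] [NullSingletonClass μ]
  (d : ∀ n : ℕ, Fin (n + 2)), (∀ n, d n ≠ 0) → ∀ (R : ℕ) (N : Addr → ℕ),
  Tendsto (fun n : ℕ => law μ (n + 2) {c | ∃ φ, Match (EM (d n) (F0 c)) 0 R N φ ∧ Inc R N φ ∧
    ∀ a ∈ PresR N R, φ a ≠ d n})
    atTop (𝓝 (∏ᶠ a ∈ IntR N R, ENNReal.ofReal (Real.exp (-1) / (N a).factorial)))

/-- H5: the law of the shape of the limit tree -/
def StmH5 : Prop := ∀ (R : ℕ) (N : Addr → ℕ), (PresR N R).Finite ∧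
  lawT {N' | ∀ a ∈ IntR N R, N' a = N a}
    = ∏ᶠ a ∈ IntR N R, ENNReal.ofReal (Real.exp (-1) / (N a).factorial)

/-- H: local limit of the uniform map -/
def StmH : Prop := ∀ (μ : Measure ℝ) [IsProbabilityMeasure μ] [NullSingletonClass μ]
  (d : ∀ N : ℕ, Fin (N + 2)), (∀ N, d N ≠ 0) → ∀ (R : ℕ) (H : FG),
  Tendsto (fun N : ℕ => law μ (N + 2) {c | BallIso (EM (d N) (F0 c)) 0 R H})
    atTop (𝓝 (lawT {N | BallIso (ET N) ((0, []) : Addr) R H}))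

/-- the full answer, in terms of `law` -/
def StmMain : Prop := ∀ (μ : Measure ℝ) [IsProbabilityMeasure μ] [NullSingletonClass μ]
  (d : ∀ N : ℕ, Fin (N + 2)), (∀ N, d N ≠ 0) →
  ∀ (M : ∀ N : ℕ, Wt (N + 2) → Fin (N + 2) → Fin (N + 2)),
  (∀ N c, IsMinArb c (d N) (M N c)) → ∀ (R : ℕ) (H : FG),
  Tendsto (fun N : ℕ => law μ (N + 2) {c | BallIso (EM (d N) (M N c)) 0 R H})
    atTop (𝓝 (lawT {N | BallIso (ET N) ((0, []) : Addr) R H}))

end
end Pool.Agent.T6.H59.MA
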